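import Pool.Agent.Helper99.MEI.WT5

/-!
# Project MEI (M2), track B: the cost of a face from three families of tables

`wcf_fam`: the cost `WCF` of a face (third columns 0) from one family of tables per corner.
-/

set_option autoImplicit false

namespace Helper99.MEI

open Set Metric MeasureTheory Helper80.CW Helper82.CW Helper14.CW Helper93.MEI Helper78.MEI
open Helper82.M2 Helper14.MEI2 Pool.Agent.Helper52.MEI Pool.Agent.Helper73.MEI Helper41.MEI
open Helper37.MEI Helper60.R8 Helper60.R9 Helper29.MEI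
open Helper60.R7 (U U_pos jj ll T3_pos')
open Helper33.MEI (Dl M3 mt)
open Helper90.R8T (nw)
open Pool.Agent.Helper55.Sx (Sim)
open Pool.Agent.Helper55.Mass (LN LN_nonneg vv vv_nonneg vv_le Id)
open Pool.Agent.Helper55.Apex (nc vt_vv)
open Pool.Agent.Helper55.ApexP (PN alP alP_nonneg alP_zeta alP_le xx_mu mu_bal)
open Pool.Agent.Helper55.Fill (xx rr rr_nonneg xx_nonneg xx_le xx_feas)
open Pool.Agent.Helper73.MEI.SideP (flP flP_nonneg flP_zero flP_pair)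
open Pool.Agent.Helper73.MEI.ArCor
open Pool.Agent.Helper96.Kap (kap kap_nonneg kap_add)
open Pool.Agent.Helper31.SR
open Helper75.MEI2 (mu vt omT omT_nonneg omT_le omT_meas)
open scoped RealInnerProductSpace ENNReal

/-- the family of tables of a corner: members `Q` with the numbers `rs` of their rows, numbers
`P`, types `As` of the loads, value majorants `Vs`, class `[p0, p1]` of the position of the apex,
class `[q0, q1]` of the split of the leak, `n1` loads near the walls, `nl` loads at distance `a`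
from them, `ne` value majorants -/
structure CT (ι : Type*) where
  Q : ι → Cor
  rs : ι → List RN
  P : TP
  As : List LT
  Vs : List VT
  p0 : ℕ
  p1 : ℕ
  q0 : ℕ
  q1 : ℕ
  a : ℕ
  n1 : ℕ
  nl : ℕ
  ne : ℕ

/-- the value majorants are at least `e1 s + S` -/
def vck (e1 : ℕ) (Vs : List VT) : Bool :=
  Vs.all fun W => Nat.ble (6000000000000 * e1) W.k.s && Nat.ble 6000000000000000000 W.k.Sk &&
    Nat.ble (6000000000000 * e1) W.j.s && Nat.ble 6000000000000000000 W.j.Sj &&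
    Nat.ble (6000000000000 * e1) W.l.s && Nat.ble 6000000000000000000 W.l.Sl

/-- the majorants of the dropped apex are at least `1` -/
def drk (As : List LT) : Bool :=
  As.all fun L => Nat.beq L.z 1 || (Nat.ble 1000000 L.e0 && Nat.ble 1000000 L.ex &&
    Nat.ble 1000000 L.ey)

/-- the first `n1` loads carry the residual masses -/
def nrk (n1 : ℕ) (As : List LT) : Bool :=
  (List.range n1).all fun i => Nat.ble 1000000 (As.getD i lt0).nr

/-- **the checks of the tables of a corner**, dropped apex and value majorants free -/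
structure CT.OkG {ι : Type*} (C : CT ι) (A c0 c1 hh : ℕ) : Prop where
  fam : Fam C.Q A c0 c1 (nw C.a C.n1 C.nl) C.ne hh
  tab : ∀ e, tck C.P C.As C.Vs C.q0 C.q1 (C.rs e) (C.Q e) = true
  nls : ∀ e, C.nl ≤ (C.Q e).nl
  n1l : C.n1 ≤ C.nl
  pos : pok C.p0 C.p1 C.As = true

/-- **the checks of the tables of a corner** -/
structure CT.Ok {ι : Type*} (C : CT ι) (A c0 c1 hh e1 : ℕ) : Prop where
  fam : Fam C.Q A c0 c1 (nw C.a C.n1 C.nl) C.ne hh
  tab : ∀ e, tck C.P C.As C.Vs C.q0 C.q1 (C.rs e) (C.Q e) = true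
  nls : ∀ e, C.nl ≤ (C.Q e).nl
  n1l : C.n1 ≤ C.nl
  pos : pok C.p0 C.p1 C.As = true
  val : vck e1 C.Vs = true
  drp : drk C.As = true

theorem CT.Ok.g {ι : Type*} {C : CT ι} {A c0 c1 hh e1 : ℕ} (h : C.Ok A c0 c1 hh e1) :
    C.OkG A c0 c1 hh := ⟨h.fam, h.tab, h.nls, h.n1l, h.pos⟩

theorem vck_iff {e1 : ℕ} {Vs : List VT} (h : vck e1 Vs = true) {W : VT} (hW : W ∈ Vs)
    {S : Fin 4 → ℝ} (hS : ∀ i, 0 ≤ S i) {τ : Equiv.Perm (Fin 4)} {N : Fin 3 → Fin 3 → ℝ}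
    (hN : ∀ k, 0 ≤ nc N k) {k : Fin 3} {b te pe : ℝ} (hb : 0 ≤ b) (hte : 0 ≤ te)
    (hpe : 0 ≤ pe) :
    qq e1 * S (τ 0) + S (τ k.succ) ≤ W.k.ev (stc S τ N k b te pe) ∧
    qq e1 * S (τ 0) + S (τ (jj k).succ) ≤ W.j.ev (stc S τ N k b te pe) ∧
    qq e1 * S (τ 0) + S (τ (ll k).succ) ≤ W.l.ev (stc S τ N k b te pe) := by
  unfold vck at h
  simp only [List.all_eq_true, Bool.and_eq_true, Nat.ble_eq] at h
  obtain ⟨⟨⟨⟨⟨h1, h2⟩, h3⟩, h4⟩, h5⟩, h6⟩ := h W hW
  have gen : ∀ F : AF, 6000000000000 * e1 ≤ F.s → ∀ y : ℝ, 0 ≤ y →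
      (6000000000000000000 * y ≤ F.Sk * S (τ k.succ) + F.Sj * S (τ (jj k).succ)
        + F.Sl * S (τ (ll k).succ)) →
      qq e1 * S (τ 0) + y ≤ F.ev (stc S τ N k b te pe) := by
    intro F hF y _ hy2
    have hF' : (6000000000000 : ℝ) * e1 ≤ F.s := by exact_mod_cast hF
    have a1 := mul_le_mul_of_nonneg_right hF' (hS (τ 0))
    have a2 := mul_nonneg (Nat.cast_nonneg (α := ℝ) F.k) (hN k)
    have a3 := mul_nonneg (Nat.cast_nonneg (α := ℝ) F.j) (hN (jj k))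
    have a4 := mul_nonneg (Nat.cast_nonneg (α := ℝ) F.l) (hN (ll k))
    have a5 := mul_nonneg (Nat.cast_nonneg (α := ℝ) F.b) hb
    have a6 := mul_nonneg (Nat.cast_nonneg (α := ℝ) F.t) hte
    have a7 := mul_nonneg (Nat.cast_nonneg (α := ℝ) F.p) hpe
    have a8 := Nat.cast_nonneg (α := ℝ) F.c0
    unfold AF.ev stc
    dsimp only
    rw [le_div_iff₀ (by norm_num)]
    have e : qq e1 * S (τ 0) * 6000000000000000000 = 6000000000000 * (e1 : ℝ) * S (τ 0) := by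
      unfold qq
      ring
    linarith
  have s1 := hS (τ k.succ)
  have s2 := hS (τ (jj k).succ)
  have s3 := hS (τ (ll k).succ)
  refine ⟨gen _ h1 _ s1 ?_, gen _ h3 _ s2 ?_, gen _ h5 _ s3 ?_⟩
  · have h2' : (6000000000000000000 : ℝ) ≤ W.k.Sk := by exact_mod_cast h2
    have b1 := mul_le_mul_of_nonneg_right h2' s1
    have b2 := mul_nonneg (Nat.cast_nonneg (α := ℝ) W.k.Sj) s2
    have b3 := mul_nonneg (Nat.cast_nonneg (α := ℝ) W.k.Sl) s3
    linarith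
  · have h2' : (6000000000000000000 : ℝ) ≤ W.j.Sj := by exact_mod_cast h4
    have b1 := mul_le_mul_of_nonneg_right h2' s2
    have b2 := mul_nonneg (Nat.cast_nonneg (α := ℝ) W.j.Sk) s1
    have b3 := mul_nonneg (Nat.cast_nonneg (α := ℝ) W.j.Sl) s3
    linarith
  · have h2' : (6000000000000000000 : ℝ) ≤ W.l.Sl := by exact_mod_cast h6
    have b1 := mul_le_mul_of_nonneg_right h2' s3
    have b2 := mul_nonneg (Nat.cast_nonneg (α := ℝ) W.l.Sk) s1
    have b3 := mul_nonneg (Nat.cast_nonneg (α := ℝ) W.l.Sj) s2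
    linarith

theorem nw_cases {a n1 n x0 y0 li : ℕ} (h : li < nw a n1 n x0 y0) :
    li < n1 ∨ (li < n ∧ a ≤ x0 ∧ a ≤ y0) := by
  unfold nw at h
  rcases hb : (Nat.blt x0 a || Nat.blt y0 a) with _ | _
  · rw [hb] at h
    right
    simp only [Bool.or_eq_false_iff] at hb
    refine ⟨h, ?_, ?_⟩
    · by_contra hc
      push Not at hc
      have h2 : Nat.blt x0 a = true := by
        rw [Nat.blt_eq]
        exact hc
      rw [h2] at hb
      exact absurd hb.1 (by decide)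
    · by_contra hc
      push Not at hc
      have h2 : Nat.blt y0 a = true := by
        rw [Nat.blt_eq]
        exact hc
      rw [h2] at hb
      exact absurd hb.2 (by decide)
  · rw [hb] at h
    left
    exact h

section body
variable {a : Fin 4 → E3} {σ : Measure (E3 × E3)} {K : Set E3} {S : Fin 4 → ℝ}
  {c : Fin 4 → E3} {z : Fin 4 → Fin 4 → E3} {l : Fin 3 → Bool → Bool → E3 × E3 → ℝ}

/-- the numbers of the body at a face -/
structure FN (σ : Measure (E3 × E3)) (a : Fin 4 → E3) (l : Fin 3 → Bool → Bool → E3 × E3 → ℝ)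
    (S : Fin 4 → ℝ) (τ : Equiv.Perm (Fin 4)) (x : E3) (N : Fin 3 → Fin 3 → ℝ)
    (R : Fin 3 → ℝ) (e1 : ℝ) : Prop where
  s0 : 0 ≤ S (τ 0)
  R0 : ∀ k, 0 ≤ R k
  R1 : ∀ k, R k ≤ S (τ 0) * (1 + nc N k)
  Re : ∀ k, R k ≤ e1 * S (τ 0)
  xs : Qv a (τ 0) x = S (τ 0) ∨ (S (τ 0) = 0 ∧ ∀ k, R k = 0)
  z1 : S (τ 0) ≤ S (τ 0) * (zc (fun i => a (τ i)) N x 0 * (1 + nc N 0)
    + zc (fun i => a (τ i)) N x 1 * (1 + nc N 1) + zc (fun i => a (τ i)) N x 2 * (1 + nc N 2))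
  E : ∀ p, aE σ a l (τ 0) (τ p.succ) ≤
    S (τ 0) * (MB σ a l τ p 0 + MB σ a l τ p 1 + MB σ a l τ p 2)

/-- **the numbers of the body at a face**, third columns 0 -/
theorem fn_face [IsFiniteMeasure σ] (h : CN K σ a c) (v : Viol K a S) (hz : CV a K z)
    (τ : Equiv.Perm (Fin 4)) (hl : Lok a l) (hδ : ∀ p, MA σ a l τ p p ≤ 0)
    {x : E3} (hx : x ∈ K) (hxs : Qv a (τ 0) x = S (τ 0) ∨ S (τ 0) = 0)
    {N : Fin 3 → Fin 3 → ℝ} (hNd : N = NM (fun i => a (τ i)) (fun i j => z (τ i) (τ j)))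
    {tt : Fin 3 → ℝ} (htt : ∀ k, nc N k ≤ tt k) {cN : ℝ} (hcN : ∀ k, nc N k ≤ cN) {e1 : ℝ}
    (he : 1 + cN / 2 ≤ e1) : FN σ a l S τ x N (Rv tt N) e1 := by
  have h' := h.perm τ
  have v' := viol_perm v τ
  have hz' := hz.perm τ
  have hN : ∀ k m, 0 ≤ N k m := fun k m => by
    rw [hNd]
    exact NM_nonneg h' v' hz' k m
  have hd : ∀ k, N k k = 0 := fun k => by
    rw [hNd]
    exact NM_diag k
  have hcol : ∀ m, nc N m ≤ 9 / 10 := fun m => by
    rw [hNd]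
    exact nc_le h' v' hz' m
  have hc : (9 / 10 : ℝ) < 1 := by norm_num
  have hgr := gram_of_dist h'.ha
  have s0 : 0 ≤ S (τ 0) := v.nn _
  have nn : ∀ m, 0 ≤ nc N m := fun m => Pool.Agent.Helper73.MEI.SideP.nc_nonneg hN m
  have hdq0 : ∀ k, 0 ≤ dq (N (k + 1) k) (N (k + 2) k) := fun k => by
    unfold dq
    nlinarith [sq_nonneg (N (k + 1) k - N (k + 2) k), sq_nonneg (N (k + 1) k + N (k + 2) k),
      mul_nonneg (hN (k + 1) k) (hN (k + 2) k)]
  have htp : ∀ k, 0 < 1 + tt k / 2 := fun k => by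
    have h1 := htt k
    have h2 := nn k
    linarith
  have R0 : ∀ k, 0 ≤ Rv tt N k := fun k => div_nonneg (hdq0 k) (htp k).le
  -- the node values against the level
  have R1 : ∀ k, Rv tt N k ≤ (1 + nc N k / 2) * S (τ 0) := by
    intro k
    have h1 := (dom_VF h v hz τ hNd (tt := fun k => nc N k) (fun _ => le_rfl) k).2.1
    have h2 : 0 < 1 + nc N k / 2 := by
      have := nn k
      linarith
    rw [div_le_iff₀ (by positivity)] at h1
    have h3 : Rv tt N k ≤ dq (N (k + 1) k) (N (k + 2) k) / (1 + nc N k / 2) := by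
      unfold Rv
      refine div_le_div_of_nonneg_left (hdq0 k) h2 ?_
      have := htt k
      linarith
    refine h3.trans ?_
    rw [div_le_iff₀ h2]
    linarith
  have Rz : S (τ 0) = 0 → ∀ k, Rv tt N k = 0 := by
    intro h0 k
    have := R1 k
    rw [h0, mul_zero] at this
    exact le_antisymm this (R0 k)
  refine ⟨s0, R0, fun k => ?_, fun k => ?_, ?_, ?_, fun p => ?_⟩
  · have := R1 k
    have := mul_nonneg s0 (nn k)
    linarith
  · refine (R1 k).trans (mul_le_mul_of_nonneg_right ?_ s0)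
    have := hcN k
    linarith
  · rcases hxs with h0 | h0
    · exact Or.inl h0
    · exact Or.inr ⟨h0, Rz h0⟩
  · rcases hxs with h0 | h0
    · have hQ : Qv (fun i => a (τ i)) 0 x = S (τ 0) := h0
      have hb := Helper41.VMaj.b3_ge hgr (h'.hp x hx) (by rw [hQ]; exact s0)
      have hbal : ∀ k, b3 (fun i => a (τ i)) x k = zc (fun i => a (τ i)) N x k +
          LN N (zc (fun i => a (τ i)) N x) k := fun k => by
        unfold zc
        exact (mu_bal hN hd hc hcol _ k).symm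
      have e : b3 (fun i => a (τ i)) x 0 + b3 (fun i => a (τ i)) x 1
          + b3 (fun i => a (τ i)) x 2 = zc (fun i => a (τ i)) N x 0 * (1 + nc N 0)
        + zc (fun i => a (τ i)) N x 1 * (1 + nc N 1)
        + zc (fun i => a (τ i)) N x 2 * (1 + nc N 2) := by
        rw [hbal, hbal, hbal]
        unfold LN nc
        ring
      rw [e] at hb
      have := mul_le_mul_of_nonneg_left hb s0
      linarith
    · rw [h0]
      simp
  · have hne : τ 0 ≠ τ p.succ := fun hh => (Fin.succ_ne_zero p) (τ.injective hh).symm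
    have h2 := aE_le (σ := σ) h.ha hl h.cpt h.pm.mem h.hp hne (S := S (τ 0)) (v.le (τ 0))
    have h3 := Helper41.VMaj.am_le_MA (σ := σ) h.ha hl h.cpt h.pm.mem h.hp τ p
    have h4 := mul_le_mul_of_nonneg_left h3 s0
    have hMB : MA σ a l τ p 0 + MA σ a l τ p 1 + MA σ a l τ p 2 ≤
        MB σ a l τ p 0 + MB σ a l τ p 1 + MB σ a l τ p 2 := by
      have d0 := hδ p
      have key : ∀ k, MA σ a l τ p k ≤ MB σ a l τ p k := by
        intro k
        unfold MB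
        split_ifs with e
        · rw [e]
          exact d0
        · exact le_rfl
      linarith [key 0, key 1, key 2]
    have h5 := mul_le_mul_of_nonneg_left hMB s0
    linarith

/-- the numbers of a corner of the body against its tables -/
structure CN1 {ι : Type*} [Fintype ι] (C : CT ι) (a : Fin 4 → E3) (S : Fin 4 → ℝ)
    (τ : Equiv.Perm (Fin 4)) (x : E3) (N : Fin 3 → Fin 3 → ℝ) (β : Fin 3 → ℝ)
    (φ ω cN V : ℝ) (wt : ι → ℝ) (μ : ι → ℕ → ℝ) (k : Fin 3) (b te pe : ℝ) : Prop where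
  p0 : qq C.p0 ≤ prt (b3 (fun i => a (τ i)) x (jj k)) (b3 (fun i => a (τ i)) x (ll k))
  p1 : prt (b3 (fun i => a (τ i)) x (jj k)) (b3 (fun i => a (τ i)) x (ll k)) ≤ qq C.p1
  q0 : qq C.q0 * nc N k ≤ N (jj k) k
  q1 : N (jj k) k ≤ qq C.q1 * nc N k
  b0 : 0 ≤ b
  nb : NB C.P β φ (1 - φ) ω 0 cN (2 * S (τ 0)) (2 * S (τ 0)) V (S (τ 0))
    (bet (Zd (2 / 3 * cN) (-bar (fun i => a (τ i)) 0 x) (b3 (fun i => a (τ i)) x))
      (b3 (fun i => a (τ i)) x (jj k)) (b3 (fun i => a (τ i)) x (ll k)))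
    (nc N 0 + nc N 1 + nc N 2) b te pe
  te0 : 0 ≤ te
  pe0 : 0 ≤ pe
  w0 : ∀ e, 0 ≤ wt e
  w1 : ∑ e, wt e = 1
  st : (stc S τ N k b te pe).Le (fm wt fun e => mr (C.Q e).rows.length (μ e) (C.rs e))
  row : ∀ e, RowB (C.Q e) (μ e) (S (τ k.succ)) (S (τ (jj k).succ)) (S (τ (ll k).succ)) (S (τ 0))
  bt1 : bet (Zd (2 / 3 * cN) (-bar (fun i => a (τ i)) 0 x) (b3 (fun i => a (τ i)) x))
      (b3 (fun i => a (τ i)) x (jj k)) (b3 (fun i => a (τ i)) x (ll k)) ≤ 1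
  res : (∀ p, β p = 0) ∨ (nrk C.n1 C.As = true ∧ ∃ m, (nc N k ≤ m ∧
    nc N k + nc N (jj k) ≤ 2 * m ∧ nc N k + nc N (ll k) ≤ 2 * m) ∧ m * (1 - qq C.a) ≤ qq C.a)

/-- smaller weight of the apex -/
theorem NB.le {P : TP} {β : Fin 3 → ℝ} {φ lam lam' ω η cN g g1 V r bt T b te pe : ℝ}
    (h : NB P β φ lam ω η cN g g1 V r bt T b te pe) (hl : lam' ≤ lam) (hbt : 0 ≤ bt)
    (hr : 0 ≤ r) : NB P β φ lam' ω η cN g g1 V r bt T b te pe := by
  refine ⟨h.c, h.d, h.rc, ?_, ?_, h.ce, h.re, h.V6⟩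
  · have := h.hl
    have h2 := mul_le_mul_of_nonneg_right (show lam' / 2 ≤ lam / 2 by linarith) hbt
    linarith
  · have := h.lr
    have h2 := mul_le_mul_of_nonneg_right hl hr
    linarith

theorem jl_cases {k j : Fin 3} (h : j ≠ k) : j = jj k ∨ j = ll k := by
  revert k j
  decide

theorem drk_iff {As : List LT} (h : drk As = true) {L : LT} (hL : L ∈ As) (hz : L.z = 0) :
    1000000 ≤ L.e0 ∧ 1000000 ≤ L.ex ∧ 1000000 ≤ L.ey := by
  unfold drk at h
  simp only [List.all_eq_true, Bool.or_eq_true, Bool.and_eq_true, Nat.ble_eq,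
    Nat.beq_eq] at h
  rcases h L hL with h1 | h1
  · rw [hz] at h1
    exact absurd h1 (by decide)
  · exact ⟨h1.1.1, h1.1.2, h1.2⟩

theorem nrk_iff {n1 : ℕ} {As : List LT} (h : nrk n1 As = true) {i : ℕ} (hi : i < n1) :
    1000000 ≤ (As.getD i lt0).nr := by
  unfold nrk at h
  simp only [List.all_eq_true, List.mem_range, Nat.ble_eq] at h
  exact h i hi

theorem qq_ge_one {n : ℕ} (h : 1000000 ≤ n) : 1 ≤ qq n := by
  unfold qq
  rw [le_div_iff₀ (by norm_num), one_mul]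
  exact_mod_cast h

/-- **the value at a face is at most `e1 S₀`**, `e1 ≥ 1 + n / 2` -/
theorem val_S [IsFiniteMeasure σ] (h : CN K σ a c)
    (v : Viol K a S) (hz : CV a K z) (τ : Equiv.Perm (Fin 4)) (hl : Lok a l)
    (hδ : ∀ p, MA σ a l τ p p ≤ 0) {ρ β : Fin 3 → ℝ} (hρ : ∀ p, 0 < ρ p)
    (hMρ : ∀ p k, k ≠ p → MA σ a l τ p k ≤ ρ p)
    {x : E3} (hx : x ∈ K) (hxs : Qv a (τ 0) x = S (τ 0) ∨ S (τ 0) = 0)
    {N : Fin 3 → Fin 3 → ℝ} (hNd : N = NM (fun i => a (τ i)) (fun i j => z (τ i) (τ j)))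
    {tt : Fin 3 → ℝ} (htt : ∀ k, nc N k ≤ tt k) {A' : ℝ} (hA' : 0 < A')
    {φ : ℝ} (hφ : 0 < φ) (hβ0 : ∀ p, 0 ≤ β p) (hβ1 : ∀ p, β p ≤ 1)
    (hK : ∀ p, β p * ρ p ≤ A' * Id (fun t => kap N (vv t) p))
    (hF : ∀ p, (1 - β p) * ρ p ≤ φ * (A' * Id (flP (PN N) p)))
    {cN : ℝ} (hcN : ∀ m, nc N m ≤ cN) {e1 : ℝ} (he1 : 1 + cN / 2 ≤ e1)
    {ζp : Fin 3 → ℝ} (z1 : ∀ k, 0 < ζp k) (z2 : ∀ k, zc (fun i => a (τ i)) N x k ≤ ζp k)
    {lam : ℝ} (l1 : 0 ≤ lam) (l2 : lam ≤ 1 - φ) {t : ℝ × ℝ} (ht : t ∈ Dl) :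
    GM A' N (zc (fun i => a (τ i)) N x) ζp lam
      (fun p t => φ * flP (PN N) p t) (fun p t => kap N (vv t) p) β (MB σ a l τ)
      (fun p => aE σ a l (τ 0) (τ p.succ) - (fun _ => (0 : ℝ)) p) (Rv tt N)
      (fun k => S (τ k.succ)) (S (τ 0)) t ≤ e1 * S (τ 0) := by
  have h' := h.perm τ
  have v' := viol_perm v τ
  have hz' := hz.perm τ
  have hN : ∀ k m, 0 ≤ N k m := fun k m => by
    rw [hNd]
    exact NM_nonneg h' v' hz' k m
  have nn : ∀ m, 0 ≤ nc N m := fun m => Pool.Agent.Helper73.MEI.SideP.nc_nonneg hN m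
  have F := fn_face h v hz τ hl hδ hx hxs hNd htt hcN he1
  have s0 := F.s0
  have cN0 : 0 ≤ cN := (nn 0).trans (hcN 0)
  have e1' : (1 : ℝ) ≤ e1 := by linarith
  have es : S (τ 0) ≤ e1 * S (τ 0) := by
    have := mul_le_mul_of_nonneg_right e1' s0
    linarith
  refine val_uni h v hz τ hA' hρ hMρ hNd z1 z2 hφ l1 l2 hβ0 hβ1 hK hF
    (mul_nonneg (by linarith) s0) (fun k => F.Re k) ?_ (fun p => ?_) (Dl_Sim ht)
  · have k1 := F.z1
    have k2 : 0 ≤ S (τ 0) * (zc (fun i => a (τ i)) N x 0 * (1 + nc N 0)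
        + zc (fun i => a (τ i)) N x 1 * (1 + nc N 1)
        + zc (fun i => a (τ i)) N x 2 * (1 + nc N 2)) := s0.trans k1
    have k3 := mul_le_mul_of_nonneg_right e1' k2
    linarith
  · have m0 := MB_nonneg (σ := σ) (a := a) (l := l) τ p 0
    have m1 := MB_nonneg (σ := σ) (a := a) (l := l) τ p 1
    have m2 := MB_nonneg (σ := σ) (a := a) (l := l) τ p 2
    have k1 := F.E p
    have k2 := mul_le_mul_of_nonneg_right es (show 0 ≤ MB σ a l τ p 0 + MB σ a l τ p 1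
      + MB σ a l τ p 2 by linarith)
    show aE σ a l (τ 0) (τ p.succ) - 0 ≤ _
    linarith

/-- **THE COST OF A FACE FROM THREE FAMILIES OF TABLES**, third columns 0, premises `hal`, `hval` on
the dropped apex and the value majorants -/
theorem wcf_gen {ι : Type*} [Fintype ι] [IsFiniteMeasure σ] (h : CN K σ a c)
    (v : Viol K a S) (hz : CV a K z) (τ : Equiv.Perm (Fin 4)) (hl : Lok a l)
    (hδ : ∀ p, MA σ a l τ p p ≤ 0) {ρ β : Fin 3 → ℝ} (hρ : ∀ p, 0 < ρ p)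
    (hMρ : ∀ p k, k ≠ p → MA σ a l τ p k ≤ ρ p)
    {x : E3} (hx : x ∈ K) (hxs : Qv a (τ 0) x = S (τ 0) ∨ S (τ 0) = 0)
    {N : Fin 3 → Fin 3 → ℝ} (hNd : N = NM (fun i => a (τ i)) (fun i j => z (τ i) (τ j)))
    {tt : Fin 3 → ℝ} (htt : ∀ k, nc N k ≤ tt k)
    {A : ℕ} {A' : ℝ} (hA : (A : ℝ) / U = A') (hA' : 0 < A')
    {φ : ℝ} (hφ : 0 < φ) (hφ1 : φ ≤ 1) (hβ0 : ∀ p, 0 ≤ β p) (hβ1 : ∀ p, β p ≤ 1)
    (hK : ∀ p, β p * ρ p ≤ A' * Id (fun t => kap N (vv t) p))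
    (hF : ∀ p, (1 - β p) * ρ p ≤ φ * (A' * Id (flP (PN N) p)))
    {cN : ℝ} (hcN : ∀ m, nc N m ≤ cN) (hcN1 : cN ≤ 1 / 2)
    {s χ ω : ℝ} (hS : ∀ i, S i ≤ s) (hχ0 : 0 ≤ χ) (hχ : 3 / 2 + 2 * s ≤ χ ^ 2)
    (hω0 : 0 ≤ ω) (hω : (1 - ω) * χ ≤ 1) {V : ℝ} (hV : ∀ k : Fin 3, S (τ k.succ) ≤ V)
    {C : Fin 3 → CT ι} {c0 c1 hh : ℕ} (hC : ∀ k, (C k).OkG A c0 c1 hh)
    {wt : Fin 3 → ι → ℝ} {μ : Fin 3 → ι → ℕ → ℝ}
    {b te pe : Fin 3 → ℝ}
    (hk : ∀ k, CN1 (C k) a S τ x N β φ ω cN V (wt k) (μ k) k (b k) (te k) (pe k))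
    (hal : ∀ k, ∀ ζp : Fin 3 → ℝ, (∀ k, 0 < ζp k) →
      (∀ k, zc (fun i => a (τ i)) N x k ≤ ζp k) → ∀ t ∈ Dl, T3 t (jj k) ≤ T3 t k →
      T3 t (ll k) ≤ T3 t k → ∀ L ∈ (C k).As, L.z = 0 →
      alP N ζp t * (S (τ 0) - (zc (fun i => a (τ i)) N x 0 * Rv tt N 0
        + zc (fun i => a (τ i)) N x 1 * Rv tt N 1 + zc (fun i => a (τ i)) N x 2 * Rv tt N 2)) ≤
        S (τ 0) * (qq L.e0 * T3 t k + qq L.ex * T3 t (jj k) + qq L.ey * T3 t (ll k)))
    (hval : ∀ k, ∀ ζp : Fin 3 → ℝ, (∀ k, 0 < ζp k) →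
      (∀ k, zc (fun i => a (τ i)) N x k ≤ ζp k) → ∀ lam, 0 ≤ lam → lam ≤ 1 - φ → ∀ t ∈ Dl,
      T3 t (jj k) ≤ T3 t k → T3 t (ll k) ≤ T3 t k → ∀ W ∈ (C k).Vs,
      GM A' N (zc (fun i => a (τ i)) N x) ζp lam (fun p t => φ * flP (PN N) p t)
        (fun p t => kap N (vv t) p) β (MB σ a l τ)
        (fun p => aE σ a l (τ 0) (τ p.succ) - (fun _ => (0 : ℝ)) p) (Rv tt N)
        (fun k => S (τ k.succ)) (S (τ 0)) t ≤
      -(T3 t 0 * S (τ 1) + T3 t 1 * S (τ 2) + T3 t 2 * S (τ 3))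
        + (W.k.ev (stc S τ N k (b k) (te k) (pe k)) * T3 t k
          + W.j.ev (stc S τ N k (b k) (te k) (pe k)) * T3 t (jj k)
          + W.l.ev (stc S τ N k (b k) (te k) (pe k)) * T3 t (ll k)))
    {Sm d0 d1 : ℝ} (hI : IsC Sm d0 d1) (hSm : ∀ k, S k ≤ Sm) (hd1 : 0 ≤ d1)
    (hd3 : 3 * d1 * (1 + S (τ 0)) ≤ d0) (hc0 : (c0 : ℝ) / U ≤ d0) (hc1 : d1 ≤ (c1 : ℝ) / U)
    {X y M dj : ℝ} (hX : S (τ 0) + (S (τ 1) + S (τ 2) + S (τ 3)) ≤ X) (hX1 : X ≤ 1 / 10)
    (hh1 : (hh : ℝ) / U ≤ 1 / 100) (hj1 : 2 / 3 ≤ dj)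
    (hj2 : 2 / 3 * cN + φ * (2 * ω + 2 / 3 * cN) ≤ dj) (hj3 : 2 * ω ≤ dj) (hj4 : dj ≤ 2)
    (hy : 0.2823 + A' * ((1 / 2 + dj) * (2 * ((hh : ℝ) / U)) + 1.134 * X) ≤ y)
    (hM : 0 ≤ M) (hMh : 1 ≤ M ^ 2 * (1 - 2 * ((hh : ℝ) / U)) ^ 3)
    {cst : ℝ} (hcst : (√2)⁻¹ * ((∑ e, wt 0 e * ((C 0).Q e).W (μ 0 e))
      + (∑ e, wt 1 e * ((C 1).Q e).W (μ 1 e)) + (∑ e, wt 2 e * ((C 2).Q e).W (μ 2 e)))
      + 17 * ((hh : ℝ) / U) ^ 2 * M * y ≤ cst) :
    WCF A' σ a K l τ z S x N (Rv tt N) φ β (fun _ => 0) (fun _ => 0) cst := by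
  intro ζp z1 z2 lam l1 l2
  have h' := h.perm τ
  have v' := viol_perm v τ
  have hz' := hz.perm τ
  have hN : ∀ k m, 0 ≤ N k m := fun k m => by
    rw [hNd]
    exact NM_nonneg h' v' hz' k m
  have hd : ∀ k, N k k = 0 := fun k => by
    rw [hNd]
    exact NM_diag k
  have hcol : ∀ m, nc N m ≤ 9 / 10 := fun m => by
    rw [hNd]
    exact nc_le h' v' hz' m
  have hc : (9 / 10 : ℝ) < 1 := by norm_num
  have nn : ∀ m, 0 ≤ nc N m := fun m => Pool.Agent.Helper73.MEI.SideP.nc_nonneg hN m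
  have F := fn_face h v hz τ hl hδ hx hxs hNd htt hcN (e1 := 1 + cN / 2) le_rfl
  have s0 := F.s0
  have cN0 : 0 ≤ cN := (nn 0).trans (hcN 0)
  have hV0 : 0 ≤ V := (v.nn _).trans (hV 0)
  have hRd : ∀ k, Rv tt N k ≤ RM (fun i => a (τ i)) (fun i j => z (τ i) (τ j)) k := fun k =>
    (dom_VF h v hz τ hNd htt k).1
  have hU := U_pos
  have hh0 : 0 ≤ (hh : ℝ) / U := by positivity
  have hX0 : 0 ≤ X := by
    have := v.nn (τ 0)
    have := v.nn (τ 1)
    have := v.nn (τ 2)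
    have := v.nn (τ 3)
    linarith
  have hMB : ∀ p, MB σ a l τ p 0 + MB σ a l τ p 1 + MB σ a l τ p 2 ≤ 2 * ρ p := by
    intro p
    have key : ∀ k, MB σ a l τ p k ≤ if k = p then 0 else ρ p := by
      intro k
      unfold MB
      split_ifs with e
      · exact le_rfl
      · exact hMρ p k e
    have k0 := key 0
    have k1 := key 1
    have k2 := key 2
    fin_cases p
    · simp only [Fin.zero_eta, if_true, Fin.one_eq_zero_iff, OfNat.ofNat_ne_one, if_false,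
        Fin.reduceEq] at k0 k1 k2 ⊢
      linarith
    · simp only [Fin.mk_one, if_true, if_false, Fin.reduceEq, zero_ne_one] at k0 k1 k2 ⊢
      linarith
    · simp only [Fin.reduceFinMk, if_true, if_false, Fin.reduceEq] at k0 k1 k2 ⊢
      linarith
  have hE : ∀ p, aE σ a l (τ 0) (τ p.succ) - (fun _ => (0 : ℝ)) p ≤ 2 * S (τ 0) * ρ p := by
    intro p
    have h1 := F.E p
    have h2 := mul_le_mul_of_nonneg_left (hMB p) s0
    show aE σ a l (τ 0) (τ p.succ) - 0 ≤ 2 * S (τ 0) * ρ p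
    linarith
  have hE1 : ∀ p, (aE σ a l (τ 0) (τ p.succ) - (fun _ => (0 : ℝ)) p)
      - (MB σ a l τ p 0 * Rv tt N 0 + MB σ a l τ p 1 * Rv tt N 1
        + MB σ a l τ p 2 * Rv tt N 2) ≤ 2 * S (τ 0) * ρ p := by
    intro p
    have h1 := hE p
    have m0 := mul_nonneg (MB_nonneg (σ := σ) (a := a) (l := l) τ p 0) (F.R0 0)
    have m1 := mul_nonneg (MB_nonneg (σ := σ) (a := a) (l := l) τ p 1) (F.R0 1)
    have m2 := mul_nonneg (MB_nonneg (σ := σ) (a := a) (l := l) τ p 2) (F.R0 2)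
    linarith
  have hy0 : 0 ≤ y := by
    have : 0 ≤ A' * ((1 / 2 + dj) * (2 * ((hh : ℝ) / U)) + 1.134 * X) := by
      have : 0 ≤ 1 / 2 + dj := by linarith
      positivity
    linarith
  have W := wcost_fam h v τ hI hSm hd1 hd3 hc0 hc1
    (G := GM A' N (zc (fun i => a (τ i)) N x) ζp lam (fun p t => φ * flP (PN N) p t)
      (fun p t => kap N (vv t) p) β (MB σ a l τ)
      (fun p => aE σ a l (τ 0) (τ p.succ) - (fun _ => (0 : ℝ)) p) (Rv tt N)
      (fun k => S (τ k.succ)) (S (τ 0)))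
    (D := DM A' N (zc (fun i => a (τ i)) N x) ζp lam (fun p t => φ * flP (PN N) p t)
      (fun p t => kap N (vv t) p) β (MB σ a l τ)
      (fun j => 1 / qM (fun i => a (τ i)) (fun i j => z (τ i) (τ j)) j)
      (fun p => Pool.Agent.Helper31.SR.am σ a l (τ 0) (τ p.succ) - (fun _ => (0 : ℝ)) p))
    (Q := fun k => (C k).Q) (n := fun k => (C k).ne) (hh := fun _ => hh)
    (nf := fun k => nw (C k).a (C k).n1 (C k).nl) (fun k => (hC k).fam) (wt := wt)
    (fun k => (hk k).w0) (fun k => (hk k).w1) (lam := μ) (fun k e => (hk k).row e)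
    ?_ (omT := omT y (4 * ((hh : ℝ) / U)) (4 * ((hh : ℝ) / U)) (4 * ((hh : ℝ) / U))
      ((hh : ℝ) / U)) (CT := 6 * y) (cT := 17 * ((hh : ℝ) / U) ^ 2 * M * y)
    (omT_meas _ _ _ _ _).aestronglyMeasurable
    (fun t _ => omT_nonneg hy0 (by linarith) (by linarith) (by linarith) _ t)
    (fun t _ => omT_le hy0 _ _ _ _ t)
    (omTB_int hy0 hh0 (by linarith) hM hMh) ?_
  · rw [hA] at W
    exact W.mono hcst
  · -- the loads
    intro k t ht hk1 hk2 htp q hq hG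
    have Hk := hk k
    have Ck := hC k
    have x0 : 0 ≤ T3 t (jj k) := (T3_pos' ht _).le
    have y0 : 0 ≤ T3 t (ll k) := (T3_pos' ht _).le
    have z0 : 0 ≤ T3 t k := (T3_pos' ht _).le
    have hsum := jl_sum k (T3 t)
    have hsum1 : T3 t 0 + T3 t 1 + T3 t 2 = 1 := T3_sum t
    have htS := Dl_Sim ht
    have hbt : 0 ≤ bet (Zd (2 / 3 * cN) (-bar (fun i => a (τ i)) 0 x)
      (b3 (fun i => a (τ i)) x)) (b3 (fun i => a (τ i)) x (jj k))
      (b3 (fun i => a (τ i)) x (ll k)) := bet_nonneg _ _ _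
    refine loads_fam h v hz τ hA' hl (δ := fun _ => 0) (dE := fun _ => 0) (dm := fun _ => 0) hδ
      (fun _ => le_rfl) (fun _ => le_rfl) (fun _ => by norm_num) hρ hMρ hx hNd hRd F.xs rfl z1
      z2 hφ l1 l2 hβ0 hβ1 hK hF hcN hcN1 hS hχ0 hχ hω0 hω (η := 0) le_rfl
      (fun p => by simp) hE (by linarith) (by linarith) hE1 hV0 hV k Hk.p0 Hk.p1 Hk.q0 Hk.q1
      (Hk.nb.le l2 hbt s0) (As := (C k).As) (Vs := (C k).Vs) (rs := (C k).rs) Ck.tab Ck.pos
      Hk.w0 Hk.w1 (fun e i => (Hk.row e).h0 i) (fun e => (Hk.row e).h1) Hk.st ht ?_ ?_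
      Ck.fam.ne ?_ hq
    · exact fun L hL hz0 => hal k ζp z1 z2 t ht hk1 hk2 L hL hz0
    · intro a0 b0 ha0 hb0 li hli
      rcases nw_cases hli with hc1 | ⟨hc1, hc2, hc3⟩
      · refine ⟨fun e => lt_of_lt_of_le (lt_of_lt_of_le hc1 Ck.n1l) (Ck.nls e), ?_⟩
        rcases Hk.res with hr | ⟨hr, -⟩
        · exact Or.inl hr
        · right
          have g1 := qq_ge_one (nrk_iff hr hc1)
          have key : ∀ m, rr N (vv t) m ≤ T3 t m := fun m => by
            have x1 := xx_nonneg hN hc hcol (fun k => vv_nonneg htS k) m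
            have x2 := LN_nonneg hN (xx_nonneg hN hc hcol (fun k => vv_nonneg htS k)) m
            have x3 : vv t m = T3 t m := (T3_vv t m).symm
            unfold rr
            linarith
          have b2 := mul_le_mul_of_nonneg_right g1 x0
          have b3 := mul_le_mul_of_nonneg_right g1 y0
          constructor
          · linarith [key (jj k)]
          · linarith [key (ll k)]
      · refine ⟨fun e => lt_of_lt_of_le hc1 (Ck.nls e), ?_⟩
        rcases Hk.res with hr | ⟨-, m, ⟨m1, m2, m3⟩, m4⟩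
        · exact Or.inl hr
        · right
          have ha : qq (C k).a ≤ T3 t (jj k) ∧ qq (C k).a ≤ T3 t (ll k) := by
            rw [qq_U]
            constructor
            · refine le_trans (div_le_div_of_nonneg_right ?_ hU.le) ha0
              exact_mod_cast hc2
            · refine le_trans (div_le_div_of_nonneg_right ?_ hU.le) hb0
              exact_mod_cast hc3
          have hm0 : 0 ≤ m := (nn k).trans m1
          have ev : ∀ m, vv t m = T3 t m := fun m => (T3_vv t m).symm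
          obtain ⟨n1, n2, n3⟩ := jl_ne k
          have eLN : ∀ i : Fin 3, LN N (vv t) i =
              N i k * T3 t k + N i (jj k) * T3 t (jj k) + N i (ll k) * T3 t (ll k) := by
            intro i
            have := jl_sum k (fun m => N i m * T3 t m)
            unfold LN
            rw [ev, ev, ev]
            linarith
          have ent : ∀ i m : Fin 3, N i m ≤ nc N m := by
            intro i m
            have a0 := hN 0 m
            have a1 := hN 1 m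
            have a2 := hN 2 m
            unfold nc
            fin_cases i
            · show N 0 m ≤ N 0 m + N 1 m + N 2 m
              linarith
            · show N 1 m ≤ N 0 m + N 1 m + N 2 m
              linarith
            · show N 2 m ≤ N 0 m + N 1 m + N 2 m
              linarith
          have hkk : LN N (vv t) k ≤ vv t k := by
            rw [eLN, hd k, ev]
            have a1 := (ent k (jj k)).trans (hcN (jj k))
            have a2 := (ent k (ll k)).trans (hcN (ll k))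
            have b1 := mul_le_mul (a1.trans hcN1) hk1 x0 (by norm_num)
            have b2 := mul_le_mul (a2.trans hcN1) hk2 y0 (by norm_num)
            linarith
          have side : ∀ i j' : Fin 3, N i i = 0 → nc N k + nc N j' ≤ 2 * m →
              T3 t k + T3 t i + T3 t j' = 1 → 0 ≤ T3 t j' → T3 t j' ≤ T3 t k →
              qq (C k).a ≤ T3 t i →
              N i k * T3 t k + N i j' * T3 t j' ≤ T3 t i := by
            intro i j' hii hmj hs hj0 hjk hai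
            have a1 := mul_le_mul_of_nonneg_right (ent i k) z0
            have a2 := mul_le_mul_of_nonneg_right (ent i j') hj0
            -- `n_k z + n_j y ≤ m (z + y)`
            have a3 : nc N k * T3 t k + nc N j' * T3 t j' ≤ m * (T3 t k + T3 t j') := by
              have c1 := mul_nonneg (sub_nonneg.2 m1) (sub_nonneg.2 hjk)
              have c2 := mul_le_mul_of_nonneg_right hmj hj0
              linarith
            have a4 : m * (T3 t k + T3 t j') ≤ m * (1 - qq (C k).a) :=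
              mul_le_mul_of_nonneg_left (by linarith) hm0
            linarith
          have hjj : LN N (vv t) (jj k) ≤ vv t (jj k) := by
            rw [eLN, hd (jj k), ev]
            have := side (jj k) (ll k) (hd _) m3 (by linarith) y0 hk2 ha.1
            linarith
          have hll : LN N (vv t) (ll k) ≤ vv t (ll k) := by
            rw [eLN, hd (ll k), ev]
            have := side (ll k) (jj k) (hd _) m2 (by linarith) x0 hk1 ha.2
            linarith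
          obtain ⟨r1, r2⟩ := rr_wall hN hd hc hcol (fun k => vv_nonneg htS k) n3 n1.symm
            n2.symm hll hjj hkk
          rw [r1, r2]
          exact ⟨mul_nonneg (qq_nonneg _) x0, mul_nonneg (qq_nonneg _) y0⟩
    · exact fun W0 hW0 => hval k ζp z1 z2 lam l1 l2 t ht hk1 hk2 W0 hW0
  · -- the tip
    intro k t ht ha hb hk1 hk2 q hq hXq hG
    rcases eq_or_lt_of_le hh0 with h0 | h0
    · rw [← h0] at ha
      exact absurd ha (not_le.2 (T3_pos' ht _))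
    have x0 : 0 ≤ T3 t (jj k) := (T3_pos' ht _).le
    have y0 : 0 ≤ T3 t (ll k) := (T3_pos' ht _).le
    have htS := Dl_Sim ht
    obtain ⟨n1, n2, n3⟩ := jl_ne k
    have ev : ∀ m, vv t m = T3 t m := fun m => (T3_vv t m).symm
    have hbt : 0 ≤ bet (Zd (2 / 3 * cN) (-bar (fun i => a (τ i)) 0 x)
      (b3 (fun i => a (τ i)) x)) (b3 (fun i => a (τ i)) x (jj k))
      (b3 (fun i => a (τ i)) x (ll k)) := bet_nonneg _ _ _
    have hB : lam / 2 * bet (Zd (2 / 3 * cN) (-bar (fun i => a (τ i)) 0 x)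
      (b3 (fun i => a (τ i)) x)) (b3 (fun i => a (τ i)) x (jj k))
      (b3 (fun i => a (τ i)) x (ll k)) ≤ 1 / 2 := by
      have b1 := mul_le_mul_of_nonneg_left (hk k).bt1 (show 0 ≤ lam / 2 by linarith)
      linarith
    have hrr : ∀ m, rr N (vv t) m ≤ 1 * vv t m := fun m => by
      have x1 := xx_nonneg hN hc hcol (fun k => vv_nonneg htS k) m
      have x2 := LN_nonneg hN (xx_nonneg hN hc hcol (fun k => vv_nonneg htS k)) m
      unfold rr
      linarith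
    have lk := loadT h v hz τ hA' hl (δ := fun _ => 0) (dE := fun _ => 0) (dm := fun _ => 0) hδ
      (fun _ => le_rfl) (fun _ => le_rfl) (fun _ => by norm_num) hρ hMρ hx hNd hRd F.xs rfl z1
      z2 hφ l1 l2 hβ0 hβ1 hK hF (θZ := 1) (θA := 1) (by norm_num) le_rfl (by norm_num) le_rfl
      (κ := 2 / 3) (hh := 0) (Or.inl ⟨rfl, rfl⟩) hcN hcN1 hS hχ0 hχ hω0 hω (η := 0) le_rfl
      (fun p => by simp) (Ca := φ * (2 * ω + 2 / 3 * cN)) (Cr := 2 * ω) (by
        refine le_of_eq ?_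
        ring) (by linarith) (Or.inr (by linarith)) hE (by linarith) (g1 := 2 * S (τ 0))
      (by linarith) hE1 hV0 hV (Cer := 2 * S (τ 0) + 2 * V) (by linarith) (Or.inr le_rfl) htS
      (i := k) (j := jj k) (k := ll k) n1 n2 n3 (w := 0) (ox := 1) (oy := 1) (ax := 1)
      (ay := 1) (ν := 1) (Dk := 0) (Dj := 1 / 2 + dj) (Dl := 1 / 2 + dj) le_rfl zero_le_one
      zero_le_one (by
        have e := jl_sum k (fun m => N m k)
        have := hd k
        unfold nc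
        linarith) (B := lam / 2 * bet (Zd (2 / 3 * cN) (-bar (fun i => a (τ i)) 0 x)
          (b3 (fun i => a (τ i)) x)) (b3 (fun i => a (τ i)) x (jj k))
          (b3 (fun i => a (τ i)) x (ll k))) (by ring) zero_le_one zero_le_one
      (Or.inr (by
        refine le_of_eq ?_
        ring)) (by linarith) (by linarith) (by
        have := hcN (jj k)
        linarith) (by linarith) (by
        have := hcN (ll k)
        linarith) (ta := 0) (e0 := 0) (ex := 0) (ey := 0) (r := 0) (Xk := 0) (Xj := 0)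
      (Xl := 0) le_rfl zero_le_one (Or.inl rfl) (by simp) (by simp) (by simp) (by simp)
      (by simp) (Or.inr ⟨zero_le_one, le_rfl, hrr _, hrr _, by linarith, by linarith,
        by linarith, by linarith, by simp, by simp, by simp, by simp⟩) hq
    rw [ev, ev, ev] at lk
    have tw := tip_wcB h v τ hA'.le hX hX1 h0 hh1
      (dT := (1 / 2 + dj) * (2 * ((hh : ℝ) / U)))
      (mul_nonneg (by linarith) (by linarith)) (by nlinarith) hy
      (C := fun _ => 4 * ((hh : ℝ) / U)) (fun _ => le_rfl) ht (k := k) (fun j hj => by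
        rcases jl_cases hj with e | e
        · rw [e]
          exact ha
        · rw [e]
          exact hb) hq
      (G := GM A' N (zc (fun i => a (τ i)) N x) ζp lam (fun p t => φ * flP (PN N) p t)
        (fun p t => kap N (vv t) p) β (MB σ a l τ)
        (fun p => aE σ a l (τ 0) (τ p.succ) - (fun _ => (0 : ℝ)) p) (Rv tt N)
        (fun k => S (τ k.succ)) (S (τ 0)) t)
      (D := 0 * T3 t k + (1 / 2 + dj) * T3 t (jj k) + (1 / 2 + dj) * T3 t (ll k)) (by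
        have b1 := mul_le_mul_of_nonneg_left ha (show 0 ≤ 1 / 2 + dj by linarith)
        have b2 := mul_le_mul_of_nonneg_left hb (show 0 ≤ 1 / 2 + dj by linarith)
        linarith) hXq (by
        have e : (0 * T3 t k + 0 * T3 t (jj k) + 0 * T3 t (ll k) : ℝ) = 0 := by ring
        rw [e] at lk
        linarith)
    rw [hA]
    exact tw

/-- **THE COST OF A FACE FROM THREE FAMILIES OF TABLES**, third columns 0 -/
theorem wcf_fam {ι : Type*} [Fintype ι] [IsFiniteMeasure σ] (h : CN K σ a c)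
    (v : Viol K a S) (hz : CV a K z) (τ : Equiv.Perm (Fin 4)) (hl : Lok a l)
    (hδ : ∀ p, MA σ a l τ p p ≤ 0) {ρ β : Fin 3 → ℝ} (hρ : ∀ p, 0 < ρ p)
    (hMρ : ∀ p k, k ≠ p → MA σ a l τ p k ≤ ρ p)
    {x : E3} (hx : x ∈ K) (hxs : Qv a (τ 0) x = S (τ 0) ∨ S (τ 0) = 0)
    {N : Fin 3 → Fin 3 → ℝ} (hNd : N = NM (fun i => a (τ i)) (fun i j => z (τ i) (τ j)))
    {tt : Fin 3 → ℝ} (htt : ∀ k, nc N k ≤ tt k)
    {A : ℕ} {A' : ℝ} (hA : (A : ℝ) / U = A') (hA' : 0 < A')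
    {φ : ℝ} (hφ : 0 < φ) (hφ1 : φ ≤ 1) (hβ0 : ∀ p, 0 ≤ β p) (hβ1 : ∀ p, β p ≤ 1)
    (hK : ∀ p, β p * ρ p ≤ A' * Id (fun t => kap N (vv t) p))
    (hF : ∀ p, (1 - β p) * ρ p ≤ φ * (A' * Id (flP (PN N) p)))
    {cN : ℝ} (hcN : ∀ m, nc N m ≤ cN) (hcN1 : cN ≤ 1 / 2)
    {s χ ω : ℝ} (hS : ∀ i, S i ≤ s) (hχ0 : 0 ≤ χ) (hχ : 3 / 2 + 2 * s ≤ χ ^ 2)
    (hω0 : 0 ≤ ω) (hω : (1 - ω) * χ ≤ 1) {V : ℝ} (hV : ∀ k : Fin 3, S (τ k.succ) ≤ V)
    {C : Fin 3 → CT ι} {c0 c1 hh e1 : ℕ} (hC : ∀ k, (C k).Ok A c0 c1 hh e1)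
    (he1 : 1 + cN / 2 ≤ qq e1) {wt : Fin 3 → ι → ℝ} {μ : Fin 3 → ι → ℕ → ℝ}
    {b te pe : Fin 3 → ℝ}
    (hk : ∀ k, CN1 (C k) a S τ x N β φ ω cN V (wt k) (μ k) k (b k) (te k) (pe k))
    {Sm d0 d1 : ℝ} (hI : IsC Sm d0 d1) (hSm : ∀ k, S k ≤ Sm) (hd1 : 0 ≤ d1)
    (hd3 : 3 * d1 * (1 + S (τ 0)) ≤ d0) (hc0 : (c0 : ℝ) / U ≤ d0) (hc1 : d1 ≤ (c1 : ℝ) / U)
    {X y M dj : ℝ} (hX : S (τ 0) + (S (τ 1) + S (τ 2) + S (τ 3)) ≤ X) (hX1 : X ≤ 1 / 10)
    (hh1 : (hh : ℝ) / U ≤ 1 / 100) (hj1 : 2 / 3 ≤ dj)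
    (hj2 : 2 / 3 * cN + φ * (2 * ω + 2 / 3 * cN) ≤ dj) (hj3 : 2 * ω ≤ dj) (hj4 : dj ≤ 2)
    (hy : 0.2823 + A' * ((1 / 2 + dj) * (2 * ((hh : ℝ) / U)) + 1.134 * X) ≤ y)
    (hM : 0 ≤ M) (hMh : 1 ≤ M ^ 2 * (1 - 2 * ((hh : ℝ) / U)) ^ 3)
    {cst : ℝ} (hcst : (√2)⁻¹ * ((∑ e, wt 0 e * ((C 0).Q e).W (μ 0 e))
      + (∑ e, wt 1 e * ((C 1).Q e).W (μ 1 e)) + (∑ e, wt 2 e * ((C 2).Q e).W (μ 2 e)))
      + 17 * ((hh : ℝ) / U) ^ 2 * M * y ≤ cst) :
    WCF A' σ a K l τ z S x N (Rv tt N) φ β (fun _ => 0) (fun _ => 0) cst := by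
  have h' := h.perm τ
  have v' := viol_perm v τ
  have hz' := hz.perm τ
  have hN : ∀ k m, 0 ≤ N k m := fun k m => by
    rw [hNd]
    exact NM_nonneg h' v' hz' k m
  have hd : ∀ k, N k k = 0 := fun k => by
    rw [hNd]
    exact NM_diag k
  have hcol : ∀ m, nc N m ≤ 9 / 10 := fun m => by
    rw [hNd]
    exact nc_le h' v' hz' m
  have hc : (9 / 10 : ℝ) < 1 := by norm_num
  have nn : ∀ m, 0 ≤ nc N m := fun m => Pool.Agent.Helper73.MEI.SideP.nc_nonneg hN m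
  have F := fn_face h v hz τ hl hδ hx hxs hNd htt hcN he1
  have s0 := F.s0
  have cN0 : 0 ≤ cN := (nn 0).trans (hcN 0)
  refine wcf_gen h v hz τ hl hδ hρ hMρ hx hxs hNd htt hA hA' hφ hφ1 hβ0 hβ1 hK hF hcN hcN1 hS
    hχ0 hχ hω0 hω hV (fun k => (hC k).g) hk ?_ ?_ hI hSm hd1 hd3 hc0 hc1 hX hX1 hh1 hj1 hj2
    hj3 hj4 hy hM hMh hcst
  · intro k ζp z1 z2 t ht _ _ L hL hz0
    have x0 : 0 ≤ T3 t (jj k) := (T3_pos' ht _).le
    have y0 : 0 ≤ T3 t (ll k) := (T3_pos' ht _).le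
    have z0 : 0 ≤ T3 t k := (T3_pos' ht _).le
    have hsum := jl_sum k (T3 t)
    have hsum1 : T3 t 0 + T3 t 1 + T3 t 2 = 1 := T3_sum t
    have htS := Dl_Sim ht
    obtain ⟨g1, g2, g3⟩ := drk_iff (hC k).drp hL hz0
    have a1 := alP_s0 hN hd hc hcol z1 z2 s0 F.R0 F.R1 F.z1 htS
    have b1 := mul_le_mul_of_nonneg_right (qq_ge_one g1) z0
    have b2 := mul_le_mul_of_nonneg_right (qq_ge_one g2) x0
    have b3 := mul_le_mul_of_nonneg_right (qq_ge_one g3) y0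
    have b4 := mul_le_mul_of_nonneg_left (show 1 ≤ qq L.e0 * T3 t k + qq L.ex * T3 t (jj k)
      + qq L.ey * T3 t (ll k) by linarith) s0
    linarith
  · intro k ζp z1 z2 lam l1 l2 t ht _ _ W0 hW0
    have x0 : 0 ≤ T3 t (jj k) := (T3_pos' ht _).le
    have y0 : 0 ≤ T3 t (ll k) := (T3_pos' ht _).le
    have z0 : 0 ≤ T3 t k := (T3_pos' ht _).le
    have hsum := jl_sum k (T3 t)
    have hsum1 : T3 t 0 + T3 t 1 + T3 t 2 = 1 := T3_sum t
    have Hk := hk k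
    obtain ⟨w1, w2, w3⟩ := vck_iff (hC k).val hW0 v.nn (τ := τ) nn (k := k) Hk.b0 Hk.te0 Hk.pe0
    have e1' : (1 : ℝ) ≤ qq e1 := by linarith
    have g0 := val_S h v hz τ hl hδ hρ hMρ hx hxs hNd htt hA' hφ hβ0 hβ1 hK hF hcN he1 z1 z2 l1
      l2 ht
    have b1 := mul_le_mul_of_nonneg_right w1 z0
    have b2 := mul_le_mul_of_nonneg_right w2 x0
    have b3 := mul_le_mul_of_nonneg_right w3 y0
    have e1' := jl_sum k (fun m => T3 t m * S (τ m.succ))
    have u1 : τ (Fin.succ 0) = τ 1 := rfl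
    have u2 : τ (Fin.succ 1) = τ 2 := rfl
    have u3 : τ (Fin.succ 2) = τ 3 := rfl
    rw [u1, u2, u3] at e1'
    have e2 : qq e1 * S (τ 0) * (T3 t k + T3 t (jj k) + T3 t (ll k)) = qq e1 * S (τ 0) := by
      rw [hsum, hsum1, mul_one]
    linarith

end body

end Helper99.MEI
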