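import Pool.Agent.Helper99.MEI.WT6

/-!
# Project MEI (M2), track B: the masses of the arcs of a face

`masses`: premises `hK`, `hF` of `wcf_fam` for the strips `kv` cut at the need of the arc;
`masses0`: the same without strips.
-/

set_option autoImplicit false

namespace Helper99.MEI

open Set Metric MeasureTheory Helper80.CW Helper82.CW Helper14.CW Helper93.MEI Helper78.MEI
open Helper82.M2 Helper14.MEI2 Pool.Agent.Helper52.MEI Pool.Agent.Helper73.MEI Helper41.MEI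
open Helper37.MEI
open Pool.Agent.Helper55.Sx (Sim)
open Pool.Agent.Helper55.Mass (LN LN_nonneg vv vv_nonneg vv_le Id)
open Pool.Agent.Helper55.Apex (nc vt_vv)
open Pool.Agent.Helper55.ApexP (PN alP alP_nonneg alP_zeta alP_le xx_mu mu_bal)
open Pool.Agent.Helper55.Fill (xx rr rr_nonneg xx_nonneg xx_le xx_feas)
open Pool.Agent.Helper73.MEI.SideP
open Pool.Agent.Helper73.MEI.ArCor
open Pool.Agent.Helper96.Kap (kap kap_nonneg kap_meas kap_le_one kap_add kapL kap_mass)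
open Pool.Agent.Helper31.SR

variable {N : Fin 3 → Fin 3 → ℝ}

/-- the need of an arc beyond its strip fits on the share -/
theorem need_flP (hN : ∀ k m, 0 ≤ N k m) (hd : ∀ k, N k k = 0) (hnc : ∀ k, nc N k ≤ 9 / 10)
    (hTN : TN N ≤ 1) {A' rb φ : ℝ} (hA' : 0 < A') (hφ : phiN A' rb (TN N) (QN N) ≤ φ)
    {r : ℝ} (hr0 : 0 ≤ r) (hrb : r ≤ rb) (p : Fin 3) :
    r ≤ φ * (A' * Id (flP (PN N) p)) := by
  have hT0 := TN_nonneg hN
  have hD : 0 < 1 - TN N ^ 2 / 4 := by nlinarith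
  have hI : 0 ≤ Id (flP (PN N) p) := by
    unfold Pool.Agent.Helper55.Mass.Id
    refine mul_nonneg (by positivity) (setIntegral_nonneg
      Pool.Agent.Helper55.Sx.Sim_meas fun t ht => ?_)
    exact div_nonneg (flP_nonneg p t) (by positivity)
  have h1 := phi_ok hN hd (show (9 / 10 : ℝ) < 1 by norm_num) hnc hA' (ρ := r) hr0
    (by linarith) p
  have h2 : phiN A' r (TN N) (QN N) ≤ φ := by
    refine le_trans ?_ hφ
    unfold phiN
    refine div_le_div_of_nonneg_right ?_ (mul_pos hA' hD).le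
    have := mul_le_mul_of_nonneg_right hrb
      (sq_nonneg (35 / 48 + 9 / 16 * TN N + 5 / 12 * QN N))
    linarith
  exact h1.trans (mul_le_mul_of_nonneg_right h2 (mul_nonneg hA'.le hI))

/-- **the masses of the arcs**, strips `kv` cut at the need -/
theorem masses (hN : ∀ k m, 0 ≤ N k m) (hd : ∀ k, N k k = 0) {nb : ℝ} (hnc : ∀ k, nc N k ≤ nb)
    (hnb : nb ≤ 2 / 5) (hTN : TN N ≤ 1) {K0 K1 e : ℝ} (he : nb ≤ e)
    (hK : ∀ x y p q : ℝ, 0 ≤ x → 0 ≤ y → 0 ≤ p → 0 ≤ q → x + q ≤ nb → y + p ≤ nb →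
      K0 * (x + y) - K1 * (y * q + x * p) ≤ kapL e x y p q)
    (hκ0 : ∀ p, 0 ≤ kv K0 K1 N p) {A' rb φ : ℝ} (hA' : 0 < A')
    (hφ : phiN A' rb (TN N) (QN N) ≤ φ) {ρ : Fin 3 → ℝ} (hρ : ∀ p, 0 < ρ p)
    (hrb : ∀ p, ρ p ≤ rb) :
    (∀ p, bt A' (kv K0 K1 N) ρ p * ρ p ≤ A' * Id (fun t => kap N (vv t) p)) ∧
    (∀ p, (1 - bt A' (kv K0 K1 N) ρ p) * ρ p ≤ φ * (A' * Id (flP (PN N) p))) := by
  have hcol : ∀ m, nc N m ≤ 9 / 10 := fun m => (hnc m).trans (by linarith)
  have hc : (9 / 10 : ℝ) < 1 := by norm_num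
  have hN' : ∀ k m, N k m ≤ nb := by
    intro k m
    refine le_trans ?_ (hnc m)
    have a0 := hN 0 m
    have a1 := hN 1 m
    have a2 := hN 2 m
    unfold nc
    fin_cases k
    · show N 0 m ≤ N 0 m + N 1 m + N 2 m
      linarith
    · show N 1 m ≤ N 0 m + N 1 m + N 2 m
      linarith
    · show N 2 m ≤ N 0 m + N 1 m + N 2 m
      linarith
  have hN5 : ∀ k m, N k m ≤ 2 / 5 := fun k m => (hN' k m).trans hnb
  have ek : ∀ k, nc N k = N (k + 1) k + N (k + 2) k := by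
    intro k
    have d0 := hd 0
    have d1 := hd 1
    have d2 := hd 2
    unfold nc
    fin_cases k
    · show N 0 0 + N 1 0 + N 2 0 = N 1 0 + N 2 0
      linarith
    · show N 0 1 + N 1 1 + N 2 1 = N 2 1 + N 0 1
      linarith
    · show N 0 2 + N 1 2 + N 2 2 = N 0 2 + N 1 2
      linarith
  have ne1 : ∀ k : Fin 3, k ≠ k + 1 := by decide
  have ne2 : ∀ k : Fin 3, k ≠ k + 2 := by decide
  have ne3 : ∀ k : Fin 3, k + 1 ≠ k + 2 := by decide
  have hκ : ∀ p, kv K0 K1 N p ≤ Id (fun t => kap N (vv t) p) := by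
    intro p
    have c1 : N p (p + 1) * N (p + 1) p + N p (p + 2) * N (p + 2) p ≤ 1 := by
      have a1 := hN5 p (p + 1)
      have a2 := hN5 (p + 1) p
      have a3 := hN5 p (p + 2)
      have a4 := hN5 (p + 2) p
      have b1 := hN p (p + 1)
      have b2 := hN (p + 1) p
      have b3 := hN p (p + 2)
      have b4 := hN (p + 2) p
      nlinarith
    have km := kap_mass hN hc hcol hd (e := e) (ne1 p) (ne2 p) (ne3 p) c1
      ((hN' _ _).trans he) ((hN' _ _).trans he) ((hN5 _ _).trans (by norm_num))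
      ((hN5 _ _).trans (by norm_num))
    refine le_trans ?_ km
    have q1 : N p (p + 1) + N (p + 2) (p + 1) ≤ nb := by
      refine le_trans (le_of_eq ?_) (hnc (p + 1))
      rw [ek]
      fin_cases p
      · show N 0 1 + N 2 1 = N 2 1 + N 0 1
        ring
      · show N 1 2 + N 0 2 = N 0 2 + N 1 2
        ring
      · show N 2 0 + N 1 0 = N 1 0 + N 2 0
        ring
    have q2 : N p (p + 2) + N (p + 1) (p + 2) ≤ nb := by
      refine le_trans (le_of_eq ?_) (hnc (p + 2))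
      rw [ek]
      fin_cases p
      · show N 0 2 + N 1 2 = N 0 2 + N 1 2
        ring
      · show N 1 0 + N 2 0 = N 1 0 + N 2 0
        ring
      · show N 2 1 + N 0 1 = N 2 1 + N 0 1
        ring
    exact hK _ _ _ _ (hN _ _) (hN _ _) (hN _ _) (hN _ _) q1 q2
  have hbt : ∀ p, bt A' (kv K0 K1 N) ρ p * ρ p = A' * km A' (kv K0 K1 N) ρ p := fun p => by
    unfold bt
    exact div_mul_cancel₀ _ (hρ p).ne'
  have hAρ : ∀ p, A' * (ρ p / A') = ρ p := fun p => mul_div_cancel₀ _ hA'.ne'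
  refine ⟨fun p => ?_, fun p => ?_⟩
  · rw [hbt]
    exact mul_le_mul_of_nonneg_left ((min_le_left _ _).trans (hκ p)) hA'.le
  · have e1 : (1 - bt A' (kv K0 K1 N) ρ p) * ρ p = ρ p - A' * km A' (kv K0 K1 N) ρ p := by
      rw [← hbt]
      ring
    rw [e1]
    have k0 : 0 ≤ km A' (kv K0 K1 N) ρ p :=
      le_min (hκ0 p) (div_nonneg (hρ p).le hA'.le)
    have k1 : A' * km A' (kv K0 K1 N) ρ p ≤ ρ p :=
      (mul_le_mul_of_nonneg_left (min_le_right _ _) hA'.le).trans (hAρ p).le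
    have k2 := mul_nonneg hA'.le k0
    exact need_flP hN hd hcol hTN hA' hφ (by linarith) (by linarith [hrb p]) p

/-- without strips -/
theorem bt_zero {A' : ℝ} (hA' : 0 < A') {ρ : Fin 3 → ℝ} (hρ : ∀ p, 0 < ρ p) (p : Fin 3) :
    bt A' (kv 0 0 N) ρ p = 0 := by
  have e : kv 0 0 N p = 0 := by
    unfold kv
    ring
  have e1 : km A' (kv 0 0 N) ρ p = 0 := by
    unfold km
    rw [e]
    exact min_eq_left (div_nonneg (hρ p).le hA'.le)
  unfold bt
  rw [e1, mul_zero, zero_div]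

/-- **the masses of the arcs without strips** -/
theorem masses0 (hN : ∀ k m, 0 ≤ N k m) (hd : ∀ k, N k k = 0) (hnc : ∀ k, nc N k ≤ 9 / 10)
    (hTN : TN N ≤ 1) {A' rb φ : ℝ} (hA' : 0 < A')
    (hφ : phiN A' rb (TN N) (QN N) ≤ φ) {ρ : Fin 3 → ℝ} (hρ : ∀ p, 0 < ρ p)
    (hrb : ∀ p, ρ p ≤ rb) :
    (∀ p, bt A' (kv 0 0 N) ρ p * ρ p ≤ A' * Id (fun t => kap N (vv t) p)) ∧
    (∀ p, (1 - bt A' (kv 0 0 N) ρ p) * ρ p ≤ φ * (A' * Id (flP (PN N) p))) := by
  refine ⟨fun p => ?_, fun p => ?_⟩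
  · rw [bt_zero hA' hρ, zero_mul]
    refine mul_nonneg hA'.le ?_
    unfold Pool.Agent.Helper55.Mass.Id
    refine mul_nonneg (by positivity) (setIntegral_nonneg
      Pool.Agent.Helper55.Sx.Sim_meas fun t ht => ?_)
    exact div_nonneg (kap_nonneg hN (show (9 / 10 : ℝ) < 1 by norm_num) hnc
      (fun k => vv_nonneg ht k) p) (by positivity)
  · rw [bt_zero hA' hρ, sub_zero, one_mul]
    exact need_flP hN hd hnc hTN hA' hφ (hρ p).le (hrb p) p

end Helper99.MEI
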