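import Pool.Agent.Helper99.MEI.WT1

/-!
# Project MEI (M2), track B: rows of a table with any list of vertices

`RN` = numbers of a row (units `10⁻⁶`), `LT` = type of a load, `TP` = numbers of a table;
`AF` = affine function of the numbers of a row; `dK, dJ, dL, xK, xJ, xL` = demands of a type on the
six numbers of a load; `tck` = check of the rows of a table; `D_ge`, `X_ge`, `E_ge`: the sums over
the rows with any weights satisfy the demands at the mean numbers.
-/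

set_option autoImplicit false

namespace Helper99.MEI

open Finset Helper60.R8
open Helper60.R7 (U U_pos)

/-! ### Numbers -/

/-- numbers of a row, units `10⁻⁶`: level, violations at the corner and at the two others, leaks,
deficit of the apex `b`, dropped apex `te`, dropped arcs `pe` -/
structure RN where
  s : ℕ
  Sk : ℕ
  Sj : ℕ
  Sl : ℕ
  nk : ℕ
  nj : ℕ
  nl : ℕ
  b : ℕ
  te : ℕ
  pe : ℕ

def rn0 : RN := ⟨0, 0, 0, 0, 0, 0, 0, 0, 0, 0⟩

/-- type of a load: `h` share of the leaks (0: 2/3, 1: 1/2), `z` apex kept, `a` arcs kept,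
`nr` share of the residual masses; `w`, `ox`, `oy` multipliers of the node of the corner;
`ax`, `ay` slopes of the apex kept; `e0`, `ex`, `ey` majorant of the apex dropped;
`ta` mixture of the arcs dropped -/
structure LT where
  h : ℕ
  z : ℕ
  a : ℕ
  nr : ℕ
  w : ℕ
  ox : ℕ
  oy : ℕ
  ax : ℕ
  ay : ℕ
  e0 : ℕ
  ex : ℕ
  ey : ℕ
  ta : ℕ

def lt0 : LT := ⟨0, 0, 0, 0, 0, 0, 0, 0, 0, 0, 0, 0, 0⟩

/-- numbers of a table: slope of the arcs `c0 + c1 T` (2/3) and `d0 + d1 T` (1/2), residual arcs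
`rc`, factor of the apex `hl b`, dropped apex `lr te`, dropped arcs `ce pe`, dropped
residual arcs `re`, sixth of the violations `V6` -/
structure TP where
  c0 : ℕ
  c1 : ℕ
  d0 : ℕ
  d1 : ℕ
  rc : ℕ
  hl : ℕ
  lr : ℕ
  ce : ℕ
  re : ℕ
  V6 : ℕ

/-- a natural number in units `10⁻⁶` -/
noncomputable def qq (n : ℕ) : ℝ := (n : ℝ) / 1000000

theorem qq_U (n : ℕ) : qq n = (n : ℝ) / (U : ℝ) := by
  unfold qq
  have : (U : ℝ) = 1000000 := by
    unfold U
    norm_num
  rw [this]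

theorem qq_nonneg (n : ℕ) : 0 ≤ qq n := by
  unfold qq
  positivity

theorem cq (n : ℕ) : (n : ℝ) = 1000000 * qq n := by
  unfold qq
  ring

/-- affine function of the numbers of a row, units `10⁻¹⁸ / 6` -/
structure AF where
  c0 : ℕ
  k : ℕ
  j : ℕ
  l : ℕ
  b : ℕ
  t : ℕ
  p : ℕ
  s : ℕ
  Sk : ℕ
  Sj : ℕ
  Sl : ℕ

/-- numbers of a state -/
structure RR where
  s : ℝ
  Sk : ℝ
  Sj : ℝ
  Sl : ℝ
  nk : ℝ
  nj : ℝ
  nl : ℝ
  b : ℝ
  te : ℝ
  pe : ℝ

/-- the value of an affine function at a row, units `10⁻²⁴ / 6` -/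
def AF.nat (F : AF) (r : RN) : ℕ :=
  F.c0 * 1000000 + F.k * r.nk + F.j * r.nj + F.l * r.nl + F.b * r.b + F.t * r.te + F.p * r.pe
    + F.s * r.s + F.Sk * r.Sk + F.Sj * r.Sj + F.Sl * r.Sl

/-- the value of an affine function at a state -/
noncomputable def AF.ev (F : AF) (r : RR) : ℝ :=
  ((F.c0 : ℝ) + F.k * r.nk + F.j * r.nj + F.l * r.nl + F.b * r.b + F.t * r.te + F.p * r.pe
    + F.s * r.s + F.Sk * r.Sk + F.Sj * r.Sj + F.Sl * r.Sl) / 6000000000000000000

/-- the row as a state -/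
noncomputable def RN.re (r : RN) : RR :=
  ⟨qq r.s, qq r.Sk, qq r.Sj, qq r.Sl, qq r.nk, qq r.nj, qq r.nl, qq r.b, qq r.te, qq r.pe⟩

/-- the check of one number -/
def AF.ck (F : AF) (r : RN) (n : ℕ) : Bool := Nat.ble (F.nat r) (6000000000000000000 * n)

theorem AF.ck_le {F : AF} {r : RN} {n : ℕ} (h : F.ck r n = true) : F.ev r.re ≤ qq n := by
  unfold AF.ck AF.nat at h
  rw [Nat.ble_eq] at h
  have h1 := (Nat.cast_le (α := ℝ)).2 h
  push_cast at h1
  unfold AF.ev RN.re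
  rw [div_le_iff₀ (by norm_num)]
  unfold qq
  dsimp only
  linarith

/-- order of states -/
structure RR.Le (r r' : RR) : Prop where
  s : r.s ≤ r'.s
  Sk : r.Sk ≤ r'.Sk
  Sj : r.Sj ≤ r'.Sj
  Sl : r.Sl ≤ r'.Sl
  nk : r.nk ≤ r'.nk
  nj : r.nj ≤ r'.nj
  nl : r.nl ≤ r'.nl
  b : r.b ≤ r'.b
  te : r.te ≤ r'.te
  pe : r.pe ≤ r'.pe

theorem AF.mono (F : AF) {r r' : RR} (h : r.Le r') : F.ev r ≤ F.ev r' := by
  unfold AF.ev
  refine div_le_div_of_nonneg_right ?_ (by norm_num)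
  have h1 := mul_le_mul_of_nonneg_left h.nk (Nat.cast_nonneg (α := ℝ) F.k)
  have h2 := mul_le_mul_of_nonneg_left h.nj (Nat.cast_nonneg (α := ℝ) F.j)
  have h3 := mul_le_mul_of_nonneg_left h.nl (Nat.cast_nonneg (α := ℝ) F.l)
  have h4 := mul_le_mul_of_nonneg_left h.b (Nat.cast_nonneg (α := ℝ) F.b)
  have h5 := mul_le_mul_of_nonneg_left h.te (Nat.cast_nonneg (α := ℝ) F.t)
  have h6 := mul_le_mul_of_nonneg_left h.s (Nat.cast_nonneg (α := ℝ) F.s)
  have h7 := mul_le_mul_of_nonneg_left h.Sk (Nat.cast_nonneg (α := ℝ) F.Sk)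
  have h8 := mul_le_mul_of_nonneg_left h.Sj (Nat.cast_nonneg (α := ℝ) F.Sj)
  have h9 := mul_le_mul_of_nonneg_left h.Sl (Nat.cast_nonneg (α := ℝ) F.Sl)
  have h10 := mul_le_mul_of_nonneg_left h.pe (Nat.cast_nonneg (α := ℝ) F.p)
  linarith

/-! ### The demands of a type -/

section dem
variable (P : TP) (L : LT)

/-- demand on the number `k` of the deficit -/
def dK : AF := ⟨0, (4 - L.h) * L.w * 1000000000000, 0, 0, 0, 0, 0, 0, 0, 0, 0⟩

/-- first demand, own node (`o`), slope of the apex `g`, factor `f` -/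
def D1 (o g f : ℕ) : AF :=
  ⟨f * (4 - L.h) * o * 1000000, 0, 0, 0, f * 6 * L.z * P.hl * g, 0, 0, 0, 0, 0, 0⟩

/-- slope of the arcs, constant part -/
def CA0 : ℕ := L.a * ((1 - L.h) * P.c0 + L.h * P.d0)

/-- slope of the arcs, coefficient of the leaks -/
def CA1 : ℕ := L.a * ((1 - L.h) * P.c1 + L.h * P.d1)

/-- second demand at `j`: leak of the coordinate and arcs -/
def D2j (g f : ℕ) : AF :=
  ⟨f * 6 * CA0 P L * 1000000, f * 6 * CA1 P L * 1000000,
    f * 6 * CA1 P L * 1000000 + f * (4 - L.h) * 1000000000000, f * 6 * CA1 P L * 1000000,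
    f * 6 * L.z * P.hl * g, 0, 0, 0, 0, 0, 0⟩

/-- second demand at `l` -/
def D2l (g f : ℕ) : AF :=
  ⟨f * 6 * CA0 P L * 1000000, f * 6 * CA1 P L * 1000000, f * 6 * CA1 P L * 1000000,
    f * 6 * CA1 P L * 1000000 + f * (4 - L.h) * 1000000000000,
    f * 6 * L.z * P.hl * g, 0, 0, 0, 0, 0, 0⟩

/-- with the constant `e` -/
def AF.add (F : AF) (e : ℕ) : AF := { F with c0 := F.c0 + e }

/-- the dropped apex (majorant `e`) and the constant part of the dropped arcs -/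
def X0 (e : ℕ) : AF :=
  ⟨0, 0, 0, 0, 0, 6 * (1 - L.z) * P.lr * e * 1000000, 3 * (1 - L.a) * P.ce * L.ta * 1000000,
    0, 0, 0, 0⟩

/-- demand on the number `k` of the dropped value -/
def xK : AF := { X0 P L L.e0 with k := 6 * L.h * P.V6 * L.w * 1000000 }

/-- first demand, own node (`o`), majorant `e`, factor `f` -/
def X1 (o e f : ℕ) : AF := { X0 P L e with c0 := f * 6 * L.h * P.V6 * o }

/-- second demand at `j` -/
def X2j (e f : ℕ) : AF :=
  { X0 P L e with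
    j := f * 6 * L.h * P.V6 * 1000000
    p := 3 * (1 - L.a) * P.ce * L.ta * 1000000 + f * 6 * (1 - L.a) * (1000000 - L.ta) * P.ce }

/-- second demand at `l` -/
def X2l (e f : ℕ) : AF :=
  { X0 P L e with
    l := f * 6 * L.h * P.V6 * 1000000
    p := 3 * (1 - L.a) * P.ce * L.ta * 1000000 + f * 6 * (1 - L.a) * (1000000 - L.ta) * P.ce }

/-- residual arcs kept -/
def RD : ℕ := 6 * L.nr * L.a * P.rc * 1000000

/-- residual arcs dropped -/
def RX : ℕ := 6 * L.nr * (1 - L.a) * P.re * 1000000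

/-- demands on the number `j` of the deficit -/
def dJ : List AF :=
  [D1 P L L.ox L.ax 1000000, D2j P L L.ax 1000000,
    (D1 P L L.ox L.ax (1000000 - L.nr)).add (RD P L),
    (D2j P L L.ax (1000000 - L.nr)).add (RD P L)]

/-- demands on the number `l` of the deficit -/
def dL : List AF :=
  [D1 P L L.oy L.ay 1000000, D2l P L L.ay 1000000,
    (D1 P L L.oy L.ay (1000000 - L.nr)).add (RD P L),
    (D2l P L L.ay (1000000 - L.nr)).add (RD P L)]

/-- demands on the number `j` of the dropped value -/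
def xJ : List AF :=
  [X1 P L L.ox L.ex 1000000, X2j P L L.ex 1000000,
    (X1 P L L.ox L.ex (1000000 - L.nr)).add (RX P L),
    (X2j P L L.ex (1000000 - L.nr)).add (RX P L)]

/-- demands on the number `l` of the dropped value -/
def xL : List AF :=
  [X1 P L L.oy L.ey 1000000, X2l P L L.ey 1000000,
    (X1 P L L.oy L.ey (1000000 - L.nr)).add (RX P L),
    (X2l P L L.ey (1000000 - L.nr)).add (RX P L)]

/-- check of a load of a row -/
def ldck (r : RN) (d : Ld) : Bool :=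
  (dK L).ck r d.D.k && ((dJ P L).all fun F => F.ck r d.D.j) &&
    ((dL P L).all fun F => F.ck r d.D.l) &&
  (xK P L).ck r d.X.k && ((xJ P L).all fun F => F.ck r d.X.j) &&
    ((xL P L).all fun F => F.ck r d.X.l)

end dem

/-- a majorant of the value: the demands on its three numbers -/
structure VT where
  k : AF
  j : AF
  l : AF

def af0 : AF := ⟨0, 0, 0, 0, 0, 0, 0, 0, 0, 0, 0⟩

def vt0 : VT := ⟨af0, af0, af0⟩

/-- flags and multipliers of a type, split of the leak of the corner in `[q0, q1]` -/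
def LT.ok (q0 q1 : ℕ) (L : LT) : Bool :=
  Nat.ble L.h 1 && Nat.ble L.z 1 && Nat.ble L.a 1 && Nat.ble L.nr 1000000 &&
  Nat.ble L.ta 1000000 &&
  Nat.ble (1000000 * (1000000 - L.w)) (L.ox * q0 + L.oy * (1000000 - q0)) &&
  Nat.ble (1000000 * (1000000 - L.w)) (L.ox * q1 + L.oy * (1000000 - q1))

/-- check of a value majorant of a row -/
def esck (V : VT) (r : RN) (e : P3) : Bool := V.k.ck r e.k && V.j.ck r e.j && V.l.ck r e.l

/-- check of a row -/
def rowck (P : TP) (As : List LT) (Vs : List VT) (nl ne : ℕ) (r : RN) (R : Row) : Bool :=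
  Nat.ble r.Sk R.S.k && Nat.ble r.Sj R.S.j && Nat.ble r.Sl R.S.l && Nat.ble r.s R.s &&
  ((List.range nl).all fun li => ldck P (As.getD li lt0) r (R.ls.getD li zL)) &&
  ((List.range ne).all fun ei => esck (Vs.getD ei vt0) r (R.es.getD ei z3))

/-- check of the rows of a table -/
def tck (P : TP) (As : List LT) (Vs : List VT) (q0 q1 : ℕ) (rs : List RN) (Q : Cor) : Bool :=
  (As.all fun L => L.ok q0 q1) && Nat.ble Q.nl As.length && Nat.ble Q.ne Vs.length &&
  Nat.ble q0 q1 && Nat.ble q1 1000000 &&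
  ((List.range Q.rows.length).all fun i =>
    rowck P As Vs Q.nl Q.ne (rs.getD i rn0) (Q.rows.getD i zR))

/-! ### Sums over the rows -/

/-- the mean of a number of the rows -/
noncomputable def mn (n : ℕ) (lam : ℕ → ℝ) (rs : List RN) (f : RN → ℕ) : ℝ :=
  ∑ i ∈ range n, lam i * qq (f (rs.getD i rn0))

/-- the mean state of the rows -/
noncomputable def mr (n : ℕ) (lam : ℕ → ℝ) (rs : List RN) : RR :=
  ⟨mn n lam rs RN.s, mn n lam rs RN.Sk, mn n lam rs RN.Sj, mn n lam rs RN.Sl, mn n lam rs RN.nk,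
    mn n lam rs RN.nj, mn n lam rs RN.nl, mn n lam rs RN.b, mn n lam rs RN.te,
    mn n lam rs RN.pe⟩

/-- the mean of an affine function is its value at the mean -/
theorem AF.mean (F : AF) {n : ℕ} {lam : ℕ → ℝ} (h1 : ∑ i ∈ range n, lam i = 1)
    (rs : List RN) :
    ∑ i ∈ range n, lam i * F.ev (rs.getD i rn0).re = F.ev (mr n lam rs) := by
  unfold AF.ev mr mn RN.re
  dsimp only
  simp only [← mul_div_assoc, ← sum_div]
  congr 1
  simp only [mul_add, sum_add_distrib]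
  simp only [mul_sum]
  have e0 : ∑ i ∈ range n, lam i * (F.c0 : ℝ) = (F.c0 : ℝ) := by
    rw [← sum_mul, h1, one_mul]
  rw [e0]
  have e : ∀ (c : ℝ) (f : ℕ → ℝ), ∑ i ∈ range n, lam i * (c * f i) =
      ∑ i ∈ range n, c * (lam i * f i) := fun c f => sum_congr rfl fun i _ => by ring
  simp only [e]

section
variable {P : TP} {As : List LT} {Vs : List VT} {q0 q1 : ℕ} {rs : List RN} {Q : Cor}
  (h : tck P As Vs q0 q1 rs Q = true)
include h

theorem tck_iff : (∀ L ∈ As, L.ok q0 q1 = true) ∧ Q.nl ≤ As.length ∧ Q.ne ≤ Vs.length ∧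
    q0 ≤ q1 ∧ q1 ≤ 1000000 ∧ (∀ i < Q.rows.length,
      rowck P As Vs Q.nl Q.ne (rs.getD i rn0) (Q.rows.getD i zR) = true) := by
  unfold tck at h
  simp only [Bool.and_eq_true, List.all_eq_true, List.mem_range, Nat.ble_eq] at h
  exact ⟨h.1.1.1.1.1, h.1.1.1.1.2, h.1.1.1.2, h.1.1.2, h.1.2, h.2⟩

theorem tck_row {i : ℕ} (hi : i < Q.rows.length) :
    ((rs.getD i rn0).Sk ≤ (Q.rows.getD i zR).S.k ∧ (rs.getD i rn0).Sj ≤ (Q.rows.getD i zR).S.j ∧
      (rs.getD i rn0).Sl ≤ (Q.rows.getD i zR).S.l ∧ (rs.getD i rn0).s ≤ (Q.rows.getD i zR).s) ∧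
    (∀ li < Q.nl, ldck P (As.getD li lt0) (rs.getD i rn0)
      ((Q.rows.getD i zR).ls.getD li zL) = true) ∧
    (∀ ei < Q.ne, esck (Vs.getD ei vt0) (rs.getD i rn0)
      ((Q.rows.getD i zR).es.getD ei z3) = true) := by
  have h1 := (tck_iff h).2.2.2.2.2 i hi
  unfold rowck at h1
  simp only [Bool.and_eq_true, List.all_eq_true, List.mem_range, Nat.ble_eq] at h1
  exact ⟨⟨h1.1.1.1.1.1, h1.1.1.1.1.2, h1.1.1.1.2, h1.1.1.2⟩, h1.1.2, h1.2⟩

theorem lt_mem {li : ℕ} (hli : li < Q.nl) : As.getD li lt0 ∈ As := by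
  have h3 : li < As.length := lt_of_lt_of_le hli (tck_iff h).2.1
  have e : As.getD li lt0 = As[li] := by
    rw [List.getD_eq_getElem?_getD, List.getElem?_eq_getElem h3, Option.getD_some]
  rw [e]
  exact List.getElem_mem h3

theorem vt_mem {ei : ℕ} (hei : ei < Q.ne) : Vs.getD ei vt0 ∈ Vs := by
  have h3 : ei < Vs.length := lt_of_lt_of_le hei (tck_iff h).2.2.1
  have e : Vs.getD ei vt0 = Vs[ei] := by
    rw [List.getD_eq_getElem?_getD, List.getElem?_eq_getElem h3, Option.getD_some]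
  rw [e]
  exact List.getElem_mem h3

variable {lam : ℕ → ℝ}

/-- the row bounds of the table -/
theorem rowB (h0 : ∀ i, 0 ≤ lam i) (h1 : ∑ i ∈ range Q.rows.length, lam i = 1)
    {Sk Sj Sl s : ℝ} (hk : Sk ≤ mn Q.rows.length lam rs RN.Sk)
    (hj : Sj ≤ mn Q.rows.length lam rs RN.Sj) (hl : Sl ≤ mn Q.rows.length lam rs RN.Sl)
    (hs : s ≤ mn Q.rows.length lam rs RN.s) : RowB Q lam Sk Sj Sl s := by
  have key : ∀ (f : RN → ℕ) (g : Row → ℕ), (∀ i < Q.rows.length,
      f (rs.getD i rn0) ≤ g (Q.rows.getD i zR)) → mn Q.rows.length lam rs f ≤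
      ∑ i ∈ range Q.rows.length, lam i * ((g (Q.rows.getD i zR) : ℝ) / U) := by
    intro f g hfg
    unfold mn
    refine sum_le_sum fun i hi => mul_le_mul_of_nonneg_left ?_ (h0 i)
    rw [qq_U]
    refine div_le_div_of_nonneg_right ?_ U_pos.le
    exact_mod_cast hfg i (mem_range.1 hi)
  refine ⟨h0, h1, hk.trans (key _ (fun R => R.S.k) fun i hi => (tck_row h hi).1.1),
    hj.trans (key _ (fun R => R.S.j) fun i hi => (tck_row h hi).1.2.1),
    hl.trans (key _ (fun R => R.S.l) fun i hi => (tck_row h hi).1.2.2.1), ?_⟩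
  unfold sS
  exact hs.trans (key _ (fun R => R.s) fun i hi => (tck_row h hi).1.2.2.2)

omit h in
/-- a sum of affine functions in the chart -/
theorem sAf_eq {n : ℕ} (p : ℕ → P3) (x y : ℝ) : sAf n lam p x y =
    (∑ i ∈ range n, lam i * qq (p i).k) * (1 - x - y) + (∑ i ∈ range n, lam i * qq (p i).j) * x
      + (∑ i ∈ range n, lam i * qq (p i).l) * y := by
  unfold sAf
  rw [sum_mul, sum_mul, sum_mul, ← sum_add_distrib, ← sum_add_distrib]
  refine sum_congr rfl fun i _ => ?_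
  unfold afr
  rw [← qq_U, ← qq_U, ← qq_U]
  ring

omit h in
/-- a demand on the rows is a demand on the mean -/
theorem AF.le_sum {F : AF} {n : ℕ} (h0 : ∀ i, 0 ≤ lam i) (h1 : ∑ i ∈ range n, lam i = 1)
    {f : ℕ → ℕ} (hf : ∀ i < n, F.ck (rs.getD i rn0) (f i) = true) {r : RR}
    (hr : r.Le (mr n lam rs)) : F.ev r ≤ ∑ i ∈ range n, lam i * qq (f i) := by
  refine (F.mono hr).trans ?_
  rw [← F.mean h1]
  exact sum_le_sum fun i hi => mul_le_mul_of_nonneg_left (AF.ck_le (hf i (mem_range.1 hi))) (h0 i)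

variable (h0 : ∀ i, 0 ≤ lam i) (h1 : ∑ i ∈ range Q.rows.length, lam i = 1)
include h0 h1

/-- **the load `li` of the table** -/
theorem ld_ge {r : RR} (hr : r.Le (mr Q.rows.length lam rs)) {li : ℕ} (hli : li < Q.nl) :
    (∃ Dk Dj Dl : ℝ, (∀ x y, Q.D lam li x y = Dk * (1 - x - y) + Dj * x + Dl * y) ∧
      (dK (As.getD li lt0)).ev r ≤ Dk ∧ (∀ F ∈ dJ P (As.getD li lt0), F.ev r ≤ Dj) ∧
      (∀ F ∈ dL P (As.getD li lt0), F.ev r ≤ Dl)) ∧
    (∃ Xk Xj Xl : ℝ, (∀ x y, Q.X lam li x y = Xk * (1 - x - y) + Xj * x + Xl * y) ∧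
      (xK P (As.getD li lt0)).ev r ≤ Xk ∧ (∀ F ∈ xJ P (As.getD li lt0), F.ev r ≤ Xj) ∧
      (∀ F ∈ xL P (As.getD li lt0), F.ev r ≤ Xl)) := by
  have key : ∀ i < Q.rows.length, _ := fun i hi => (tck_row h hi).2.1 li hli
  unfold ldck at key
  simp only [Bool.and_eq_true, List.all_eq_true] at key
  refine ⟨⟨_, _, _, fun x y => sAf_eq _ x y, ?_, ?_, ?_⟩,
    ⟨_, _, _, fun x y => sAf_eq _ x y, ?_, ?_, ?_⟩⟩
  · exact AF.le_sum h0 h1 (fun i hi => (key i hi).1.1.1.1.1) hr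
  · exact fun F hF => AF.le_sum h0 h1 (fun i hi => (key i hi).1.1.1.1.2 F hF) hr
  · exact fun F hF => AF.le_sum h0 h1 (fun i hi => (key i hi).1.1.1.2 F hF) hr
  · exact AF.le_sum h0 h1 (fun i hi => (key i hi).1.1.2) hr
  · exact fun F hF => AF.le_sum h0 h1 (fun i hi => (key i hi).1.2 F hF) hr
  · exact fun F hF => AF.le_sum h0 h1 (fun i hi => (key i hi).2 F hF) hr

/-- **the majorant `ei` of the value** -/
theorem E_ge {r : RR} (hr : r.Le (mr Q.rows.length lam rs)) {x y : ℝ} (hx : 0 ≤ x) (hy : 0 ≤ y)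
    (hxy : x + y ≤ 1) {ei : ℕ} (hei : ei < Q.ne) :
    (Vs.getD ei vt0).k.ev r * (1 - x - y) + (Vs.getD ei vt0).j.ev r * x
      + (Vs.getD ei vt0).l.ev r * y ≤ Q.E lam ei x y := by
  have key : ∀ i < Q.rows.length, _ := fun i hi => (tck_row h hi).2.2 ei hei
  unfold esck at key
  simp only [Bool.and_eq_true] at key
  unfold Cor.E
  rw [sAf_eq]
  have a1 := AF.le_sum h0 h1 (fun i hi => (key i hi).1.1) hr
  have a2 := AF.le_sum h0 h1 (fun i hi => (key i hi).1.2) hr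
  have a3 := AF.le_sum h0 h1 (fun i hi => (key i hi).2) hr
  have b1 := mul_le_mul_of_nonneg_right a1 (show 0 ≤ 1 - x - y by linarith)
  have b2 := mul_le_mul_of_nonneg_right a2 hx
  have b3 := mul_le_mul_of_nonneg_right a3 hy
  linarith

end

end Helper99.MEI
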