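import Pool.Agent.Helper78.MEI.Ebd
import Pool.Agent.Helper93.MEI.F2b

/-!
# Project MEI (M2), w-term: the `D`-form of the certificate of `face_KSM`

At the corner `i` (`x = t_j`, `y = t_l`) the mass deficit is at most
`d0 + κ (min x (N j i + N j l y) + min y (N l i + N l j x)) + (κ N i j + Ca + e1) x +
(κ N i l + Ca + e2) y`: `Ca` bounds the arcs (share `φ` and strips), `d0, e1, e2` the apex.

* `DK κ`: the deficit with the share `κ` of the leaks; `DhM = DK (1/2)` (`inst_F2`),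
  `DM ≤ DK κ` if `1 + nc - μ ≤ κ nc` (`κ = 2/3` for contact points);
* `DK_form`: the form at a corner, for every `κ` in `[0, 1]`;
* `LamM_form`: the same for the price `LamM` of the clipped nodes;
* `D_body`: all three for a placed body, with the parameters of `face_KSM`.
-/

set_option autoImplicit false

namespace Helper99.MEI

open Set Metric MeasureTheory Helper80.CW Helper82.CW Helper14.CW Helper93.MEI Helper78.MEI
open Helper82.M2 Helper14.MEI2 Pool.Agent.Helper52.MEI Pool.Agent.Helper73.MEI Helper41.MEI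
open Pool.Agent.Helper55.Sx (Sim)
open Pool.Agent.Helper55.Mass (LN LN_nonneg vv vv_nonneg vv_le Id)
open Pool.Agent.Helper55.Apex (nc vt_vv)
open Pool.Agent.Helper55.ApexP (PN alP alP_nonneg alP_zeta alP_le xx_mu mu_bal)
open Pool.Agent.Helper55.Fill (xx rr rr_nonneg xx_nonneg xx_le xx_feas)
open Pool.Agent.Helper73.MEI.SideP (flP flP_nonneg flP_zero flP_pair)
open Pool.Agent.Helper96.Kap (kap kap_nonneg kap_add)
open Pool.Agent.Helper31.SR
open Helper75.MEI2 (mu vt)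
open scoped RealInnerProductSpace ENNReal

/-- a sum over three indices -/
theorem sum3 (f : Fin 3 → ℝ) {i j l : Fin 3} (hij : i ≠ j) (hil : i ≠ l) (hjl : j ≠ l) :
    f 0 + f 1 + f 2 = f i + f j + f l := by
  fin_cases i <;> fin_cases j <;> fin_cases l <;> simp at hij hil hjl ⊢ <;> ring

/-- the leaks onto a wall -/
theorem LN3 (N : Fin 3 → Fin 3 → ℝ) (b : Fin 3 → ℝ) (k : Fin 3) {i j l : Fin 3} (hij : i ≠ j)
    (hil : i ≠ l) (hjl : j ≠ l) : LN N b k = N k i * b i + N k j * b j + N k l * b l := by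
  unfold LN
  exact sum3 (fun m => N k m * b m) hij hil hjl

theorem vv_sum (t : ℝ × ℝ) : vv t 0 + vv t 1 + vv t 2 = 1 := by
  rw [← T3_vv, ← T3_vv, ← T3_vv]
  show t.1 + t.2 + (1 - t.1 - t.2) = 1
  ring

/-- the deficit of the certificate `GM` with the share `κ` of the leaks -/
noncomputable def DK (κ A' : ℝ) (N : Fin 3 → Fin 3 → ℝ) (ζ ζp : Fin 3 → ℝ) (lam : ℝ)
    (hf kf : Fin 3 → ℝ × ℝ → ℝ) (β : Fin 3 → ℝ) (M : Fin 3 → Fin 3 → ℝ) (sm : Fin 3 → ℝ)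
    (t : ℝ × ℝ) : ℝ :=
  κ * Dmin N (vv t)
    + lam * alP N ζp t * ((∑ k, (ζ k + (1 - κ) * LN N ζ k)) - 1)
    + ∑ p, ash hf (fun p => Id (hf p)) β A' p t *
        ((∑ k, (M p k + (1 - κ) * LN N (M p) k)) - sm p)
    + ∑ p, ((M p 0 + M p 1 + M p 2) - sm p) * ast kf (fun p => Id (kf p)) β A' p t

/-- the deficit of `inst_F2` is the case `κ = 1/2` -/
theorem DhM_eq_DK (A' : ℝ) (N : Fin 3 → Fin 3 → ℝ) (ζ ζp : Fin 3 → ℝ) (lam : ℝ)
    (hf kf : Fin 3 → ℝ × ℝ → ℝ) (β : Fin 3 → ℝ) (M : Fin 3 → Fin 3 → ℝ) (sm : Fin 3 → ℝ)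
    (t : ℝ × ℝ) :
    DhM A' N ζ ζp lam hf kf β M sm t = DK (1 / 2) A' N ζ ζp lam hf kf β M sm t := by
  unfold DhM Dh DK
  simp only [Finset.univ_unique, Finset.sum_singleton, Fin.sum_univ_three]
  ring

section abs
variable {N : Fin 3 → Fin 3 → ℝ} (hN : ∀ k m, 0 ≤ N k m) (hd : ∀ k, N k k = 0) {c : ℝ}
  (hc : c < 1) (hcol : ∀ m, nc N m ≤ c)
include hN hd hc hcol

/-- the side functions are below the loads -/
theorem flP_xx {t : ℝ × ℝ} (ht : t ∈ Sim) {i j l : Fin 3} (hij : i ≠ j) (hil : i ≠ l)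
    (hjl : j ≠ l) : flP (PN N) i t + flP (PN N) l t ≤ xx N (vv t) j := by
  by_cases h : ∀ k, 0 ≤ mu (PN N) (vt t) k
  · have h2 : ∀ k, xx N (vv t) k = mu (PN N) (vt t) k := by
      intro k
      rw [← vt_vv, xx_mu hN hd hc hcol h]
    obtain ⟨p0, p1, p2⟩ := flP_pair (P := PN N) h
    rw [h2]
    fin_cases i <;> fin_cases j <;> fin_cases l <;> simp at hij hil hjl ⊢ <;> linarith
  · have h0 := xx_nonneg hN hc hcol (fun k => vv_nonneg ht k) j
    rw [flP_zero (by push Not at h; exact h) i, flP_zero (by push Not at h; exact h) l]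
    linarith

omit hc hcol in
/-- the bound of Dmin at a corner -/
theorem Dmin_corner {t : ℝ × ℝ} (ht : t ∈ Sim) {i j l : Fin 3} (hij : i ≠ j) (hil : i ≠ l)
    (hjl : j ≠ l) : Dmin N (vv t) ≤
      min (vv t j) (N j i + N j l * vv t l) + min (vv t l) (N l i + N l j * vv t j)
        + (N i j * vv t j + N i l * vv t l) := by
  have hb : ∀ k, 0 ≤ vv t k := fun k => vv_nonneg ht k
  unfold Dmin
  rw [sum3 (fun k => min (vv t k) (LN N (vv t) k)) hij hil hjl]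
  have e : ∀ k, LN N (vv t) k = N k i * vv t i + N k j * vv t j + N k l * vv t l := fun k =>
    LN3 N (vv t) k hij hil hjl
  have g1 : ∀ k, N k i * vv t i ≤ N k i := fun k => by
    have := mul_le_mul_of_nonneg_left (vv_le ht i) (hN k i)
    linarith
  have g2 : min (vv t i) (LN N (vv t) i) ≤ N i j * vv t j + N i l * vv t l := by
    refine (min_le_right _ _).trans ?_
    rw [e, hd, zero_mul, zero_add]
  have g3 : min (vv t j) (LN N (vv t) j) ≤ min (vv t j) (N j i + N j l * vv t l) := by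
    refine min_le_min_left _ ?_
    rw [e, hd, zero_mul, add_zero]
    have := g1 j
    linarith
  have g4 : min (vv t l) (LN N (vv t) l) ≤ min (vv t l) (N l i + N l j * vv t j) := by
    refine min_le_min_left _ ?_
    rw [e, hd, zero_mul, add_zero]
    have := g1 l
    linarith
  linarith

/-- the plain deficit is at most `DK κ` -/
theorem DM_le_DK {κ : ℝ} (hκ : 0 ≤ κ) {μ : Fin 3 → ℝ}
    (hμ : ∀ k, 1 + nc N k - μ k ≤ κ * nc N k)
    {A' φ lam : ℝ} (hA' : 0 < A') (hφ : 0 < φ) (hl0 : 0 ≤ lam) (hl1 : lam ≤ 1 - φ)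
    {ζ ζp : Fin 3 → ℝ} (hζp : ∀ k, 0 < ζp k) (hζ : ∀ k, ζ k ≤ ζp k)
    {β ρ : Fin 3 → ℝ} (hβ1 : ∀ p, β p ≤ 1) (hρ : ∀ p, 0 < ρ p)
    {M : Fin 3 → Fin 3 → ℝ} (hMd : ∀ p, M p p = 0) (hMρ : ∀ p k, k ≠ p → M p k ≤ ρ p)
    (hF : ∀ p, (1 - β p) * ρ p ≤ φ * (A' * Id (flP (PN N) p)))
    {kf : Fin 3 → ℝ × ℝ → ℝ} {sm : Fin 3 → ℝ} {t : ℝ × ℝ} (ht : t ∈ Sim) :
    DM A' N ζ ζp lam (fun p t => φ * flP (PN N) p t) kf β M μ sm t ≤
      DK κ A' N ζ ζp lam (fun p t => φ * flP (PN N) p t) kf β M sm t := by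
  have hF0 : ∀ p, 0 < Id (flP (PN N) p) := fun p => by
    have h1 := Pool.Agent.Helper73.MEI.SideP.flN_mass hN hd hc hcol p
    have h2 := Pool.Agent.Helper55.ApexP.PN_det_pos hN hd hc hcol
    have h3 := Pool.Agent.Helper73.MEI.SideP.mbN_ge hN p
    refine lt_of_lt_of_le ?_ h1
    have h4 : 0 < Pool.Agent.Helper73.MEI.SideP.mbN N p := by linarith
    positivity
  have eI : ∀ p, Id (fun t => φ * flP (PN N) p t) = φ * Id (flP (PN N) p) := fun p =>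
    Pool.Agent.Helper55.Mass.Id_const φ _
  have hF0' : ∀ p, 0 < Id (fun t => φ * flP (PN N) p t) := fun p => by
    rw [eI]
    exact mul_pos hφ (hF0 p)
  have hF' : ∀ p, (1 - β p) * ρ p ≤ A' * Id (fun t => φ * flP (PN N) p t) := fun p => by
    rw [eI]
    have := hF p
    linarith
  have hf0 : ∀ p, ∀ t, 0 ≤ φ * flP (PN N) p t := fun p t => mul_nonneg hφ.le (flP_nonneg p t)
  have hMρ' : ∀ p k, M p k ≤ ρ p := fun p k => by
    by_cases h : k = p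
    · rw [h, hMd]
      exact (hρ p).le
    · exact hMρ p k h
  have hx : ∀ k, ∑ m : Unit, lam * alP N ζp t * ζ k +
      ∑ p, ash (fun p t => φ * flP (PN N) p t) (fun p => Id (fun t => φ * flP (PN N) p t)) β A'
        p t * M p k ≤ xx N (vv t) k := by
    intro k
    simp only [Finset.univ_unique, Finset.sum_singleton]
    refine ash_feas4 (F := fun p => Id (fun t => φ * flP (PN N) p t)) hN hd hc hcol hζp hζ
      (hf := fun p t => φ * flP (PN N) p t) hf0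
      (fun p t ht => by
        show φ * flP (PN N) p t = 0
        rw [flP_zero (by push Not at ht; exact ht) p, mul_zero])
      (fun t ht k => by
        obtain ⟨p0, p1, p2⟩ := flP_pair (P := PN N) ht
        have ha := mul_le_mul_of_nonneg_left (alP_zeta hζp ht k) hl0
        have ha2 := mul_le_mul_of_nonneg_right hl1 (ht k)
        have hfk : (flP (PN N) 0 t + flP (PN N) 1 t + flP (PN N) 2 t) - flP (PN N) k t ≤
            mu (PN N) (vt t) k := by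
          fin_cases k
          · simp only [Fin.zero_eta]
            linarith
          · simp only [Fin.mk_one]
            linarith
          · simp only [Fin.reduceFinMk]
            linarith
        have hfk' := mul_le_mul_of_nonneg_left hfk hφ.le
        linarith) hl0 hA' hF0' hβ1 hF' hMd hMρ' ht k
  have key := Dg_le (ι := Unit) (al := fun _ t => lam * alP N ζp t) (ζ := fun _ => ζ)
    (μx := fun _ => 1) (sm := sm) (g := ast kf (fun p => Id (kf p)) β A') hN hc hcol hκ hμ ht hx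
  simp only [Finset.univ_unique, Finset.sum_singleton] at key
  unfold DM DK
  exact key

/-- **the `D`-form at a corner** -/
theorem DK_form {κ : ℝ} (hκ : 0 ≤ κ) (hκ1 : κ ≤ 1) {cN : ℝ} (hcN : ∀ m, nc N m ≤ cN)
    {A' φ lam : ℝ} (hA' : 0 < A') (hφ : 0 < φ) (hl0 : 0 ≤ lam)
    {ζ ζp : Fin 3 → ℝ} (hζp : ∀ k, 0 < ζp k)
    {β ρ : Fin 3 → ℝ} (hβ0 : ∀ p, 0 ≤ β p) (hβ1 : ∀ p, β p ≤ 1) (hρ : ∀ p, 0 < ρ p)
    {M : Fin 3 → Fin 3 → ℝ} (hM0 : ∀ p k, 0 ≤ M p k) (hMd : ∀ p, M p p = 0)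
    (hMρ : ∀ p k, k ≠ p → M p k ≤ ρ p)
    (hK : ∀ p, β p * ρ p ≤ A' * Id (fun t => kap N (vv t) p))
    (hF : ∀ p, (1 - β p) * ρ p ≤ φ * (A' * Id (flP (PN N) p)))
    {am dm : Fin 3 → ℝ} {ω η : ℝ} (hω0 : 0 ≤ ω) (hη0 : 0 ≤ η)
    (hω : ∀ p, (M p 0 + M p 1 + M p 2) - am p ≤ ω * (M p 0 + M p 1 + M p 2))
    (hη : ∀ p, dm p ≤ η * ρ p)
    {ea : ℝ} (hea : (∑ k, (ζ k + (1 - κ) * LN N ζ k)) - 1 ≤ ea)
    {Ca : ℝ} (hC1 : φ * (2 * ω + η + 2 * (1 - κ) * cN) ≤ Ca)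
    (hC2 : (∀ p, β p = 0) ∨ 2 * ω + η ≤ Ca)
    {d0 e1 e2 : ℝ} (hd0 : 0 ≤ d0) (he1 : 0 ≤ e1) (he2 : 0 ≤ e2)
    {t : ℝ × ℝ} (ht : t ∈ Sim) {i j l : Fin 3} (hij : i ≠ j) (hil : i ≠ l) (hjl : j ≠ l)
    (hap : lam * ea ≤ d0 * (ζp 0 + ζp 1 + ζp 2) + e1 * ζp j + e2 * ζp l) :
    DK κ A' N ζ ζp lam (fun p t => φ * flP (PN N) p t) (fun p t => kap N (vv t) p) β M
        (fun p => am p - dm p) t ≤
      d0 + κ * (min (vv t j) (N j i + N j l * vv t l) + min (vv t l) (N l i + N l j * vv t j))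
        + (κ * N i j + Ca + e1) * vv t j + (κ * N i l + Ca + e2) * vv t l := by
  have hb : ∀ k, 0 ≤ vv t k := fun k => vv_nonneg ht k
  have hF0 : ∀ p, 0 < Id (flP (PN N) p) := fun p => by
    have h1 := Pool.Agent.Helper73.MEI.SideP.flN_mass hN hd hc hcol p
    have h2 := Pool.Agent.Helper55.ApexP.PN_det_pos hN hd hc hcol
    have h3 := Pool.Agent.Helper73.MEI.SideP.mbN_ge hN p
    refine lt_of_lt_of_le ?_ h1
    have h4 : 0 < Pool.Agent.Helper73.MEI.SideP.mbN N p := by linarith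
    positivity
  have eI : ∀ p, Id (fun t => φ * flP (PN N) p t) = φ * Id (flP (PN N) p) := fun p =>
    Pool.Agent.Helper55.Mass.Id_const φ _
  have hF0' : ∀ p, 0 < Id (fun t => φ * flP (PN N) p t) := fun p => by
    rw [eI]
    exact mul_pos hφ (hF0 p)
  have hF' : ∀ p, (1 - β p) * ρ p ≤ A' * Id (fun t => φ * flP (PN N) p t) := fun p => by
    rw [eI]
    have := hF p
    linarith
  have hf0 : ∀ p, ∀ t, 0 ≤ φ * flP (PN N) p t := fun p t => mul_nonneg hφ.le (flP_nonneg p t)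
  have hκ0 : ∀ p, ∀ t ∈ Sim, 0 ≤ kap N (vv t) p := fun p t ht =>
    kap_nonneg hN hc hcol (fun k => vv_nonneg ht k) p
  have hK0 : ∀ p, 0 ≤ Id (fun t => kap N (vv t) p) := fun p => by
    unfold Pool.Agent.Helper55.Mass.Id
    refine mul_nonneg (by positivity) (setIntegral_nonneg
      Pool.Agent.Helper55.Sx.Sim_meas fun t ht => ?_)
    exact div_nonneg (hκ0 p t ht) (by positivity)
  have hMρ' : ∀ p k, M p k ≤ ρ p := fun p k => by
    by_cases h : k = p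
    · rw [h, hMd]
      exact (hρ p).le
    · exact hMρ p k h
  have cN0 : 0 ≤ cN := by
    refine le_trans ?_ (hcN 0)
    unfold nc
    have := hN 0 0
    have := hN 1 0
    have := hN 2 0
    linarith
  -- the weights of the arcs
  obtain ⟨α, hα⟩ : ∃ α : Fin 3 → ℝ × ℝ → ℝ,
      α = ash (fun p t => φ * flP (PN N) p t) (fun p => Id (fun t => φ * flP (PN N) p t)) β A' :=
    ⟨_, rfl⟩
  obtain ⟨g, hg⟩ : ∃ g : Fin 3 → ℝ × ℝ → ℝ,
      g = ast (fun p t => kap N (vv t) p) (fun p => Id (fun t => kap N (vv t) p)) β A' := ⟨_, rfl⟩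
  have α0 : ∀ p, 0 ≤ α p t := fun p => by
    rw [hα]
    exact ash_nonneg hf0 hA' hF0' hβ1 p t
  have g0 : ∀ p, 0 ≤ g p t := fun p => by
    rw [hg]
    exact ast_nonneg hκ0 hA' hβ0 hK0 p ht
  have αρ : ∀ p, α p t * ρ p ≤ φ * flP (PN N) p t := fun p => by
    have hAF : 0 < A' * Id (fun t => φ * flP (PN N) p t) := mul_pos hA' (hF0' p)
    have q0 : 0 ≤ φ * flP (PN N) p t / (A' * Id (fun t => φ * flP (PN N) p t)) :=
      div_nonneg (hf0 p t) hAF.le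
    have q1 := mul_le_mul_of_nonneg_left (hF' p) q0
    have q2 : φ * flP (PN N) p t / (A' * Id (fun t => φ * flP (PN N) p t)) *
        (A' * Id (fun t => φ * flP (PN N) p t)) = φ * flP (PN N) p t :=
      div_mul_cancel₀ _ hAF.ne'
    rw [hα]
    unfold ash
    linarith
  have gρ : ∀ p, g p t * ρ p ≤ kap N (vv t) p := fun p => by
    have hk := hκ0 p t ht
    rw [hg]
    unfold ast
    rcases eq_or_lt_of_le (mul_nonneg hA'.le (hK0 p)) with e | hpos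
    · rw [← e, div_zero, mul_zero, zero_mul]
      exact hk
    · have q0 : 0 ≤ kap N (vv t) p / (A' * Id (fun t => kap N (vv t) p)) :=
        div_nonneg hk hpos.le
      have q1 := mul_le_mul_of_nonneg_left (hK p) q0
      have q2 : kap N (vv t) p / (A' * Id (fun t => kap N (vv t) p)) *
          (A' * Id (fun t => kap N (vv t) p)) = kap N (vv t) p := div_mul_cancel₀ _ hpos.ne'
      linarith
  have key : DK κ A' N ζ ζp lam (fun p t => φ * flP (PN N) p t) (fun p t => kap N (vv t) p) β M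
      (fun p => am p - dm p) t = κ * Dmin N (vv t)
      + lam * alP N ζp t * ((∑ k, (ζ k + (1 - κ) * LN N ζ k)) - 1)
      + ∑ p, α p t * ((∑ k, (M p k + (1 - κ) * LN N (M p) k)) - (am p - dm p))
      + ∑ p, ((M p 0 + M p 1 + M p 2) - (am p - dm p)) * g p t := by
    rw [hα, hg]
    rfl
  rw [key]
  -- nodes
  have n1 := mul_le_mul_of_nonneg_left (Dmin_corner hN hd ht hij hil hjl) hκ
  -- apex
  have ap : lam * alP N ζp t * ((∑ k, (ζ k + (1 - κ) * LN N ζ k)) - 1) ≤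
      d0 + e1 * vv t j + e2 * vv t l := by
    have h0 := alP_nonneg (N := N) hζp t
    have h1 := mul_le_mul_of_nonneg_left hea (mul_nonneg hl0 h0)
    have h2 := mul_le_mul_of_nonneg_left hap h0
    have h3 : ∀ k, alP N ζp t * ζp k ≤ vv t k := fun k =>
      (alP_le hN hd hc hcol hζp (fun _ => le_rfl) ht k).trans (xx_le hN hc hcol hb k)
    have h4 : alP N ζp t * (d0 * (ζp 0 + ζp 1 + ζp 2)) ≤ d0 := by
      have k0 := h3 0
      have k1 := h3 1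
      have k2 := h3 2
      have k3 := vv_sum t
      have k4 : alP N ζp t * (ζp 0 + ζp 1 + ζp 2) ≤ 1 := by linarith
      have k5 := mul_le_mul_of_nonneg_left k4 hd0
      linarith
    have h5 := mul_le_mul_of_nonneg_left (h3 j) he1
    have h6 := mul_le_mul_of_nonneg_left (h3 l) he2
    linarith
  -- arcs
  have M2 : ∀ p, M p 0 + M p 1 + M p 2 ≤ 2 * ρ p := by
    intro p
    have m0 := hMρ' p 0
    have m1 := hMρ' p 1
    have m2 := hMρ' p 2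
    have md := hMd p
    fin_cases p
    · simp only [Fin.zero_eta] at m0 m1 m2 md ⊢
      linarith
    · simp only [Fin.mk_one] at m0 m1 m2 md ⊢
      linarith
    · simp only [Fin.reduceFinMk] at m0 m1 m2 md ⊢
      linarith
  have C1n : 0 ≤ 2 * ω + η + 2 * (1 - κ) * cN := by
    have := mul_nonneg (sub_nonneg.2 hκ1) cN0
    linarith
  have arcF : ∀ p, α p t * ((∑ k, (M p k + (1 - κ) * LN N (M p) k)) - (am p - dm p)) ≤
      (2 * ω + η + 2 * (1 - κ) * cN) * (φ * flP (PN N) p t) := by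
    intro p
    have q1 : (∑ k, (M p k + (1 - κ) * LN N (M p) k)) - (am p - dm p) ≤
        (2 * ω + η + 2 * (1 - κ) * cN) * ρ p := by
      have s1 := sum_nc N (M p)
      have s2 := hω p
      have s3 := hη p
      have s4 := M2 p
      have s5 : M p 0 * nc N 0 + M p 1 * nc N 1 + M p 2 * nc N 2 ≤
          cN * (M p 0 + M p 1 + M p 2) := by
        have k0 := mul_le_mul_of_nonneg_left (hcN 0) (hM0 p 0)
        have k1 := mul_le_mul_of_nonneg_left (hcN 1) (hM0 p 1)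
        have k2 := mul_le_mul_of_nonneg_left (hcN 2) (hM0 p 2)
        linarith
      have s6 := mul_le_mul_of_nonneg_left s4 hω0
      have s7 := mul_le_mul_of_nonneg_left s4 cN0
      have s8 := mul_le_mul_of_nonneg_left (s5.trans s7) (sub_nonneg.2 hκ1)
      rw [s1] at s8
      simp only [Fin.sum_univ_three]
      linarith
    have q2 := mul_le_mul_of_nonneg_left q1 (α0 p)
    have q3 := mul_le_mul_of_nonneg_left (αρ p) C1n
    linarith
  have arcK : ∀ p, ((M p 0 + M p 1 + M p 2) - (am p - dm p)) * g p t ≤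
      (2 * ω + η) * kap N (vv t) p := by
    intro p
    have q1 : (M p 0 + M p 1 + M p 2) - (am p - dm p) ≤ (2 * ω + η) * ρ p := by
      have s2 := hω p
      have s3 := hη p
      have s6 := mul_le_mul_of_nonneg_left (M2 p) hω0
      linarith
    have q2 := mul_le_mul_of_nonneg_right q1 (g0 p)
    have q3 := mul_le_mul_of_nonneg_left (gρ p) (show 0 ≤ 2 * ω + η by linarith)
    linarith
  have sF : ∑ p, α p t * ((∑ k, (M p k + (1 - κ) * LN N (M p) k)) - (am p - dm p)) ≤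
      Ca * (xx N (vv t) j + xx N (vv t) l) := by
    have a1 := Finset.sum_le_sum (s := Finset.univ) fun p _ => arcF p
    refine a1.trans ?_
    rw [Fin.sum_univ_three (f := fun p => (2 * ω + η + 2 * (1 - κ) * cN) * (φ * flP (PN N) p t)),
      sum3 (fun p => (2 * ω + η + 2 * (1 - κ) * cN) * (φ * flP (PN N) p t)) hij hil hjl]
    have b1 := flP_xx hN hd hc hcol ht hij hil hjl
    have b2 := flP_xx hN hd hc hcol ht hil hij hjl.symm
    have b3 := flP_nonneg (P := PN N) i t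
    have b4 : flP (PN N) i t + flP (PN N) j t + flP (PN N) l t ≤
        xx N (vv t) j + xx N (vv t) l := by linarith
    have b5 := mul_le_mul_of_nonneg_left b4 (mul_nonneg hφ.le C1n)
    have b6 := mul_le_mul_of_nonneg_right hC1
      (add_nonneg (xx_nonneg hN hc hcol hb j) (xx_nonneg hN hc hcol hb l))
    linarith
  have Ca0 : 0 ≤ Ca := (mul_nonneg hφ.le C1n).trans hC1
  have sK : ∑ p, ((M p 0 + M p 1 + M p 2) - (am p - dm p)) * g p t ≤
      Ca * (rr N (vv t) j + rr N (vv t) l) := by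
    have r0 := add_nonneg (rr_nonneg hN hc hcol hb j) (rr_nonneg hN hc hcol hb l)
    rcases hC2 with hz | hC2
    · have e : ∀ p, ((M p 0 + M p 1 + M p 2) - (am p - dm p)) * g p t = 0 := by
        intro p
        rw [hg]
        unfold ast
        rw [hz p, zero_mul, mul_zero]
      rw [Finset.sum_eq_zero fun p _ => e p]
      exact mul_nonneg Ca0 r0
    · have a1 := Finset.sum_le_sum (s := Finset.univ) fun p _ => arcK p
      refine a1.trans ?_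
      rw [Fin.sum_univ_three (f := fun p => (2 * ω + η) * kap N (vv t) p),
        sum3 (fun p => (2 * ω + η) * kap N (vv t) p) hij hil hjl]
      have b1 := kap_add hN hc hcol hb (j := i) (l := l) (k := j) hil hij hjl.symm
      have b2 := kap_add hN hc hcol hb (j := i) (l := j) (k := l) hij hil hjl
      have b3 := hκ0 i t ht
      have b4 : kap N (vv t) i + kap N (vv t) j + kap N (vv t) l ≤
          rr N (vv t) j + rr N (vv t) l := by linarith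
      have b5 := mul_le_mul_of_nonneg_left b4 (show 0 ≤ 2 * ω + η by linarith)
      have b6 := mul_le_mul_of_nonneg_right hC2 r0
      linarith
  have xr : ∀ k, xx N (vv t) k + rr N (vv t) k ≤ vv t k := by
    intro k
    have h1 := LN_nonneg hN (xx_nonneg hN hc hcol hb) k
    unfold rr
    linarith
  have x1 := mul_le_mul_of_nonneg_left (xr j) Ca0
  have x2 := mul_le_mul_of_nonneg_left (xr l) Ca0
  linarith

/-- **the price of the clipped nodes at a corner** -/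
theorem LamM_form {A' φ lam : ℝ} (hA' : 0 < A') (hφ : 0 < φ) (hl0 : 0 ≤ lam)
    {ζ ζp : Fin 3 → ℝ} (hζp : ∀ k, 0 < ζp k)
    {β : Fin 3 → ℝ} (hβ1 : ∀ p, β p ≤ 1)
    {M : Fin 3 → Fin 3 → ℝ} (hM0 : ∀ p k, 0 ≤ M p k)
    {pn : ℝ} (hpn : -(∑ k, LN N ζ k) ≤ pn)
    {f0 f1 f2 : ℝ} (hf0 : 0 ≤ f0) (hf1 : 0 ≤ f1) (hf2 : 0 ≤ f2)
    {t : ℝ × ℝ} (ht : t ∈ Sim) {i j l : Fin 3} (hij : i ≠ j) (hil : i ≠ l) (hjl : j ≠ l)
    (hap : lam * pn ≤ f0 * (ζp 0 + ζp 1 + ζp 2) + f1 * ζp j + f2 * ζp l) :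
    LamM A' N ζ ζp lam (fun p t => φ * flP (PN N) p t) β M t ≤
      f0 + (min (vv t j) (N j i + N j l * vv t l) + min (vv t l) (N l i + N l j * vv t j))
        + (N i j + f1) * vv t j + (N i l + f2) * vv t l := by
  have hb : ∀ k, 0 ≤ vv t k := fun k => vv_nonneg ht k
  have hF0 : ∀ p, 0 < Id (flP (PN N) p) := fun p => by
    have h1 := Pool.Agent.Helper73.MEI.SideP.flN_mass hN hd hc hcol p
    have h2 := Pool.Agent.Helper55.ApexP.PN_det_pos hN hd hc hcol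
    have h3 := Pool.Agent.Helper73.MEI.SideP.mbN_ge hN p
    refine lt_of_lt_of_le ?_ h1
    have h4 : 0 < Pool.Agent.Helper73.MEI.SideP.mbN N p := by linarith
    positivity
  have eI : ∀ p, Id (fun t => φ * flP (PN N) p t) = φ * Id (flP (PN N) p) := fun p =>
    Pool.Agent.Helper55.Mass.Id_const φ _
  have hF0' : ∀ p, 0 < Id (fun t => φ * flP (PN N) p t) := fun p => by
    rw [eI]
    exact mul_pos hφ (hF0 p)
  have hff : ∀ p, ∀ t, 0 ≤ φ * flP (PN N) p t := fun p t => mul_nonneg hφ.le (flP_nonneg p t)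
  obtain ⟨α, hα⟩ : ∃ α : Fin 3 → ℝ × ℝ → ℝ,
      α = ash (fun p t => φ * flP (PN N) p t) (fun p => Id (fun t => φ * flP (PN N) p t)) β A' :=
    ⟨_, rfl⟩
  have α0 : ∀ p, 0 ≤ α p t := fun p => by
    rw [hα]
    exact ash_nonneg hff hA' hF0' hβ1 p t
  have key : LamM A' N ζ ζp lam (fun p t => φ * flP (PN N) p t) β M t =
      Dmin N (vv t) - (lam * alP N ζp t * (∑ k, LN N ζ k) + ∑ p, α p t * (∑ k, LN N (M p) k)) := by
    rw [hα]
    unfold LamM Lam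
    simp only [Finset.univ_unique, Finset.sum_singleton]
  have n1 := Dmin_corner hN hd ht hij hil hjl
  have s1 : 0 ≤ ∑ p, α p t * (∑ k, LN N (M p) k) :=
    Finset.sum_nonneg fun p _ => mul_nonneg (α0 p)
      (Finset.sum_nonneg fun k _ => LN_nonneg hN (hM0 p) k)
  have ap : -(lam * alP N ζp t * (∑ k, LN N ζ k)) ≤ f0 + f1 * vv t j + f2 * vv t l := by
    have h0 := alP_nonneg (N := N) hζp t
    have h1 := mul_le_mul_of_nonneg_left hpn (mul_nonneg hl0 h0)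
    have h2 := mul_le_mul_of_nonneg_left hap h0
    have h3 : ∀ k, alP N ζp t * ζp k ≤ vv t k := fun k =>
      (alP_le hN hd hc hcol hζp (fun _ => le_rfl) ht k).trans (xx_le hN hc hcol hb k)
    have h4 : alP N ζp t * (f0 * (ζp 0 + ζp 1 + ζp 2)) ≤ f0 := by
      have k0 := h3 0
      have k1 := h3 1
      have k2 := h3 2
      have k3 := vv_sum t
      have k4 : alP N ζp t * (ζp 0 + ζp 1 + ζp 2) ≤ 1 := by linarith
      have k5 := mul_le_mul_of_nonneg_left k4 hf0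
      linarith
    have h5 := mul_le_mul_of_nonneg_left (h3 j) hf1
    have h6 := mul_le_mul_of_nonneg_left (h3 l) hf2
    linarith
  rw [key]
  linarith

end abs

/-! ### placed bodies -/

section zc
variable {N : Fin 3 → Fin 3 → ℝ} {a' : Fin 4 → E3} {x : E3} {ζ : Fin 3 → ℝ}

/-- leaks of the exact contact coordinates from below -/
theorem LN_zc_ge (hN : ∀ k m, 0 ≤ N k m) {cN zn : ℝ} (hcN : ∀ m, nc N m ≤ cN)
    (hzn : pp (-ζ 0) + pp (-ζ 1) + pp (-ζ 2) ≤ zn) : -(∑ k, LN N ζ k) ≤ cN * zn := by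
  have e := sum_nc N ζ
  have n0 : ∀ m, 0 ≤ nc N m := fun m => by
    unfold nc
    have := hN 0 m
    have := hN 1 m
    have := hN 2 m
    linarith
  have g : ∀ m, -(ζ m * nc N m) ≤ cN * pp (-ζ m) := fun m => by
    have h1 := mul_le_mul_of_nonneg_right (le_pp (-ζ m)) (n0 m)
    have h2 := mul_le_mul_of_nonneg_right (hcN m) (pp_nonneg (-ζ m))
    linarith
  have g0 := g 0
  have g1 := g 1
  have g2 := g 2
  have c0 : 0 ≤ cN := (n0 0).trans (hcN 0)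
  have g3 := mul_le_mul_of_nonneg_left hzn c0
  rw [Fin.sum_univ_three]
  linarith

/-- the deficit of the apex with the share `κ` of the leaks -/
theorem zc_ea (hg : Gram4 (al a')) (hN : ∀ k m, 0 ≤ N k m) {κ : ℝ} (hκ : 0 ≤ κ)
    (hbal : ∀ k, ζ k + LN N ζ k = b3 a' x k)
    {cN zn b0 : ℝ} (hcN : ∀ m, nc N m ≤ cN) (hzn : pp (-ζ 0) + pp (-ζ 1) + pp (-ζ 2) ≤ zn)
    (hb0 : -bar a' 0 x ≤ b0) :
    (∑ k, (ζ k + (1 - κ) * LN N ζ k)) - 1 ≤ b0 + κ * (cN * zn) := by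
  have h1 := LN_zc_ge (ζ := ζ) hN hcN hzn
  have h2 := mul_le_mul_of_nonneg_left h1 hκ
  have h3 := b3_sum hg x
  rw [← hbal 0, ← hbal 1, ← hbal 2] at h3
  rw [Fin.sum_univ_three] at h2 ⊢
  linarith

end zc

section body
variable {a : Fin 4 → E3} {K : Set E3} {S : Fin 4 → ℝ} {σ : Measure (E3 × E3)}
  {c : Fin 4 → E3} {z : Fin 4 → Fin 4 → E3} {l : Fin 3 → Bool → Bool → E3 × E3 → ℝ}

/-- sum of the columns of an arc against its mass -/
theorem MA_sum [IsFiniteMeasure σ] (ha : ∀ i j, i ≠ j → dist (a i) (a j) = 1) (hl : Lok a l)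
    (hK : IsCompact K) (hσ : ∀ᵐ z ∂σ, z.1 ∈ K ∧ z.2 ∈ K) (hp : ∀ x ∈ K, Pl a x) {s : ℝ}
    (hs : 0 ≤ s) (hQ : ∀ i, ∀ x ∈ K, Qv a i x ≤ s) (τ : Equiv.Perm (Fin 4)) (p : Fin 3) :
    MA σ a l τ p 0 + MA σ a l τ p 1 + MA σ a l τ p 2 ≤
      √(3 / 2 + 2 * s) * am σ a l (τ 0) (τ p.succ) := by
  have hne : τ 0 ≠ τ p.succ := fun h => (Fin.succ_ne_zero p) (τ.injective h).symm
  have hv := idx_vx (τ 0) (τ p.succ) hne
  have h1 := sM_sum_pp ha hl hK hσ hp hs hQ (idx (τ 0) (τ p.succ)).1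
    (idx (τ 0) (τ p.succ)).2.1 (idx (τ 0) (τ p.succ)).2.2
  rw [hv.1, ← Equiv.sum_comp τ, Fin.sum_univ_four] at h1
  have h : ∀ k : Fin 4, k ≠ 0 → τ k ≠ τ 0 := fun k hk h => hk (τ.injective h)
  rw [if_pos rfl, if_neg (h 1 (by decide)), if_neg (h 2 (by decide)), if_neg (h 3 (by decide)),
    zero_add] at h1
  exact h1

/-- the mass deficit of an arc is at most the share `ω` of its columns -/
theorem MB_def [IsFiniteMeasure σ] (h : CN K σ a c) (v : Viol K a S) (hl : Lok a l)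
    (τ : Equiv.Perm (Fin 4)) {s χ ω : ℝ} (hS : ∀ i, S i ≤ s) (hχ0 : 0 ≤ χ)
    (hχ : 3 / 2 + 2 * s ≤ χ ^ 2) (hω : (1 - ω) * χ ≤ 1) (p : Fin 3) :
    (MB σ a l τ p 0 + MB σ a l τ p 1 + MB σ a l τ p 2) - am σ a l (τ 0) (τ p.succ) ≤
      ω * (MB σ a l τ p 0 + MB σ a l τ p 1 + MB σ a l τ p 2) := by
  have hs : 0 ≤ s := (v.nn 0).trans (hS 0)
  have h1 := MA_sum h.ha hl h.cpt h.pm.mem h.hp hs (fun i x hx => (v.le i x hx).trans (hS i)) τ p
  have ha := am_nonneg (σ := σ) hl (τ 0) (τ p.succ)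
  have h2 : √(3 / 2 + 2 * s) ≤ χ := Real.sqrt_le_iff.2 ⟨hχ0, hχ⟩
  have h3 := h1.trans (mul_le_mul_of_nonneg_right h2 ha)
  have hle : ∀ k, MB σ a l τ p k ≤ MA σ a l τ p k := fun k => by
    unfold MB
    split_ifs
    · exact MA_nonneg τ p k
    · exact le_rfl
  have h4 : MB σ a l τ p 0 + MB σ a l τ p 1 + MB σ a l τ p 2 ≤
      χ * am σ a l (τ 0) (τ p.succ) := by
    have := hle 0
    have := hle 1
    have := hle 2
    linarith
  have b0 := MB_nonneg (σ := σ) (a := a) (l := l) τ p 0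
  have b1 := MB_nonneg (σ := σ) (a := a) (l := l) τ p 1
  have b2 := MB_nonneg (σ := σ) (a := a) (l := l) τ p 2
  rcases le_total ω 1 with hω1 | hω1
  · have h5 := mul_le_mul_of_nonneg_left h4 (sub_nonneg.2 hω1)
    have h6 := mul_le_mul_of_nonneg_right hω ha
    linarith
  · have h5 := mul_le_mul_of_nonneg_right hω1 (add_nonneg (add_nonneg b0 b1) b2)
    linarith

/-- **the `D`-form of a placed body**, share `κ` of the leaks -/
theorem DK_body [IsFiniteMeasure σ] (h : CN K σ a c) (v : Viol K a S) (hz : CV a K z)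
    (τ : Equiv.Perm (Fin 4)) {A' : ℝ} (hA' : 0 < A') (hl : Lok a l)
    {ρ β : Fin 3 → ℝ} (hρ : ∀ p, 0 < ρ p) (hMρ : ∀ p k, k ≠ p → MA σ a l τ p k ≤ ρ p)
    {x : E3} {N : Fin 3 → Fin 3 → ℝ}
    (hNd : N = NM (fun i => a (τ i)) (fun i j => z (τ i) (τ j)))
    {ζ ζp : Fin 3 → ℝ} (hζd : ζ = zc (fun i => a (τ i)) N x) (hζp : ∀ k, 0 < ζp k)
    {φ lam : ℝ} (hφ : 0 < φ) (hl0 : 0 ≤ lam)
    (hβ0 : ∀ p, 0 ≤ β p) (hβ1 : ∀ p, β p ≤ 1)
    (hK : ∀ p, β p * ρ p ≤ A' * Id (fun t => kap N (vv t) p))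
    (hF : ∀ p, (1 - β p) * ρ p ≤ φ * (A' * Id (flP (PN N) p)))
    {κ : ℝ} (hκ : 0 ≤ κ) (hκ1 : κ ≤ 1) {cN : ℝ} (hcN : ∀ m, nc N m ≤ cN)
    {s χ ω η : ℝ} (hS : ∀ i, S i ≤ s) (hχ0 : 0 ≤ χ) (hχ : 3 / 2 + 2 * s ≤ χ ^ 2)
    (hω0 : 0 ≤ ω) (hω : (1 - ω) * χ ≤ 1) (hη0 : 0 ≤ η)
    {dm : Fin 3 → ℝ} (hη : ∀ p, dm p ≤ η * ρ p)
    {b0 zn : ℝ} (hb0 : -bar (fun i => a (τ i)) 0 x ≤ b0)
    (hzn : pp (-ζ 0) + pp (-ζ 1) + pp (-ζ 2) ≤ zn)
    {Ca : ℝ} (hC1 : φ * (2 * ω + η + 2 * (1 - κ) * cN) ≤ Ca)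
    (hC2 : (∀ p, β p = 0) ∨ 2 * ω + η ≤ Ca)
    {d0 e1 e2 : ℝ} (hd0 : 0 ≤ d0) (he1 : 0 ≤ e1) (he2 : 0 ≤ e2)
    {t : ℝ × ℝ} (ht : t ∈ Sim) {i j k : Fin 3} (hij : i ≠ j) (hik : i ≠ k) (hjk : j ≠ k)
    (hap : lam * (b0 + κ * (cN * zn)) ≤ d0 * (ζp 0 + ζp 1 + ζp 2) + e1 * ζp j + e2 * ζp k) :
    DK κ A' N ζ ζp lam (fun p t => φ * flP (PN N) p t) (fun p t => kap N (vv t) p) β
        (MB σ a l τ) (fun p => am σ a l (τ 0) (τ p.succ) - dm p) t ≤
      d0 + κ * (min (vv t j) (N j i + N j k * vv t k) + min (vv t k) (N k i + N k j * vv t j))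
        + (κ * N i j + Ca + e1) * vv t j + (κ * N i k + Ca + e2) * vv t k := by
  have h' := h.perm τ
  have v' := viol_perm v τ
  have hz' := hz.perm τ
  have hN : ∀ k m, 0 ≤ N k m := fun k m => by
    rw [hNd]
    exact NM_nonneg h' v' hz' k m
  have hd : ∀ k, N k k = 0 := fun k => by
    rw [hNd]
    exact NM_diag k
  have hcol : ∀ m, nc N m ≤ 9 / 10 := fun m => by
    rw [hNd]
    exact nc_le h' v' hz' m
  have hc : (9 / 10 : ℝ) < 1 := by norm_num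
  have hbal : ∀ k, ζ k + LN N ζ k = b3 (fun i => a (τ i)) x k := fun k => by
    rw [hζd]
    exact mu_bal hN hd hc hcol (b3 (fun i => a (τ i)) x) k
  have hea := zc_ea (gram_of_dist h'.ha) hN hκ hbal hcN hzn hb0
  have hM : ∀ p k, k ≠ p → MB σ a l τ p k ≤ ρ p := fun p k hk => by
    unfold MB
    rw [if_neg hk]
    exact hMρ p k hk
  exact DK_form hN hd hc hcol hκ hκ1 hcN hA' hφ hl0 hζp hβ0 hβ1 hρ (fun p k => MB_nonneg τ p k)
    (fun p => MB_diag τ p) hM hK hF hω0 hη0 (fun p => MB_def h v hl τ hS hχ0 hχ hω p) hη hea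
    hC1 hC2 hd0 he1 he2 ht hij hik hjk hap

/-- **the `D`-form of the plain deficit** (`κ = 2/3`) -/
theorem DM_body [IsFiniteMeasure σ] (h : CN K σ a c) (v : Viol K a S) (hz : CV a K z)
    (τ : Equiv.Perm (Fin 4)) {A' : ℝ} (hA' : 0 < A') (hl : Lok a l)
    {ρ β : Fin 3 → ℝ} (hρ : ∀ p, 0 < ρ p) (hMρ : ∀ p k, k ≠ p → MA σ a l τ p k ≤ ρ p)
    {x : E3} {N : Fin 3 → Fin 3 → ℝ}
    (hNd : N = NM (fun i => a (τ i)) (fun i j => z (τ i) (τ j)))
    {ζ ζp : Fin 3 → ℝ} (hζd : ζ = zc (fun i => a (τ i)) N x) (hζp : ∀ k, 0 < ζp k)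
    (hζ : ∀ k, ζ k ≤ ζp k)
    {φ lam : ℝ} (hφ : 0 < φ) (hl0 : 0 ≤ lam) (hl1 : lam ≤ 1 - φ)
    (hβ0 : ∀ p, 0 ≤ β p) (hβ1 : ∀ p, β p ≤ 1)
    (hK : ∀ p, β p * ρ p ≤ A' * Id (fun t => kap N (vv t) p))
    (hF : ∀ p, (1 - β p) * ρ p ≤ φ * (A' * Id (flP (PN N) p)))
    {cN : ℝ} (hcN : ∀ m, nc N m ≤ cN)
    {s χ ω η : ℝ} (hS : ∀ i, S i ≤ s) (hχ0 : 0 ≤ χ) (hχ : 3 / 2 + 2 * s ≤ χ ^ 2)
    (hω0 : 0 ≤ ω) (hω : (1 - ω) * χ ≤ 1) (hη0 : 0 ≤ η)
    {dm : Fin 3 → ℝ} (hη : ∀ p, dm p ≤ η * ρ p)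
    {b0 zn : ℝ} (hb0 : -bar (fun i => a (τ i)) 0 x ≤ b0)
    (hzn : pp (-ζ 0) + pp (-ζ 1) + pp (-ζ 2) ≤ zn)
    {Ca : ℝ} (hC1 : φ * (2 * ω + η + 2 / 3 * cN) ≤ Ca)
    (hC2 : (∀ p, β p = 0) ∨ 2 * ω + η ≤ Ca)
    {d0 e1 e2 : ℝ} (hd0 : 0 ≤ d0) (he1 : 0 ≤ e1) (he2 : 0 ≤ e2)
    {t : ℝ × ℝ} (ht : t ∈ Sim) {i j k : Fin 3} (hij : i ≠ j) (hik : i ≠ k) (hjk : j ≠ k)
    (hap : lam * (b0 + 2 / 3 * (cN * zn)) ≤
      d0 * (ζp 0 + ζp 1 + ζp 2) + e1 * ζp j + e2 * ζp k) :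
    DM A' N ζ ζp lam (fun p t => φ * flP (PN N) p t) (fun p t => kap N (vv t) p) β
        (MB σ a l τ) (fun j => 1 / qM (fun i => a (τ i)) (fun i j => z (τ i) (τ j)) j)
        (fun p => am σ a l (τ 0) (τ p.succ) - dm p) t ≤
      d0 + 2 / 3 * (min (vv t j) (N j i + N j k * vv t k)
          + min (vv t k) (N k i + N k j * vv t j))
        + (2 / 3 * N i j + Ca + e1) * vv t j + (2 / 3 * N i k + Ca + e2) * vv t k := by
  have h' := h.perm τ
  have v' := viol_perm v τ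
  have hz' := hz.perm τ
  have hN : ∀ k m, 0 ≤ N k m := fun k m => by
    rw [hNd]
    exact NM_nonneg h' v' hz' k m
  have hd : ∀ k, N k k = 0 := fun k => by
    rw [hNd]
    exact NM_diag k
  have hcol : ∀ m, nc N m ≤ 9 / 10 := fun m => by
    rw [hNd]
    exact nc_le h' v' hz' m
  have hc : (9 / 10 : ℝ) < 1 := by norm_num
  have hM : ∀ p k, k ≠ p → MB σ a l τ p k ≤ ρ p := fun p k hk => by
    unfold MB
    rw [if_neg hk]
    exact hMρ p k hk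
  have hμ : ∀ k, 1 + nc N k - (fun j => 1 / qM (fun i => a (τ i))
      (fun i j => z (τ i) (τ j)) j) k ≤ 2 / 3 * nc N k := fun k => by
    rw [hNd]
    exact nun_le h' v' hz' k
  refine (DM_le_DK hN hd hc hcol (κ := 2 / 3) (by norm_num) hμ hA' hφ hl0 hl1 hζp hζ hβ1 hρ
    (fun p => MB_diag τ p) hM hF ht).trans ?_
  exact DK_body h v hz τ hA' hl hρ hMρ hNd hζd hζp hφ hl0 hβ0 hβ1 hK hF (κ := 2 / 3)
    (by norm_num) (by norm_num) hcN hS hχ0 hχ hω0 hω hη0 hη hb0 hzn (by linarith) hC2 hd0 he1 he2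
    ht hij hik hjk hap

/-- **the `D`-form of `inst_F2`** (`κ = 1/2`) -/
theorem DhM_body [IsFiniteMeasure σ] (h : CN K σ a c) (v : Viol K a S) (hz : CV a K z)
    (τ : Equiv.Perm (Fin 4)) {A' : ℝ} (hA' : 0 < A') (hl : Lok a l)
    {ρ β : Fin 3 → ℝ} (hρ : ∀ p, 0 < ρ p) (hMρ : ∀ p k, k ≠ p → MA σ a l τ p k ≤ ρ p)
    {x : E3} {N : Fin 3 → Fin 3 → ℝ}
    (hNd : N = NM (fun i => a (τ i)) (fun i j => z (τ i) (τ j)))
    {ζ ζp : Fin 3 → ℝ} (hζd : ζ = zc (fun i => a (τ i)) N x) (hζp : ∀ k, 0 < ζp k)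
    {φ lam : ℝ} (hφ : 0 < φ) (hl0 : 0 ≤ lam)
    (hβ0 : ∀ p, 0 ≤ β p) (hβ1 : ∀ p, β p ≤ 1)
    (hK : ∀ p, β p * ρ p ≤ A' * Id (fun t => kap N (vv t) p))
    (hF : ∀ p, (1 - β p) * ρ p ≤ φ * (A' * Id (flP (PN N) p)))
    {cN : ℝ} (hcN : ∀ m, nc N m ≤ cN)
    {s χ ω η : ℝ} (hS : ∀ i, S i ≤ s) (hχ0 : 0 ≤ χ) (hχ : 3 / 2 + 2 * s ≤ χ ^ 2)
    (hω0 : 0 ≤ ω) (hω : (1 - ω) * χ ≤ 1) (hη0 : 0 ≤ η)
    {dm : Fin 3 → ℝ} (hη : ∀ p, dm p ≤ η * ρ p)
    {b0 zn : ℝ} (hb0 : -bar (fun i => a (τ i)) 0 x ≤ b0)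
    (hzn : pp (-ζ 0) + pp (-ζ 1) + pp (-ζ 2) ≤ zn)
    {Ca : ℝ} (hC1 : φ * (2 * ω + η + cN) ≤ Ca)
    (hC2 : (∀ p, β p = 0) ∨ 2 * ω + η ≤ Ca)
    {d0 e1 e2 : ℝ} (hd0 : 0 ≤ d0) (he1 : 0 ≤ e1) (he2 : 0 ≤ e2)
    {t : ℝ × ℝ} (ht : t ∈ Sim) {i j k : Fin 3} (hij : i ≠ j) (hik : i ≠ k) (hjk : j ≠ k)
    (hap : lam * (b0 + 1 / 2 * (cN * zn)) ≤
      d0 * (ζp 0 + ζp 1 + ζp 2) + e1 * ζp j + e2 * ζp k) :
    DhM A' N ζ ζp lam (fun p t => φ * flP (PN N) p t) (fun p t => kap N (vv t) p) β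
        (MB σ a l τ) (fun p => am σ a l (τ 0) (τ p.succ) - dm p) t ≤
      d0 + 1 / 2 * (min (vv t j) (N j i + N j k * vv t k)
          + min (vv t k) (N k i + N k j * vv t j))
        + (1 / 2 * N i j + Ca + e1) * vv t j + (1 / 2 * N i k + Ca + e2) * vv t k := by
  rw [DhM_eq_DK]
  exact DK_body h v hz τ hA' hl hρ hMρ hNd hζd hζp hφ hl0 hβ0 hβ1 hK hF (κ := 1 / 2)
    (by norm_num) (by norm_num) hcN hS hχ0 hχ hω0 hω hη0 hη hb0 hzn (by linarith) hC2 hd0 he1 he2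
    ht hij hik hjk hap

/-- **the form of the price of the clipped nodes** -/
theorem LamM_body [IsFiniteMeasure σ] (h : CN K σ a c) (v : Viol K a S) (hz : CV a K z)
    (τ : Equiv.Perm (Fin 4)) {A' : ℝ} (hA' : 0 < A')
    {β : Fin 3 → ℝ} {N : Fin 3 → Fin 3 → ℝ}
    (hNd : N = NM (fun i => a (τ i)) (fun i j => z (τ i) (τ j)))
    {ζ ζp : Fin 3 → ℝ} (hζp : ∀ k, 0 < ζp k)
    {φ lam : ℝ} (hφ : 0 < φ) (hl0 : 0 ≤ lam) (hβ1 : ∀ p, β p ≤ 1)
    {cN : ℝ} (hcN : ∀ m, nc N m ≤ cN)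
    {zn : ℝ} (hzn : pp (-ζ 0) + pp (-ζ 1) + pp (-ζ 2) ≤ zn)
    {f0 f1 f2 : ℝ} (hf0 : 0 ≤ f0) (hf1 : 0 ≤ f1) (hf2 : 0 ≤ f2)
    {t : ℝ × ℝ} (ht : t ∈ Sim) {i j k : Fin 3} (hij : i ≠ j) (hik : i ≠ k) (hjk : j ≠ k)
    (hap : lam * (cN * zn) ≤ f0 * (ζp 0 + ζp 1 + ζp 2) + f1 * ζp j + f2 * ζp k) :
    LamM A' N ζ ζp lam (fun p t => φ * flP (PN N) p t) β (MB σ a l τ) t ≤
      f0 + (min (vv t j) (N j i + N j k * vv t k) + min (vv t k) (N k i + N k j * vv t j))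
        + (N i j + f1) * vv t j + (N i k + f2) * vv t k := by
  have h' := h.perm τ
  have v' := viol_perm v τ
  have hz' := hz.perm τ
  have hN : ∀ k m, 0 ≤ N k m := fun k m => by
    rw [hNd]
    exact NM_nonneg h' v' hz' k m
  have hd : ∀ k, N k k = 0 := fun k => by
    rw [hNd]
    exact NM_diag k
  have hcol : ∀ m, nc N m ≤ 9 / 10 := fun m => by
    rw [hNd]
    exact nc_le h' v' hz' m
  have hc : (9 / 10 : ℝ) < 1 := by norm_num
  exact LamM_form hN hd hc hcol hA' hφ hl0 hζp hβ1 (fun p k => MB_nonneg τ p k)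
    (LN_zc_ge hN hcN hzn) hf0 hf1 hf2 ht hij hik hjk hap

end body

end Helper99.MEI
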