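import Pool.Agent.Helper21.MEI.Loc
import Pool.Agent.Helper22.MEI.VR3

/-!
# Project MEI (M2), track B: the value majorants with strips and a localized apex

`alP_bS`, `alP_clsS`: the apex uses at most the weights without the residual masses,
`alP (pp b_j + pp b_l) ≤ ax (x - rr_j) + ay (y - rr_l)`. `gm_rS`: the value with any radii
`r ≥ R` and any `β`, the residual arcs at the price `g (rr_j + rr_l)`. `vclS` = `vcl` with, if
there are strips, `t ≥ 12 lr` (own radii), `t ≥ 6 lr` (full radii at two) at the two others, so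
that `C_j ≥ S_j + r_j + g`. `hval_LS` = the premise `hval` of `wcf_gen`, `wcf_locS` = `wcf_loc`
with strips, `hvalP_LS`, `halP_L` = the premises `HvalP`, `HalP` of `ve_wcf`.
-/

set_option autoImplicit false

namespace Helper99.LocS

open Set Metric MeasureTheory Helper80.CW Helper82.CW Helper14.CW Helper93.MEI Helper78.MEI
open Helper82.M2 Helper14.MEI2 Pool.Agent.Helper52.MEI Pool.Agent.Helper73.MEI Helper41.MEI
open Helper37.MEI Helper60.R8 Helper60.R9 Helper29.MEI Helper99.MEI Helper21.Loc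
open Helper60.R7 (U U_pos jj ll T3_pos')
open Helper33.MEI (Dl M3 mt)
open Helper90.R8T (nw)
open Pool.Agent.Helper55.Sx (Sim)
open Pool.Agent.Helper55.Mass (LN LN_nonneg vv vv_nonneg vv_le Id)
open Pool.Agent.Helper55.Apex (nc vt_vv)
open Pool.Agent.Helper55.ApexP (PN alP alP_nonneg alP_zeta alP_le xx_mu mu_bal)
open Pool.Agent.Helper55.Fill (xx rr rr_nonneg xx_nonneg xx_le xx_feas)
open Pool.Agent.Helper73.MEI.SideP (flP flP_nonneg flP_zero flP_pair)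
open Pool.Agent.Helper73.MEI.ArCor
open Pool.Agent.Helper96.Kap (kap kap_nonneg kap_add)
open Pool.Agent.Helper31.SR hiding qq
open Helper75.MEI2 (mu vt omT omT_nonneg omT_le omT_meas)
open Helper22.VR (HvalP HalP)
open scoped RealInnerProductSpace ENNReal

section abs
variable {N : Fin 3 → Fin 3 → ℝ} (hN : ∀ k m, 0 ≤ N k m) (hd : ∀ k, N k k = 0) {c : ℝ}
  (hc : c < 1) (hcol : ∀ m, nc N m ≤ c)
include hN hd hc hcol

/-- the apex uses at most the weight of a coordinate without its residual mass -/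
theorem alP_bS {ζ ζp b : Fin 3 → ℝ} (hζp : ∀ k, 0 < ζp k) (hζ : ∀ k, ζ k ≤ ζp k)
    (hbal : ∀ k, ζ k + LN N ζ k = b k) {t : ℝ × ℝ} (ht : t ∈ Sim) (k : Fin 3) :
    alP N ζp t * pp (b k) ≤ vv t k - rr N (vv t) k := by
  have h0 := alP_nonneg (N := N) hζp t
  have hb : ∀ k, 0 ≤ vv t k := fun k => vv_nonneg ht k
  have hx : ∀ k, alP N ζp t * ζp k ≤ xx N (vv t) k := fun k =>
    alP_le hN hd hc hcol hζp (fun _ => le_rfl) ht k
  have h1 : LN N ζ k ≤ LN N ζp k := by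
    unfold LN
    have g0 := mul_le_mul_of_nonneg_left (hζ 0) (hN k 0)
    have g1 := mul_le_mul_of_nonneg_left (hζ 1) (hN k 1)
    have g2 := mul_le_mul_of_nonneg_left (hζ 2) (hN k 2)
    linarith
  have h2 : alP N ζp t * LN N ζp k ≤ LN N (xx N (vv t)) k := by
    unfold LN
    have g0 := mul_le_mul_of_nonneg_left (hx 0) (hN k 0)
    have g1 := mul_le_mul_of_nonneg_left (hx 1) (hN k 1)
    have g2 := mul_le_mul_of_nonneg_left (hx 2) (hN k 2)
    linarith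
  have hr : vv t k - rr N (vv t) k = xx N (vv t) k + LN N (xx N (vv t)) k := by
    unfold rr
    ring
  have h4 := hx k
  have h5 : b k ≤ ζp k + LN N ζp k := by
    have := hbal k
    have := hζ k
    linarith
  have h6 := mul_le_mul_of_nonneg_left h5 h0
  rw [hr]
  rcases le_total 0 (b k) with h | h
  · have e : pp (b k) = b k := max_eq_left h
    rw [e]
    linarith
  · have e : pp (b k) = 0 := max_eq_right h
    have x0 := xx_nonneg hN hc hcol hb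
    rw [e, mul_zero]
    exact add_nonneg (x0 k) (LN_nonneg hN x0 k)

/-- **the apex at a corner of the class**, without the residual masses -/
theorem alP_clsS {ζ ζp b : Fin 3 → ℝ} (hζp : ∀ k, 0 < ζp k) (hζ : ∀ k, ζ k ≤ ζp k)
    (hbal : ∀ k, ζ k + LN N ζ k = b k) {t : ℝ × ℝ} (ht : t ∈ Sim) {j l : Fin 3} {ax ay : ℝ}
    (hax : 0 ≤ ax) (hay : 0 ≤ ay)
    (hs : 1 ≤ ax * prt (b j) (b l) + ay * (1 - prt (b j) (b l))) :
    alP N ζp t * (pp (b j) + pp (b l)) ≤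
      ax * (vv t j - rr N (vv t) j) + ay * (vv t l - rr N (vv t) l) := by
  have h0 := alP_nonneg (N := N) hζp t
  have hj := alP_bS hN hd hc hcol hζp hζ hbal ht j
  have hl := alP_bS hN hd hc hcol hζp hζ hbal ht l
  have hP : 0 ≤ alP N ζp t * (pp (b j) + pp (b l)) :=
    mul_nonneg h0 (add_nonneg (pp_nonneg _) (pp_nonneg _))
  have hm := prt_mul (b j) (b l)
  have h1 := mul_le_mul_of_nonneg_left hs hP
  have h2 := mul_le_mul_of_nonneg_left hj hax
  have h3 := mul_le_mul_of_nonneg_left hl hay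
  have e1 : alP N ζp t * (pp (b j) + pp (b l)) *
      (ax * prt (b j) (b l) + ay * (1 - prt (b j) (b l))) =
      ax * (alP N ζp t * (prt (b j) (b l) * (pp (b j) + pp (b l)))) +
      ay * (alP N ζp t * ((pp (b j) + pp (b l))
        - prt (b j) (b l) * (pp (b j) + pp (b l)))) := by ring
  rw [e1, hm] at h1
  have e2 : pp (b j) + pp (b l) - pp (b j) = pp (b l) := by ring
  rw [e2] at h1
  linarith

omit hd in
/-- weights of the nodes and residual masses -/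
theorem rr_bd {t : ℝ × ℝ} (ht : t ∈ Sim) (k : Fin 3) :
    0 ≤ rr N (vv t) k ∧ xx N (vv t) k ≤ vv t k - rr N (vv t) k ∧
      0 ≤ vv t k - rr N (vv t) k := by
  have hb : ∀ k, 0 ≤ vv t k := fun k => vv_nonneg ht k
  have x0 := xx_nonneg hN hc hcol hb
  have h1 := LN_nonneg hN x0 k
  have h2 := x0 k
  have h3 := rr_nonneg hN hc hcol hb k
  have hr : vv t k - rr N (vv t) k = xx N (vv t) k + LN N (xx N (vv t)) k := by
    unfold rr
    ring
  rw [hr]
  exact ⟨h3, by linarith, by linarith⟩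

end abs

/-! ### Checks -/

/-- the value majorants with strips if `st`: uniform or localized with slopes in the list `G` -/
def vclS (st loc : Bool) (p0 p1 e1 lr ce : ℕ) (G : List (ℕ × ℕ)) (Vs : List VT) : Bool :=
  Vs.all fun W => uvk e1 W || (loc && G.any fun g => slk p0 p1 g.1 g.2 &&
    ((ovk e1 lr ce g.1 g.2 W &&
        (!st || (Nat.ble (12000000000000 * lr) W.j.t && Nat.ble (12000000000000 * lr) W.l.t))) ||
      (mvk e1 lr ce g.1 g.2 W &&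
        (!st || (Nat.ble (6000000000000 * lr) W.j.t && Nat.ble (6000000000000 * lr) W.l.t)))))

theorem vclS_vcl {st loc : Bool} {p0 p1 e1 lr ce : ℕ} {G : List (ℕ × ℕ)} {Vs : List VT}
    (h : vclS st loc p0 p1 e1 lr ce G Vs = true) : vcl loc p0 p1 e1 lr ce G Vs = true := by
  unfold vclS at h
  unfold vcl
  simp only [List.all_eq_true, Bool.or_eq_true, Bool.and_eq_true, List.any_eq_true] at h ⊢
  intro W hW
  rcases h W hW with hu | ⟨hl, g, hg, hs, hv⟩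
  · exact Or.inl hu
  · refine Or.inr ⟨hl, g, hg, hs, ?_⟩
    rcases hv with hv | hv
    · exact Or.inl hv.1
    · exact Or.inr hv.1

/-- **the checks of the tables of a corner**, strips if `st`, localized apex if `loc` -/
structure OkLS {ι : Type*} (C : CT ι) (st loc : Bool) (kl : ℕ) (G : List (ℕ × ℕ))
    (A c0 c1 hh e1 : ℕ) : Prop where
  okG : C.OkG A c0 c1 hh
  p01 : C.p0 ≤ C.p1
  p1 : C.p1 ≤ 1000000
  val : vclS st loc C.p0 C.p1 e1 C.P.lr C.P.ce G C.Vs = true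
  drp : drl loc C.p0 C.p1 kl C.As = true

/-! ### On the body -/

section body
variable {a : Fin 4 → E3} {σ : Measure (E3 × E3)} {K : Set E3} {S : Fin 4 → ℝ}
  {c : Fin 4 → E3} {z : Fin 4 → Fin 4 → E3} {l : Fin 3 → Bool → Bool → E3 × E3 → ℝ}

/-- **the value at a face, any radii, with residual arcs** -/
theorem gm_rS (h : CN K σ a c) (v : Viol K a S) (hz : CV a K z) (τ : Equiv.Perm (Fin 4))
    {ρ β : Fin 3 → ℝ} (hMρ : ∀ p k, k ≠ p → MA σ a l τ p k ≤ ρ p)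
    {x : E3} {N : Fin 3 → Fin 3 → ℝ} (hNd : N = NM (fun i => a (τ i)) (fun i j => z (τ i) (τ j)))
    {A' : ℝ} (hA' : 0 < A') {φ : ℝ} (hφ : 0 < φ) (hβ0 : ∀ p, 0 ≤ β p) (hβ1 : ∀ p, β p ≤ 1)
    (hK : ∀ p, β p * ρ p ≤ A' * Id (fun t => kap N (vv t) p))
    (hF : ∀ p, (1 - β p) * ρ p ≤ φ * (A' * Id (flP (PN N) p)))
    {ζp : Fin 3 → ℝ} (z1 : ∀ k, 0 < ζp k) (z2 : ∀ k, zc (fun i => a (τ i)) N x k ≤ ζp k)
    {lam : ℝ} (l1 : 0 ≤ lam) (l2 : lam ≤ 1 - φ) {t : ℝ × ℝ} (ht : t ∈ Dl)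
    {R r E : Fin 3 → ℝ} (hR : ∀ k, R k ≤ r k) (hr : ∀ k, 0 ≤ r k) {g : ℝ} (hg : 0 ≤ g)
    (hcc : ∀ p, E p - (MB σ a l τ p 0 * r 0 + MB σ a l τ p 1 * r 1 + MB σ a l τ p 2 * r 2) ≤
      g * ρ p) (k : Fin 3) :
    GM A' N (zc (fun i => a (τ i)) N x) ζp lam (fun p t => φ * flP (PN N) p t)
      (fun p t => kap N (vv t) p) β (MB σ a l τ) E R (fun k => S (τ k.succ)) (S (τ 0)) t ≤
      -(T3 t 0 * S (τ 1) + T3 t 1 * S (τ 2) + T3 t 2 * S (τ 3))
        + lam * (alP N ζp t * (S (τ 0) - (b3 (fun i => a (τ i)) x 0 * r 0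
          + b3 (fun i => a (τ i)) x 1 * r 1 + b3 (fun i => a (τ i)) x 2 * r 2)))
        + (T3 t k * (S (τ k.succ) + r k) + T3 t (jj k) * (S (τ (jj k).succ) + r (jj k))
          + T3 t (ll k) * (S (τ (ll k).succ) + r (ll k)))
        + φ * g * ((T3 t (jj k) - rr N (vv t) (jj k)) + (T3 t (ll k) - rr N (vv t) (ll k)))
        + g * (rr N (vv t) (jj k) + rr N (vv t) (ll k)) := by
  have h' := h.perm τ
  have v' := viol_perm v τ
  have hz' := hz.perm τ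
  have hN : ∀ k m, 0 ≤ N k m := fun k m => by
    rw [hNd]
    exact NM_nonneg h' v' hz' k m
  have hd : ∀ k, N k k = 0 := fun k => by
    rw [hNd]
    exact NM_diag k
  have hcol : ∀ m, nc N m ≤ 9 / 10 := fun m => by
    rw [hNd]
    exact nc_le h' v' hz' m
  have hc : (9 / 10 : ℝ) < 1 := by norm_num
  have htS := Dl_Sim ht
  have hbal : ∀ k, zc (fun i => a (τ i)) N x k + LN N (zc (fun i => a (τ i)) N x) k =
      b3 (fun i => a (τ i)) x k := fun k => by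
    unfold zc
    exact mu_bal hN hd hc hcol _ k
  obtain ⟨n1, n2, n3⟩ := jl_ne k
  have hM : ∀ p k, k ≠ p → MB σ a l τ p k ≤ ρ p := fun p k hk => by
    unfold MB
    rw [if_neg hk]
    exact hMρ p k hk
  have key := Helper41.VMaj.PV_val hN hd hc hcol hA' hφ l1 l2 z1 z2 hβ0 hβ1 hK hF
    (fun p => MB_diag (σ := σ) (a := a) (l := l) τ p) hM (E := E) (R := R) (r := r)
    (S := fun k => S (τ k.succ)) (s0 := S (τ 0)) hR hr (fun k => v.nn _) htS
  have k2 := drop_arc hN hd hc hcol hφ hA' hβ1 hF hg hcc htS n1 n2 n3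
  have k3 := drop_res hN hc hcol hA' hβ0 hK hg hcc htS n1 n2 n3
  obtain ⟨-, a1, -⟩ := rr_bd hN hc hcol htS (jj k)
  obtain ⟨-, a2, -⟩ := rr_bd hN hc hcol htS (ll k)
  have k4 := mul_le_mul_of_nonneg_left (min_le_left (xx N (vv t) (jj k) + xx N (vv t) (ll k))
    (1 / 2)) (mul_nonneg hφ.le hg)
  have k5 := mul_le_mul_of_nonneg_left (add_le_add a1 a2) (mul_nonneg hφ.le hg)
  rw [GM_PV]
  rw [hbal, hbal, hbal] at key
  have ev : ∀ m, vv t m = T3 t m := fun m => (T3_vv t m).symm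
  have u1 : τ (Fin.succ 0) = τ 1 := rfl
  have u2 : τ (Fin.succ 1) = τ 2 := rfl
  have u3 : τ (Fin.succ 2) = τ 3 := rfl
  have hs := jl_sum k (fun m => T3 t m * (S (τ m.succ) + r m))
  beta_reduce at hs key ⊢
  rw [u1, u2, u3] at hs key ⊢
  rw [ev 0, ev 1, ev 2] at key
  rw [ev (jj k), ev (ll k)] at k5
  linarith

/-- **a localized value majorant at a corner of the class**, with strips -/
theorem hval_S1 [IsFiniteMeasure σ] (h : CN K σ a c) (v : Viol K a S) (hz : CV a K z)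
    (τ : Equiv.Perm (Fin 4)) (hl : Lok a l) (hδ : ∀ p, MA σ a l τ p p ≤ 0)
    {ρ β : Fin 3 → ℝ} (hρ : ∀ p, 0 < ρ p) (hMρ : ∀ p k, k ≠ p → MA σ a l τ p k ≤ ρ p)
    {x : E3} (hx : x ∈ K) (hxs : Qv a (τ 0) x = S (τ 0) ∨ S (τ 0) = 0)
    {N : Fin 3 → Fin 3 → ℝ} (hNd : N = NM (fun i => a (τ i)) (fun i j => z (τ i) (τ j)))
    {tt : Fin 3 → ℝ} (htt : ∀ k, nc N k ≤ tt k) {A' : ℝ} (hA' : 0 < A')
    {φ : ℝ} (hφ : 0 < φ) (hβ0 : ∀ p, 0 ≤ β p) (hβ1 : ∀ p, β p ≤ 1)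
    (hK : ∀ p, β p * ρ p ≤ A' * Id (fun t => kap N (vv t) p))
    (hF : ∀ p, (1 - β p) * ρ p ≤ φ * (A' * Id (flP (PN N) p)))
    {cN : ℝ} (hcN : ∀ m, nc N m ≤ cN) {e1 : ℕ} (he1 : 1 + cN / 2 ≤ qq e1)
    {ζp : Fin 3 → ℝ} (z1 : ∀ k, 0 < ζp k) (z2 : ∀ k, zc (fun i => a (τ i)) N x k ≤ ζp k)
    {lam : ℝ} (l1 : 0 ≤ lam) (l2 : lam ≤ 1 - φ) {t : ℝ × ℝ} (ht : t ∈ Dl) (k : Fin 3)
    {p0 p1 : ℕ} (h01 : p0 ≤ p1) (hp : p1 ≤ 1000000)
    (hp0 : qq p0 ≤ prt (b3 (fun i => a (τ i)) x (jj k)) (b3 (fun i => a (τ i)) x (ll k)))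
    (hp1 : prt (b3 (fun i => a (τ i)) x (jj k)) (b3 (fun i => a (τ i)) x (ll k)) ≤ qq p1)
    (hu : pp (b3 (fun i => a (τ i)) x k) ≤
      pp (b3 (fun i => a (τ i)) x (jj k)) + pp (b3 (fun i => a (τ i)) x (ll k)))
    {lr ce ax ay : ℕ} {W : VT} (hg : slk p0 p1 ax ay = true)
    (hv : (ovk e1 lr ce ax ay W = true ∧
        (12000000000000 * lr ≤ W.j.t ∧ 12000000000000 * lr ≤ W.l.t)) ∨
      (mvk e1 lr ce ax ay W = true ∧
        (6000000000000 * lr ≤ W.j.t ∧ 6000000000000 * lr ≤ W.l.t)))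
    {b te pe : ℝ} (hb0 : 0 ≤ b) (hte0 : 0 ≤ te) (hpe0 : 0 ≤ pe)
    (hlr1 : (1 - φ) * S (τ 0) ≤ qq lr * te) (hce : φ * (2 * S (τ 0)) ≤ qq ce * pe) :
    GM A' N (zc (fun i => a (τ i)) N x) ζp lam (fun p t => φ * flP (PN N) p t)
        (fun p t => kap N (vv t) p) β (MB σ a l τ)
        (fun p => aE σ a l (τ 0) (τ p.succ) - (fun _ => (0 : ℝ)) p) (Rv tt N)
        (fun k => S (τ k.succ)) (S (τ 0)) t ≤
      -(T3 t 0 * S (τ 1) + T3 t 1 * S (τ 2) + T3 t 2 * S (τ 3))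
        + (W.k.ev (stc S τ N k b te pe) * T3 t k + W.j.ev (stc S τ N k b te pe) * T3 t (jj k)
          + W.l.ev (stc S τ N k b te pe) * T3 t (ll k)) := by
  have h' := h.perm τ
  have v' := viol_perm v τ
  have hz' := hz.perm τ
  have hN : ∀ k m, 0 ≤ N k m := fun k m => by
    rw [hNd]
    exact NM_nonneg h' v' hz' k m
  have hd : ∀ k, N k k = 0 := fun k => by
    rw [hNd]
    exact NM_diag k
  have hcol : ∀ m, nc N m ≤ 9 / 10 := fun m => by
    rw [hNd]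
    exact nc_le h' v' hz' m
  have hc : (9 / 10 : ℝ) < 1 := by norm_num
  have htS := Dl_Sim ht
  have F := fn_face h v hz τ hl hδ hx hxs hNd htt hcN he1
  have s0 := F.s0
  have nn : ∀ m, 0 ≤ nc N m := fun m => Pool.Agent.Helper73.MEI.SideP.nc_nonneg hN m
  have cN0 : 0 ≤ cN := (nn 0).trans (hcN 0)
  have e1' : 1 ≤ qq e1 := by linarith
  have x0 : 0 ≤ T3 t (jj k) := (T3_pos' ht _).le
  have y0 : 0 ≤ T3 t (ll k) := (T3_pos' ht _).le
  have z0 : 0 ≤ T3 t k := (T3_pos' ht _).le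
  have hsum := jl_sum k (T3 t)
  have hsum1 : T3 t 0 + T3 t 1 + T3 t 2 = 1 := T3_sum t
  have sk := v.nn (τ k.succ)
  have sj := v.nn (τ (jj k).succ)
  have sl := v.nn (τ (ll k).succ)
  have u1 : τ (Fin.succ 0) = τ 1 := rfl
  have u2 : τ (Fin.succ 1) = τ 2 := rfl
  have u3 : τ (Fin.succ 2) = τ 3 := rfl
  have hC := jl_sum k (fun m => T3 t m * S (τ m.succ))
  beta_reduce at hC
  rw [u1, u2, u3] at hC
  have Nr := stc_Nn v τ (N := N) nn (k := k) hb0 hte0 hpe0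
  have g0 := val_S h v hz τ hl hδ hρ hMρ hx hxs hNd htt hA' hφ hβ0 hβ1 hK hF hcN he1 z1 z2
    l1 l2 ht
  have al0 := alP_nonneg (N := N) z1 t
  have lw0 : 0 ≤ qq lr * te := mul_nonneg (qq_nonneg _) hte0
  have pw0 : 0 ≤ qq ce * pe := mul_nonneg (qq_nonneg _) hpe0
  have es : 0 ≤ qq e1 * S (τ 0) := mul_nonneg (qq_nonneg _) s0
  have hss : S (τ 0) ≤ qq e1 * S (τ 0) := by
    have := mul_le_mul_of_nonneg_right e1' s0
    linarith
  have hlr : lam * S (τ 0) ≤ qq lr * te := (mul_le_mul_of_nonneg_right l2 s0).trans hlr1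
  rcases F.xs with hQ | ⟨hs, hR⟩
  swap
  · -- level zero
    have k1 : ∃ us uS : ℝ, us * 6000000000000000000 ≤ W.k.s ∧
        uS * 6000000000000000000 ≤ W.k.Sk ∧
        S (τ k.succ) + qq e1 * min (S (τ 0)) (S (τ k.succ)) ≤
          us * S (τ 0) + uS * S (τ k.succ) := by
      rcases hv with ⟨hv, -⟩ | ⟨hv, -⟩
      · unfold ovk at hv
        simp only [Bool.and_eq_true] at hv
        exact ndk_iff hv.1.1.1.1.1.1 s0 sk
      · unfold mvk at hv
        simp only [Bool.and_eq_true] at hv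
        exact ndk_iff hv.1.1.1.1.1.1.1.1 s0 sk
    obtain ⟨us, uS, q1, q2, q3⟩ := k1
    have low : ∀ y : ℝ, 0 ≤ y → 0 ≤ qq e1 * min (S (τ 0)) y := fun y hy =>
      mul_nonneg (qq_nonneg _) (le_min s0 hy)
    have k2 : S (τ k.succ) ≤ W.k.ev (stc S τ N k b te pe) := by
      have := ev_ge W.k Nr (cs := us) (ck := uS) (cj := 0) (cl := 0) (ct := 0) (cp := 0) q1 q2
        (by simp) (by simp) (by simp) (by simp)
      have hl0 := low _ sk
      unfold stc at this ⊢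
      dsimp only at this
      linarith
    have k3 : S (τ (jj k).succ) ≤ W.j.ev (stc S τ N k b te pe) := by
      have q : ∃ us uS : ℝ, us * 6000000000000000000 ≤ W.j.s ∧
          uS * 6000000000000000000 ≤ W.j.Sj ∧
          S (τ (jj k).succ) ≤ us * S (τ 0) + uS * S (τ (jj k).succ) := by
        rcases hv with ⟨hv, -⟩ | ⟨hv, -⟩
        · unfold ovk at hv
          simp only [Bool.and_eq_true] at hv
          obtain ⟨us, uS, q1, q2, q3⟩ := ndk_iff hv.1.1.1.1.1.2 s0 sj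
          exact ⟨us, uS, q1, q2, by have := low _ sj; linarith⟩
        · unfold mvk at hv
          simp only [Bool.and_eq_true, Nat.ble_eq] at hv
          have h5 := (Nat.cast_le (α := ℝ)).2 hv.1.1.1.1.1.1.1.2
          push_cast at h5
          exact ⟨0, 1, by simp, by linarith, by linarith⟩
      obtain ⟨us, uS, q1, q2, q3⟩ := q
      have := ev_ge W.j Nr (cs := us) (ck := 0) (cj := uS) (cl := 0) (ct := 0) (cp := 0) q1
        (by simp) q2 (by simp) (by simp) (by simp)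
      unfold stc at this ⊢
      dsimp only at this
      linarith
    have k4 : S (τ (ll k).succ) ≤ W.l.ev (stc S τ N k b te pe) := by
      have q : ∃ us uS : ℝ, us * 6000000000000000000 ≤ W.l.s ∧
          uS * 6000000000000000000 ≤ W.l.Sl ∧
          S (τ (ll k).succ) ≤ us * S (τ 0) + uS * S (τ (ll k).succ) := by
        rcases hv with ⟨hv, -⟩ | ⟨hv, -⟩
        · unfold ovk at hv
          simp only [Bool.and_eq_true] at hv
          obtain ⟨us, uS, q1, q2, q3⟩ := ndk_iff hv.1.1.1.1.2 s0 sl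
          exact ⟨us, uS, q1, q2, by have := low _ sl; linarith⟩
        · unfold mvk at hv
          simp only [Bool.and_eq_true, Nat.ble_eq] at hv
          have h5 := (Nat.cast_le (α := ℝ)).2 hv.1.1.1.1.1.1.2
          push_cast at h5
          exact ⟨0, 1, by simp, by linarith, by linarith⟩
      obtain ⟨us, uS, q1, q2, q3⟩ := q
      have := ev_ge W.l Nr (cs := us) (ck := 0) (cj := 0) (cl := uS) (ct := 0) (cp := 0) q1
        (by simp) (by simp) q2 (by simp) (by simp)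
      unfold stc at this ⊢
      dsimp only at this
      linarith
    have b1 := mul_le_mul_of_nonneg_right k2 z0
    have b2 := mul_le_mul_of_nonneg_right k3 x0
    have b3 := mul_le_mul_of_nonneg_right k4 y0
    rw [hs, mul_zero] at g0
    rw [hs]
    linarith
  -- the main case
  have hgr := gram_of_dist h'.ha
  have hb : 1 ≤ b3 (fun i => a (τ i)) x 0 + b3 (fun i => a (τ i)) x 1
      + b3 (fun i => a (τ i)) x 2 := by
    have hQ' : Qv (fun i => a (τ i)) 0 x = S (τ 0) := hQ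
    exact Helper41.VMaj.b3_ge hgr (h'.hp x hx) (by rw [hQ']; exact s0)
  have hbal : ∀ k, zc (fun i => a (τ i)) N x k + LN N (zc (fun i => a (τ i)) N x) k =
      b3 (fun i => a (τ i)) x k := fun k => by
    unfold zc
    exact mu_bal hN hd hc hcol _ k
  have n2 := alP_clsS hN hd hc hcol z1 z2 hbal htS (j := jj k) (l := ll k)
    (qq_nonneg ax) (qq_nonneg ay) (slk_iff hg h01 hp hp0 hp1)
  have ev : ∀ m, vv t m = T3 t m := fun m => (T3_vv t m).symm
  obtain ⟨w3, -, w1⟩ := rr_bd hN hc hcol htS (jj k)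
  obtain ⟨w4, -, w2⟩ := rr_bd hN hc hcol htS (ll k)
  obtain ⟨X', hX'⟩ : ∃ X', X' = T3 t (jj k) - rr N (vv t) (jj k) := ⟨_, rfl⟩
  obtain ⟨Y', hY'⟩ : ∃ Y', Y' = T3 t (ll k) - rr N (vv t) (ll k) := ⟨_, rfl⟩
  rw [ev, ← hX'] at w1
  rw [ev, ← hY'] at w2
  rw [ev (jj k), ev (ll k), ← hX', ← hY'] at n2
  have hs3 := jl_sum k (fun m => pp (b3 (fun i => a (τ i)) x m))
  beta_reduce at hs3
  have hMB : ∀ p m, MB σ a l τ p m ≤ ρ p := fun p m => by
    unfold MB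
    split_ifs with e
    · exact (hρ p).le
    · exact hMρ p m e
  have hMB2 : ∀ p, MB σ a l τ p 0 + MB σ a l τ p 1 + MB σ a l τ p 2 ≤ 2 * ρ p := by
    intro p
    have k0 := hMB p 0
    have k1 := hMB p 1
    have k2 := hMB p 2
    have kd := MB_diag (σ := σ) (a := a) (l := l) τ p
    fin_cases p
    · simp only [Fin.zero_eta] at k0 k1 k2 kd ⊢
      linarith
    · simp only [Fin.mk_one] at k0 k1 k2 kd ⊢
      linarith
    · simp only [Fin.reduceFinMk] at k0 k1 k2 kd ⊢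
      linarith
  have M0 : ∀ p m, 0 ≤ MB σ a l τ p m := fun p m => MB_nonneg τ p m
  have own : ∀ m : Fin 3, Rv tt N m ≤ qq e1 * min (S (τ 0)) (S (τ m.succ)) := by
    intro m
    rw [mul_min_of_nonneg _ _ (qq_nonneg _)]
    refine le_min (F.Re m) ((Rv_own h v hz τ hNd htt m).trans
      (mul_le_mul_of_nonneg_right ?_ (v.nn _)))
    have := hcN m
    linarith
  have own0 : ∀ m : Fin 3, 0 ≤ qq e1 * min (S (τ 0)) (S (τ m.succ)) := fun m =>
    mul_nonneg (qq_nonneg _) (le_min s0 (v.nn _))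
  have own1 : ∀ m : Fin 3, qq e1 * min (S (τ 0)) (S (τ m.succ)) ≤ qq e1 * S (τ 0) := fun m =>
    mul_le_mul_of_nonneg_left (min_le_left _ _) (qq_nonneg _)
  obtain ⟨P, hP⟩ : ∃ P, P = pp (b3 (fun i => a (τ i)) x (jj k))
    + pp (b3 (fun i => a (τ i)) x (ll k)) := ⟨_, rfl⟩
  rw [← hP] at n2 hu
  have cx : 0 ≤ qq ax * X' + qq ay * Y' :=
    add_nonneg (mul_nonneg (qq_nonneg _) w1) (mul_nonneg (qq_nonneg _) w2)
  have gs : 2 * S (τ 0) ≤ 2 * (qq lr * te) + qq ce * pe := by linarith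
  have ex : T3 t (jj k) = X' + rr N (vv t) (jj k) := by rw [hX']; ring
  have ey : T3 t (ll k) = Y' + rr N (vv t) (ll k) := by rw [hY']; ring
  rcases hv with ⟨hv, hst, hst'⟩ | ⟨hv, hst, hst'⟩
  · -- own radii
    unfold ovk at hv
    simp only [Bool.and_eq_true, Nat.ble_eq] at hv
    obtain ⟨⟨⟨⟨⟨⟨c1, c2⟩, c3⟩, c4⟩, c5⟩, c6⟩, c7⟩ := hv
    have key := gm_rS (x := x) h v hz τ hMρ hNd hA' hφ hβ0 hβ1 hK hF z1 z2 l1 l2 ht
      (R := Rv tt N) (r := fun m => qq e1 * min (S (τ 0)) (S (τ m.succ)))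
      (E := fun p => aE σ a l (τ 0) (τ p.succ) - (fun _ => (0 : ℝ)) p) own own0
      (g := 2 * S (τ 0)) (by linarith) (fun p => by
        have h1 := F.E p
        have h2 := mul_le_mul_of_nonneg_left (hMB2 p) s0
        have m0 := mul_nonneg (M0 p 0) (own0 0)
        have m1 := mul_nonneg (M0 p 1) (own0 1)
        have m2 := mul_nonneg (M0 p 2) (own0 2)
        show aE σ a l (τ 0) (τ p.succ) - 0 - _ ≤ _
        linarith) k
    have n1 := num_O (b := b3 (fun i => a (τ i)) x)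
      (r := fun m => qq e1 * min (S (τ 0)) (S (τ m.succ))) s0 e1' own0 own1 hb
    obtain ⟨B, hB⟩ : ∃ B, B = pp (b3 (fun i => a (τ i)) x 0)
      + pp (b3 (fun i => a (τ i)) x 1) + pp (b3 (fun i => a (τ i)) x 2) := ⟨_, rfl⟩
    rw [← hB] at n1 hs3
    have hBP : B ≤ 2 * P := by
      rw [hP]
      linarith
    have m1 := mul_le_mul_of_nonneg_left n1 al0
    have m2 := mul_le_mul_of_nonneg_left (mul_le_mul_of_nonneg_left hBP es) al0
    have m3 := mul_le_mul_of_nonneg_left n2 es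
    obtain ⟨D, hD⟩ : ∃ D, D = alP N ζp t * (S (τ 0) - (b3 (fun i => a (τ i)) x 0
      * (fun m : Fin 3 => qq e1 * min (S (τ 0)) (S (τ m.succ))) 0
      + b3 (fun i => a (τ i)) x 1 * (fun m : Fin 3 => qq e1 * min (S (τ 0)) (S (τ m.succ))) 1
      + b3 (fun i => a (τ i)) x 2
        * (fun m : Fin 3 => qq e1 * min (S (τ 0)) (S (τ m.succ))) 2)) := ⟨_, rfl⟩
    rw [← hD] at key m1
    have m4 : D ≤ S (τ 0) * (2 * qq e1 * (qq ax * X' + qq ay * Y')) := by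
      linarith
    have m5 := mul_le_mul_of_nonneg_left m4 l1
    have m6 := mul_le_mul_of_nonneg_right hlr (show 0 ≤ 2 * qq e1 * (qq ax * X' + qq ay * Y') from
      mul_nonneg (mul_nonneg (by norm_num) (qq_nonneg _)) cx)
    have m7 := mul_le_mul_of_nonneg_right hce (add_nonneg w1 w2)
    have m8 := mul_le_mul_of_nonneg_right gs (add_nonneg w3 w4)
    obtain ⟨us, uS, q1, q2, q3⟩ := ndk_iff c1 s0 sk
    obtain ⟨vs, vS, q4, q5, q6⟩ := ndk_iff c2 s0 sj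
    obtain ⟨ws, wS, q7, q8, q9⟩ := ndk_iff c3 s0 sl
    have tq : ∀ (u w : ℕ), 12 * e1 * u * lr ≤ w →
        2 * qq e1 * qq u * qq lr * 6000000000000000000 ≤ w := fun u w hw => by
      have h3 := (Nat.cast_le (α := ℝ)).2 hw
      push_cast at h3
      unfold qq
      linarith
    have pq : ∀ w : ℕ, 6000000000000 * ce ≤ w →
        qq ce * 6000000000000000000 ≤ w := fun w hw => by
      have h3 := (Nat.cast_le (α := ℝ)).2 hw
      push_cast at h3
      unfold qq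
      linarith
    have E1 := ev_ge W.k Nr (cs := us) (ck := uS) (cj := 0) (cl := 0) (ct := 0) (cp := 0) q1 q2
      (by simp) (by simp) (by simp) (by simp)
    have E2 := ev_ge W.j Nr (cs := vs) (ck := 0) (cj := vS) (cl := 0)
      (ct := 2 * qq e1 * qq ax * qq lr) (cp := qq ce) q4 (by simp) q5 (by simp) (tq _ _ c4)
      (pq _ c6)
    have E3' := ev_ge W.l Nr (cs := ws) (ck := 0) (cj := 0) (cl := wS)
      (ct := 2 * qq e1 * qq ay * qq lr) (cp := qq ce) q7 (by simp) (by simp) q8 (tq _ _ c5)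
      (pq _ c7)
    have tq2 : ∀ w : ℕ, 12000000000000 * lr ≤ w →
        2 * qq lr * 6000000000000000000 ≤ w := fun w hw => by
      have h3 := (Nat.cast_le (α := ℝ)).2 hw
      push_cast at h3
      unfold qq
      linarith
    have E4 := ev_ge W.j Nr (cs := vs) (ck := 0) (cj := vS) (cl := 0)
      (ct := 2 * qq lr) (cp := qq ce) q4 (by simp) q5 (by simp) (tq2 _ hst) (pq _ c6)
    have E5 := ev_ge W.l Nr (cs := ws) (ck := 0) (cj := 0) (cl := wS)
      (ct := 2 * qq lr) (cp := qq ce) q7 (by simp) (by simp) q8 (tq2 _ hst') (pq _ c7)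
    have f1 : S (τ k.succ) + qq e1 * min (S (τ 0)) (S (τ k.succ)) ≤
        W.k.ev (stc S τ N k b te pe) := by
      unfold stc at E1 ⊢
      dsimp only at E1
      linarith
    have f2 : S (τ (jj k).succ) + qq e1 * min (S (τ 0)) (S (τ (jj k).succ))
        + 2 * qq e1 * qq ax * (qq lr * te) + qq ce * pe ≤ W.j.ev (stc S τ N k b te pe) := by
      unfold stc at E2 ⊢
      dsimp only at E2
      linarith
    have f3 : S (τ (ll k).succ) + qq e1 * min (S (τ 0)) (S (τ (ll k).succ))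
        + 2 * qq e1 * qq ay * (qq lr * te) + qq ce * pe ≤ W.l.ev (stc S τ N k b te pe) := by
      unfold stc at E3' ⊢
      dsimp only at E3'
      linarith
    have f4 : S (τ (jj k).succ) + qq e1 * min (S (τ 0)) (S (τ (jj k).succ))
        + 2 * (qq lr * te) + qq ce * pe ≤ W.j.ev (stc S τ N k b te pe) := by
      unfold stc at E4 ⊢
      dsimp only at E4
      linarith
    have f5 : S (τ (ll k).succ) + qq e1 * min (S (τ 0)) (S (τ (ll k).succ))
        + 2 * (qq lr * te) + qq ce * pe ≤ W.l.ev (stc S τ N k b te pe) := by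
      unfold stc at E5 ⊢
      dsimp only at E5
      linarith
    have b1 := mul_le_mul_of_nonneg_right f1 z0
    have b2 := mul_le_mul_of_nonneg_right f2 w1
    have b3 := mul_le_mul_of_nonneg_right f3 w2
    have b4 := mul_le_mul_of_nonneg_right f4 w3
    have b5 := mul_le_mul_of_nonneg_right f5 w4
    beta_reduce at key
    rw [← hX', ← hY'] at key
    rw [ex, ey] at key ⊢
    linarith
  · -- own radius at the corner, full radii at the two others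
    unfold mvk at hv
    simp only [Bool.and_eq_true, Nat.ble_eq] at hv
    obtain ⟨⟨⟨⟨⟨⟨⟨⟨c1, c2⟩, c3⟩, c4⟩, c5⟩, c6⟩, c7⟩, c8⟩, c9⟩ := hv
    obtain ⟨r, hr⟩ : ∃ r : Fin 3 → ℝ, ∀ m, r m = if m = k then
      qq e1 * min (S (τ 0)) (S (τ m.succ)) else qq e1 * S (τ 0) := ⟨_, fun _ => rfl⟩
    obtain ⟨j1, j2, j3⟩ := jl_ne k
    have rk : r k = qq e1 * min (S (τ 0)) (S (τ k.succ)) := by rw [hr, if_pos rfl]
    have rj : r (jj k) = qq e1 * S (τ 0) := by rw [hr, if_neg j1.symm]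
    have rl : r (ll k) = qq e1 * S (τ 0) := by rw [hr, if_neg j2.symm]
    have r0 : ∀ m, 0 ≤ r m := fun m => by
      rw [hr]
      split_ifs
      · exact own0 m
      · exact es
    have r1 : ∀ m, Rv tt N m ≤ r m := fun m => by
      rw [hr]
      split_ifs
      · exact own m
      · exact F.Re m
    have key := gm_rS (x := x) h v hz τ hMρ hNd hA' hφ hβ0 hβ1 hK hF z1 z2 l1 l2 ht
      (R := Rv tt N) (r := r)
      (E := fun p => aE σ a l (τ 0) (τ p.succ) - (fun _ => (0 : ℝ)) p) r1 r0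
      (g := S (τ 0)) s0 (fun p => by
        have h1 := F.E p
        have h2 := jl_sum k (fun m => MB σ a l τ p m * r m)
        have h3 := jl_sum k (fun m => MB σ a l τ p m)
        beta_reduce at h2 h3
        rw [rj, rl] at h2
        rw [← h3] at h1
        have h4 := mul_le_mul_of_nonneg_left hss (M0 p (jj k))
        have h5 := mul_le_mul_of_nonneg_left hss (M0 p (ll k))
        have h6 := mul_nonneg (M0 p k) (r0 k)
        have h7 := mul_le_mul_of_nonneg_left (hMB p k) s0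
        show aE σ a l (τ 0) (τ p.succ) - 0 - _ ≤ _
        linarith) k
    have hbk := jl_sum k (fun m => b3 (fun i => a (τ i)) x m)
    have hbr := jl_sum k (fun m => b3 (fun i => a (τ i)) x m * r m)
    beta_reduce at hbk hbr
    have n1 := num_M (u := b3 (fun i => a (τ i)) x k) (v := b3 (fun i => a (τ i)) x (jj k))
      (w := b3 (fun i => a (τ i)) x (ll k)) s0 e1' (r0 k) (by
        rw [rk]
        exact own1 k) (by linarith)
    rw [rj, rl] at hbr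
    rw [hbr] at n1
    have m1 := mul_le_mul_of_nonneg_left n1 al0
    have m2 := mul_le_mul_of_nonneg_left (mul_le_mul_of_nonneg_left hu es) al0
    have m3 := mul_le_mul_of_nonneg_left n2 es
    obtain ⟨D, hD⟩ : ∃ D, D = alP N ζp t * (S (τ 0) - (b3 (fun i => a (τ i)) x 0 * r 0
      + b3 (fun i => a (τ i)) x 1 * r 1 + b3 (fun i => a (τ i)) x 2 * r 2)) := ⟨_, rfl⟩
    rw [← hD] at key m1
    have m4 : D ≤ S (τ 0) * (qq e1 * (qq ax * X' + qq ay * Y')) := by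
      linarith
    have m5 := mul_le_mul_of_nonneg_left m4 l1
    have m6 := mul_le_mul_of_nonneg_right hlr (show 0 ≤ qq e1 * (qq ax * X' + qq ay * Y') from
      mul_nonneg (qq_nonneg _) cx)
    have m7 := mul_le_mul_of_nonneg_right hce (add_nonneg w1 w2)
    have m8 := mul_le_mul_of_nonneg_right gs (add_nonneg w3 w4)
    obtain ⟨us, uS, q1, q2, q3⟩ := ndk_iff c1 s0 sk
    have sq : ∀ w : ℕ, 6000000000000000000 ≤ w →
        (1 : ℝ) * 6000000000000000000 ≤ w := fun w hw => by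
      have h3 := (Nat.cast_le (α := ℝ)).2 hw
      push_cast at h3
      linarith
    have eq' : ∀ w : ℕ, 6000000000000 * e1 ≤ w →
        qq e1 * 6000000000000000000 ≤ w := fun w hw => by
      have h3 := (Nat.cast_le (α := ℝ)).2 hw
      push_cast at h3
      unfold qq
      linarith
    have tq : ∀ (u w : ℕ), 6 * e1 * u * lr ≤ w →
        qq e1 * qq u * qq lr * 6000000000000000000 ≤ w := fun u w hw => by
      have h3 := (Nat.cast_le (α := ℝ)).2 hw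
      push_cast at h3
      unfold qq
      linarith
    have pq : ∀ w : ℕ, 3000000000000 * ce ≤ w →
        qq ce / 2 * 6000000000000000000 ≤ w := fun w hw => by
      have h3 := (Nat.cast_le (α := ℝ)).2 hw
      push_cast at h3
      unfold qq
      linarith
    have E1 := ev_ge W.k Nr (cs := us) (ck := uS) (cj := 0) (cl := 0) (ct := 0) (cp := 0) q1 q2
      (by simp) (by simp) (by simp) (by simp)
    have E2 := ev_ge W.j Nr (cs := qq e1) (ck := 0) (cj := 1) (cl := 0)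
      (ct := qq e1 * qq ax * qq lr) (cp := qq ce / 2) (eq' _ c4) (by simp) (sq _ c2) (by simp)
      (tq _ _ c6) (pq _ c8)
    have E3' := ev_ge W.l Nr (cs := qq e1) (ck := 0) (cj := 0) (cl := 1)
      (ct := qq e1 * qq ay * qq lr) (cp := qq ce / 2) (eq' _ c5) (by simp) (by simp) (sq _ c3)
      (tq _ _ c7) (pq _ c9)
    have tq2 : ∀ w : ℕ, 6000000000000 * lr ≤ w →
        qq lr * 6000000000000000000 ≤ w := fun w hw => by
      have h3 := (Nat.cast_le (α := ℝ)).2 hw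
      push_cast at h3
      unfold qq
      linarith
    have E4 := ev_ge W.j Nr (cs := qq e1) (ck := 0) (cj := 1) (cl := 0)
      (ct := qq lr) (cp := qq ce / 2) (eq' _ c4) (by simp) (sq _ c2) (by simp)
      (tq2 _ hst) (pq _ c8)
    have E5 := ev_ge W.l Nr (cs := qq e1) (ck := 0) (cj := 0) (cl := 1)
      (ct := qq lr) (cp := qq ce / 2) (eq' _ c5) (by simp) (by simp) (sq _ c3)
      (tq2 _ hst') (pq _ c9)
    have f1 : S (τ k.succ) + r k ≤ W.k.ev (stc S τ N k b te pe) := by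
      rw [rk]
      unfold stc at E1 ⊢
      dsimp only at E1
      linarith
    have f2 : S (τ (jj k).succ) + r (jj k)
        + qq e1 * qq ax * (qq lr * te) + qq ce * pe / 2 ≤ W.j.ev (stc S τ N k b te pe) := by
      rw [rj]
      unfold stc at E2 ⊢
      dsimp only at E2
      linarith
    have f3 : S (τ (ll k).succ) + r (ll k)
        + qq e1 * qq ay * (qq lr * te) + qq ce * pe / 2 ≤ W.l.ev (stc S τ N k b te pe) := by
      rw [rl]
      unfold stc at E3' ⊢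
      dsimp only at E3'
      linarith
    have f4 : S (τ (jj k).succ) + r (jj k)
        + qq lr * te + qq ce * pe / 2 ≤ W.j.ev (stc S τ N k b te pe) := by
      rw [rj]
      unfold stc at E4 ⊢
      dsimp only at E4
      linarith
    have f5 : S (τ (ll k).succ) + r (ll k)
        + qq lr * te + qq ce * pe / 2 ≤ W.l.ev (stc S τ N k b te pe) := by
      rw [rl]
      unfold stc at E5 ⊢
      dsimp only at E5
      linarith
    have b1 := mul_le_mul_of_nonneg_right f1 z0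
    have b2 := mul_le_mul_of_nonneg_right f2 w1
    have b3 := mul_le_mul_of_nonneg_right f3 w2
    have b4 := mul_le_mul_of_nonneg_right f4 w3
    have b5 := mul_le_mul_of_nonneg_right f5 w4
    rw [← hX', ← hY'] at key
    rw [ex, ey] at key ⊢
    linarith

/-- **the value majorants at a corner of the class**, strips if `st` -/
theorem hval_LS [IsFiniteMeasure σ] (h : CN K σ a c) (v : Viol K a S) (hz : CV a K z)
    (τ : Equiv.Perm (Fin 4)) (hl : Lok a l) (hδ : ∀ p, MA σ a l τ p p ≤ 0)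
    {ρ β : Fin 3 → ℝ} (hρ : ∀ p, 0 < ρ p) (hMρ : ∀ p k, k ≠ p → MA σ a l τ p k ≤ ρ p)
    {x : E3} (hx : x ∈ K) (hxs : Qv a (τ 0) x = S (τ 0) ∨ S (τ 0) = 0)
    {N : Fin 3 → Fin 3 → ℝ} (hNd : N = NM (fun i => a (τ i)) (fun i j => z (τ i) (τ j)))
    {tt : Fin 3 → ℝ} (htt : ∀ k, nc N k ≤ tt k) {A' : ℝ} (hA' : 0 < A')
    {φ : ℝ} (hφ : 0 < φ) (hβ0 : ∀ p, 0 ≤ β p) (hβ1 : ∀ p, β p ≤ 1)
    (hK : ∀ p, β p * ρ p ≤ A' * Id (fun t => kap N (vv t) p))
    (hF : ∀ p, (1 - β p) * ρ p ≤ φ * (A' * Id (flP (PN N) p)))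
    {cN : ℝ} (hcN : ∀ m, nc N m ≤ cN) {e1 : ℕ} (he1 : 1 + cN / 2 ≤ qq e1)
    {ζp : Fin 3 → ℝ} (z1 : ∀ k, 0 < ζp k) (z2 : ∀ k, zc (fun i => a (τ i)) N x k ≤ ζp k)
    {lam : ℝ} (l1 : 0 ≤ lam) (l2 : lam ≤ 1 - φ) {t : ℝ × ℝ} (ht : t ∈ Dl) (k : Fin 3)
    {p0 p1 : ℕ} (h01 : p0 ≤ p1) (hp : p1 ≤ 1000000)
    (hp0 : qq p0 ≤ prt (b3 (fun i => a (τ i)) x (jj k)) (b3 (fun i => a (τ i)) x (ll k)))
    (hp1 : prt (b3 (fun i => a (τ i)) x (jj k)) (b3 (fun i => a (τ i)) x (ll k)) ≤ qq p1)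
    {st loc : Bool} (hst : (∀ p, β p = 0) ∨ st = true)
    (hloc : loc = true → pp (b3 (fun i => a (τ i)) x k) ≤
      pp (b3 (fun i => a (τ i)) x (jj k)) + pp (b3 (fun i => a (τ i)) x (ll k)))
    {lr ce : ℕ} {G : List (ℕ × ℕ)} {Vs : List VT}
    (hG : vclS st loc p0 p1 e1 lr ce G Vs = true)
    {b te pe : ℝ} (hb0 : 0 ≤ b) (hte0 : 0 ≤ te) (hpe0 : 0 ≤ pe)
    (hlr1 : (1 - φ) * S (τ 0) ≤ qq lr * te) (hce : φ * (2 * S (τ 0)) ≤ qq ce * pe)
    {W : VT} (hW : W ∈ Vs) :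
    GM A' N (zc (fun i => a (τ i)) N x) ζp lam (fun p t => φ * flP (PN N) p t)
        (fun p t => kap N (vv t) p) β (MB σ a l τ)
        (fun p => aE σ a l (τ 0) (τ p.succ) - (fun _ => (0 : ℝ)) p) (Rv tt N)
        (fun k => S (τ k.succ)) (S (τ 0)) t ≤
      -(T3 t 0 * S (τ 1) + T3 t 1 * S (τ 2) + T3 t 2 * S (τ 3))
        + (W.k.ev (stc S τ N k b te pe) * T3 t k + W.j.ev (stc S τ N k b te pe) * T3 t (jj k)
          + W.l.ev (stc S τ N k b te pe) * T3 t (ll k)) := by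
  have s0 := v.nn (τ 0)
  have hlr : lam * S (τ 0) ≤ qq lr * te := (mul_le_mul_of_nonneg_right l2 s0).trans hlr1
  rcases hst with hβ | hst
  · exact hval_L h v hz τ hl hδ hρ hMρ hx hxs hNd htt hA' hφ hβ0 hβ1 hK hF hcN he1 z1 z2 l1 l2
      ht k h01 hp hp0 hp1 (loc := loc) (fun hlc => ⟨hβ, hloc hlc⟩) (vclS_vcl hG) hb0 hte0 hpe0
      hlr hce hW
  · have hG' := hG
    unfold vclS at hG'
    simp only [List.all_eq_true, Bool.or_eq_true, Bool.and_eq_true, List.any_eq_true,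
      Nat.ble_eq, hst, Bool.not_true, Bool.false_eq_true, false_or] at hG'
    rcases hG' W hW with hu | ⟨hlc, g, -, hg, hv⟩
    · -- uniform
      refine hval_L h v hz τ hl hδ hρ hMρ hx hxs hNd htt hA' hφ hβ0 hβ1 hK hF hcN he1 z1 z2
        l1 l2 ht k h01 hp hp0 hp1 (loc := false) (fun e => absurd e (by decide)) (G := [])
        (Vs := [W]) ?_ hb0 hte0 hpe0 hlr hce (List.mem_singleton_self W)
      unfold vcl
      simp only [List.all_cons, List.all_nil, Bool.and_true, hu, Bool.true_or]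
    · exact hval_S1 h v hz τ hl hδ hρ hMρ hx hxs hNd htt hA' hφ hβ0 hβ1 hK hF hcN he1 z1 z2
        l1 l2 ht k h01 hp hp0 hp1 (hloc hlc) hg hv hb0 hte0 hpe0 hlr1 hce

/-- **THE COST OF A FACE FROM THREE FAMILIES OF TABLES WITH A LOCALIZED APEX**, third columns 0,
strips if `st` -/
theorem wcf_locS {ι : Type*} [Fintype ι] [IsFiniteMeasure σ] (h : CN K σ a c)
    (v : Viol K a S) (hz : CV a K z) (τ : Equiv.Perm (Fin 4)) (hl : Lok a l)
    (hδ : ∀ p, MA σ a l τ p p ≤ 0) {ρ β : Fin 3 → ℝ} (hρ : ∀ p, 0 < ρ p)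
    (hMρ : ∀ p k, k ≠ p → MA σ a l τ p k ≤ ρ p)
    {x : E3} (hx : x ∈ K) (hxs : Qv a (τ 0) x = S (τ 0) ∨ S (τ 0) = 0)
    {N : Fin 3 → Fin 3 → ℝ} (hNd : N = NM (fun i => a (τ i)) (fun i j => z (τ i) (τ j)))
    {tt : Fin 3 → ℝ} (htt : ∀ k, nc N k ≤ tt k)
    {A : ℕ} {A' : ℝ} (hA : (A : ℝ) / U = A') (hA' : 0 < A')
    {φ : ℝ} (hφ : 0 < φ) (hφ1 : φ ≤ 1) (hβ0 : ∀ p, 0 ≤ β p) (hβ1 : ∀ p, β p ≤ 1)
    (hK : ∀ p, β p * ρ p ≤ A' * Id (fun t => kap N (vv t) p))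
    (hF : ∀ p, (1 - β p) * ρ p ≤ φ * (A' * Id (flP (PN N) p)))
    {cN : ℝ} (hcN : ∀ m, nc N m ≤ cN) (hcN1 : cN ≤ 1 / 2)
    {s χ ω : ℝ} (hS : ∀ i, S i ≤ s) (hχ0 : 0 ≤ χ) (hχ : 3 / 2 + 2 * s ≤ χ ^ 2)
    (hω0 : 0 ≤ ω) (hω : (1 - ω) * χ ≤ 1) {V : ℝ} (hV : ∀ k : Fin 3, S (τ k.succ) ≤ V)
    {C : Fin 3 → CT ι} {st : Bool} (hst : (∀ p, β p = 0) ∨ st = true) {loc : Fin 3 → Bool}
    {G : Fin 3 → List (ℕ × ℕ)} {c0 c1 hh e1 kl : ℕ}
    (hC : ∀ k, OkLS (C k) st (loc k) kl (G k) A c0 c1 hh e1)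
    (he1 : 1 + cN / 2 ≤ qq e1) (hkl : 2 * qq e1 ≤ (1 - cN) * qq kl)
    (hloc : ∀ k, loc k = true → pp (b3 (fun i => a (τ i)) x k) ≤
      pp (b3 (fun i => a (τ i)) x (jj k)) + pp (b3 (fun i => a (τ i)) x (ll k)))
    {wt : Fin 3 → ι → ℝ} {μ : Fin 3 → ι → ℕ → ℝ} {b te pe : Fin 3 → ℝ}
    (hk : ∀ k, CN1 (C k) a S τ x N β φ ω cN V (wt k) (μ k) k (b k) (te k) (pe k))
    {Sm d0 d1 : ℝ} (hI : IsC Sm d0 d1) (hSm : ∀ k, S k ≤ Sm) (hd1 : 0 ≤ d1)
    (hd3 : 3 * d1 * (1 + S (τ 0)) ≤ d0) (hc0 : (c0 : ℝ) / U ≤ d0) (hc1 : d1 ≤ (c1 : ℝ) / U)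
    {X y M dj : ℝ} (hX : S (τ 0) + (S (τ 1) + S (τ 2) + S (τ 3)) ≤ X) (hX1 : X ≤ 1 / 10)
    (hh1 : (hh : ℝ) / U ≤ 1 / 100) (hj1 : 2 / 3 ≤ dj)
    (hj2 : 2 / 3 * cN + φ * (2 * ω + 2 / 3 * cN) ≤ dj) (hj3 : 2 * ω ≤ dj) (hj4 : dj ≤ 2)
    (hy : 0.2823 + A' * ((1 / 2 + dj) * (2 * ((hh : ℝ) / U)) + 1.134 * X) ≤ y)
    (hM : 0 ≤ M) (hMh : 1 ≤ M ^ 2 * (1 - 2 * ((hh : ℝ) / U)) ^ 3)
    {cst : ℝ} (hcst : (√2)⁻¹ * ((∑ e, wt 0 e * ((C 0).Q e).W (μ 0 e))
      + (∑ e, wt 1 e * ((C 1).Q e).W (μ 1 e)) + (∑ e, wt 2 e * ((C 2).Q e).W (μ 2 e)))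
      + 17 * ((hh : ℝ) / U) ^ 2 * M * y ≤ cst) :
    WCF A' σ a K l τ z S x N (Rv tt N) φ β (fun _ => 0) (fun _ => 0) cst := by
  refine wcf_gen h v hz τ hl hδ hρ hMρ hx hxs hNd htt hA hA' hφ hφ1 hβ0 hβ1 hK hF hcN hcN1 hS
    hχ0 hχ hω0 hω hV (C := C) (fun k => (hC k).okG) hk ?_ ?_ hI hSm hd1 hd3 hc0 hc1 hX hX1 hh1
    hj1 hj2 hj3 hj4 hy hM hMh hcst
  · intro k ζp z1 z2 t ht _ _ L hL hz0
    exact hal_L h v hz τ hl hδ hx hxs hNd htt hcN hcN1 he1 hkl z1 z2 ht k (hC k).p01 (hC k).p1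
      (hk k).p0 (hk k).p1 (hloc k) (hC k).drp hL hz0
  · intro k ζp z1 z2 lam l1 l2 t ht _ _ W hW
    exact hval_LS h v hz τ hl hδ hρ hMρ hx hxs hNd htt hA' hφ hβ0 hβ1 hK hF hcN he1 z1 z2 l1 l2
      ht k (hC k).p01 (hC k).p1 (hk k).p0 (hk k).p1 hst (hloc k) (hC k).val (hk k).b0
      (hk k).te0 (hk k).pe0 (hk k).nb.lr (hk k).nb.ce hW

/-- the premise `HalP` of `ve_wcf` -/
theorem halP_L {ι : Type*} [IsFiniteMeasure σ] (h : CN K σ a c) (v : Viol K a S)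
    (hz : CV a K z) (τ : Equiv.Perm (Fin 4)) (hl : Lok a l) (hδ : ∀ p, MA σ a l τ p p ≤ 0)
    {x : E3} (hx : x ∈ K) (hxs : Qv a (τ 0) x = S (τ 0) ∨ S (τ 0) = 0)
    {N : Fin 3 → Fin 3 → ℝ} (hNd : N = NM (fun i => a (τ i)) (fun i j => z (τ i) (τ j)))
    {tt : Fin 3 → ℝ} (htt : ∀ k, nc N k ≤ tt k) {cN : ℝ} (hcN : ∀ m, nc N m ≤ cN)
    (hcN1 : cN ≤ 1 / 2) {e1 kl : ℕ} (he1 : 1 + cN / 2 ≤ qq e1)
    (hkl : 2 * qq e1 ≤ (1 - cN) * qq kl) (k : Fin 3) {C : CT ι}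
    (h01 : C.p0 ≤ C.p1) (hp : C.p1 ≤ 1000000)
    (hp0 : qq C.p0 ≤ prt (b3 (fun i => a (τ i)) x (jj k)) (b3 (fun i => a (τ i)) x (ll k)))
    (hp1 : prt (b3 (fun i => a (τ i)) x (jj k)) (b3 (fun i => a (τ i)) x (ll k)) ≤ qq C.p1)
    {loc : Bool} (hloc : loc = true → pp (b3 (fun i => a (τ i)) x k) ≤
      pp (b3 (fun i => a (τ i)) x (jj k)) + pp (b3 (fun i => a (τ i)) x (ll k)))
    (hA : drl loc C.p0 C.p1 kl C.As = true) : HalP C a S τ x N (Rv tt N) k := by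
  intro ζp z1 z2 t ht _ _ L hL hz0
  exact hal_L h v hz τ hl hδ hx hxs hNd htt hcN hcN1 he1 hkl z1 z2 ht k h01 hp hp0 hp1 hloc hA
    hL hz0

/-- **the premise `HvalP` of `ve_wcf`**, localized apex, strips if `st` -/
theorem hvalP_LS {ι : Type*} [IsFiniteMeasure σ] (h : CN K σ a c) (v : Viol K a S)
    (hz : CV a K z) (τ : Equiv.Perm (Fin 4)) (hl : Lok a l) (hδ : ∀ p, MA σ a l τ p p ≤ 0)
    {ρ β : Fin 3 → ℝ} (hρ : ∀ p, 0 < ρ p) (hMρ : ∀ p k, k ≠ p → MA σ a l τ p k ≤ ρ p)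
    {x : E3} (hx : x ∈ K) (hxs : Qv a (τ 0) x = S (τ 0) ∨ S (τ 0) = 0)
    {N : Fin 3 → Fin 3 → ℝ} (hNd : N = NM (fun i => a (τ i)) (fun i j => z (τ i) (τ j)))
    {tt : Fin 3 → ℝ} (htt : ∀ k, nc N k ≤ tt k) {A' : ℝ} (hA' : 0 < A')
    {φ : ℝ} (hφ : 0 < φ) (hβ0 : ∀ p, 0 ≤ β p) (hβ1 : ∀ p, β p ≤ 1)
    (hK : ∀ p, β p * ρ p ≤ A' * Id (fun t => kap N (vv t) p))
    (hF : ∀ p, (1 - β p) * ρ p ≤ φ * (A' * Id (flP (PN N) p)))
    {cN : ℝ} (hcN : ∀ m, nc N m ≤ cN) {e1 : ℕ} (he1 : 1 + cN / 2 ≤ qq e1) (k : Fin 3)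
    {C : CT ι} (h01 : C.p0 ≤ C.p1) (hp : C.p1 ≤ 1000000)
    (hp0 : qq C.p0 ≤ prt (b3 (fun i => a (τ i)) x (jj k)) (b3 (fun i => a (τ i)) x (ll k)))
    (hp1 : prt (b3 (fun i => a (τ i)) x (jj k)) (b3 (fun i => a (τ i)) x (ll k)) ≤ qq C.p1)
    {st loc : Bool} (hst : (∀ p, β p = 0) ∨ st = true)
    (hloc : loc = true → pp (b3 (fun i => a (τ i)) x k) ≤
      pp (b3 (fun i => a (τ i)) x (jj k)) + pp (b3 (fun i => a (τ i)) x (ll k)))
    {lr ce : ℕ} {G : List (ℕ × ℕ)} (hG : vclS st loc C.p0 C.p1 e1 lr ce G C.Vs = true)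
    {b te pe : ℝ} (hb0 : 0 ≤ b) (hte0 : 0 ≤ te) (hpe0 : 0 ≤ pe)
    (hlr1 : (1 - φ) * S (τ 0) ≤ qq lr * te) (hce : φ * (2 * S (τ 0)) ≤ qq ce * pe) :
    HvalP C A' σ a l S τ x N (Rv tt N) φ β k b te pe := by
  intro ζp z1 z2 lam l1 l2 t ht _ _ W hW
  exact hval_LS h v hz τ hl hδ hρ hMρ hx hxs hNd htt hA' hφ hβ0 hβ1 hK hF hcN he1 z1 z2 l1 l2
    ht k h01 hp hp0 hp1 hst hloc hG hb0 hte0 hpe0 hlr1 hce hW

end body

end Helper99.LocS
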