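import Pool.Agent.Helper99.MEI.DF

/-!
# Project MEI (M2), w-term: price vectors for the deficit and for the value of the certificate

`δ ≥ 0` with `(Pᵀ δ)_k = δ_k + Σ_j N_jk δ_j ≥ (value of the node k)`, the slacks
`s_k = (Pᵀ δ)_k - v_k` pay the apex (`Σ ζp_k s_k`) and the arcs (`s_j + s_k` per unit `ρ`), `δ_j + δ_k`
pays the arcs of the residual: then the certificate is below `Σ_k δ_k t_k` on the whole simplex.

* `price_core`: the lemma for any values;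
* `DXk κ`: the deficit with the exact leaks of the nodes; `DM ≤ DXk κ`; `inst_F2k`: the bound of the
  coupling with `DXk κ` for every `κ` with `wx V w ≤ 3 (κ - 1/2) w` (`κ = 1/2` for `w ≥ 2 V`);
* `DXk_price`: the deficit by price vectors; placed bodies: `DXk_body`, `DM_price`, `LX_body`;
* `inst_F2x`: the exact form of `inst_F2` (`D2 = DXk (1/2)`, `P = LX / 3` in `wcost_R7d`).
-/

set_option autoImplicit false

namespace Helper99.MEI

open Set Metric MeasureTheory Helper80.CW Helper82.CW Helper14.CW Helper93.MEI Helper78.MEI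
open Helper82.M2 Helper14.MEI2 Pool.Agent.Helper52.MEI Pool.Agent.Helper73.MEI Helper41.MEI
open Helper37.MEI
open Pool.Agent.Helper55.Sx (Sim)
open Pool.Agent.Helper55.Mass (LN LN_nonneg vv vv_nonneg vv_le Id)
open Pool.Agent.Helper55.Apex (nc vt_vv)
open Pool.Agent.Helper55.ApexP (PN alP alP_nonneg alP_zeta alP_le xx_mu mu_bal)
open Pool.Agent.Helper55.Fill (xx rr rr_nonneg xx_nonneg xx_le xx_feas)
open Pool.Agent.Helper73.MEI.SideP (flP flP_nonneg flP_zero flP_pair)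
open Pool.Agent.Helper96.Kap (kap kap_nonneg kap_add)
open Pool.Agent.Helper31.SR
open Helper75.MEI2 (mu vt)
open scoped RealInnerProductSpace ENNReal

/-- price of one unit of the node `k` -/
noncomputable def PT (N : Fin 3 → Fin 3 → ℝ) (δ : Fin 3 → ℝ) (k : Fin 3) : ℝ :=
  δ k + (N 0 k * δ 0 + N 1 k * δ 1 + N 2 k * δ 2)

/-- duality -/
theorem PT_dual (N : Fin 3 → Fin 3 → ℝ) (δ x : Fin 3 → ℝ) :
    x 0 * PT N δ 0 + x 1 * PT N δ 1 + x 2 * PT N δ 2 =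
      δ 0 * (x 0 + LN N x 0) + δ 1 * (x 1 + LN N x 1) + δ 2 * (x 2 + LN N x 2) := by
  unfold PT LN
  ring

/-- sum over the other two indices -/
noncomputable def S2 (f : Fin 3 → ℝ) (l : Fin 3) : ℝ := f 0 + f 1 + f 2 - f l

theorem S2_dual (f g : Fin 3 → ℝ) :
    f 0 * S2 g 0 + f 1 * S2 g 1 + f 2 * S2 g 2 = g 0 * S2 f 0 + g 1 * S2 f 1 + g 2 * S2 f 2 := by
  unfold S2
  ring

/-- **the price lemma**, weights `A` of the apex, `α l` of the arcs, `g l` of the arcs of the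
residual -/
theorem price_core {N : Fin 3 → Fin 3 → ℝ} {b : Fin 3 → ℝ}
    {A : ℝ} {F Kp α g ρ ζp : Fin 3 → ℝ} (hA : 0 ≤ A) (hF : ∀ l, 0 ≤ F l) (hKp : ∀ l, 0 ≤ Kp l)
    (hα : ∀ l, 0 ≤ α l) (hg : ∀ l, 0 ≤ g l)
    (hαF : ∀ l, α l * ρ l ≤ F l) (hgK : ∀ l, g l * ρ l ≤ Kp l)
    (hx : ∀ k, A * ζp k + S2 F k ≤ xx N b k) (hr : ∀ k, S2 Kp k ≤ rr N b k)
    {δ v : Fin 3 → ℝ} (hδ : ∀ k, 0 ≤ δ k) (hv : ∀ k, v k ≤ PT N δ k)
    {e : ℝ} (he : A = 0 ∨ e ≤ ζp 0 * (PT N δ 0 - v 0) + ζp 1 * (PT N δ 1 - v 1) +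
      ζp 2 * (PT N δ 2 - v 2))
    {c γ : Fin 3 → ℝ} (hγ0 : ∀ l, 0 ≤ γ l) (hc : ∀ l, c l ≤ γ l * ρ l)
    (hγ : ∀ l, γ l ≤ S2 (fun k => PT N δ k - v k) l)
    {r γ' : Fin 3 → ℝ} (hγ0' : ∀ l, 0 ≤ γ' l) (hr' : ∀ l, g l = 0 ∨ r l ≤ γ' l * ρ l)
    (hγ' : ∀ l, g l = 0 ∨ γ' l ≤ S2 δ l) :
    (xx N b 0 * v 0 + xx N b 1 * v 1 + xx N b 2 * v 2) + A * e
      + (α 0 * c 0 + α 1 * c 1 + α 2 * c 2) + (g 0 * r 0 + g 1 * r 1 + g 2 * r 2) ≤
      δ 0 * b 0 + δ 1 * b 1 + δ 2 * b 2 := by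
  have h1 : ∀ l, α l * c l ≤ F l * S2 (fun k => PT N δ k - v k) l := fun l => by
    have k1 := mul_le_mul_of_nonneg_left (hc l) (hα l)
    have k2 := mul_le_mul_of_nonneg_right (hαF l) (hγ0 l)
    have k3 := mul_le_mul_of_nonneg_left (hγ l) (hF l)
    linarith
  have h2 : ∀ l, g l * r l ≤ Kp l * S2 δ l := fun l => by
    have hS : 0 ≤ S2 δ l := by
      have d0 := hδ 0
      have d1 := hδ 1
      have d2 := hδ 2
      unfold S2
      fin_cases l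
      · simp only [Fin.zero_eta]; linarith
      · simp only [Fin.mk_one]; linarith
      · simp only [Fin.reduceFinMk]; linarith
    have h0 : g l = 0 → g l * r l ≤ Kp l * S2 δ l := fun h => by
      rw [h, zero_mul]
      exact mul_nonneg (hKp l) hS
    rcases hr' l with h | h
    · exact h0 h
    rcases hγ' l with h' | h'
    · exact h0 h'
    have k1 := mul_le_mul_of_nonneg_left h (hg l)
    have k2 := mul_le_mul_of_nonneg_right (hgK l) (hγ0' l)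
    have k3 := mul_le_mul_of_nonneg_left h' (hKp l)
    linarith
  have h3 : ∀ k, (PT N δ k - v k) * (A * ζp k + S2 F k) ≤ (PT N δ k - v k) * xx N b k := fun k =>
    mul_le_mul_of_nonneg_left (hx k) (sub_nonneg.2 (hv k))
  have h4 : ∀ k, δ k * S2 Kp k ≤ δ k * rr N b k := fun k => mul_le_mul_of_nonneg_left (hr k) (hδ k)
  have d1 := S2_dual F (fun k => PT N δ k - v k)
  have d2 := S2_dual Kp δ
  have d3 := PT_dual N δ (xx N b)
  have h5 : A * e ≤ A * (ζp 0 * (PT N δ 0 - v 0) + ζp 1 * (PT N δ 1 - v 1) +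
      ζp 2 * (PT N δ 2 - v 2)) := by
    rcases he with h | h
    · rw [h, zero_mul, zero_mul]
    · exact mul_le_mul_of_nonneg_left h hA
  have a0 := h1 0
  have a1 := h1 1
  have a2 := h1 2
  have b0 := h2 0
  have b1 := h2 1
  have b2 := h2 2
  have c0 := h3 0
  have c1 := h3 1
  have c2 := h3 2
  have e0 := h4 0
  have e1 := h4 1
  have e2 := h4 2
  have r0 : rr N b 0 = b 0 - (xx N b 0 + LN N (xx N b) 0) := rfl
  have r1 : rr N b 1 = b 1 - (xx N b 1 + LN N (xx N b) 1) := rfl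
  have r2 : rr N b 2 = b 2 - (xx N b 2 + LN N (xx N b) 2) := rfl
  rw [r0] at e0
  rw [r1] at e1
  rw [r2] at e2
  linarith

/-- the deficit of the certificate `GM` with the exact leaks of the nodes, share `κ` -/
noncomputable def DXk (κ A' : ℝ) (N : Fin 3 → Fin 3 → ℝ) (ζ ζp : Fin 3 → ℝ) (lam : ℝ)
    (hf kf : Fin 3 → ℝ × ℝ → ℝ) (β : Fin 3 → ℝ) (M : Fin 3 → Fin 3 → ℝ) (sm : Fin 3 → ℝ)
    (t : ℝ × ℝ) : ℝ :=
  (xx N (vv t) 0 * (κ * nc N 0) + xx N (vv t) 1 * (κ * nc N 1) + xx N (vv t) 2 * (κ * nc N 2))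
    + lam * alP N ζp t * ((∑ k, (ζ k + (1 - κ) * LN N ζ k)) - 1)
    + ∑ p, ash hf (fun p => Id (hf p)) β A' p t *
        ((∑ k, (M p k + (1 - κ) * LN N (M p) k)) - sm p)
    + ∑ p, ast kf (fun p => Id (kf p)) β A' p t * ((M p 0 + M p 1 + M p 2) - sm p)

/-- the free part of the nodes -/
noncomputable def Xk (A' : ℝ) (N : Fin 3 → Fin 3 → ℝ) (ζ ζp : Fin 3 → ℝ) (lam : ℝ)
    (hf : Fin 3 → ℝ × ℝ → ℝ) (β : Fin 3 → ℝ) (M : Fin 3 → Fin 3 → ℝ) (t : ℝ × ℝ) (k : Fin 3) : ℝ :=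
  xx N (vv t) k - (lam * alP N ζp t * ζ k + ∑ p, ash hf (fun p => Id (hf p)) β A' p t * M p k)

/-- `DM` and `DXk` -/
theorem DM_eq_DXk (κ A' : ℝ) (N : Fin 3 → Fin 3 → ℝ) (ζ ζp : Fin 3 → ℝ) (lam : ℝ)
    (hf kf : Fin 3 → ℝ × ℝ → ℝ) (β : Fin 3 → ℝ) (M : Fin 3 → Fin 3 → ℝ) (μ sm : Fin 3 → ℝ)
    (t : ℝ × ℝ) :
    DM A' N ζ ζp lam hf kf β M μ sm t = DXk κ A' N ζ ζp lam hf kf β M sm t
      + (Xk A' N ζ ζp lam hf β M t 0 * (1 + nc N 0 - μ 0 - κ * nc N 0)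
        + Xk A' N ζ ζp lam hf β M t 1 * (1 + nc N 1 - μ 1 - κ * nc N 1)
        + Xk A' N ζ ζp lam hf β M t 2 * (1 + nc N 2 - μ 2 - κ * nc N 2)) := by
  unfold DM Dg DXk Xk LN nc
  simp only [Finset.univ_unique, Finset.sum_singleton, Fin.sum_univ_three]
  ring

section abs
variable {N : Fin 3 → Fin 3 → ℝ} (hN : ∀ k m, 0 ≤ N k m) (hd : ∀ k, N k k = 0) {c : ℝ}
  (hc : c < 1) (hcol : ∀ m, nc N m ≤ c)
include hN hd hc hcol

theorem Id_flP_pos (p : Fin 3) : 0 < Id (flP (PN N) p) := by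
  have h1 := Pool.Agent.Helper73.MEI.SideP.flN_mass hN hd hc hcol p
  have h2 := Pool.Agent.Helper55.ApexP.PN_det_pos hN hd hc hcol
  have h3 := Pool.Agent.Helper73.MEI.SideP.mbN_ge hN p
  refine lt_of_lt_of_le ?_ h1
  have h4 : 0 < Pool.Agent.Helper73.MEI.SideP.mbN N p := by linarith
  positivity

/-- room for the apex and for the arcs in the loads of the nodes -/
theorem room {φ lam : ℝ} (hφ : 0 < φ) (hl0 : 0 ≤ lam) (hl1 : lam ≤ 1 - φ)
    {ζp : Fin 3 → ℝ} (hζp : ∀ k, 0 < ζp k) {t : ℝ × ℝ} (ht : t ∈ Sim) (k : Fin 3) :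
    lam * alP N ζp t * ζp k + S2 (fun p => φ * flP (PN N) p t) k ≤ xx N (vv t) k := by
  by_cases h : ∀ k, 0 ≤ mu (PN N) (vt t) k
  · have h2 : xx N (vv t) k = mu (PN N) (vt t) k := by
      rw [← vt_vv, xx_mu hN hd hc hcol h]
    obtain ⟨p0, p1, p2⟩ := flP_pair (P := PN N) h
    have ha := mul_le_mul_of_nonneg_left (alP_zeta hζp h k) hl0
    have ha2 := mul_le_mul_of_nonneg_right hl1 (h k)
    have hfk : (flP (PN N) 0 t + flP (PN N) 1 t + flP (PN N) 2 t) - flP (PN N) k t ≤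
        mu (PN N) (vt t) k := by
      fin_cases k
      · simp only [Fin.zero_eta]
        linarith
      · simp only [Fin.mk_one]
        linarith
      · simp only [Fin.reduceFinMk]
        linarith
    have hfk' := mul_le_mul_of_nonneg_left hfk hφ.le
    rw [h2]
    unfold S2
    linarith
  · have hx0 := xx_nonneg hN hc hcol (fun k => vv_nonneg ht k) k
    have h1 : alP N ζp t = 0 := by
      unfold alP
      rw [if_neg h]
    have hz : ∀ p, flP (PN N) p t = 0 := fun p => flP_zero (by push Not at h; exact h) p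
    unfold S2
    rw [h1]
    simp only [hz]
    linarith

/-- the weights of the arcs -/
theorem ash_room {φ A' : ℝ} (hφ : 0 < φ) (hA' : 0 < A') {β ρ : Fin 3 → ℝ}
    (hF : ∀ p, (1 - β p) * ρ p ≤ φ * (A' * Id (flP (PN N) p))) (t : ℝ × ℝ) (p : Fin 3) :
    ash (fun p t => φ * flP (PN N) p t) (fun p => Id (fun t => φ * flP (PN N) p t)) β A' p t *
      ρ p ≤ φ * flP (PN N) p t := by
  have hF0 := Id_flP_pos hN hd hc hcol p
  have eI : Id (fun t => φ * flP (PN N) p t) = φ * Id (flP (PN N) p) :=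
    Pool.Agent.Helper55.Mass.Id_const φ _
  have hAF : 0 < A' * Id (fun t => φ * flP (PN N) p t) := by
    rw [eI]
    positivity
  have q0 : 0 ≤ φ * flP (PN N) p t / (A' * Id (fun t => φ * flP (PN N) p t)) :=
    div_nonneg (mul_nonneg hφ.le (flP_nonneg p t)) hAF.le
  have hF' : (1 - β p) * ρ p ≤ A' * Id (fun t => φ * flP (PN N) p t) := by
    rw [eI]
    have := hF p
    linarith
  have q1 := mul_le_mul_of_nonneg_left hF' q0
  have q2 : φ * flP (PN N) p t / (A' * Id (fun t => φ * flP (PN N) p t)) *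
      (A' * Id (fun t => φ * flP (PN N) p t)) = φ * flP (PN N) p t :=
    div_mul_cancel₀ _ hAF.ne'
  unfold ash
  linarith

theorem ash0 {φ A' : ℝ} (hφ : 0 < φ) (hA' : 0 < A') {β : Fin 3 → ℝ} (hβ1 : ∀ p, β p ≤ 1)
    (t : ℝ × ℝ) (p : Fin 3) :
    0 ≤ ash (fun p t => φ * flP (PN N) p t) (fun p => Id (fun t => φ * flP (PN N) p t)) β A' p t :=
  ash_nonneg (fun p t => mul_nonneg hφ.le (flP_nonneg p t)) hA' (fun p => by
    have eI : Id (fun t => φ * flP (PN N) p t) = φ * Id (flP (PN N) p) :=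
      Pool.Agent.Helper55.Mass.Id_const φ _
    rw [eI]
    exact mul_pos hφ (Id_flP_pos hN hd hc hcol p)) hβ1 p t

omit hd in
theorem Id_kap_nonneg (p : Fin 3) : 0 ≤ Id (fun t => kap N (vv t) p) := by
  unfold Pool.Agent.Helper55.Mass.Id
  refine mul_nonneg (by positivity) (setIntegral_nonneg
    Pool.Agent.Helper55.Sx.Sim_meas fun t ht => ?_)
  exact div_nonneg (kap_nonneg hN hc hcol (fun k => vv_nonneg ht k) p) (by positivity)

omit hd in
/-- the weights of the arcs of the residual -/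
theorem ast_room {A' : ℝ} (hA' : 0 < A') {β ρ : Fin 3 → ℝ}
    (hK : ∀ p, β p * ρ p ≤ A' * Id (fun t => kap N (vv t) p)) {t : ℝ × ℝ} (ht : t ∈ Sim)
    (p : Fin 3) :
    ast (fun p t => kap N (vv t) p) (fun p => Id (fun t => kap N (vv t) p)) β A' p t * ρ p ≤
      kap N (vv t) p := by
  have hk := kap_nonneg hN hc hcol (fun k => vv_nonneg ht k) p
  unfold ast
  rcases eq_or_lt_of_le (mul_nonneg hA'.le (Id_kap_nonneg hN hc hcol p)) with e | hpos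
  · rw [← e, div_zero, mul_zero, zero_mul]
    exact hk
  · have q0 : 0 ≤ kap N (vv t) p / (A' * Id (fun t => kap N (vv t) p)) := div_nonneg hk hpos.le
    have q1 := mul_le_mul_of_nonneg_left (hK p) q0
    have q2 : kap N (vv t) p / (A' * Id (fun t => kap N (vv t) p)) *
        (A' * Id (fun t => kap N (vv t) p)) = kap N (vv t) p := div_mul_cancel₀ _ hpos.ne'
    linarith

omit hd in
theorem ast0 {A' : ℝ} (hA' : 0 < A') {β : Fin 3 → ℝ} (hβ0 : ∀ p, 0 ≤ β p) {t : ℝ × ℝ}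
    (ht : t ∈ Sim) (p : Fin 3) :
    0 ≤ ast (fun p t => kap N (vv t) p) (fun p => Id (fun t => kap N (vv t) p)) β A' p t :=
  ast_nonneg (fun p _ ht => kap_nonneg hN hc hcol (fun k => vv_nonneg ht k) p) hA' hβ0
    (fun p => Id_kap_nonneg hN hc hcol p) p ht

omit hd in
theorem kap_S2 {t : ℝ × ℝ} (ht : t ∈ Sim) (k : Fin 3) :
    S2 (fun p => kap N (vv t) p) k ≤ rr N (vv t) k := by
  have hbv := fun k => vv_nonneg ht k
  unfold S2
  fin_cases k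
  · have := kap_add hN hc hcol hbv (j := 1) (l := 2) (k := 0) (by decide) (by decide) (by decide)
    simp only [Fin.zero_eta]
    linarith
  · have := kap_add hN hc hcol hbv (j := 0) (l := 2) (k := 1) (by decide) (by decide) (by decide)
    simp only [Fin.mk_one]
    linarith
  · have := kap_add hN hc hcol hbv (j := 0) (l := 1) (k := 2) (by decide) (by decide) (by decide)
    simp only [Fin.reduceFinMk]
    linarith

/-- the free part of the nodes is nonnegative -/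
theorem Xk_nonneg {A' φ lam : ℝ} (hA' : 0 < A') (hφ : 0 < φ) (hl0 : 0 ≤ lam)
    (hl1 : lam ≤ 1 - φ) {ζ ζp : Fin 3 → ℝ} (hζp : ∀ k, 0 < ζp k) (hζ : ∀ k, ζ k ≤ ζp k)
    {β ρ : Fin 3 → ℝ} (hβ1 : ∀ p, β p ≤ 1)
    {M : Fin 3 → Fin 3 → ℝ} (hMd : ∀ p, M p p = 0) (hMρ : ∀ p k, k ≠ p → M p k ≤ ρ p)
    (hF : ∀ p, (1 - β p) * ρ p ≤ φ * (A' * Id (flP (PN N) p))) {t : ℝ × ℝ} (ht : t ∈ Sim)
    (k : Fin 3) : 0 ≤ Xk A' N ζ ζp lam (fun p t => φ * flP (PN N) p t) β M t k := by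
  have h1 := room hN hd hc hcol hφ hl0 hl1 hζp ht k
  have h2 := mul_le_mul_of_nonneg_left (hζ k) (mul_nonneg hl0 (alP_nonneg (N := N) hζp t))
  have h3 : ∀ p, ash (fun p t => φ * flP (PN N) p t) (fun p => Id (fun t => φ * flP (PN N) p t))
      β A' p t * M p k ≤ if p = k then 0 else φ * flP (PN N) p t := by
    intro p
    by_cases e : p = k
    · rw [e, hMd, if_pos rfl, mul_zero]
    · rw [if_neg e]
      have k1 := mul_le_mul_of_nonneg_left (hMρ p k (Ne.symm e))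
        (ash0 hN hd hc hcol hφ hA' hβ1 t p)
      exact k1.trans (ash_room hN hd hc hcol hφ hA' hF t p)
  have h4 : (if (0 : Fin 3) = k then 0 else φ * flP (PN N) 0 t)
      + (if (1 : Fin 3) = k then 0 else φ * flP (PN N) 1 t)
      + (if (2 : Fin 3) = k then 0 else φ * flP (PN N) 2 t) =
      S2 (fun p => φ * flP (PN N) p t) k := by
    unfold S2
    fin_cases k <;> simp <;> ring
  have a0 := h3 0
  have a1 := h3 1
  have a2 := h3 2
  unfold Xk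
  rw [Fin.sum_univ_three]
  linarith

/-- the plain deficit is at most `DXk κ` -/
theorem DM_le_DXk {κ : ℝ} {μ : Fin 3 → ℝ} (hμ : ∀ k, 1 + nc N k - μ k ≤ κ * nc N k)
    {A' φ lam : ℝ} (hA' : 0 < A') (hφ : 0 < φ) (hl0 : 0 ≤ lam) (hl1 : lam ≤ 1 - φ)
    {ζ ζp : Fin 3 → ℝ} (hζp : ∀ k, 0 < ζp k) (hζ : ∀ k, ζ k ≤ ζp k)
    {β ρ : Fin 3 → ℝ} (hβ1 : ∀ p, β p ≤ 1)
    {M : Fin 3 → Fin 3 → ℝ} (hMd : ∀ p, M p p = 0) (hMρ : ∀ p k, k ≠ p → M p k ≤ ρ p)
    (hF : ∀ p, (1 - β p) * ρ p ≤ φ * (A' * Id (flP (PN N) p)))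
    {kf : Fin 3 → ℝ × ℝ → ℝ} {sm : Fin 3 → ℝ} {t : ℝ × ℝ} (ht : t ∈ Sim) :
    DM A' N ζ ζp lam (fun p t => φ * flP (PN N) p t) kf β M μ sm t ≤
      DXk κ A' N ζ ζp lam (fun p t => φ * flP (PN N) p t) kf β M sm t := by
  rw [DM_eq_DXk κ]
  have h := fun k => mul_nonneg (Xk_nonneg hN hd hc hcol hA' hφ hl0 hl1 hζp hζ hβ1 hMd hMρ hF
    ht k) (show 0 ≤ -(1 + nc N k - μ k - κ * nc N k) by have := hμ k; linarith)
  have h0 := h 0
  have h1 := h 1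
  have h2 := h 2
  linarith

/-- **the deficit by a price vector** -/
theorem DXk_price {κ : ℝ} {A' φ lam : ℝ} (hA' : 0 < A') (hφ : 0 < φ) (hl0 : 0 ≤ lam)
    (hl1 : lam ≤ 1 - φ)
    {ζ ζp : Fin 3 → ℝ} (hζp : ∀ k, 0 < ζp k)
    {β ρ : Fin 3 → ℝ} (hβ0 : ∀ p, 0 ≤ β p) (hβ1 : ∀ p, β p ≤ 1)
    (hK : ∀ p, β p * ρ p ≤ A' * Id (fun t => kap N (vv t) p))
    (hF : ∀ p, (1 - β p) * ρ p ≤ φ * (A' * Id (flP (PN N) p)))
    {M : Fin 3 → Fin 3 → ℝ} {sm δ γ γ' : Fin 3 → ℝ} {e : ℝ}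
    (hδ : ∀ k, 0 ≤ δ k) (hv : ∀ k, κ * nc N k ≤ PT N δ k)
    (he : lam = 0 ∨ ((∑ k, (ζ k + (1 - κ) * LN N ζ k)) - 1 ≤ e ∧
      e ≤ ζp 0 * (PT N δ 0 - κ * nc N 0) + ζp 1 * (PT N δ 1 - κ * nc N 1) +
        ζp 2 * (PT N δ 2 - κ * nc N 2)))
    (hγ0 : ∀ l, 0 ≤ γ l)
    (hc' : ∀ l, (∑ k, (M l k + (1 - κ) * LN N (M l) k)) - sm l ≤ γ l * ρ l)
    (hγ : ∀ l, γ l ≤ S2 (fun k => PT N δ k - κ * nc N k) l)
    (hγ0' : ∀ l, 0 ≤ γ' l)
    (hr' : ∀ l, β l = 0 ∨ ((M l 0 + M l 1 + M l 2) - sm l ≤ γ' l * ρ l ∧ γ' l ≤ S2 δ l))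
    {t : ℝ × ℝ} (ht : t ∈ Sim) :
    DXk κ A' N ζ ζp lam (fun p t => φ * flP (PN N) p t) (fun p t => kap N (vv t) p) β M sm t ≤
      δ 0 * vv t 0 + δ 1 * vv t 1 + δ 2 * vv t 2 := by
  have key := price_core (N := N) (b := vv t) (A := lam * alP N ζp t)
    (F := fun p => φ * flP (PN N) p t) (Kp := fun p => kap N (vv t) p)
    (α := fun p => ash (fun p t => φ * flP (PN N) p t)
      (fun p => Id (fun t => φ * flP (PN N) p t)) β A' p t)
    (g := fun p => ast (fun p t => kap N (vv t) p) (fun p => Id (fun t => kap N (vv t) p)) β A'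
      p t) (ρ := ρ) (ζp := ζp) (δ := δ) (v := fun k => κ * nc N k) (e := e)
    (c := fun l => (∑ k, (M l k + (1 - κ) * LN N (M l) k)) - sm l) (γ := γ)
    (r := fun l => (M l 0 + M l 1 + M l 2) - sm l) (γ' := γ')
    (mul_nonneg hl0 (alP_nonneg (N := N) hζp t))
    (fun p => mul_nonneg hφ.le (flP_nonneg p t))
    (fun p => kap_nonneg hN hc hcol (fun k => vv_nonneg ht k) p)
    (fun p => ash0 hN hd hc hcol hφ hA' hβ1 t p)
    (fun p => ast0 hN hc hcol hA' hβ0 ht p)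
    (fun p => ash_room hN hd hc hcol hφ hA' hF t p)
    (fun p => ast_room hN hc hcol hA' hK ht p)
    (fun k => room hN hd hc hcol hφ hl0 hl1 hζp ht k)
    (fun k => kap_S2 hN hc hcol ht k) hδ hv
    (by
      rcases he with h | h
      · left
        rw [h, zero_mul]
      · exact Or.inr h.2) hγ0 hc' hγ hγ0'
    (fun l => by
      rcases hr' l with h | h
      · left
        unfold ast
        rw [h, zero_mul]
      · exact Or.inr h.1)
    (fun l => by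
      rcases hr' l with h | h
      · left
        unfold ast
        rw [h, zero_mul]
      · exact Or.inr h.2)
  have h1 : lam * alP N ζp t * ((∑ k, (ζ k + (1 - κ) * LN N ζ k)) - 1) ≤
      lam * alP N ζp t * e := by
    rcases he with h | h
    · rw [h, zero_mul, zero_mul, zero_mul]
    · exact mul_le_mul_of_nonneg_left h.1 (mul_nonneg hl0 (alP_nonneg (N := N) hζp t))
  unfold DXk
  rw [Fin.sum_univ_three (f := fun p => ash (fun p t => φ * flP (PN N) p t)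
      (fun p => Id ((fun p t => φ * flP (PN N) p t) p)) β A' p t *
        ((∑ k, (M p k + (1 - κ) * LN N (M p) k)) - sm p)),
    Fin.sum_univ_three (f := fun p => ast (fun p t => kap N (vv t) p)
      (fun p => Id ((fun p t => kap N (vv t) p) p)) β A' p t * ((M p 0 + M p 1 + M p 2) - sm p))]
  linarith

end abs

/-! ### placed bodies -/

section body
variable {a : Fin 4 → E3} {K : Set E3} {S : Fin 4 → ℝ} {σ : Measure (E3 × E3)}
  {c : Fin 4 → E3} {z : Fin 4 → Fin 4 → E3} {l : Fin 3 → Bool → Bool → E3 × E3 → ℝ}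

/-- **the deficit of a placed body by a price vector** `δ`: nodes `κ nc ≤ Pᵀ δ`, arcs
`2 ω + η + (nc_j + nc_k) ≤ (Pᵀ δ)_j + (Pᵀ δ)_k`, residual arcs `2 ω + η ≤ δ_j + δ_k`, apex
`b0 + κ Σ (ζp - ζ) nc ≤ Σ ζp Pᵀ δ` -/
theorem DXk_body [IsFiniteMeasure σ] (h : CN K σ a c) (v : Viol K a S) (hz : CV a K z)
    (τ : Equiv.Perm (Fin 4)) {A' : ℝ} (hA' : 0 < A') (hl : Lok a l)
    {ρ β : Fin 3 → ℝ} (hρ : ∀ p, 0 < ρ p) (hMρ : ∀ p k, k ≠ p → MA σ a l τ p k ≤ ρ p)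
    {x : E3} {N : Fin 3 → Fin 3 → ℝ}
    (hNd : N = NM (fun i => a (τ i)) (fun i j => z (τ i) (τ j)))
    {ζ ζp : Fin 3 → ℝ} (hζd : ζ = zc (fun i => a (τ i)) N x) (hζp : ∀ k, 0 < ζp k)
    {φ lam : ℝ} (hφ : 0 < φ) (hl0 : 0 ≤ lam) (hl1 : lam ≤ 1 - φ)
    (hβ0 : ∀ p, 0 ≤ β p) (hβ1 : ∀ p, β p ≤ 1)
    (hK : ∀ p, β p * ρ p ≤ A' * Id (fun t => kap N (vv t) p))
    (hF : ∀ p, (1 - β p) * ρ p ≤ φ * (A' * Id (flP (PN N) p)))
    {κ : ℝ} (hκ1 : κ ≤ 1)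
    {s χ ω η : ℝ} (hS : ∀ i, S i ≤ s) (hχ0 : 0 ≤ χ) (hχ : 3 / 2 + 2 * s ≤ χ ^ 2)
    (hω0 : 0 ≤ ω) (hω : (1 - ω) * χ ≤ 1) (hη0 : 0 ≤ η)
    {dm : Fin 3 → ℝ} (hη : ∀ p, dm p ≤ η * ρ p)
    {δ : Fin 3 → ℝ} (hδ : ∀ k, 0 ≤ δ k) (hnode : ∀ k, κ * nc N k ≤ PT N δ k)
    (harc : ∀ p, 2 * ω + η + S2 (nc N) p ≤ S2 (PT N δ) p)
    (hres : ∀ p, β p = 0 ∨ 2 * ω + η ≤ S2 δ p)
    {b0 : ℝ} (hb0 : -bar (fun i => a (τ i)) 0 x ≤ b0)
    (hap : lam = 0 ∨ b0 + κ * ((ζp 0 - ζ 0) * nc N 0 + (ζp 1 - ζ 1) * nc N 1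
      + (ζp 2 - ζ 2) * nc N 2) ≤ ζp 0 * PT N δ 0 + ζp 1 * PT N δ 1 + ζp 2 * PT N δ 2)
    {t : ℝ × ℝ} (ht : t ∈ Sim) :
    DXk κ A' N ζ ζp lam (fun p t => φ * flP (PN N) p t) (fun p t => kap N (vv t) p) β
        (MB σ a l τ) (fun p => am σ a l (τ 0) (τ p.succ) - dm p) t ≤
      δ 0 * vv t 0 + δ 1 * vv t 1 + δ 2 * vv t 2 := by
  have h' := h.perm τ
  have v' := viol_perm v τ
  have hz' := hz.perm τ
  have hN : ∀ k m, 0 ≤ N k m := fun k m => by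
    rw [hNd]
    exact NM_nonneg h' v' hz' k m
  have hd : ∀ k, N k k = 0 := fun k => by
    rw [hNd]
    exact NM_diag k
  have hcol : ∀ m, nc N m ≤ 9 / 10 := fun m => by
    rw [hNd]
    exact nc_le h' v' hz' m
  have hc : (9 / 10 : ℝ) < 1 := by norm_num
  have hbal : ∀ k, ζ k + LN N ζ k = b3 (fun i => a (τ i)) x k := fun k => by
    rw [hζd]
    exact mu_bal hN hd hc hcol (b3 (fun i => a (τ i)) x) k
  have n0 : ∀ m, 0 ≤ nc N m := fun m => by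
    unfold nc
    have := hN 0 m
    have := hN 1 m
    have := hN 2 m
    linarith
  have hMB : ∀ p k, MB σ a l τ p k ≤ ρ p := fun p k => by
    unfold MB
    split_ifs with e
    · exact (hρ p).le
    · exact hMρ p k e
  have M2 : ∀ p, MB σ a l τ p 0 + MB σ a l τ p 1 + MB σ a l τ p 2 ≤ 2 * ρ p := by
    intro p
    have m0 := hMB p 0
    have m1 := hMB p 1
    have m2 := hMB p 2
    have md := MB_diag (σ := σ) (a := a) (l := l) τ p
    fin_cases p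
    · simp only [Fin.zero_eta] at m0 m1 m2 md ⊢
      linarith
    · simp only [Fin.mk_one] at m0 m1 m2 md ⊢
      linarith
    · simp only [Fin.reduceFinMk] at m0 m1 m2 md ⊢
      linarith
  have N2 : ∀ p, MB σ a l τ p 0 * nc N 0 + MB σ a l τ p 1 * nc N 1 + MB σ a l τ p 2 * nc N 2 ≤
      S2 (nc N) p * ρ p := by
    intro p
    have m0 := mul_le_mul_of_nonneg_right (hMB p 0) (n0 0)
    have m1 := mul_le_mul_of_nonneg_right (hMB p 1) (n0 1)
    have m2 := mul_le_mul_of_nonneg_right (hMB p 2) (n0 2)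
    have md := MB_diag (σ := σ) (a := a) (l := l) τ p
    unfold S2
    fin_cases p
    · simp only [Fin.zero_eta] at m0 m1 m2 md ⊢
      rw [md]
      linarith
    · simp only [Fin.mk_one] at m0 m1 m2 md ⊢
      rw [md]
      linarith
    · simp only [Fin.reduceFinMk] at m0 m1 m2 md ⊢
      rw [md]
      linarith
  have hdef := fun p => MB_def h v hl τ hS hχ0 hχ hω p
  have S2n : ∀ p, 0 ≤ S2 (nc N) p := by
    intro p
    have := n0 0
    have := n0 1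
    have := n0 2
    unfold S2
    fin_cases p
    · simp only [Fin.zero_eta]; linarith
    · simp only [Fin.mk_one]; linarith
    · simp only [Fin.reduceFinMk]; linarith
  refine DXk_price hN hd hc hcol hA' hφ hl0 hl1 hζp hβ0 hβ1 hK hF (δ := δ)
    (γ := fun p => 2 * ω + η + (1 - κ) * S2 (nc N) p) (γ' := fun _ => 2 * ω + η)
    (e := b0 - κ * (ζ 0 * nc N 0 + ζ 1 * nc N 1 + ζ 2 * nc N 2)) hδ hnode ?_ ?_ ?_ ?_ ?_ ?_ ht
  · rcases hap with e | hap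
    · exact Or.inl e
    · right
      constructor
      · have h3 := b3_sum (gram_of_dist h'.ha) x
        rw [← hbal 0, ← hbal 1, ← hbal 2] at h3
        rw [sum_nc, Fin.sum_univ_three]
        linarith
      · linarith
  · intro p
    have := mul_nonneg (sub_nonneg.2 hκ1) (S2n p)
    linarith
  · intro p
    have s1 := sum_nc N (MB σ a l τ p)
    have s2 := hdef p
    have s3 := hη p
    have s4 := mul_le_mul_of_nonneg_left (M2 p) hω0
    have s5 := mul_le_mul_of_nonneg_left (N2 p) (sub_nonneg.2 hκ1)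
    rw [s1] at s5
    simp only [Fin.sum_univ_three]
    linarith
  · intro p
    have := harc p
    unfold S2 at this ⊢
    linarith
  · intro p
    linarith
  · intro p
    rcases hres p with e | e
    · exact Or.inl e
    · right
      refine ⟨?_, e⟩
      have s2 := hdef p
      have s3 := hη p
      have s4 := mul_le_mul_of_nonneg_left (M2 p) hω0
      linarith

/-- **the plain deficit of a placed body by a price vector**, `1 + nc - 1 / q ≤ κ nc` (true for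
`κ = 2/3`: `nun_le`; for `κ = 1/2` if no node is clipped) -/
theorem DM_price [IsFiniteMeasure σ] (h : CN K σ a c) (v : Viol K a S) (hz : CV a K z)
    (τ : Equiv.Perm (Fin 4)) {A' : ℝ} (hA' : 0 < A') (hl : Lok a l)
    {ρ β : Fin 3 → ℝ} (hρ : ∀ p, 0 < ρ p) (hMρ : ∀ p k, k ≠ p → MA σ a l τ p k ≤ ρ p)
    {x : E3} {N : Fin 3 → Fin 3 → ℝ}
    (hNd : N = NM (fun i => a (τ i)) (fun i j => z (τ i) (τ j)))
    {ζ ζp : Fin 3 → ℝ} (hζd : ζ = zc (fun i => a (τ i)) N x) (hζp : ∀ k, 0 < ζp k)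
    (hζ : ∀ k, ζ k ≤ ζp k)
    {φ lam : ℝ} (hφ : 0 < φ) (hl0 : 0 ≤ lam) (hl1 : lam ≤ 1 - φ)
    (hβ0 : ∀ p, 0 ≤ β p) (hβ1 : ∀ p, β p ≤ 1)
    (hK : ∀ p, β p * ρ p ≤ A' * Id (fun t => kap N (vv t) p))
    (hF : ∀ p, (1 - β p) * ρ p ≤ φ * (A' * Id (flP (PN N) p)))
    {κ : ℝ} (hκ1 : κ ≤ 1)
    (hμ : ∀ k, 1 + nc N k - 1 / qM (fun i => a (τ i)) (fun i j => z (τ i) (τ j)) k ≤ κ * nc N k)
    {s χ ω η : ℝ} (hS : ∀ i, S i ≤ s) (hχ0 : 0 ≤ χ) (hχ : 3 / 2 + 2 * s ≤ χ ^ 2)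
    (hω0 : 0 ≤ ω) (hω : (1 - ω) * χ ≤ 1) (hη0 : 0 ≤ η)
    {dm : Fin 3 → ℝ} (hη : ∀ p, dm p ≤ η * ρ p)
    {δ : Fin 3 → ℝ} (hδ : ∀ k, 0 ≤ δ k) (hnode : ∀ k, κ * nc N k ≤ PT N δ k)
    (harc : ∀ p, 2 * ω + η + S2 (nc N) p ≤ S2 (PT N δ) p)
    (hres : ∀ p, β p = 0 ∨ 2 * ω + η ≤ S2 δ p)
    {b0 : ℝ} (hb0 : -bar (fun i => a (τ i)) 0 x ≤ b0)
    (hap : lam = 0 ∨ b0 + κ * ((ζp 0 - ζ 0) * nc N 0 + (ζp 1 - ζ 1) * nc N 1
      + (ζp 2 - ζ 2) * nc N 2) ≤ ζp 0 * PT N δ 0 + ζp 1 * PT N δ 1 + ζp 2 * PT N δ 2)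
    {t : ℝ × ℝ} (ht : t ∈ Sim) :
    DM A' N ζ ζp lam (fun p t => φ * flP (PN N) p t) (fun p t => kap N (vv t) p) β
        (MB σ a l τ) (fun j => 1 / qM (fun i => a (τ i)) (fun i j => z (τ i) (τ j)) j)
        (fun p => am σ a l (τ 0) (τ p.succ) - dm p) t ≤
      δ 0 * vv t 0 + δ 1 * vv t 1 + δ 2 * vv t 2 := by
  have h' := h.perm τ
  have v' := viol_perm v τ
  have hz' := hz.perm τ
  have hN : ∀ k m, 0 ≤ N k m := fun k m => by
    rw [hNd]
    exact NM_nonneg h' v' hz' k m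
  have hd : ∀ k, N k k = 0 := fun k => by
    rw [hNd]
    exact NM_diag k
  have hcol : ∀ m, nc N m ≤ 9 / 10 := fun m => by
    rw [hNd]
    exact nc_le h' v' hz' m
  have hc : (9 / 10 : ℝ) < 1 := by norm_num
  have hM : ∀ p k, k ≠ p → MB σ a l τ p k ≤ ρ p := fun p k hk => by
    unfold MB
    rw [if_neg hk]
    exact hMρ p k hk
  refine (DM_le_DXk hN hd hc hcol hμ hA' hφ hl0 hl1 hζp hζ hβ1
    (fun p => MB_diag τ p) hM hF ht).trans ?_
  exact DXk_body h v hz τ hA' hl hρ hMρ hNd hζd hζp hφ hl0 hl1 hβ0 hβ1 hK hF hκ1 hS hχ0 hχ hω0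
    hω hη0 hη hδ hnode harc hres hb0 hap ht

/-- the bound of the coupling, the nodes kept (`n` = clipped part of the leaks) -/
theorem inst_F2g [IsFiniteMeasure σ] (h : CN K σ a c) (v : Viol K a S) (hz : CV a K z)
    (τ : Equiv.Perm (Fin 4)) {A' : ℝ} (hA' : 0 < A') (hl : Lok a l)
    {δ dE dm : Fin 3 → ℝ} (hδ : ∀ p, MA σ a l τ p p ≤ δ p) (hdE : ∀ p, 0 ≤ dE p)
    (hdm : ∀ p, 0 ≤ dm p) (hdd : ∀ p, δ p ^ 2 ≤ dE p * dm p)
    {ρ β : Fin 3 → ℝ} (hρ : ∀ p, 0 < ρ p)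
    (hMρ : ∀ p k, k ≠ p → MA σ a l τ p k ≤ ρ p)
    {x : E3} (hx : x ∈ K)
    {N : Fin 3 → Fin 3 → ℝ} (hNd : N = NM (fun i => a (τ i)) (fun i j => z (τ i) (τ j)))
    {R : Fin 3 → ℝ} (hRd : R = RM (fun i => a (τ i)) (fun i j => z (τ i) (τ j)))
    {ζ ζp : Fin 3 → ℝ} (hζd : ζ = zc (fun i => a (τ i)) N x) (hζp : ∀ k, 0 < ζp k)
    (hζ : ∀ k, ζ k ≤ ζp k)
    {φ lam : ℝ} (hφ : 0 < φ) (hl0 : 0 ≤ lam) (hl1 : lam ≤ 1 - φ)
    (hβ0 : ∀ p, 0 ≤ β p) (hβ1 : ∀ p, β p ≤ 1)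
    (hK : ∀ p, β p * ρ p ≤ A' * Id (fun t => kap N (vv t) p))
    (hF : ∀ p, (1 - β p) * ρ p ≤ φ * (A' * Id (flP (PN N) p)))
    {V : ℝ} (hV : ∀ k : Fin 3, S (τ k.succ) ≤ V) {t : ℝ × ℝ} (ht : t ∈ Sim)
    {q : E3} (hq : q ∈ K) (κ : ℝ) :
    GM A' N ζ ζp lam (fun p t => φ * flP (PN N) p t) (fun p t => kap N (vv t) p) β
        (MB σ a l τ) (fun p => aE σ a l (τ 0) (τ p.succ) - dE p) R
        (fun k => S (τ k.succ)) (Qv a (τ 0) x) t
      + (1 - DXk κ A' N ζ ζp lam (fun p t => φ * flP (PN N) p t) (fun p t => kap N (vv t) p) β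
          (MB σ a l τ) (fun p => am σ a l (τ 0) (τ p.succ) - dm p) t) * ‖a (τ 0) - q‖ ^ 2
      + ∑ k, Xk A' N ζ ζp lam (fun p t => φ * flP (PN N) p t) β (MB σ a l τ) t k *
        (ng (fun i => a (τ i)) (fun i j => z (τ i) (τ j)) k * pp (‖a (τ 0) - q‖ ^ 2 - V)
          - ((nc N k + ng (fun i => a (τ i)) (fun i j => z (τ i) (τ j)) k) / 2 - κ * nc N k)
            * ‖a (τ 0) - q‖ ^ 2) ≤
      Yt (fun i => a (τ i)) t q := by
  have h' := h.perm τ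
  have v' := viol_perm v τ
  have hz' := hz.perm τ
  have hN : ∀ k m, 0 ≤ N k m := fun k m => by
    rw [hNd]
    exact NM_nonneg h' v' hz' k m
  have hd : ∀ k, N k k = 0 := fun k => by
    rw [hNd]
    exact NM_diag k
  have hcol : ∀ m, nc N m ≤ 9 / 10 := fun m => by
    rw [hNd]
    exact nc_le h' v' hz' m
  have hc : (9 / 10 : ℝ) < 1 := by norm_num
  have hgr := gram_of_dist h'.ha
  have hb : ∀ k, b3 (fun i => a (τ i)) x k ≤ ζ k + LN N ζ k := fun k => by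
    rw [hζd]
    exact (mu_bal hN hd hc hcol (b3 (fun i => a (τ i)) x) k).ge
  have hM0 : ∀ l' k, 0 ≤ MB σ a l τ l' k := fun l' k => MB_nonneg τ l' k
  have hMl : ∀ p, MB σ a l τ p p = 0 := fun p => MB_diag τ p
  have hM : ∀ p k, k ≠ p → MB σ a l τ p k ≤ ρ p := fun p k hk => by
    unfold MB
    rw [if_neg hk]
    exact hMρ p k hk
  have hMB : ∀ p k, MB σ a l τ p k ≤ ρ p := fun p k => by
    by_cases e : k = p
    · rw [e, hMl]
      exact (hρ p).le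
    · exact hM p k e
  have hn := ng_facts hz' h' v'
  have hX := fun k => Xk_nonneg hN hd hc hcol hA' hφ hl0 hl1 hζp hζ hβ1 hMl hM hF ht k
  set w := ‖a (τ 0) - q‖ ^ 2 with hw
  have hw0 : 0 ≤ w := sq_nonneg _
  obtain ⟨n, hnd⟩ : ∃ n : Fin 3 → ℝ,
      n = ng (fun i => a (τ i)) (fun i j => z (τ i) (τ j)) := ⟨_, rfl⟩
  have n3 : ∀ j, 1 + nc N j - 1 / qM (fun i => a (τ i)) (fun i j => z (τ i) (τ j)) j =
      (nc N j + n j) / 2 := fun j => by rw [hnd, hNd]; exact (hn j).2.2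
  have key := gen_Yt (ι := Unit) (a := fun i => a (τ i)) (al := fun _ t => lam * alP N ζp t)
    (ζ := fun _ => ζ) (L := fun _ => Qv a (τ 0) x) (μx := fun _ => 1)
    (R := fun j => R j + n j * pp (w - V)) (S := fun k => S (τ k.succ))
    (μ := fun j => 1 / qM (fun i => a (τ i)) (fun i j => z (τ i) (τ j)) j)
    (α := ash (fun p t => φ * flP (PN N) p t) (fun p => Id (fun t => φ * flP (PN N) p t)) β A')
    (g := ast (fun p t => kap N (vv t) p) (fun p => Id (fun t => kap N (vv t) p)) β A')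
    (M := MB σ a l τ) (E := fun p => aE σ a l (τ 0) (τ p.succ) - dE p)
    (sm := fun p => am σ a l (τ 0) (τ p.succ) - dm p) hgr hN (h'.hp q hq)
    (fun _ => mul_nonneg hl0 (alP_nonneg hζp t))
    (fun p => ash0 hN hd hc hcol hφ hA' hβ1 t p)
    (fun p => ast0 hN hc hcol hA' hβ0 ht p) hM0
    (fun k => by
      simp only [Finset.univ_unique, Finset.sum_singleton]
      have := hX k
      unfold Xk at this
      linarith)
    (fun k => ast_feas4 (fun p t ht => kap_nonneg hN hc hcol (fun k => vv_nonneg ht k) p)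
      (fun t ht k => by
        have := kap_S2 hN hc hcol ht k
        unfold S2 at this
        exact this) hA' hβ0 (fun p => Id_kap_nonneg hN hc hcol p) hK hMl hMB ht k)
    (fun j => by
      rw [hRd, hNd, hnd]
      exact Pt_load_F2 hz' h' v' hq hV j)
    (fun _ => apex_load hgr (h.hd x hx q hq) (h'.hp q hq) hb)
    (fun p => by
      have h0 := arc_load h.ha hl h.cpt h.pm.mem h.hp h.hd τ hq p
      exact load_drop2 h'.ha (h'.hp q hq) h0 (hδ p) ((MA_nonneg τ p p).trans (hδ p))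
        (hdE p) (hdm p) (hdd p))
    (v.le _ q hq) (v.le _ q hq) (v.le _ q hq)
  have eG : Gg N (fun _ : Unit => fun t => lam * alP N ζp t) (fun _ => ζ)
      (fun _ => Qv a (τ 0) x)
      (ash (fun p t => φ * flP (PN N) p t) (fun p => Id (fun t => φ * flP (PN N) p t)) β A')
      (ast (fun p t => kap N (vv t) p) (fun p => Id (fun t => kap N (vv t) p)) β A')
      (MB σ a l τ) (fun p => aE σ a l (τ 0) (τ p.succ) - dE p)
      (fun j => R j + n j * pp (w - V)) (fun k => S (τ k.succ)) t =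
      GM A' N ζ ζp lam (fun p t => φ * flP (PN N) p t) (fun p t => kap N (vv t) p) β
        (MB σ a l τ) (fun p => aE σ a l (τ 0) (τ p.succ) - dE p) R
        (fun k => S (τ k.succ)) (Qv a (τ 0) x) t
      + (Xk A' N ζ ζp lam (fun p t => φ * flP (PN N) p t) β (MB σ a l τ) t 0 * n 0
        + Xk A' N ζ ζp lam (fun p t => φ * flP (PN N) p t) β (MB σ a l τ) t 1 * n 1
        + Xk A' N ζ ζp lam (fun p t => φ * flP (PN N) p t) β (MB σ a l τ) t 2 * n 2) *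
          pp (w - V) := by
    unfold GM Gg Xk
    simp only [Finset.univ_unique, Finset.sum_singleton]
    ring
  have eD := DM_eq_DXk κ A' N ζ ζp lam (fun p t => φ * flP (PN N) p t)
    (fun p t => kap N (vv t) p) β (MB σ a l τ)
    (fun j => 1 / qM (fun i => a (τ i)) (fun i j => z (τ i) (τ j)) j)
    (fun p => am σ a l (τ 0) (τ p.succ) - dm p) t
  simp only [n3] at eD
  rw [eG] at key
  have key2 : GM A' N ζ ζp lam (fun p t => φ * flP (PN N) p t) (fun p t => kap N (vv t) p) β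
        (MB σ a l τ) (fun p => aE σ a l (τ 0) (τ p.succ) - dE p) R
        (fun k => S (τ k.succ)) (Qv a (τ 0) x) t
      + (Xk A' N ζ ζp lam (fun p t => φ * flP (PN N) p t) β (MB σ a l τ) t 0 * n 0
        + Xk A' N ζ ζp lam (fun p t => φ * flP (PN N) p t) β (MB σ a l τ) t 1 * n 1
        + Xk A' N ζ ζp lam (fun p t => φ * flP (PN N) p t) β (MB σ a l τ) t 2 * n 2) *
          pp (w - V)
      + (1 - DM A' N ζ ζp lam (fun p t => φ * flP (PN N) p t) (fun p t => kap N (vv t) p) β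
        (MB σ a l τ) (fun j => 1 / qM (fun i => a (τ i)) (fun i j => z (τ i) (τ j)) j)
        (fun p => am σ a l (τ 0) (τ p.succ) - dm p) t) * w ≤ Yt (fun i => a (τ i)) t q := key
  rw [eD] at key2
  rw [← hnd, Fin.sum_univ_three]
  linarith

/-- **the bound of the coupling with the exact leaks**: `κ = 1/2` for `w ≥ 2 V`, `κ = 2/3` always -/
theorem inst_F2k [IsFiniteMeasure σ] (h : CN K σ a c) (v : Viol K a S) (hz : CV a K z)
    (τ : Equiv.Perm (Fin 4)) {A' : ℝ} (hA' : 0 < A') (hl : Lok a l)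
    {δ dE dm : Fin 3 → ℝ} (hδ : ∀ p, MA σ a l τ p p ≤ δ p) (hdE : ∀ p, 0 ≤ dE p)
    (hdm : ∀ p, 0 ≤ dm p) (hdd : ∀ p, δ p ^ 2 ≤ dE p * dm p)
    {ρ β : Fin 3 → ℝ} (hρ : ∀ p, 0 < ρ p)
    (hMρ : ∀ p k, k ≠ p → MA σ a l τ p k ≤ ρ p)
    {x : E3} (hx : x ∈ K)
    {N : Fin 3 → Fin 3 → ℝ} (hNd : N = NM (fun i => a (τ i)) (fun i j => z (τ i) (τ j)))
    {R : Fin 3 → ℝ} (hRd : R = RM (fun i => a (τ i)) (fun i j => z (τ i) (τ j)))
    {ζ ζp : Fin 3 → ℝ} (hζd : ζ = zc (fun i => a (τ i)) N x) (hζp : ∀ k, 0 < ζp k)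
    (hζ : ∀ k, ζ k ≤ ζp k)
    {φ lam : ℝ} (hφ : 0 < φ) (hl0 : 0 ≤ lam) (hl1 : lam ≤ 1 - φ)
    (hβ0 : ∀ p, 0 ≤ β p) (hβ1 : ∀ p, β p ≤ 1)
    (hK : ∀ p, β p * ρ p ≤ A' * Id (fun t => kap N (vv t) p))
    (hF : ∀ p, (1 - β p) * ρ p ≤ φ * (A' * Id (flP (PN N) p)))
    {V : ℝ} (hV : ∀ k : Fin 3, S (τ k.succ) ≤ V) {t : ℝ × ℝ} (ht : t ∈ Sim)
    {q : E3} (hq : q ∈ K) {κ : ℝ}
    (hκ : wx V (‖a (τ 0) - q‖ ^ 2) ≤ 3 * (κ - 1 / 2) * ‖a (τ 0) - q‖ ^ 2) :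
    GM A' N ζ ζp lam (fun p t => φ * flP (PN N) p t) (fun p t => kap N (vv t) p) β
        (MB σ a l τ) (fun p => aE σ a l (τ 0) (τ p.succ) - dE p) R
        (fun k => S (τ k.succ)) (Qv a (τ 0) x) t
      + (1 - DXk κ A' N ζ ζp lam (fun p t => φ * flP (PN N) p t) (fun p t => kap N (vv t) p) β
          (MB σ a l τ) (fun p => am σ a l (τ 0) (τ p.succ) - dm p) t) * ‖a (τ 0) - q‖ ^ 2 ≤
      Yt (fun i => a (τ i)) t q := by
  have key := inst_F2g h v hz τ hA' hl hδ hdE hdm hdd hρ hMρ hx hNd hRd hζd hζp hζ hφ hl0 hl1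
    hβ0 hβ1 hK hF hV ht hq κ
  have h' := h.perm τ
  have v' := viol_perm v τ
  have hz' := hz.perm τ
  have hN : ∀ k m, 0 ≤ N k m := fun k m => by
    rw [hNd]
    exact NM_nonneg h' v' hz' k m
  have hd : ∀ k, N k k = 0 := fun k => by
    rw [hNd]
    exact NM_diag k
  have hcol : ∀ m, nc N m ≤ 9 / 10 := fun m => by
    rw [hNd]
    exact nc_le h' v' hz' m
  have hc : (9 / 10 : ℝ) < 1 := by norm_num
  have hM : ∀ p k, k ≠ p → MB σ a l τ p k ≤ ρ p := fun p k hk => by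
    unfold MB
    rw [if_neg hk]
    exact hMρ p k hk
  have hX := fun k => Xk_nonneg hN hd hc hcol hA' hφ hl0 hl1 hζp hζ hβ1 (fun p => MB_diag τ p)
    hM hF ht k
  have hn := ng_facts hz' h' v'
  set w := ‖a (τ 0) - q‖ ^ 2 with hw
  have hw0 : 0 ≤ w := sq_nonneg _
  have hpp : w / 2 - pp (w - V) ≤ wx V w := le_pp _
  have hs : 0 ≤ ∑ k, Xk A' N ζ ζp lam (fun p t => φ * flP (PN N) p t) β (MB σ a l τ) t k *
      (ng (fun i => a (τ i)) (fun i j => z (τ i) (τ j)) k * pp (w - V)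
        - ((nc N k + ng (fun i => a (τ i)) (fun i j => z (τ i) (τ j)) k) / 2 - κ * nc N k)
          * w) := by
    refine Finset.sum_nonneg fun k _ => mul_nonneg (hX k) ?_
    have n1 := (hn k).1
    have n2 : ng (fun i => a (τ i)) (fun i j => z (τ i) (τ j)) k ≤ nc N k / 3 := by
      rw [hNd]
      exact (hn k).2.1
    have k1 := mul_le_mul_of_nonneg_left hpp n1
    have k2 := mul_le_mul_of_nonneg_right n2 (wx_nonneg V w)
    have k3 : nc N k * wx V w ≤ nc N k * (3 * (κ - 1 / 2) * w) :=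
      mul_le_mul_of_nonneg_left hκ (by linarith)
    linarith
  linarith

/-- the exact price of the clipped nodes -/
noncomputable def LX (A' : ℝ) (N : Fin 3 → Fin 3 → ℝ) (ζ ζp : Fin 3 → ℝ) (lam : ℝ)
    (hf : Fin 3 → ℝ × ℝ → ℝ) (β : Fin 3 → ℝ) (M : Fin 3 → Fin 3 → ℝ) (t : ℝ × ℝ) : ℝ :=
  Xk A' N ζ ζp lam hf β M t 0 * nc N 0 + Xk A' N ζ ζp lam hf β M t 1 * nc N 1
    + Xk A' N ζ ζp lam hf β M t 2 * nc N 2

/-- **the same in the form of `inst_F2`** (for `Helper92.MEI.wcost_R7d`): exact leaks -/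
theorem inst_F2x [IsFiniteMeasure σ] (h : CN K σ a c) (v : Viol K a S) (hz : CV a K z)
    (τ : Equiv.Perm (Fin 4)) {A' : ℝ} (hA' : 0 < A') (hl : Lok a l)
    {δ dE dm : Fin 3 → ℝ} (hδ : ∀ p, MA σ a l τ p p ≤ δ p) (hdE : ∀ p, 0 ≤ dE p)
    (hdm : ∀ p, 0 ≤ dm p) (hdd : ∀ p, δ p ^ 2 ≤ dE p * dm p)
    {ρ β : Fin 3 → ℝ} (hρ : ∀ p, 0 < ρ p)
    (hMρ : ∀ p k, k ≠ p → MA σ a l τ p k ≤ ρ p)
    {x : E3} (hx : x ∈ K)
    {N : Fin 3 → Fin 3 → ℝ} (hNd : N = NM (fun i => a (τ i)) (fun i j => z (τ i) (τ j)))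
    {R : Fin 3 → ℝ} (hRd : R = RM (fun i => a (τ i)) (fun i j => z (τ i) (τ j)))
    {ζ ζp : Fin 3 → ℝ} (hζd : ζ = zc (fun i => a (τ i)) N x) (hζp : ∀ k, 0 < ζp k)
    (hζ : ∀ k, ζ k ≤ ζp k)
    {φ lam : ℝ} (hφ : 0 < φ) (hl0 : 0 ≤ lam) (hl1 : lam ≤ 1 - φ)
    (hβ0 : ∀ p, 0 ≤ β p) (hβ1 : ∀ p, β p ≤ 1)
    (hK : ∀ p, β p * ρ p ≤ A' * Id (fun t => kap N (vv t) p))
    (hF : ∀ p, (1 - β p) * ρ p ≤ φ * (A' * Id (flP (PN N) p)))
    {V : ℝ} (hV : ∀ k : Fin 3, S (τ k.succ) ≤ V) {t : ℝ × ℝ} (ht : t ∈ Sim)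
    {q : E3} (hq : q ∈ K) :
    GM A' N ζ ζp lam (fun p t => φ * flP (PN N) p t) (fun p t => kap N (vv t) p) β
        (MB σ a l τ) (fun p => aE σ a l (τ 0) (τ p.succ) - dE p) R
        (fun k => S (τ k.succ)) (Qv a (τ 0) x) t
      + (1 - DXk (1 / 2) A' N ζ ζp lam (fun p t => φ * flP (PN N) p t) (fun p t => kap N (vv t) p) β
          (MB σ a l τ) (fun p => am σ a l (τ 0) (τ p.succ) - dm p) t) * ‖a (τ 0) - q‖ ^ 2
      - LX A' N ζ ζp lam (fun p t => φ * flP (PN N) p t) β (MB σ a l τ) t / 3 *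
        wx V (‖a (τ 0) - q‖ ^ 2) ≤
      Yt (fun i => a (τ i)) t q := by
  have key := inst_F2g h v hz τ hA' hl hδ hdE hdm hdd hρ hMρ hx hNd hRd hζd hζp hζ hφ hl0 hl1
    hβ0 hβ1 hK hF hV ht hq (1 / 2)
  have h' := h.perm τ
  have v' := viol_perm v τ
  have hz' := hz.perm τ
  have hN : ∀ k m, 0 ≤ N k m := fun k m => by
    rw [hNd]
    exact NM_nonneg h' v' hz' k m
  have hd : ∀ k, N k k = 0 := fun k => by
    rw [hNd]
    exact NM_diag k
  have hcol : ∀ m, nc N m ≤ 9 / 10 := fun m => by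
    rw [hNd]
    exact nc_le h' v' hz' m
  have hc : (9 / 10 : ℝ) < 1 := by norm_num
  have hM : ∀ p k, k ≠ p → MB σ a l τ p k ≤ ρ p := fun p k hk => by
    unfold MB
    rw [if_neg hk]
    exact hMρ p k hk
  have hX := fun k => Xk_nonneg hN hd hc hcol hA' hφ hl0 hl1 hζp hζ hβ1 (fun p => MB_diag τ p)
    hM hF ht k
  have hn := ng_facts hz' h' v'
  set w := ‖a (τ 0) - q‖ ^ 2 with hw
  have hw0 : 0 ≤ w := sq_nonneg _
  have hpp : w / 2 - pp (w - V) ≤ wx V w := le_pp _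
  have hb : ∀ k, -(Xk A' N ζ ζp lam (fun p t => φ * flP (PN N) p t) β (MB σ a l τ) t k * nc N k
      / 3 * wx V w) ≤ Xk A' N ζ ζp lam (fun p t => φ * flP (PN N) p t) β (MB σ a l τ) t k *
      (ng (fun i => a (τ i)) (fun i j => z (τ i) (τ j)) k * pp (w - V)
        - ((nc N k + ng (fun i => a (τ i)) (fun i j => z (τ i) (τ j)) k) / 2 - 1 / 2 * nc N k)
          * w) := by
    intro k
    have n1 := (hn k).1
    have n2 : ng (fun i => a (τ i)) (fun i j => z (τ i) (τ j)) k ≤ nc N k / 3 := by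
      rw [hNd]
      exact (hn k).2.1
    have k1 := mul_le_mul_of_nonneg_left hpp n1
    have k2 := mul_le_mul_of_nonneg_right n2 (wx_nonneg V w)
    have k3 := mul_nonneg (hX k) (show 0 ≤ nc N k / 3 * wx V w +
      (ng (fun i => a (τ i)) (fun i j => z (τ i) (τ j)) k * pp (w - V)
        - ((nc N k + ng (fun i => a (τ i)) (fun i j => z (τ i) (τ j)) k) / 2 - 1 / 2 * nc N k)
          * w) by linarith)
    linarith
  have b0 := hb 0
  have b1 := hb 1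
  have b2 := hb 2
  rw [Fin.sum_univ_three] at key
  unfold LX
  linarith

/-- **the price of the clipped nodes by a price vector** -/
theorem LX_body (h : CN K σ a c) (v : Viol K a S) (hz : CV a K z)
    (τ : Equiv.Perm (Fin 4)) {A' : ℝ} (hA' : 0 < A')
    {ρ β : Fin 3 → ℝ} {N : Fin 3 → Fin 3 → ℝ}
    (hNd : N = NM (fun i => a (τ i)) (fun i j => z (τ i) (τ j)))
    {ζ ζp : Fin 3 → ℝ} (hζp : ∀ k, 0 < ζp k)
    {φ lam : ℝ} (hφ : 0 < φ) (hl0 : 0 ≤ lam) (hl1 : lam ≤ 1 - φ) (hβ1 : ∀ p, β p ≤ 1)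
    (hF : ∀ p, (1 - β p) * ρ p ≤ φ * (A' * Id (flP (PN N) p)))
    {δ : Fin 3 → ℝ} (hδ : ∀ k, 0 ≤ δ k) (hnode : ∀ k, nc N k ≤ PT N δ k)
    (hap : lam = 0 ∨ (ζp 0 - ζ 0) * nc N 0 + (ζp 1 - ζ 1) * nc N 1 + (ζp 2 - ζ 2) * nc N 2 ≤
      ζp 0 * PT N δ 0 + ζp 1 * PT N δ 1 + ζp 2 * PT N δ 2)
    {t : ℝ × ℝ} (ht : t ∈ Sim) :
    LX A' N ζ ζp lam (fun p t => φ * flP (PN N) p t) β (MB σ a l τ) t ≤
      δ 0 * vv t 0 + δ 1 * vv t 1 + δ 2 * vv t 2 := by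
  have h' := h.perm τ
  have v' := viol_perm v τ
  have hz' := hz.perm τ
  have hN : ∀ k m, 0 ≤ N k m := fun k m => by
    rw [hNd]
    exact NM_nonneg h' v' hz' k m
  have hd : ∀ k, N k k = 0 := fun k => by
    rw [hNd]
    exact NM_diag k
  have hcol : ∀ m, nc N m ≤ 9 / 10 := fun m => by
    rw [hNd]
    exact nc_le h' v' hz' m
  have hc : (9 / 10 : ℝ) < 1 := by norm_num
  have n0 : ∀ m, 0 ≤ nc N m := fun m => by
    unfold nc
    have := hN 0 m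
    have := hN 1 m
    have := hN 2 m
    linarith
  have key := price_core (N := N) (b := vv t) (A := lam * alP N ζp t)
    (F := fun p => φ * flP (PN N) p t) (Kp := fun p => kap N (vv t) p)
    (α := fun p => ash (fun p t => φ * flP (PN N) p t)
      (fun p => Id (fun t => φ * flP (PN N) p t)) β A' p t)
    (g := fun _ => 0) (ρ := ρ) (ζp := ζp) (δ := δ) (v := nc N)
    (e := -(ζ 0 * nc N 0 + ζ 1 * nc N 1 + ζ 2 * nc N 2))
    (c := fun p => -(MB σ a l τ p 0 * nc N 0 + MB σ a l τ p 1 * nc N 1 +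
      MB σ a l τ p 2 * nc N 2)) (γ := fun _ => 0)
    (r := fun _ => 0) (γ' := fun _ => 0)
    (mul_nonneg hl0 (alP_nonneg (N := N) hζp t))
    (fun p => mul_nonneg hφ.le (flP_nonneg p t))
    (fun p => kap_nonneg hN hc hcol (fun k => vv_nonneg ht k) p)
    (fun p => ash0 hN hd hc hcol hφ hA' hβ1 t p) (fun _ => le_rfl)
    (fun p => ash_room hN hd hc hcol hφ hA' hF t p)
    (fun p => by
      rw [zero_mul]
      exact kap_nonneg hN hc hcol (fun k => vv_nonneg ht k) p)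
    (fun k => room hN hd hc hcol hφ hl0 hl1 hζp ht k)
    (fun k => kap_S2 hN hc hcol ht k) hδ hnode
    (by
      rcases hap with e | e
      · left
        rw [e, zero_mul]
      · right
        linarith) (fun _ => le_rfl)
    (fun p => by
      have m0 := mul_nonneg (MB_nonneg (σ := σ) (a := a) (l := l) τ p 0) (n0 0)
      have m1 := mul_nonneg (MB_nonneg (σ := σ) (a := a) (l := l) τ p 1) (n0 1)
      have m2 := mul_nonneg (MB_nonneg (σ := σ) (a := a) (l := l) τ p 2) (n0 2)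
      rw [zero_mul]
      linarith)
    (fun p => by
      have m0 := hnode 0
      have m1 := hnode 1
      have m2 := hnode 2
      unfold S2
      fin_cases p
      · simp only [Fin.zero_eta]; linarith
      · simp only [Fin.mk_one]; linarith
      · simp only [Fin.reduceFinMk]; linarith)
    (fun _ => le_rfl) (fun _ => Or.inl rfl) (fun _ => Or.inl rfl)
  refine le_trans (le_of_eq ?_) key
  unfold LX Xk
  rw [Fin.sum_univ_three, Fin.sum_univ_three, Fin.sum_univ_three]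
  ring

end body

end Helper99.MEI
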