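import Pool.Agent.Helper58.MEI.FF
import Pool.Agent.Helper99.MEI.Price

/-!
# Project MEI (M2), family F: the mass side

For any weights `x ≥ 0` of the nodes and a further load `(m, M)`, with `e_k = x_k + (N x)_k + M_k`:
`1 - (Σ x μ + m) ≤ κ Σ x nc + (Σ M - m) + Σ pp (t_k - e_k) - Σ pp (e_k - t_k)`
(`F_mass`). `F_body`: family F with its exact mass on a placed body, share `κ` of the leaks
(`κ = 2/3` always, `κ = 1/2` for `w ≥ 2 V`); `F_pair`: the pair `A = {j, k}` near the wall `l` with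
affine numbers; `F_one`: one node.
-/

set_option autoImplicit false

namespace Helper99.MEI

open Set Metric MeasureTheory Helper80.CW Helper82.CW Helper14.CW Helper93.MEI Helper78.MEI
open Helper82.M2 Helper14.MEI2 Pool.Agent.Helper52.MEI Pool.Agent.Helper73.MEI Helper41.MEI
open Helper37.MEI
open Pool.Agent.Helper55.Sx (Sim)
open Pool.Agent.Helper55.Mass (LN LN_nonneg vv vv_nonneg vv_le Id)
open Pool.Agent.Helper55.Apex (nc vt_vv)
open Pool.Agent.Helper31.SR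
open scoped RealInnerProductSpace ENNReal

theorem pp_sub_pp (x : ℝ) : pp x - pp (-x) = x := by
  unfold pp
  rcases le_total x 0 with h | h
  · rw [max_eq_right h, max_eq_left (by linarith)]
    ring
  · rw [max_eq_left h, max_eq_right (by linarith)]
    ring

theorem T3_sum (t : ℝ × ℝ) : T3 t 0 + T3 t 1 + T3 t 2 = 1 := by
  show t.1 + t.2 + (1 - t.1 - t.2) = 1
  ring

/-- the mass of the load against the direction (identity) -/
theorem F_mass_eq (N : Fin 3 → Fin 3 → ℝ) (x M μ : Fin 3 → ℝ) (m : ℝ) (t : ℝ × ℝ) :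
    1 - (x 0 * μ 0 + x 1 * μ 1 + x 2 * μ 2 + m) =
      (x 0 * (1 + nc N 0 - μ 0) + x 1 * (1 + nc N 1 - μ 1) + x 2 * (1 + nc N 2 - μ 2))
      + ((M 0 + M 1 + M 2) - m)
      + (pp (T3 t 0 - (x 0 + LN N x 0 + M 0)) + pp (T3 t 1 - (x 1 + LN N x 1 + M 1))
        + pp (T3 t 2 - (x 2 + LN N x 2 + M 2)))
      - (pp (x 0 + LN N x 0 + M 0 - T3 t 0) + pp (x 1 + LN N x 1 + M 1 - T3 t 1)
        + pp (x 2 + LN N x 2 + M 2 - T3 t 2)) := by
  have s0 := pp_sub_pp (T3 t 0 - (x 0 + LN N x 0 + M 0))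
  have s1 := pp_sub_pp (T3 t 1 - (x 1 + LN N x 1 + M 1))
  have s2 := pp_sub_pp (T3 t 2 - (x 2 + LN N x 2 + M 2))
  rw [neg_sub] at s0 s1 s2
  have h := T3_sum t
  have e := sum_nc N x
  linarith

/-- **the deficit of family F** -/
theorem F_mass {N : Fin 3 → Fin 3 → ℝ} {x μ : Fin 3 → ℝ} {κ : ℝ}
    (hx : ∀ k, 0 ≤ x k) (hμ : ∀ k, 1 + nc N k - μ k ≤ κ * nc N k) (M : Fin 3 → ℝ) (m : ℝ)
    (t : ℝ × ℝ) :
    1 - (x 0 * μ 0 + x 1 * μ 1 + x 2 * μ 2 + m) ≤
      κ * (x 0 * nc N 0 + x 1 * nc N 1 + x 2 * nc N 2)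
      + ((M 0 + M 1 + M 2) - m)
      + (pp (T3 t 0 - (x 0 + LN N x 0 + M 0)) + pp (T3 t 1 - (x 1 + LN N x 1 + M 1))
        + pp (T3 t 2 - (x 2 + LN N x 2 + M 2)))
      - (pp (x 0 + LN N x 0 + M 0 - T3 t 0) + pp (x 1 + LN N x 1 + M 1 - T3 t 1)
        + pp (x 2 + LN N x 2 + M 2 - T3 t 2)) := by
  rw [F_mass_eq N x M μ m t]
  have a0 := mul_le_mul_of_nonneg_left (hμ 0) (hx 0)
  have a1 := mul_le_mul_of_nonneg_left (hμ 1) (hx 1)
  have a2 := mul_le_mul_of_nonneg_left (hμ 2) (hx 2)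
  linarith

section body
variable {a : Fin 4 → E3} {σ : Measure (E3 × E3)} {K : Set E3} {S : Fin 4 → ℝ}
  {c : Fin 4 → E3} {z : Fin 4 → Fin 4 → E3}

/-- **FAMILY F with its mass, placed body**: `x k = 0` outside the subset `A`; `(L, m, M)` = apex and
arcs -/
theorem F_body (h : CN K σ a c) (v : Viol K a S) (hz : CV a K z) (τ : Equiv.Perm (Fin 4))
    {N : Fin 3 → Fin 3 → ℝ} (hNd : N = NM (fun i => a (τ i)) (fun i j => z (τ i) (τ j)))
    {R : Fin 3 → ℝ} (hRd : R = RM (fun i => a (τ i)) (fun i j => z (τ i) (τ j)))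
    {x : Fin 3 → ℝ} (hx : ∀ k, 0 ≤ x k) {t : ℝ × ℝ} {q : E3} (hq : q ∈ K)
    {L m : ℝ} {M : Fin 3 → ℝ} (hL : Load (fun i => a (τ i)) q L m M)
    {V : ℝ} (hV : ∀ k : Fin 3, S (τ k.succ) ≤ V) {κ : ℝ}
    (hκ : wx V (‖a (τ 0) - q‖ ^ 2) ≤ 3 * (κ - 1 / 2) * ‖a (τ 0) - q‖ ^ 2) :
    (x 0 * R 0 + x 1 * R 1 + x 2 * R 2 + L)
      + (1 - (κ * (x 0 * nc N 0 + x 1 * nc N 1 + x 2 * nc N 2) + ((M 0 + M 1 + M 2) - m)
          + (pp (T3 t 0 - (x 0 + LN N x 0 + M 0)) + pp (T3 t 1 - (x 1 + LN N x 1 + M 1))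
            + pp (T3 t 2 - (x 2 + LN N x 2 + M 2)))
          - (pp (x 0 + LN N x 0 + M 0 - T3 t 0) + pp (x 1 + LN N x 1 + M 1 - T3 t 1)
            + pp (x 2 + LN N x 2 + M 2 - T3 t 2)))) * ‖a (τ 0) - q‖ ^ 2
      + (pp (T3 t 0 - (x 0 + LN N x 0 + M 0)) * pp (‖a (τ 0) - q‖ ^ 2 - S (τ 1))
        + pp (T3 t 1 - (x 1 + LN N x 1 + M 1)) * pp (‖a (τ 0) - q‖ ^ 2 - S (τ 2))
        + pp (T3 t 2 - (x 2 + LN N x 2 + M 2)) * pp (‖a (τ 0) - q‖ ^ 2 - S (τ 3)))
      - 2 * (√(Helper75.MEI2.Qf (fun k => pp (x k + LN N x k + M k - T3 t k))) *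
        ‖a (τ 0) - q‖) ≤ Yt (fun i => a (τ i)) t q := by
  have h' := h.perm τ
  have v' := viol_perm v τ
  have hz' := hz.perm τ
  have g := gram_of_dist h'.ha
  have hn := ng_facts hz' h' v'
  obtain ⟨w, hw⟩ : ∃ w, w = ‖a (τ 0) - q‖ ^ 2 := ⟨_, rfl⟩
  have hw0 : 0 ≤ w := by rw [hw]; exact sq_nonneg _
  obtain ⟨n, hnd⟩ : ∃ n : Fin 3 → ℝ,
      n = ng (fun i => a (τ i)) (fun i j => z (τ i) (τ j)) := ⟨_, rfl⟩
  have n1 : ∀ j, 0 ≤ n j := fun j => by rw [hnd]; exact (hn j).1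
  have n2 : ∀ j, n j ≤ nc N j / 3 := fun j => by rw [hnd, hNd]; exact (hn j).2.1
  have n3 : ∀ j, 1 + nc N j - 1 / qM (fun i => a (τ i)) (fun i j => z (τ i) (τ j)) j =
      (nc N j + n j) / 2 := fun j => by rw [hnd, hNd]; exact (hn j).2.2
  have hP : ∀ j, Load (fun i => a (τ i)) q (R j + n j * pp (w - V))
      (1 / qM (fun i => a (τ i)) (fun i j => z (τ i) (τ j)) j)
      (fun k => (if k = j then 1 else 0) + N k j) := fun j => by
    rw [hRd, hNd, hnd, hw]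
    exact Pt_load_F2 hz' h' v' hq hV j
  have key := Pool.Agent.Helper58.MEI.Yt_F_nodes (a := fun i => a (τ i))
    (S := fun k => S (τ k.succ)) (R := fun j => R j + n j * pp (w - V))
    (μ := fun j => 1 / qM (fun i => a (τ i)) (fun i j => z (τ i) (τ j)) j) (N := N) (x := x)
    (L := L) (m := m) (M := M) (t := t) g (h'.hp q hq) hx hP hL (v.le _ q hq) (v.le _ q hq)
    (v.le _ q hq)
  have eD := F_mass_eq N x M
    (fun j => 1 / qM (fun i => a (τ i)) (fun i j => z (τ i) (τ j)) j) m t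
  simp only [n3] at eD
  rw [← hw] at hκ ⊢
  have key2 : (x 0 * (R 0 + n 0 * pp (w - V)) + x 1 * (R 1 + n 1 * pp (w - V))
        + x 2 * (R 2 + n 2 * pp (w - V)) + L)
      + (x 0 * (1 / qM (fun i => a (τ i)) (fun i j => z (τ i) (τ j)) 0)
        + x 1 * (1 / qM (fun i => a (τ i)) (fun i j => z (τ i) (τ j)) 1)
        + x 2 * (1 / qM (fun i => a (τ i)) (fun i j => z (τ i) (τ j)) 2) + m) * w
      + (pp (T3 t 0 - (x 0 + LN N x 0 + M 0)) * pp (w - S (τ 1))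
        + pp (T3 t 1 - (x 1 + LN N x 1 + M 1)) * pp (w - S (τ 2))
        + pp (T3 t 2 - (x 2 + LN N x 2 + M 2)) * pp (w - S (τ 3)))
      - 2 * (√(Helper75.MEI2.Qf (fun k => pp (x k + LN N x k + M k - T3 t k))) *
        ‖a (τ 0) - q‖) ≤ Yt (fun i => a (τ i)) t q := by
    rw [hw]
    rw [hw] at key
    exact key
  have hpp : w / 2 - pp (w - V) ≤ wx V w := le_pp _
  have hbr : ∀ j, 0 ≤ n j * pp (w - V) - ((nc N j + n j) / 2 - κ * nc N j) * w := by
    intro j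
    have k1 := mul_le_mul_of_nonneg_left hpp (n1 j)
    have k2 := mul_le_mul_of_nonneg_right (n2 j) (wx_nonneg V w)
    have k3 : nc N j * wx V w ≤ nc N j * (3 * (κ - 1 / 2) * w) :=
      mul_le_mul_of_nonneg_left hκ (by
        have := n1 j
        have := n2 j
        linarith)
    linarith
  have g0 := mul_nonneg (hx 0) (hbr 0)
  have g1 := mul_nonneg (hx 1) (hbr 1)
  have g2 := mul_nonneg (hx 2) (hbr 2)
  have eM : (x 0 * (1 / qM (fun i => a (τ i)) (fun i j => z (τ i) (τ j)) 0)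
        + x 1 * (1 / qM (fun i => a (τ i)) (fun i j => z (τ i) (τ j)) 1)
        + x 2 * (1 / qM (fun i => a (τ i)) (fun i j => z (τ i) (τ j)) 2) + m) * w =
      (1 - ((x 0 * ((nc N 0 + n 0) / 2) + x 1 * ((nc N 1 + n 1) / 2)
          + x 2 * ((nc N 2 + n 2) / 2)) + ((M 0 + M 1 + M 2) - m)
          + (pp (T3 t 0 - (x 0 + LN N x 0 + M 0)) + pp (T3 t 1 - (x 1 + LN N x 1 + M 1))
            + pp (T3 t 2 - (x 2 + LN N x 2 + M 2)))
          - (pp (x 0 + LN N x 0 + M 0 - T3 t 0) + pp (x 1 + LN N x 1 + M 1 - T3 t 1)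
            + pp (x 2 + LN N x 2 + M 2 - T3 t 2)))) * w := by
    rw [← eD]
    ring
  rw [eM] at key2
  linarith

/-- **the pair `A = {i, j}`, wall `l`**: exact weights -/
theorem F_pair0 (h : CN K σ a c) (v : Viol K a S) (hz : CV a K z) (τ : Equiv.Perm (Fin 4))
    {N : Fin 3 → Fin 3 → ℝ} (hNd : N = NM (fun i => a (τ i)) (fun i j => z (τ i) (τ j)))
    {R : Fin 3 → ℝ} (hRd : R = RM (fun i => a (τ i)) (fun i j => z (τ i) (τ j)))
    {i j l : Fin 3} (hij : i ≠ j) (hil : i ≠ l) (hjl : j ≠ l) {t : ℝ × ℝ} {xi xj : ℝ}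
    (hxi : 0 ≤ xi) (hxj : 0 ≤ xj) (ei : xi + N i j * xj = T3 t i) (ej : xj + N j i * xi = T3 t j)
    {q : E3} (hq : q ∈ K) {V : ℝ} (hV : ∀ k : Fin 3, S (τ k.succ) ≤ V) {κ : ℝ}
    (hκ : wx V (‖a (τ 0) - q‖ ^ 2) ≤ 3 * (κ - 1 / 2) * ‖a (τ 0) - q‖ ^ 2) :
    (xi * R i + xj * R j)
      + (1 - (κ * (N j i * xi + N i j * xj) + T3 t l - (1 - κ) * (N l i * xi + N l j * xj)))
        * ‖a (τ 0) - q‖ ^ 2
      + pp (T3 t l - (N l i * xi + N l j * xj)) * pp (‖a (τ 0) - q‖ ^ 2 - S (τ l.succ))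
      - 2 * (pp ((N l i * xi + N l j * xj) - T3 t l) * ‖a (τ 0) - q‖) ≤
      Yt (fun i => a (τ i)) t q := by
  have hd : ∀ k, N k k = 0 := fun k => by
    rw [hNd]
    exact NM_diag k
  obtain ⟨x, hx⟩ : ∃ x : Fin 3 → ℝ, x = fun m => if m = i then xi else if m = j then xj else 0 :=
    ⟨_, rfl⟩
  have xi' : x i = xi := by rw [hx]; simp
  have xj' : x j = xj := by rw [hx]; simp [hij.symm]
  have xl' : x l = 0 := by rw [hx]; simp [hil.symm, hjl.symm]
  have hx0 : ∀ k, 0 ≤ x k := fun k => by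
    rw [hx]
    simp only
    split_ifs
    · exact hxi
    · exact hxj
    · exact le_rfl
  have hL : Load (fun i => a (τ i)) q 0 0 (fun _ => 0) := by
    unfold Load
    simp
  have key := F_body h v hz τ hNd hRd hx0 (t := t) hq hL hV hκ
  have e1 : ∀ k, x k + LN N x k + 0 = x k + (N k i * x i + N k j * x j + N k l * x l) := fun k => by
    rw [LN3 N x k hij hil hjl, add_zero]
  have s1 := sum3 (fun k => x k * R k) hij hil hjl
  have s2 := sum3 (fun k => x k * nc N k) hij hil hjl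
  have s3 := sum3 (fun k => pp (T3 t k - (x k + LN N x k + 0))) hij hil hjl
  have s4 := sum3 (fun k => pp (x k + LN N x k + 0 - T3 t k)) hij hil hjl
  have s5 := sum3 (fun k => pp (T3 t k - (x k + LN N x k + 0)) *
    pp (‖a (τ 0) - q‖ ^ 2 - S (τ k.succ))) hij hil hjl
  have ui : x i + LN N x i + 0 = T3 t i := by
    rw [e1, hd, xi', xj', xl', ← ei]
    ring
  have uj : x j + LN N x j + 0 = T3 t j := by
    rw [e1, hd, xi', xj', xl', ← ej]
    ring
  have ul : x l + LN N x l + 0 = N l i * xi + N l j * xj := by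
    rw [e1, xi', xj', xl']
    ring
  have z0 : pp (0 : ℝ) = 0 := by unfold pp; simp
  rw [ui, uj, ul, sub_self, sub_self, z0] at s3 s4 s5
  have hQ : √(Helper75.MEI2.Qf (fun k => pp (x k + LN N x k + 0 - T3 t k))) =
      pp ((N l i * xi + N l j * xj) - T3 t l) := by
    rw [Pool.Agent.Helper58.MEI.Qf_one (k := l) (fun m hm => by
      have : m = i ∨ m = j := by
        fin_cases i <;> fin_cases j <;> fin_cases l <;> fin_cases m <;>
          simp at hij hil hjl hm ⊢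
      rcases this with e | e
      · simp only [e]
        rw [ui, sub_self, z0]
      · simp only [e]
        rw [uj, sub_self, z0])]
    rw [ul, Real.sqrt_sq (pp_nonneg _)]
  have n3 : ∀ k, nc N k = N i k + N j k + N l k := fun k => by
    unfold nc
    exact sum3 (fun m => N m k) hij hil hjl
  have key2 : (x 0 * R 0 + x 1 * R 1 + x 2 * R 2 + 0)
      + (1 - (κ * (x 0 * nc N 0 + x 1 * nc N 1 + x 2 * nc N 2) + ((0 + 0 + 0) - 0)
          + (pp (T3 t 0 - (x 0 + LN N x 0 + 0)) + pp (T3 t 1 - (x 1 + LN N x 1 + 0))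
            + pp (T3 t 2 - (x 2 + LN N x 2 + 0)))
          - (pp (x 0 + LN N x 0 + 0 - T3 t 0) + pp (x 1 + LN N x 1 + 0 - T3 t 1)
            + pp (x 2 + LN N x 2 + 0 - T3 t 2)))) * ‖a (τ 0) - q‖ ^ 2
      + (pp (T3 t 0 - (x 0 + LN N x 0 + 0)) * pp (‖a (τ 0) - q‖ ^ 2 - S (τ (0 : Fin 3).succ))
        + pp (T3 t 1 - (x 1 + LN N x 1 + 0)) * pp (‖a (τ 0) - q‖ ^ 2 - S (τ (1 : Fin 3).succ))
        + pp (T3 t 2 - (x 2 + LN N x 2 + 0)) * pp (‖a (τ 0) - q‖ ^ 2 - S (τ (2 : Fin 3).succ)))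
      - 2 * (√(Helper75.MEI2.Qf (fun k => pp (x k + LN N x k + 0 - T3 t k))) *
        ‖a (τ 0) - q‖) ≤ Yt (fun i => a (τ i)) t q := key
  rw [s1, s2, s3, s4, s5, hQ, xi', xj', xl', n3, n3, hd, hd] at key2
  have sp := pp_sub_pp (T3 t l - (N l i * xi + N l j * xj))
  rw [neg_sub] at sp
  have e6 : pp (T3 t l - (N l i * xi + N l j * xj)) =
      T3 t l - (N l i * xi + N l j * xj) + pp ((N l i * xi + N l j * xj) - T3 t l) := by linarith
  refine le_trans (le_of_eq ?_) key2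
  rw [show (0 : ℝ) + 0 + pp (T3 t l - (N l i * xi + N l j * xj)) =
    T3 t l - (N l i * xi + N l j * xj) + pp ((N l i * xi + N l j * xj) - T3 t l) by linarith]
  ring

/-- **the pair `A = {i, j}` near the wall `l` with affine numbers** -/
theorem F_pair (h : CN K σ a c) (v : Viol K a S) (hz : CV a K z) (τ : Equiv.Perm (Fin 4))
    {N : Fin 3 → Fin 3 → ℝ} (hNd : N = NM (fun i => a (τ i)) (fun i j => z (τ i) (τ j)))
    {R : Fin 3 → ℝ} (hRd : R = RM (fun i => a (τ i)) (fun i j => z (τ i) (τ j)))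
    {i j l : Fin 3} (hij : i ≠ j) (hil : i ≠ l) (hjl : j ≠ l) {t : ℝ × ℝ} (ht : t ∈ Sim)
    (hi : N i j * T3 t j ≤ T3 t i) (hj : N j i * T3 t i ≤ T3 t j)
    {q : E3} (hq : q ∈ K) {V : ℝ} (hV : ∀ k : Fin 3, S (τ k.succ) ≤ V) {κ : ℝ} (hκ0 : 0 ≤ κ)
    (hκ1 : κ ≤ 1) (hκ : wx V (‖a (τ 0) - q‖ ^ 2) ≤ 3 * (κ - 1 / 2) * ‖a (τ 0) - q‖ ^ 2) :
    ((T3 t i - N i j * T3 t j) * R i + (T3 t j - N j i * T3 t i) * R j)
      + (1 - (κ * (N j i * T3 t i + N i j * T3 t j) + T3 t l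
          - (1 - κ) * (N l i * (T3 t i - N i j * T3 t j) + N l j * (T3 t j - N j i * T3 t i))))
        * ‖a (τ 0) - q‖ ^ 2
      + pp (T3 t l - (N l i * T3 t i + N l j * T3 t j)) *
        pp (‖a (τ 0) - q‖ ^ 2 - S (τ l.succ))
      - 2 * (pp ((N l i * T3 t i + N l j * T3 t j) - T3 t l) * ‖a (τ 0) - q‖) ≤
      Yt (fun i => a (τ i)) t q := by
  have h' := h.perm τ
  have v' := viol_perm v τ
  have hz' := hz.perm τ
  have hN : ∀ k m, 0 ≤ N k m := fun k m => by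
    rw [hNd]
    exact NM_nonneg h' v' hz' k m
  have hcol : ∀ m, nc N m ≤ 9 / 10 := fun m => by
    rw [hNd]
    exact nc_le h' v' hz' m
  have n3 : ∀ k, nc N k = N i k + N j k + N l k := fun k => by
    unfold nc
    exact sum3 (fun m => N m k) hij hil hjl
  have T0 : ∀ k, 0 ≤ T3 t k := fun k => by
    rw [T3_vv]
    exact vv_nonneg ht k
  have hR : ∀ k, 0 ≤ R k := (Pool.Agent.Helper58.MEI.body_N h v hz τ hNd hRd).2.2.2
  have b1 : N i j ≤ 9 / 10 := by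
    have h1 := hcol j
    rw [n3] at h1
    have := hN j j
    have := hN l j
    linarith
  have b2 : N j i ≤ 9 / 10 := by
    have h1 := hcol i
    rw [n3] at h1
    have := hN i i
    have := hN l i
    linarith
  have hP0 : 0 ≤ N i j * N j i := mul_nonneg (hN i j) (hN j i)
  have hP1 : N i j * N j i ≤ 81 / 100 := by
    have := mul_le_mul b1 b2 (hN j i) (by norm_num : (0 : ℝ) ≤ 9 / 10)
    linarith
  have hΔ : 0 < 1 - N i j * N j i := by linarith
  obtain ⟨xi, hxi⟩ : ∃ xi, xi = (T3 t i - N i j * T3 t j) / (1 - N i j * N j i) := ⟨_, rfl⟩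
  obtain ⟨xj, hxj⟩ : ∃ xj, xj = (T3 t j - N j i * T3 t i) / (1 - N i j * N j i) := ⟨_, rfl⟩
  have mi : xi * (1 - N i j * N j i) = T3 t i - N i j * T3 t j := by
    rw [hxi, div_mul_cancel₀ _ hΔ.ne']
  have mj : xj * (1 - N i j * N j i) = T3 t j - N j i * T3 t i := by
    rw [hxj, div_mul_cancel₀ _ hΔ.ne']
  have xi0 : 0 ≤ xi := by rw [hxi]; exact div_nonneg (by linarith) hΔ.le
  have xj0 : 0 ≤ xj := by rw [hxj]; exact div_nonneg (by linarith) hΔ.le
  have ei : xi + N i j * xj = T3 t i := by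
    have : (xi + N i j * xj - T3 t i) * (1 - N i j * N j i) = 0 := by
      linear_combination mi + N i j * mj
    rcases mul_eq_zero.1 this with e | e
    · linarith
    · exact absurd e hΔ.ne'
  have ej : xj + N j i * xi = T3 t j := by
    have : (xj + N j i * xi - T3 t j) * (1 - N i j * N j i) = 0 := by
      linear_combination mj + N j i * mi
    rcases mul_eq_zero.1 this with e | e
    · linarith
    · exact absurd e hΔ.ne'
  have key := F_pair0 h v hz τ hNd hRd hij hil hjl xi0 xj0 ei ej hq hV hκ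
  have li : T3 t i - N i j * T3 t j ≤ xi := by
    have := mul_nonneg xi0 hP0
    linarith
  have lj : T3 t j - N j i * T3 t i ≤ xj := by
    have := mul_nonneg xj0 hP0
    linarith
  have ui : xi ≤ T3 t i := by
    have := mul_nonneg (hN i j) xj0
    linarith
  have uj : xj ≤ T3 t j := by
    have := mul_nonneg (hN j i) xi0
    linarith
  obtain ⟨w, hw⟩ : ∃ w, w = ‖a (τ 0) - q‖ ^ 2 := ⟨_, rfl⟩
  have hw0 : 0 ≤ w := by rw [hw]; exact sq_nonneg _
  have hn0 : 0 ≤ ‖a (τ 0) - q‖ := norm_nonneg _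
  rw [← hw] at key ⊢
  -- levels
  have g1 := mul_le_mul_of_nonneg_right li (hR i)
  have g2 := mul_le_mul_of_nonneg_right lj (hR j)
  -- masses
  have m1 := mul_le_mul_of_nonneg_left ui (hN j i)
  have m2 := mul_le_mul_of_nonneg_left uj (hN i j)
  have m3 := mul_le_mul_of_nonneg_left li (hN l i)
  have m4 := mul_le_mul_of_nonneg_left lj (hN l j)
  have m5 := mul_le_mul_of_nonneg_left (add_le_add m1 m2) hκ0
  have m6 := mul_le_mul_of_nonneg_left (add_le_add m3 m4) (sub_nonneg.2 hκ1)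
  have m7 := mul_le_mul_of_nonneg_right (show κ * (N j i * xi + N i j * xj) + T3 t l
      - (1 - κ) * (N l i * xi + N l j * xj) ≤ κ * (N j i * T3 t i + N i j * T3 t j) + T3 t l
      - (1 - κ) * (N l i * (T3 t i - N i j * T3 t j) + N l j * (T3 t j - N j i * T3 t i)) by
    linarith) hw0
  -- wall
  have r1 := mul_le_mul_of_nonneg_left ui (hN l i)
  have r2 := mul_le_mul_of_nonneg_left uj (hN l j)
  have pm : ∀ {x y : ℝ}, x ≤ y → pp x ≤ pp y := fun hxy => max_le_max hxy le_rfl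
  have r3 : pp (T3 t l - (N l i * T3 t i + N l j * T3 t j)) ≤
      pp (T3 t l - (N l i * xi + N l j * xj)) := pm (by linarith)
  have r4 : pp ((N l i * xi + N l j * xj) - T3 t l) ≤
      pp ((N l i * T3 t i + N l j * T3 t j) - T3 t l) := pm (by linarith)
  have r5 := mul_le_mul_of_nonneg_right r3 (pp_nonneg (w - S (τ l.succ)))
  have r6 := mul_le_mul_of_nonneg_right r4 hn0
  linarith

/-- **one node `A = {i}`** -/
theorem F_one (h : CN K σ a c) (v : Viol K a S) (hz : CV a K z) (τ : Equiv.Perm (Fin 4))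
    {N : Fin 3 → Fin 3 → ℝ} (hNd : N = NM (fun i => a (τ i)) (fun i j => z (τ i) (τ j)))
    {R : Fin 3 → ℝ} (hRd : R = RM (fun i => a (τ i)) (fun i j => z (τ i) (τ j)))
    {i j l : Fin 3} (hij : i ≠ j) (hil : i ≠ l) (hjl : j ≠ l) {t : ℝ × ℝ} (ht : t ∈ Sim)
    {q : E3} (hq : q ∈ K) {V : ℝ} (hV : ∀ k : Fin 3, S (τ k.succ) ≤ V) {κ : ℝ}
    (hκ : wx V (‖a (τ 0) - q‖ ^ 2) ≤ 3 * (κ - 1 / 2) * ‖a (τ 0) - q‖ ^ 2) :
    T3 t i * R i
      + (1 - (κ * ((N j i + N l i) * T3 t i) + (T3 t j - N j i * T3 t i)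
          + (T3 t l - N l i * T3 t i))) * ‖a (τ 0) - q‖ ^ 2
      + (pp (T3 t j - N j i * T3 t i) * pp (‖a (τ 0) - q‖ ^ 2 - S (τ j.succ))
        + pp (T3 t l - N l i * T3 t i) * pp (‖a (τ 0) - q‖ ^ 2 - S (τ l.succ)))
      - 2 * (√(pp (N j i * T3 t i - T3 t j) ^ 2 + pp (N l i * T3 t i - T3 t l) ^ 2
        + pp (N j i * T3 t i - T3 t j) * pp (N l i * T3 t i - T3 t l)) * ‖a (τ 0) - q‖) ≤
      Yt (fun i => a (τ i)) t q := by
  have hd : ∀ k, N k k = 0 := fun k => by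
    rw [hNd]
    exact NM_diag k
  have T0 : 0 ≤ T3 t i := by
    rw [T3_vv]
    exact vv_nonneg ht i
  obtain ⟨x, hx⟩ : ∃ x : Fin 3 → ℝ, x = fun m => if m = i then T3 t i else 0 := ⟨_, rfl⟩
  have xi' : x i = T3 t i := by rw [hx]; simp
  have xj' : x j = 0 := by rw [hx]; simp [hij.symm]
  have xl' : x l = 0 := by rw [hx]; simp [hil.symm]
  have hx0 : ∀ k, 0 ≤ x k := fun k => by
    rw [hx]
    simp only
    split_ifs
    · exact T0
    · exact le_rfl
  have hL : Load (fun i => a (τ i)) q 0 0 (fun _ => 0) := by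
    unfold Load
    simp
  have key := F_body h v hz τ hNd hRd hx0 (t := t) hq hL hV hκ
  have e1 : ∀ k, x k + LN N x k + 0 = x k + (N k i * x i + N k j * x j + N k l * x l) := fun k => by
    rw [LN3 N x k hij hil hjl, add_zero]
  have s1 := sum3 (fun k => x k * R k) hij hil hjl
  have s2 := sum3 (fun k => x k * nc N k) hij hil hjl
  have s3 := sum3 (fun k => pp (T3 t k - (x k + LN N x k + 0))) hij hil hjl
  have s4 := sum3 (fun k => pp (x k + LN N x k + 0 - T3 t k)) hij hil hjl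
  have s5 := sum3 (fun k => pp (T3 t k - (x k + LN N x k + 0)) *
    pp (‖a (τ 0) - q‖ ^ 2 - S (τ k.succ))) hij hil hjl
  have ui : x i + LN N x i + 0 = T3 t i := by
    rw [e1, hd, xi', xj', xl']
    ring
  have uj : x j + LN N x j + 0 = N j i * T3 t i := by
    rw [e1, hd, xi', xj', xl']
    ring
  have ul : x l + LN N x l + 0 = N l i * T3 t i := by
    rw [e1, hd, xi', xj', xl']
    ring
  have z0 : pp (0 : ℝ) = 0 := by unfold pp; simp
  rw [ui, uj, ul, sub_self, z0] at s3 s4 s5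
  have hQ : Helper75.MEI2.Qf (fun k => pp (x k + LN N x k + 0 - T3 t k)) =
      pp (N j i * T3 t i - T3 t j) ^ 2 + pp (N l i * T3 t i - T3 t l) ^ 2
        + pp (N j i * T3 t i - T3 t j) * pp (N l i * T3 t i - T3 t l) := by
    have hgen : ∀ r : Fin 3 → ℝ, r i = 0 →
        Helper75.MEI2.Qf r = r j ^ 2 + r l ^ 2 + r j * r l := by
      intro r hr
      unfold Helper75.MEI2.Qf
      fin_cases i <;> fin_cases j <;> fin_cases l <;> simp at hij hil hjl hr ⊢ <;> rw [hr] <;>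
        ring
    rw [hgen _ (by rw [ui, sub_self, z0]), uj, ul]
  have n3 : ∀ k, nc N k = N i k + N j k + N l k := fun k => by
    unfold nc
    exact sum3 (fun m => N m k) hij hil hjl
  have key2 : (x 0 * R 0 + x 1 * R 1 + x 2 * R 2 + 0)
      + (1 - (κ * (x 0 * nc N 0 + x 1 * nc N 1 + x 2 * nc N 2) + ((0 + 0 + 0) - 0)
          + (pp (T3 t 0 - (x 0 + LN N x 0 + 0)) + pp (T3 t 1 - (x 1 + LN N x 1 + 0))
            + pp (T3 t 2 - (x 2 + LN N x 2 + 0)))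
          - (pp (x 0 + LN N x 0 + 0 - T3 t 0) + pp (x 1 + LN N x 1 + 0 - T3 t 1)
            + pp (x 2 + LN N x 2 + 0 - T3 t 2)))) * ‖a (τ 0) - q‖ ^ 2
      + (pp (T3 t 0 - (x 0 + LN N x 0 + 0)) * pp (‖a (τ 0) - q‖ ^ 2 - S (τ (0 : Fin 3).succ))
        + pp (T3 t 1 - (x 1 + LN N x 1 + 0)) * pp (‖a (τ 0) - q‖ ^ 2 - S (τ (1 : Fin 3).succ))
        + pp (T3 t 2 - (x 2 + LN N x 2 + 0)) * pp (‖a (τ 0) - q‖ ^ 2 - S (τ (2 : Fin 3).succ)))
      - 2 * (√(Helper75.MEI2.Qf (fun k => pp (x k + LN N x k + 0 - T3 t k))) *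
        ‖a (τ 0) - q‖) ≤ Yt (fun i => a (τ i)) t q := key
  rw [s1, s2, s3, s4, s5, hQ, xi', xj', xl', n3, hd] at key2
  have sp := pp_sub_pp (T3 t l - N l i * T3 t i)
  have sq := pp_sub_pp (T3 t j - N j i * T3 t i)
  rw [neg_sub] at sp sq
  refine le_trans (le_of_eq ?_) key2
  rw [show (0 : ℝ) + pp (T3 t j - N j i * T3 t i) + pp (T3 t l - N l i * T3 t i) =
    (T3 t j - N j i * T3 t i) + (T3 t l - N l i * T3 t i) + pp (N j i * T3 t i - T3 t j)
      + pp (N l i * T3 t i - T3 t l) by linarith]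
  ring

end body

end Helper99.MEI
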