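import Pool.Agent.Helper99.MEI.TckF

/-!
# Project MEI (M2), track B: the rows of a packed family computed from the numbers

`mkR tp As Vs rl` = the rows of the members, the least numbers that satisfy the demands of the
types `As` and of the value majorants `Vs` at the numbers `rl` (no strips, `nr = 0`). `finF` = the
final check of a packed family with these rows: the packed rows are computed once. `finB_of`: the
final check of rule R10, `tabR`: the check `tck` of every member, for free.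
-/

set_option autoImplicit false

namespace Helper99.MEI

open Helper60.R8 Helper60.R10

/-- ceiling of a quotient -/
def cdv (x m : ℕ) : ℕ := Nat.div (Nat.add x (Nat.sub m 1)) m

theorem cdv_le (x : ℕ) {m : ℕ} (hm : 0 < m) : x ≤ m * cdv x m := by
  unfold cdv
  have h1 := Nat.div_add_mod (x + (m - 1)) m
  have h2 := Nat.mod_lt (x + (m - 1)) hm
  show x ≤ m * ((x + (m - 1)) / m)
  omega

/-- maximum -/
def mxn (a b : ℕ) : ℕ := Nat.add a (Nat.sub b a)

theorem mxn_l (a b : ℕ) : a ≤ mxn a b := Nat.le_add_right _ _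

theorem mxn_r (a b : ℕ) : b ≤ mxn a b := by
  unfold mxn
  show b ≤ a + (b - a)
  omega

def fDk (c : CL) (r : RN) : ℕ := cdv (Nat.mul c.dk r.nk) 6000000

def fT (c : CL) (r : RN) : ℕ := Nat.add c.c0 (Nat.mul c.c1 (Nat.add (Nat.add r.nk r.nj) r.nl))

def fDj (c : CL) (r : RN) : ℕ :=
  cdv (Nat.add (mxn c.a1 (Nat.add (fT c r) (Nat.mul c.hn r.nj))) (Nat.mul c.b1 r.b))
    6000000000000

def fDl (c : CL) (r : RN) : ℕ :=
  cdv (Nat.add (mxn c.a2 (Nat.add (fT c r) (Nat.mul c.hn r.nl))) (Nat.mul c.b2 r.b))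
    6000000000000

def fXk (c : CL) (r : RN) : ℕ :=
  cdv (Nat.add (Nat.add (Nat.mul c.tk r.te) (Nat.mul c.pa r.pe)) (Nat.mul c.vk r.nk))
    6000000000000

def fXj (c : CL) (r : RN) : ℕ :=
  cdv (Nat.add (mxn (Nat.add c.vx (Nat.mul c.pa r.pe))
    (Nat.add (Nat.mul c.vn r.nj) (Nat.mul c.pb r.pe))) (Nat.mul c.tx r.te)) 6000000000000

def fXl (c : CL) (r : RN) : ℕ :=
  cdv (Nat.add (mxn (Nat.add c.vy (Nat.mul c.pa r.pe))
    (Nat.add (Nat.mul c.vn r.nl) (Nat.mul c.pb r.pe))) (Nat.mul c.ty r.te)) 6000000000000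

def fE (F : AF) (r : RN) : ℕ := cdv (natF F r) 6000000000000000000

/-- a load of a row -/
def mkLd (r : RN) (c : CL) : Ld := ⟨⟨fDk c r, fDj c r, fDl c r⟩, ⟨fXk c r, fXj c r, fXl c r⟩⟩

/-- a value majorant of a row -/
def mkE (r : RN) (V : VT) : P3 := ⟨fE V.k r, fE V.j r, fE V.l r⟩

/-- a row -/
def mkRow (cs : List CL) (Vs : List VT) (r : RN) : Row :=
  ⟨⟨r.Sk, r.Sj, r.Sl⟩, r.s, cs.map (mkLd r), Vs.map (mkE r)⟩

/-- **the rows of the members** -/
def mkR (P : TP) (As : List LT) (Vs : List VT) (rl : List (List RN)) : List (List Row) :=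
  rl.map fun rs => rs.map (mkRow (As.map (cmp P)) Vs)

theorem ldF_mk (c : CL) (r : RN) :
    ldF (r.nk + r.nj + r.nl) r.nk r.nj r.nl r.b r.te r.pe c (mkLd r c) = true := by
  have M : (0 : ℕ) < 6000000000000 := by norm_num
  have M' : (0 : ℕ) < 6000000 := by norm_num
  have k1 := cdv_le (Nat.mul c.dk r.nk) M'
  have k2 := cdv_le (Nat.add (mxn c.a1 (Nat.add (fT c r) (Nat.mul c.hn r.nj)))
    (Nat.mul c.b1 r.b)) M
  have k3 := cdv_le (Nat.add (mxn c.a2 (Nat.add (fT c r) (Nat.mul c.hn r.nl)))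
    (Nat.mul c.b2 r.b)) M
  have k4 := cdv_le (Nat.add (Nat.add (Nat.mul c.tk r.te) (Nat.mul c.pa r.pe))
    (Nat.mul c.vk r.nk)) M
  have k5 := cdv_le (Nat.add (mxn (Nat.add c.vx (Nat.mul c.pa r.pe))
    (Nat.add (Nat.mul c.vn r.nj) (Nat.mul c.pb r.pe))) (Nat.mul c.tx r.te)) M
  have k6 := cdv_le (Nat.add (mxn (Nat.add c.vy (Nat.mul c.pa r.pe))
    (Nat.add (Nat.mul c.vn r.nl) (Nat.mul c.pb r.pe))) (Nat.mul c.ty r.te)) M
  have a1 := mxn_l c.a1 (Nat.add (fT c r) (Nat.mul c.hn r.nj))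
  have a2 := mxn_r c.a1 (Nat.add (fT c r) (Nat.mul c.hn r.nj))
  have a3 := mxn_l c.a2 (Nat.add (fT c r) (Nat.mul c.hn r.nl))
  have a4 := mxn_r c.a2 (Nat.add (fT c r) (Nat.mul c.hn r.nl))
  have a5 := mxn_l (Nat.add c.vx (Nat.mul c.pa r.pe))
    (Nat.add (Nat.mul c.vn r.nj) (Nat.mul c.pb r.pe))
  have a6 := mxn_r (Nat.add c.vx (Nat.mul c.pa r.pe))
    (Nat.add (Nat.mul c.vn r.nj) (Nat.mul c.pb r.pe))
  have a7 := mxn_l (Nat.add c.vy (Nat.mul c.pa r.pe))
    (Nat.add (Nat.mul c.vn r.nl) (Nat.mul c.pb r.pe))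
  have a8 := mxn_r (Nat.add c.vy (Nat.mul c.pa r.pe))
    (Nat.add (Nat.mul c.vn r.nl) (Nat.mul c.pb r.pe))
  unfold ldF mkLd fDk fDj fDl fXk fXj fXl
  generalize cdv (Nat.mul c.dk r.nk) 6000000 = D1 at k1 ⊢
  generalize cdv (Nat.add (mxn c.a1 (Nat.add (fT c r) (Nat.mul c.hn r.nj)))
    (Nat.mul c.b1 r.b)) 6000000000000 = D2 at k2 ⊢
  generalize cdv (Nat.add (mxn c.a2 (Nat.add (fT c r) (Nat.mul c.hn r.nl)))
    (Nat.mul c.b2 r.b)) 6000000000000 = D3 at k3 ⊢
  generalize cdv (Nat.add (Nat.add (Nat.mul c.tk r.te) (Nat.mul c.pa r.pe))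
    (Nat.mul c.vk r.nk)) 6000000000000 = D4 at k4 ⊢
  generalize cdv (Nat.add (mxn (Nat.add c.vx (Nat.mul c.pa r.pe))
    (Nat.add (Nat.mul c.vn r.nj) (Nat.mul c.pb r.pe))) (Nat.mul c.tx r.te)) 6000000000000 = D5
    at k5 ⊢
  generalize cdv (Nat.add (mxn (Nat.add c.vy (Nat.mul c.pa r.pe))
    (Nat.add (Nat.mul c.vn r.nl) (Nat.mul c.pb r.pe))) (Nat.mul c.ty r.te)) 6000000000000 = D6
    at k6 ⊢
  unfold fT at a2 a4
  unfold fT at k2 k3 a1 a3
  generalize mxn c.a1 _ = m1 at k2 a1 a2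
  generalize mxn c.a2 _ = m2 at k3 a3 a4
  generalize mxn (Nat.add c.vx (Nat.mul c.pa r.pe)) _ = m3 at k5 a5 a6
  generalize mxn (Nat.add c.vy (Nat.mul c.pa r.pe)) _ = m4 at k6 a7 a8
  simp only [stn_eq, Bool.and_eq_true, Nat.ble_eq, Nat.add_eq, Nat.mul_eq] at *
  refine ⟨k1, (Nat.add_le_add_right a1 _).trans k2, (Nat.add_le_add_right a2 _).trans k2,
    (Nat.add_le_add_right a3 _).trans k3, (Nat.add_le_add_right a4 _).trans k3, k4, ?_, ?_, ?_,
    ?_⟩
  · refine le_trans (le_of_eq ?_) ((Nat.add_le_add_right a5 _).trans k5)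
    ring
  · refine le_trans (le_of_eq ?_) ((Nat.add_le_add_right a6 _).trans k5)
    ring
  · refine le_trans (le_of_eq ?_) ((Nat.add_le_add_right a7 _).trans k6)
    ring
  · refine le_trans (le_of_eq ?_) ((Nat.add_le_add_right a8 _).trans k6)
    ring

theorem esck_mk (r : RN) (V : VT) : esck V r (mkE r V) = true := by
  have M : (0 : ℕ) < 6000000000000000000 := by norm_num
  unfold esck AF.ck mkE fE
  simp only [Bool.and_eq_true, Nat.ble_eq, natF_eq]
  exact ⟨⟨cdv_le _ M, cdv_le _ M⟩, cdv_le _ M⟩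

theorem getD_map_lt {α β : Type} (f : α → β) {L : List α} {i : ℕ} (h : i < L.length) (a : α)
    (b : β) : (L.map f).getD i b = f (L.getD i a) := by
  rw [List.getD_eq_getElem _ _ (by rw [List.length_map]; exact h), List.getElem_map,
    List.getD_eq_getElem _ _ h]

theorem rowck_mk {P : TP} {As : List LT} {Vs : List VT} (hnr : ∀ L ∈ As, L.nr = 0) (r : RN) :
    rowck P As Vs As.length Vs.length r (mkRow (As.map (cmp P)) Vs r) = true := by
  unfold rowck mkRow
  simp only [Bool.and_eq_true, List.all_eq_true, List.mem_range, Nat.ble_eq]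
  refine ⟨⟨⟨⟨⟨le_rfl, le_rfl⟩, le_rfl⟩, le_rfl⟩, fun li hli => ?_⟩, fun ei hei => ?_⟩
  · rw [getD_map_lt (mkLd r) (by rw [List.length_map]; exact hli) (cmp P lt0), getD_map_lt
      (cmp P) hli lt0]
    refine ldF_sound (hnr _ ?_) (ldF_mk _ _)
    rw [List.getD_eq_getElem _ _ hli]
    exact List.getElem_mem hli
  · rw [getD_map_lt (mkE r) hei vt0]
    exact esck_mk r _

/-! ### The packed rows -/

/-- packing of a member -/
def pkF (f : RN → ℕ) (rs : List RN) : ℕ :=
  List.rec (motive := fun _ => ℕ) 0 (fun r _ ih => Nat.add (f r) (Nat.mul BB ih)) rs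

/-- packing of a family -/
def pmF (BV : ℕ) (f : RN → ℕ) (rl : List (List RN)) : ℕ :=
  List.rec (motive := fun _ => ℕ) 0 (fun rs _ ih => Nat.add (pkF f rs) (Nat.mul BV ih)) rl

theorem pkF_eq (g : Row → ℕ) (m : RN → Row) : ∀ rs : List RN,
    pkl g (rs.map m) = pkF (fun r => g (m r)) rs
  | [] => rfl
  | r :: rs => by
    have h := pkF_eq g m rs
    rw [List.map_cons, pkl, h]
    rfl

theorem pkF_congr {f g : RN → ℕ} : ∀ {rs : List RN}, (∀ r ∈ rs, f r = g r) → pkF f rs = pkF g rs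
  | [], _ => rfl
  | r :: rs, h => by
    have h1 := pkF_congr (rs := rs) fun r' hr' => h r' (List.mem_cons_of_mem _ hr')
    have h2 := h r List.mem_cons_self
    show Nat.add (f r) (Nat.mul BB (pkF f rs)) = Nat.add (g r) (Nat.mul BB (pkF g rs))
    rw [h1, h2]

theorem pmF_eq (BV : ℕ) (g : Row → ℕ) (m : RN → Row) : ∀ rl : List (List RN),
    pkm BV g (rl.map fun rs => rs.map m) = pmF BV (fun r => g (m r)) rl
  | [] => rfl
  | rs :: rl => by
    have h := pmF_eq BV g m rl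
    rw [List.map_cons, pkm, h, pkF_eq]
    rfl

theorem pmF_congr {BV : ℕ} {f g : RN → ℕ} (h : ∀ r, f r = g r) (rl : List (List RN)) :
    pmF BV f rl = pmF BV g rl := by
  have : f = g := funext h
  rw [this]

/-- all entries of a member -/
def alF (f : RN → ℕ) (rs : List RN) : Bool :=
  List.rec (motive := fun _ => Bool) true (fun r _ ih => and (Nat.ble (f r) 16777215) ih) rs

theorem alF_iff {f : RN → ℕ} : ∀ {rs : List RN}, alF f rs = true → ∀ r ∈ rs, f r < 16777216
  | [], _, r, hr => absurd hr List.not_mem_nil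
  | a :: rs, h, r, hr => by
    have h' : (Nat.ble (f a) 16777215 && alF f rs) = true := h
    rw [Bool.and_eq_true, Nat.ble_eq] at h'
    rcases List.mem_cons.1 hr with rfl | hr
    · exact Nat.lt_succ_of_le h'.1
    · exact alF_iff h'.2 r hr

/-- all entries of a family -/
def amF (f : RN → ℕ) (rl : List (List RN)) : Bool :=
  List.rec (motive := fun _ => Bool) true (fun rs _ ih => and (alF f rs) ih) rl

theorem amF_iff {f : RN → ℕ} : ∀ {rl : List (List RN)}, amF f rl = true →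
    ∀ rs ∈ rl, ∀ r ∈ rs, f r < 16777216
  | [], _, r, hr => absurd hr List.not_mem_nil
  | a :: rs, h, r, hr => by
    have h' : (alF f a && amF f rs) = true := h
    rw [Bool.and_eq_true] at h'
    rcases List.mem_cons.1 hr with rfl | hr
    · exact alF_iff h'.1
    · exact amF_iff h'.2 r hr

/-- a packed column -/
def col (BV : ℕ) (rl : List (List RN)) (f : RN → ℕ) (X : ℕ) : Bool :=
  and (amF f rl) (Nat.beq (pmF BV f rl) X)

theorem col_iff {BV : ℕ} {rl : List (List RN)} {f : RN → ℕ} {X : ℕ} (h : col BV rl f X = true) :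
    (∀ rs ∈ rl, ∀ r ∈ rs, f r < 16777216) ∧ pmF BV f rl = X := by
  unfold col at h
  rw [Bool.and_eq_true, Nat.beq_eq] at h
  exact ⟨amF_iff h.1, h.2⟩

/-- a packed load -/
def colL (BV : ℕ) (rl : List (List RN)) (c : CL) (d : PLd) : Bool :=
  and (col BV rl (fDk c) d.Dk) <| and (col BV rl (fDj c) d.Dj) <| and (col BV rl (fDl c) d.Dl) <|
  and (col BV rl (fXk c) d.Xk) <| and (col BV rl (fXj c) d.Xj) (col BV rl (fXl c) d.Xl)

/-- a packed majorant -/
def colE (BV : ℕ) (rl : List (List RN)) (V : VT) (d : PE) : Bool :=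
  and (col BV rl (fE V.k) d.k) <| and (col BV rl (fE V.j) d.j) (col BV rl (fE V.l) d.l)

/-- the numbers of a member -/
def agN (P : PR) (rs : List RN) : Bool :=
  and (Nat.beq rs.length P.V) <| and (alF RN.Sk rs) <| and (alF RN.Sj rs) <|
  and (alF RN.Sl rs) <| and (alF RN.s rs) <| and (rs.all fun r => Nat.ble r.s P.sM) <|
  and (Nat.beq (pkF RN.Sk rs) P.Sk) <| and (Nat.beq (pkF RN.Sj rs) P.Sj) <|
  and (Nat.beq (pkF RN.Sl rs) P.Sl) (Nat.beq (pkF RN.s rs) P.s)

/-- evaluation of the numbers of the rows -/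
def rnS (r : RN) (f : RN → Bool) : Bool :=
  stn r.s fun s => stn r.Sk fun Sk => stn r.Sj fun Sj => stn r.Sl fun Sl =>
  stn r.nk fun nk => stn r.nj fun nj => stn r.nl fun nl => stn r.b fun b =>
  stn r.te fun te => stn r.pe fun pe => f ⟨s, Sk, Sj, Sl, nk, nj, nl, b, te, pe⟩

theorem rnS_eq (r : RN) (f : RN → Bool) : rnS r f = f r := by
  unfold rnS
  simp only [stn_eq]

def rsS (rs : List RN) : (List RN → Bool) → Bool :=
  List.rec (motive := fun _ => (List RN → Bool) → Bool) (fun f => f [])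
    (fun r _ ih f => rnS r fun r => ih fun rs => f (r :: rs)) rs

theorem rsS_eq : ∀ (rs : List RN) (f : List RN → Bool), rsS rs f = f rs
  | [], _ => rfl
  | r :: rs, f => by
    have h := rsS_eq rs (fun rs => f (r :: rs))
    have h2 : rsS (r :: rs) f = rnS r fun r => rsS rs fun rs => f (r :: rs) := rfl
    rw [h2, rnS_eq, h]

def rlS (rl : List (List RN)) : (List (List RN) → Bool) → Bool :=
  List.rec (motive := fun _ => (List (List RN) → Bool) → Bool) (fun f => f [])
    (fun r _ ih f => rsS r fun r => ih fun rs => f (r :: rs)) rl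

theorem rlS_eq : ∀ (rl : List (List RN)) (f : List (List RN) → Bool), rlS rl f = f rl
  | [], _ => rfl
  | r :: rs, f => by
    have h := rlS_eq rs (fun rs => f (r :: rs))
    have h2 : rlS (r :: rs) f = rsS r fun r => rlS rs fun rs => f (r :: rs) := rfl
    rw [h2, rsS_eq, h]

/-- **the packed rows against the numbers** -/
def agF (P : PR) (tp : TP) (As : List LT) (Vs : List VT) (rl : List (List RN)) : Bool :=
  and (agc P) <| and (Nat.beq rl.length P.E) <| and (Nat.beq P.ls.length P.nl) <|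
  and (Nat.beq P.es.length P.ne) <| and (Nat.beq P.nl As.length) <|
  and (Nat.beq P.ne Vs.length) <|
  and (As.all fun L => and (L.ok 0 1000000) (Nat.beq L.nr 0)) <|
  rlS rl fun rl => stn P.BV fun BV => and (rl.all (agN P)) <|
  cmpL tp As fun cs => and (zipA (colL BV rl) cs P.ls) (zipA (colE BV rl) Vs P.es)

/-- **the final check** -/
def finF (P : PR) (tp : TP) (As : List LT) (Vs : List VT) (rl : List (List RN)) (A w a : ℕ)
    (Wn : List ℕ) : Bool :=
  agF P tp As Vs rl && (Nat.ble A 4194304 && (Nat.ble a 1000000000000000000000000000000 &&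
    (Nat.beq Wn.length (Nat.mul P.E P.V) && chW a w Wn)))

theorem allI_of {α : Type} {f : ℕ → α → Bool} {z : α} : ∀ {L : List α} {n : ℕ},
    (∀ i < L.length, f (n + i) (L.getD i z) = true) → allI f n L = true
  | [], _, _ => rfl
  | a :: L, n, h => by
    rw [allI, Bool.and_eq_true]
    refine ⟨?_, allI_of (z := z) fun i hi => ?_⟩
    · have := h 0 (by simp)
      simpa using this
    · have h2 := h (i + 1) (by simpa using hi)
      have e : n + (i + 1) = Nat.succ n + i := by omega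
      rw [e] at h2
      simpa using h2

section
variable {P : PR} {tp : TP} {As : List LT} {Vs : List VT} {rl : List (List RN)}

theorem agF_iff (h : agF P tp As Vs rl = true) :
    (agc P = true ∧ rl.length = P.E ∧ P.ls.length = P.nl ∧ P.es.length = P.ne ∧
      P.nl = As.length ∧ P.ne = Vs.length) ∧
    (∀ L ∈ As, L.ok 0 1000000 = true ∧ L.nr = 0) ∧ (∀ rs ∈ rl, agN P rs = true) ∧
    zipA (colL P.BV rl) (As.map (cmp tp)) P.ls = true ∧ zipA (colE P.BV rl) Vs P.es = true := by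
  unfold agF at h
  rw [rlS_eq, stn_eq, cmpL_eq] at h
  simp only [Bool.and_eq_true, Nat.beq_eq, List.all_eq_true] at h
  obtain ⟨h1, h2, h3, h4, h5, h6, h7, h8, h9, h10⟩ := h
  exact ⟨⟨h1, h2, h3, h4, h5, h6⟩, h7, h8, h9, h10⟩

/-- **agreement** -/
theorem agk_of (h : agF P tp As Vs rl = true) : agk P (mkR tp As Vs rl) = true := by
  obtain ⟨⟨h1, h2, h3, h4, h5, h6⟩, h7, h8, h9, h10⟩ := agF_iff h
  have l9 := fun i hi => zipA_get (cmp tp lt0) zPL h9 i hi
  have l10 := fun i hi => zipA_get vt0 zPE h10 i hi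
  have cL : ∀ c ∈ As.map (cmp tp), ∀ rs ∈ rl, ∀ r ∈ rs,
      (fDk c r < 16777216 ∧ fDj c r < 16777216 ∧ fDl c r < 16777216) ∧
      (fXk c r < 16777216 ∧ fXj c r < 16777216 ∧ fXl c r < 16777216) := by
    intro c hc rs hrs r hr
    obtain ⟨i, hi, e⟩ := List.mem_iff_getElem.1 hc
    have := l9 i hi
    rw [List.getD_eq_getElem _ _ hi, e] at this
    unfold colL at this
    simp only [Bool.and_eq_true] at this
    obtain ⟨a1, a2, a3, a4, a5, a6⟩ := this
    exact ⟨⟨(col_iff a1).1 rs hrs r hr, (col_iff a2).1 rs hrs r hr, (col_iff a3).1 rs hrs r hr⟩,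
      (col_iff a4).1 rs hrs r hr, (col_iff a5).1 rs hrs r hr, (col_iff a6).1 rs hrs r hr⟩
  have cE : ∀ V ∈ Vs, ∀ rs ∈ rl, ∀ r ∈ rs,
      fE V.k r < 16777216 ∧ fE V.j r < 16777216 ∧ fE V.l r < 16777216 := by
    intro V hV rs hrs r hr
    obtain ⟨i, hi, e⟩ := List.mem_iff_getElem.1 hV
    have := l10 i hi
    rw [List.getD_eq_getElem _ _ hi, e] at this
    unfold colE at this
    simp only [Bool.and_eq_true] at this
    obtain ⟨a1, a2, a3⟩ := this
    exact ⟨(col_iff a1).1 rs hrs r hr, (col_iff a2).1 rs hrs r hr, (col_iff a3).1 rs hrs r hr⟩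
  have b3 : ∀ {p : P3}, p.k < 16777216 ∧ p.j < 16777216 ∧ p.l < 16777216 → r3 p = true := by
    intro p hp
    unfold r3
    simp only [Bool.and_eq_true, Nat.blt_eq]
    exact hp
  unfold agk
  simp only [Bool.and_eq_true, Nat.beq_eq, List.all_eq_true]
  refine ⟨⟨⟨⟨⟨⟨h1, ?_⟩, h3⟩, h4⟩, ?_⟩, ?_⟩, ?_⟩
  · unfold mkR
    rw [List.length_map]
    exact h2
  · intro R hR
    unfold mkR at hR
    obtain ⟨rs, hrs, rfl⟩ := List.mem_map.1 hR
    have k := h8 rs hrs
    unfold agN at k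
    simp only [Bool.and_eq_true, Nat.beq_eq, List.all_eq_true, Nat.ble_eq] at k
    obtain ⟨k1, k2, k3, k4, k5, k6, k7, k8, k9, k10⟩ := k
    unfold agm
    simp only [Bool.and_eq_true, Nat.beq_eq, List.all_eq_true]
    refine ⟨⟨⟨⟨⟨?_, ?_⟩, ?_⟩, ?_⟩, ?_⟩, ?_⟩
    · rw [List.length_map]
      exact k1
    · intro R' hR'
      obtain ⟨r, hr, rfl⟩ := List.mem_map.1 hR'
      unfold agr mkRow
      simp only [Bool.and_eq_true, Nat.ble_eq, List.all_eq_true, List.length_map]
      refine ⟨⟨⟨⟨⟨⟨?_, ?_⟩, k6 r hr⟩, h5.ge⟩, h6.ge⟩, ?_⟩, ?_⟩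
      · exact b3 ⟨alF_iff k2 r hr, alF_iff k3 r hr, alF_iff k4 r hr⟩
      · exact (alF_iff k5 r hr).le
      · intro d hd
        obtain ⟨cc, hcc, rfl⟩ := List.mem_map.1 hd
        obtain ⟨q1, q2⟩ := cL cc hcc rs hrs r hr
        exact ⟨b3 q1, b3 q2⟩
      · intro d hd
        obtain ⟨V, hV, rfl⟩ := List.mem_map.1 hd
        exact b3 (cE V hV rs hrs r hr)
    · rw [pkF_eq]
      exact k7
    · rw [pkF_eq]
      exact k8
    · rw [pkF_eq]
      exact k9
    · rw [pkF_eq]
      exact k10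
  · refine allI_of (z := zPL) fun i hi => ?_
    have hi' : i < (As.map (cmp tp)).length := by
      rw [List.length_map, ← h5, ← h3]
      exact hi
    have k := l9 i hi'
    unfold colL at k
    simp only [Bool.and_eq_true] at k
    obtain ⟨a1, a2, a3, a4, a5, a6⟩ := k
    unfold agl mkR
    simp only [Bool.and_eq_true, Nat.beq_eq, Nat.zero_add]
    have g : ∀ (r : RN), (mkRow (As.map (cmp tp)) Vs r).ls.getD i zL =
        mkLd r ((As.map (cmp tp)).getD i (cmp tp lt0)) := fun r =>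
      getD_map_lt (mkLd r) hi' _ _
    refine ⟨⟨⟨⟨⟨?_, ?_⟩, ?_⟩, ?_⟩, ?_⟩, ?_⟩
    · rw [pmF_eq, ← (col_iff a1).2]
      exact pmF_congr (fun r => by rw [g]; rfl) _
    · rw [pmF_eq, ← (col_iff a2).2]
      exact pmF_congr (fun r => by rw [g]; rfl) _
    · rw [pmF_eq, ← (col_iff a3).2]
      exact pmF_congr (fun r => by rw [g]; rfl) _
    · rw [pmF_eq, ← (col_iff a4).2]
      exact pmF_congr (fun r => by rw [g]; rfl) _
    · rw [pmF_eq, ← (col_iff a5).2]
      exact pmF_congr (fun r => by rw [g]; rfl) _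
    · rw [pmF_eq, ← (col_iff a6).2]
      exact pmF_congr (fun r => by rw [g]; rfl) _
  · refine allI_of (z := zPE) fun i hi => ?_
    have hi' : i < Vs.length := by
      rw [← h6, ← h4]
      exact hi
    have k := l10 i hi'
    unfold colE at k
    simp only [Bool.and_eq_true] at k
    obtain ⟨a1, a2, a3⟩ := k
    unfold age mkR
    simp only [Bool.and_eq_true, Nat.beq_eq, Nat.zero_add]
    have g : ∀ (r : RN), (mkRow (As.map (cmp tp)) Vs r).es.getD i z3 =
        mkE r (Vs.getD i vt0) := fun r => getD_map_lt (mkE r) hi' _ _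
    refine ⟨⟨?_, ?_⟩, ?_⟩
    · rw [pmF_eq, ← (col_iff a1).2]
      exact pmF_congr (fun r => by rw [g]; rfl) _
    · rw [pmF_eq, ← (col_iff a2).2]
      exact pmF_congr (fun r => by rw [g]; rfl) _
    · rw [pmF_eq, ← (col_iff a3).2]
      exact pmF_congr (fun r => by rw [g]; rfl) _

variable {A w a : ℕ} {Wn : List ℕ}

/-- **the final check of rule R10** -/
theorem finB_of (h : finF P tp As Vs rl A w a Wn = true) :
    finB P (mkR tp As Vs rl) A w a Wn = true := by
  unfold finF at h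
  rw [Bool.and_eq_true] at h
  unfold finB
  rw [Bool.and_eq_true]
  exact ⟨agk_of h.1, h.2⟩

/-- **the check of every member** -/
theorem tabR (h : finF P tp As Vs rl A w a Wn = true) {A' c0 c1 hh : ℕ} {T : Tr} (e : ℕ) :
    tck tp As Vs 0 1000000 (rl.getD e []) (QQ P (mkR tp As Vs rl) A' c0 c1 hh T e) = true := by
  unfold finF at h
  rw [Bool.and_eq_true] at h
  obtain ⟨⟨-, h2, -, -, h5, h6⟩, h7, -, -, -⟩ := agF_iff h.1
  unfold tck
  simp only [Bool.and_eq_true, List.all_eq_true, List.mem_range, Nat.ble_eq]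
  refine ⟨⟨⟨⟨⟨fun L hL => (h7 L hL).1, ?_⟩, ?_⟩, ?_⟩, ?_⟩, fun i hi => ?_⟩
  · exact h5.le
  · exact h6.le
  · exact Nat.zero_le _
  · exact le_rfl
  · have hi' : i < ((mkR tp As Vs rl).getD e []).length := hi
    have he : e < rl.length := by
      by_contra hc
      rw [List.getD_eq_default _ _ (by
        unfold mkR
        rw [List.length_map]
        exact Nat.le_of_not_lt hc)] at hi'
      exact absurd hi' (Nat.not_lt_zero _)
    have e1 : (mkR tp As Vs rl).getD e [] =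
        (rl.getD e []).map (mkRow (As.map (cmp tp)) Vs) := by
      unfold mkR
      exact getD_map_lt _ he [] []
    rw [e1, List.length_map] at hi'
    show rowck tp As Vs P.nl P.ne _ (((mkR tp As Vs rl).getD e []).getD i zR) = true
    rw [e1, getD_map_lt _ hi' rn0, h5, h6]
    exact rowck_mk (fun L hL => (h7 L hL).2) _

end

end Helper99.MEI
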