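import Pool.Agent.Helper99.MEI.MassF

/-!
# Project MEI (M2), w-term: the parts of the certificate as loads of their own

`PV v e c r` = nodes `Σ xx_k v_k`, apex `lam alP e`, arcs `Σ ash_l c_l`, residual arcs `Σ ast_l r_l`
(weights of `face_KSM`). `GM = -C + PV V (s0 - ζ.R) (E - M.R) (E + M.S)` (`GM_PV`), `DXk κ = PV (κ nc) ..`
(`DXk_PV`); `PV_price`: upper bound by a price vector. Loads valid on the body:
* `inst_T`: the nodes, with the shares `θZ` of the apex and `θA` of the arcs;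
* `inst_Z`: the apex and the share `θA` of the arcs, no nodes.
-/

set_option autoImplicit false

namespace Helper99.MEI

open Set Metric MeasureTheory Helper80.CW Helper82.CW Helper14.CW Helper93.MEI Helper78.MEI
open Helper82.M2 Helper14.MEI2 Pool.Agent.Helper52.MEI Pool.Agent.Helper73.MEI Helper41.MEI
open Helper37.MEI
open Pool.Agent.Helper55.Sx (Sim)
open Pool.Agent.Helper55.Mass (LN LN_nonneg vv vv_nonneg vv_le Id)
open Pool.Agent.Helper55.Apex (nc vt_vv)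
open Pool.Agent.Helper55.ApexP (PN alP alP_nonneg alP_zeta alP_le xx_mu mu_bal)
open Pool.Agent.Helper55.Fill (xx rr rr_nonneg xx_nonneg xx_le xx_feas)
open Pool.Agent.Helper73.MEI.SideP (flP flP_nonneg flP_zero flP_pair)
open Pool.Agent.Helper96.Kap (kap kap_nonneg kap_add)
open Pool.Agent.Helper31.SR
open Helper75.MEI2 (mu vt)
open scoped RealInnerProductSpace ENNReal

/-- weight of the arcs on the share -/
noncomputable def aw (A' : ℝ) (N : Fin 3 → Fin 3 → ℝ) (φ : ℝ) (β : Fin 3 → ℝ) (p : Fin 3)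
    (t : ℝ × ℝ) : ℝ :=
  ash (fun p t => φ * flP (PN N) p t) (fun p => Id (fun t => φ * flP (PN N) p t)) β A' p t

/-- weight of the arcs in the strips -/
noncomputable def gw (A' : ℝ) (N : Fin 3 → Fin 3 → ℝ) (β : Fin 3 → ℝ) (p : Fin 3)
    (t : ℝ × ℝ) : ℝ :=
  ast (fun p t => kap N (vv t) p) (fun p => Id (fun t => kap N (vv t) p)) β A' p t

/-- values `v` of the nodes, `e` of the apex, `c` of the arcs, `r` of the residual arcs -/
noncomputable def PV (A' : ℝ) (N : Fin 3 → Fin 3 → ℝ) (ζp : Fin 3 → ℝ) (lam φ : ℝ)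
    (β : Fin 3 → ℝ) (v : Fin 3 → ℝ) (e : ℝ) (c r : Fin 3 → ℝ) (t : ℝ × ℝ) : ℝ :=
  (xx N (vv t) 0 * v 0 + xx N (vv t) 1 * v 1 + xx N (vv t) 2 * v 2) + lam * alP N ζp t * e
    + (aw A' N φ β 0 t * c 0 + aw A' N φ β 1 t * c 1 + aw A' N φ β 2 t * c 2)
    + (gw A' N β 0 t * r 0 + gw A' N β 1 t * r 1 + gw A' N β 2 t * r 2)

theorem PV_sub (A' : ℝ) (N : Fin 3 → Fin 3 → ℝ) (ζp : Fin 3 → ℝ) (lam φ : ℝ)
    (β : Fin 3 → ℝ) (v v' : Fin 3 → ℝ) (e e' : ℝ) (c c' r r' : Fin 3 → ℝ) (t : ℝ × ℝ) :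
    PV A' N ζp lam φ β v e c r t - PV A' N ζp lam φ β v' e' c' r' t =
      PV A' N ζp lam φ β (fun k => v k - v' k) (e - e') (fun k => c k - c' k)
        (fun k => r k - r' k) t := by
  unfold PV
  ring

theorem PV_add (A' : ℝ) (N : Fin 3 → Fin 3 → ℝ) (ζp : Fin 3 → ℝ) (lam φ : ℝ)
    (β : Fin 3 → ℝ) (v v' : Fin 3 → ℝ) (e e' : ℝ) (c c' r r' : Fin 3 → ℝ) (t : ℝ × ℝ) :
    PV A' N ζp lam φ β v e c r t + PV A' N ζp lam φ β v' e' c' r' t =
      PV A' N ζp lam φ β (fun k => v k + v' k) (e + e') (fun k => c k + c' k)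
        (fun k => r k + r' k) t := by
  unfold PV
  ring

/-- **the value** -/
theorem GM_PV (A' : ℝ) (N : Fin 3 → Fin 3 → ℝ) (ζ ζp : Fin 3 → ℝ) (lam φ : ℝ)
    (β : Fin 3 → ℝ) (M : Fin 3 → Fin 3 → ℝ) (E R S : Fin 3 → ℝ) (s0 : ℝ) (t : ℝ × ℝ) :
    GM A' N ζ ζp lam (fun p t => φ * flP (PN N) p t) (fun p t => kap N (vv t) p) β M E R S s0 t =
      -(T3 t 0 * S 0 + T3 t 1 * S 1 + T3 t 2 * S 2)
      + PV A' N ζp lam φ β (fun k => R k + PT N S k) (s0 - (ζ 0 * R 0 + ζ 1 * R 1 + ζ 2 * R 2))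
        (fun l => E l - (M l 0 * R 0 + M l 1 * R 1 + M l 2 * R 2))
        (fun l => E l + (M l 0 * S 0 + M l 1 * S 1 + M l 2 * S 2)) t := by
  rw [GM_eq]
  unfold PV PT aw gw
  simp only [Fin.sum_univ_three]
  ring

/-- **the deficit** -/
theorem DXk_PV (κ A' : ℝ) (N : Fin 3 → Fin 3 → ℝ) (ζ ζp : Fin 3 → ℝ) (lam φ : ℝ)
    (β : Fin 3 → ℝ) (M : Fin 3 → Fin 3 → ℝ) (sm : Fin 3 → ℝ) (t : ℝ × ℝ) :
    DXk κ A' N ζ ζp lam (fun p t => φ * flP (PN N) p t) (fun p t => kap N (vv t) p) β M sm t =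
      PV A' N ζp lam φ β (fun k => κ * nc N k) ((∑ k, (ζ k + (1 - κ) * LN N ζ k)) - 1)
        (fun l => (∑ k, (M l k + (1 - κ) * LN N (M l) k)) - sm l)
        (fun l => (M l 0 + M l 1 + M l 2) - sm l) t := by
  unfold DXk PV aw gw
  simp only [Fin.sum_univ_three]

/-- the same with the shares `θZ` of the apex and `θA` of the arcs -/
theorem Gg_PV (A' : ℝ) (N : Fin 3 → Fin 3 → ℝ) (ζ ζp : Fin 3 → ℝ) (lam φ θZ θA : ℝ)
    (β : Fin 3 → ℝ) (M : Fin 3 → Fin 3 → ℝ) (E R S : Fin 3 → ℝ) (s0 : ℝ) (t : ℝ × ℝ) :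
    Gg N (fun _ : Unit => fun t => θZ * (lam * alP N ζp t)) (fun _ => ζ) (fun _ => s0)
      (fun p t => θA * ash (fun p t => φ * flP (PN N) p t)
        (fun p => Id (fun t => φ * flP (PN N) p t)) β A' p t)
      (fun p t => θA * ast (fun p t => kap N (vv t) p)
        (fun p => Id (fun t => kap N (vv t) p)) β A' p t) M E R S t =
      -(T3 t 0 * S 0 + T3 t 1 * S 1 + T3 t 2 * S 2)
      + PV A' N ζp lam φ β (fun k => R k + PT N S k)
        (θZ * (s0 - (ζ 0 * R 0 + ζ 1 * R 1 + ζ 2 * R 2)))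
        (fun l => θA * (E l - (M l 0 * R 0 + M l 1 * R 1 + M l 2 * R 2)))
        (fun l => θA * (E l + (M l 0 * S 0 + M l 1 * S 1 + M l 2 * S 2))) t := by
  unfold Gg rr PV PT LN
  rw [T3_vv, T3_vv, T3_vv]
  simp only [Finset.univ_unique, Finset.sum_singleton, Fin.sum_univ_three]
  unfold aw gw
  ring

/-- the free part of the nodes with shares -/
noncomputable def Xt (A' : ℝ) (N : Fin 3 → Fin 3 → ℝ) (ζ ζp : Fin 3 → ℝ) (lam φ θZ θA : ℝ)
    (β : Fin 3 → ℝ) (M : Fin 3 → Fin 3 → ℝ) (t : ℝ × ℝ) (k : Fin 3) : ℝ :=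
  xx N (vv t) k - (θZ * (lam * alP N ζp t) * ζ k
    + (θA * aw A' N φ β 0 t * M 0 k + θA * aw A' N φ β 1 t * M 1 k
      + θA * aw A' N φ β 2 t * M 2 k))

theorem Gg_R (A' : ℝ) (N : Fin 3 → Fin 3 → ℝ) (ζ ζp : Fin 3 → ℝ) (lam φ θZ θA : ℝ)
    (β : Fin 3 → ℝ) (M : Fin 3 → Fin 3 → ℝ) (E R S n : Fin 3 → ℝ) (s0 P : ℝ) (t : ℝ × ℝ) :
    Gg N (fun _ : Unit => fun t => θZ * (lam * alP N ζp t)) (fun _ => ζ) (fun _ => s0)
      (fun p t => θA * ash (fun p t => φ * flP (PN N) p t)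
        (fun p => Id (fun t => φ * flP (PN N) p t)) β A' p t)
      (fun p t => θA * ast (fun p t => kap N (vv t) p)
        (fun p => Id (fun t => kap N (vv t) p)) β A' p t) M E (fun j => R j + n j * P) S t =
    Gg N (fun _ : Unit => fun t => θZ * (lam * alP N ζp t)) (fun _ => ζ) (fun _ => s0)
      (fun p t => θA * ash (fun p t => φ * flP (PN N) p t)
        (fun p => Id (fun t => φ * flP (PN N) p t)) β A' p t)
      (fun p t => θA * ast (fun p t => kap N (vv t) p)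
        (fun p => Id (fun t => kap N (vv t) p)) β A' p t) M E R S t
      + (Xt A' N ζ ζp lam φ θZ θA β M t 0 * n 0 + Xt A' N ζ ζp lam φ θZ θA β M t 1 * n 1
        + Xt A' N ζ ζp lam φ θZ θA β M t 2 * n 2) * P := by
  unfold Gg Xt aw
  simp only [Finset.univ_unique, Finset.sum_singleton, Fin.sum_univ_three]
  ring

theorem Dg_PV (κ A' : ℝ) (N : Fin 3 → Fin 3 → ℝ) (ζ ζp : Fin 3 → ℝ) (lam φ θZ θA : ℝ)
    (β : Fin 3 → ℝ) (M : Fin 3 → Fin 3 → ℝ) (μ sm : Fin 3 → ℝ) (t : ℝ × ℝ) :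
    Dg N (fun _ : Unit => fun t => θZ * (lam * alP N ζp t)) (fun _ => ζ) μ (fun _ => 1)
      (fun p t => θA * ash (fun p t => φ * flP (PN N) p t)
        (fun p => Id (fun t => φ * flP (PN N) p t)) β A' p t)
      (fun p t => θA * ast (fun p t => kap N (vv t) p)
        (fun p => Id (fun t => kap N (vv t) p)) β A' p t) M sm t =
      PV A' N ζp lam φ β (fun k => κ * nc N k)
        (θZ * ((∑ k, (ζ k + (1 - κ) * LN N ζ k)) - 1))
        (fun p => θA * ((∑ k, (M p k + (1 - κ) * LN N (M p) k)) - sm p))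
        (fun p => θA * ((M p 0 + M p 1 + M p 2) - sm p)) t
      + (Xt A' N ζ ζp lam φ θZ θA β M t 0 * (1 + nc N 0 - μ 0 - κ * nc N 0)
        + Xt A' N ζ ζp lam φ θZ θA β M t 1 * (1 + nc N 1 - μ 1 - κ * nc N 1)
        + Xt A' N ζ ζp lam φ θZ θA β M t 2 * (1 + nc N 2 - μ 2 - κ * nc N 2)) := by
  unfold Dg PV Xt
  simp only [Finset.univ_unique, Finset.sum_singleton, Fin.sum_univ_three]
  unfold aw gw LN nc
  ring

/-- **the parts by a price vector** -/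
theorem PV_price {N : Fin 3 → Fin 3 → ℝ} (hN : ∀ k m, 0 ≤ N k m) (hd : ∀ k, N k k = 0) {c0 : ℝ}
    (hc : c0 < 1) (hcol : ∀ m, nc N m ≤ c0) {A' φ lam : ℝ} (hA' : 0 < A') (hφ : 0 < φ)
    (hl0 : 0 ≤ lam) (hl1 : lam ≤ 1 - φ) {ζp : Fin 3 → ℝ} (hζp : ∀ k, 0 < ζp k)
    {β ρ : Fin 3 → ℝ} (hβ0 : ∀ p, 0 ≤ β p) (hβ1 : ∀ p, β p ≤ 1)
    (hK : ∀ p, β p * ρ p ≤ A' * Id (fun t => kap N (vv t) p))
    (hF : ∀ p, (1 - β p) * ρ p ≤ φ * (A' * Id (flP (PN N) p)))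
    {δ v c r γ γ' : Fin 3 → ℝ} {e : ℝ} (hδ : ∀ k, 0 ≤ δ k) (hv : ∀ k, v k ≤ PT N δ k)
    (he : lam = 0 ∨ e ≤ ζp 0 * (PT N δ 0 - v 0) + ζp 1 * (PT N δ 1 - v 1) +
        ζp 2 * (PT N δ 2 - v 2))
    (hγ0 : ∀ l, 0 ≤ γ l) (hc' : ∀ l, c l ≤ γ l * ρ l)
    (hγ : ∀ l, γ l ≤ S2 (fun k => PT N δ k - v k) l)
    (hγ0' : ∀ l, 0 ≤ γ' l)
    (hr' : ∀ l, β l = 0 ∨ (r l ≤ γ' l * ρ l ∧ γ' l ≤ S2 δ l))
    {t : ℝ × ℝ} (ht : t ∈ Sim) :
    PV A' N ζp lam φ β v e c r t ≤ δ 0 * vv t 0 + δ 1 * vv t 1 + δ 2 * vv t 2 := by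
  exact price_core (N := N) (b := vv t) (A := lam * alP N ζp t)
    (F := fun p => φ * flP (PN N) p t) (Kp := fun p => kap N (vv t) p)
    (α := fun p => aw A' N φ β p t) (g := fun p => gw A' N β p t) (ρ := ρ) (ζp := ζp) (δ := δ)
    (v := v) (e := e) (c := c) (γ := γ) (r := r) (γ' := γ')
    (mul_nonneg hl0 (alP_nonneg (N := N) hζp t))
    (fun p => mul_nonneg hφ.le (flP_nonneg p t))
    (fun p => kap_nonneg hN hc hcol (fun k => vv_nonneg ht k) p)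
    (fun p => ash0 hN hd hc hcol hφ hA' hβ1 t p)
    (fun p => ast0 hN hc hcol hA' hβ0 ht p)
    (fun p => ash_room hN hd hc hcol hφ hA' hF t p)
    (fun p => ast_room hN hc hcol hA' hK ht p)
    (fun k => room hN hd hc hcol hφ hl0 hl1 hζp ht k)
    (fun k => kap_S2 hN hc hcol ht k) hδ hv
    (by
      rcases he with h | h
      · left
        rw [h, zero_mul]
      · exact Or.inr h) hγ0 hc' hγ hγ0'
    (fun l => by
      rcases hr' l with h | h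
      · left
        show gw A' N β l t = 0
        unfold gw ast
        rw [h, zero_mul]
      · exact Or.inr h.1)
    (fun l => by
      rcases hr' l with h | h
      · left
        show gw A' N β l t = 0
        unfold gw ast
        rw [h, zero_mul]
      · exact Or.inr h.2)

section body
variable {a : Fin 4 → E3} {σ : Measure (E3 × E3)} {K : Set E3} {S : Fin 4 → ℝ}
  {c : Fin 4 → E3} {z : Fin 4 → Fin 4 → E3} {l : Fin 3 → Bool → Bool → E3 × E3 → ℝ}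

/-- **the nodes with the shares `θZ` of the apex and `θA` of the arcs** -/
theorem inst_T [IsFiniteMeasure σ] (h : CN K σ a c) (v : Viol K a S) (hz : CV a K z)
    (τ : Equiv.Perm (Fin 4)) {A' : ℝ} (hA' : 0 < A') (hl : Lok a l)
    {δ dE dm : Fin 3 → ℝ} (hδ : ∀ p, MA σ a l τ p p ≤ δ p) (hdE : ∀ p, 0 ≤ dE p)
    (hdm : ∀ p, 0 ≤ dm p) (hdd : ∀ p, δ p ^ 2 ≤ dE p * dm p)
    {ρ β : Fin 3 → ℝ} (hρ : ∀ p, 0 < ρ p)
    (hMρ : ∀ p k, k ≠ p → MA σ a l τ p k ≤ ρ p)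
    {x : E3} (hx : x ∈ K)
    {N : Fin 3 → Fin 3 → ℝ} (hNd : N = NM (fun i => a (τ i)) (fun i j => z (τ i) (τ j)))
    {R : Fin 3 → ℝ} (hRd : R = RM (fun i => a (τ i)) (fun i j => z (τ i) (τ j)))
    {ζ ζp : Fin 3 → ℝ} (hζd : ζ = zc (fun i => a (τ i)) N x) (hζp : ∀ k, 0 < ζp k)
    (hζ : ∀ k, ζ k ≤ ζp k)
    {φ lam : ℝ} (hφ : 0 < φ) (hl0 : 0 ≤ lam) (hl1 : lam ≤ 1 - φ)
    (hβ0 : ∀ p, 0 ≤ β p) (hβ1 : ∀ p, β p ≤ 1)
    (hK : ∀ p, β p * ρ p ≤ A' * Id (fun t => kap N (vv t) p))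
    (hF : ∀ p, (1 - β p) * ρ p ≤ φ * (A' * Id (flP (PN N) p)))
    {θZ θA : ℝ} (hZ0 : 0 ≤ θZ) (hZ1 : θZ ≤ 1) (hA0 : 0 ≤ θA) (hA1 : θA ≤ 1)
    {V : ℝ} (hV : ∀ k : Fin 3, S (τ k.succ) ≤ V) {t : ℝ × ℝ} (ht : t ∈ Sim)
    {q : E3} (hq : q ∈ K) {κ : ℝ}
    (hκ : wx V (‖a (τ 0) - q‖ ^ 2) ≤ 3 * (κ - 1 / 2) * ‖a (τ 0) - q‖ ^ 2) :
    (-(T3 t 0 * S (τ 1) + T3 t 1 * S (τ 2) + T3 t 2 * S (τ 3))
      + PV A' N ζp lam φ β (fun k => R k + PT N (fun k => S (τ k.succ)) k)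
        (θZ * (Qv a (τ 0) x - (ζ 0 * R 0 + ζ 1 * R 1 + ζ 2 * R 2)))
        (fun p => θA * ((aE σ a l (τ 0) (τ p.succ) - dE p) - (MB σ a l τ p 0 * R 0
          + MB σ a l τ p 1 * R 1 + MB σ a l τ p 2 * R 2)))
        (fun p => θA * ((aE σ a l (τ 0) (τ p.succ) - dE p) + (MB σ a l τ p 0 * S (τ 1)
          + MB σ a l τ p 1 * S (τ 2) + MB σ a l τ p 2 * S (τ 3)))) t)
      + (1 - PV A' N ζp lam φ β (fun k => κ * nc N k)
        (θZ * ((∑ k, (ζ k + (1 - κ) * LN N ζ k)) - 1))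
        (fun p => θA * ((∑ k, (MB σ a l τ p k + (1 - κ) * LN N (MB σ a l τ p) k))
          - (am σ a l (τ 0) (τ p.succ) - dm p)))
        (fun p => θA * ((MB σ a l τ p 0 + MB σ a l τ p 1 + MB σ a l τ p 2)
          - (am σ a l (τ 0) (τ p.succ) - dm p))) t) * ‖a (τ 0) - q‖ ^ 2 ≤
      Yt (fun i => a (τ i)) t q := by
  have h' := h.perm τ
  have v' := viol_perm v τ
  have hz' := hz.perm τ
  have hN : ∀ k m, 0 ≤ N k m := fun k m => by
    rw [hNd]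
    exact NM_nonneg h' v' hz' k m
  have hd : ∀ k, N k k = 0 := fun k => by
    rw [hNd]
    exact NM_diag k
  have hcol : ∀ m, nc N m ≤ 9 / 10 := fun m => by
    rw [hNd]
    exact nc_le h' v' hz' m
  have hc : (9 / 10 : ℝ) < 1 := by norm_num
  have hgr := gram_of_dist h'.ha
  have hb : ∀ k, b3 (fun i => a (τ i)) x k ≤ ζ k + LN N ζ k := fun k => by
    rw [hζd]
    exact (mu_bal hN hd hc hcol (b3 (fun i => a (τ i)) x) k).ge
  have hM0 : ∀ l' k, 0 ≤ MB σ a l τ l' k := fun l' k => MB_nonneg τ l' k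
  have hMl : ∀ p, MB σ a l τ p p = 0 := fun p => MB_diag τ p
  have hM : ∀ p k, k ≠ p → MB σ a l τ p k ≤ ρ p := fun p k hk => by
    unfold MB
    rw [if_neg hk]
    exact hMρ p k hk
  have hMB : ∀ p k, MB σ a l τ p k ≤ ρ p := fun p k => by
    by_cases e : k = p
    · rw [e, hMl]
      exact (hρ p).le
    · exact hM p k e
  have hn := ng_facts hz' h' v'
  have hal0 := mul_nonneg hl0 (alP_nonneg (N := N) hζp t)
  have ha0 := fun p => ash0 hN hd hc hcol hφ hA' hβ1 t p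
  have hg0 := fun p => ast0 hN hc hcol hA' hβ0 ht p
  -- arcs inside
  have h3 : ∀ p k, θA * ash (fun p t => φ * flP (PN N) p t)
      (fun p => Id (fun t => φ * flP (PN N) p t)) β A' p t * MB σ a l τ p k ≤
      if p = k then 0 else φ * flP (PN N) p t := by
    intro p k
    by_cases e : p = k
    · rw [e, hMl, if_pos rfl, mul_zero]
    · rw [if_neg e]
      have k1 := mul_le_mul_of_nonneg_left (hM p k (Ne.symm e)) (ha0 p)
      have k2 := k1.trans (ash_room hN hd hc hcol hφ hA' hF t p)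
      have k3 := mul_nonneg (ha0 p) (hM0 p k)
      have k4 := mul_le_mul_of_nonneg_right hA1 k3
      linarith
  have h4 : ∀ k : Fin 3, (if (0 : Fin 3) = k then 0 else φ * flP (PN N) 0 t)
      + (if (1 : Fin 3) = k then 0 else φ * flP (PN N) 1 t)
      + (if (2 : Fin 3) = k then 0 else φ * flP (PN N) 2 t) =
      S2 (fun p => φ * flP (PN N) p t) k := by
    intro k
    unfold S2
    fin_cases k <;> simp <;> ring
  have hX : ∀ k, 0 ≤ xx N (vv t) k - (θZ * (lam * alP N ζp t) * ζ k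
      + ∑ p, θA * ash (fun p t => φ * flP (PN N) p t)
      (fun p => Id (fun t => φ * flP (PN N) p t)) β A' p t * MB σ a l τ p k) := by
    intro k
    have k1 := room hN hd hc hcol hφ hl0 hl1 hζp ht k
    have k2 := mul_le_mul_of_nonneg_left (hζ k) (mul_nonneg hZ0 hal0)
    have k3 := mul_le_mul_of_nonneg_right hZ1 (mul_nonneg hal0 (hζp k).le)
    have a0 := h3 0 k
    have a1 := h3 1 k
    have a2 := h3 2 k
    have a3 := h4 k
    rw [Fin.sum_univ_three]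
    linarith
  obtain ⟨w, hw⟩ : ∃ w, w = ‖a (τ 0) - q‖ ^ 2 := ⟨_, rfl⟩
  have hw0 : 0 ≤ w := by rw [hw]; exact sq_nonneg _
  obtain ⟨n, hnd⟩ : ∃ n : Fin 3 → ℝ,
      n = ng (fun i => a (τ i)) (fun i j => z (τ i) (τ j)) := ⟨_, rfl⟩
  have n1 : ∀ j, 0 ≤ n j := fun j => by rw [hnd]; exact (hn j).1
  have n2 : ∀ j, n j ≤ nc N j / 3 := fun j => by rw [hnd, hNd]; exact (hn j).2.1
  have n3 : ∀ j, 1 + nc N j - 1 / qM (fun i => a (τ i)) (fun i j => z (τ i) (τ j)) j =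
      (nc N j + n j) / 2 := fun j => by rw [hnd, hNd]; exact (hn j).2.2
  have key := gen_Yt (ι := Unit) (a := fun i => a (τ i))
    (al := fun _ t => θZ * (lam * alP N ζp t))
    (ζ := fun _ => ζ) (L := fun _ => Qv a (τ 0) x) (μx := fun _ => 1)
    (R := fun j => R j + n j * pp (w - V)) (S := fun k => S (τ k.succ))
    (μ := fun j => 1 / qM (fun i => a (τ i)) (fun i j => z (τ i) (τ j)) j)
    (α := fun p t => θA * ash (fun p t => φ * flP (PN N) p t)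
      (fun p => Id (fun t => φ * flP (PN N) p t)) β A' p t)
    (g := fun p t => θA * ast (fun p t => kap N (vv t) p)
      (fun p => Id (fun t => kap N (vv t) p)) β A' p t)
    (M := MB σ a l τ) (E := fun p => aE σ a l (τ 0) (τ p.succ) - dE p)
    (sm := fun p => am σ a l (τ 0) (τ p.succ) - dm p) hgr hN (h'.hp q hq)
    (fun _ => mul_nonneg hZ0 hal0)
    (fun p => mul_nonneg hA0 (ha0 p))
    (fun p => mul_nonneg hA0 (hg0 p)) hM0
    (fun k => by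
      simp only [Finset.univ_unique, Finset.sum_singleton]
      have := hX k
      linarith)
    (fun k => by
      have k1 := ast_feas4 (κ := fun p t => kap N (vv t) p)
        (fun p t ht => kap_nonneg hN hc hcol (fun k => vv_nonneg ht k) p)
        (fun t ht k => by
          have := kap_S2 hN hc hcol ht k
          unfold S2 at this
          exact this) hA' hβ0 (fun p => Id_kap_nonneg hN hc hcol p) hK hMl hMB ht k
      have k2 : ∀ p, θA * ast (fun p t => kap N (vv t) p)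
          (fun p => Id (fun t => kap N (vv t) p)) β A' p t * MB σ a l τ p k ≤
          ast (fun p t => kap N (vv t) p)
          (fun p => Id (fun t => kap N (vv t) p)) β A' p t * MB σ a l τ p k := fun p => by
        have k3 := mul_nonneg (hg0 p) (hM0 p k)
        have k4 := mul_le_mul_of_nonneg_right hA1 k3
        linarith
      exact (Finset.sum_le_sum fun p _ => k2 p).trans k1)
    (fun j => by
      rw [hRd, hNd, hnd, hw]
      exact Pt_load_F2 hz' h' v' hq hV j)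
    (fun _ => apex_load hgr (h.hd x hx q hq) (h'.hp q hq) hb)
    (fun p => by
      have h0 := arc_load h.ha hl h.cpt h.pm.mem h.hp h.hd τ hq p
      exact load_drop2 h'.ha (h'.hp q hq) h0 (hδ p) ((MA_nonneg τ p p).trans (hδ p))
        (hdE p) (hdm p) (hdd p))
    (v.le _ q hq) (v.le _ q hq) (v.le _ q hq)
  have hX0 : ∀ k, 0 ≤ Xt A' N ζ ζp lam φ θZ θA β (MB σ a l τ) t k := fun k => by
    have k1 := hX k
    rw [Fin.sum_univ_three] at k1
    exact k1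
  rw [Gg_R, Gg_PV, Dg_PV κ] at key
  simp only [n3] at key
  have key2 : (-(T3 t 0 * S (τ 1) + T3 t 1 * S (τ 2) + T3 t 2 * S (τ 3))
      + PV A' N ζp lam φ β (fun k => R k + PT N (fun k => S (τ k.succ)) k)
        (θZ * (Qv a (τ 0) x - (ζ 0 * R 0 + ζ 1 * R 1 + ζ 2 * R 2)))
        (fun p => θA * ((aE σ a l (τ 0) (τ p.succ) - dE p) - (MB σ a l τ p 0 * R 0
          + MB σ a l τ p 1 * R 1 + MB σ a l τ p 2 * R 2)))
        (fun p => θA * ((aE σ a l (τ 0) (τ p.succ) - dE p) + (MB σ a l τ p 0 * S (τ 1)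
          + MB σ a l τ p 1 * S (τ 2) + MB σ a l τ p 2 * S (τ 3)))) t)
      + (Xt A' N ζ ζp lam φ θZ θA β (MB σ a l τ) t 0 * n 0
        + Xt A' N ζ ζp lam φ θZ θA β (MB σ a l τ) t 1 * n 1
        + Xt A' N ζ ζp lam φ θZ θA β (MB σ a l τ) t 2 * n 2) * pp (w - V)
      + (1 - (PV A' N ζp lam φ β (fun k => κ * nc N k)
        (θZ * ((∑ k, (ζ k + (1 - κ) * LN N ζ k)) - 1))
        (fun p => θA * ((∑ k, (MB σ a l τ p k + (1 - κ) * LN N (MB σ a l τ p) k))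
          - (am σ a l (τ 0) (τ p.succ) - dm p)))
        (fun p => θA * ((MB σ a l τ p 0 + MB σ a l τ p 1 + MB σ a l τ p 2)
          - (am σ a l (τ 0) (τ p.succ) - dm p))) t
        + (Xt A' N ζ ζp lam φ θZ θA β (MB σ a l τ) t 0 * ((nc N 0 + n 0) / 2 - κ * nc N 0)
          + Xt A' N ζ ζp lam φ θZ θA β (MB σ a l τ) t 1 * ((nc N 1 + n 1) / 2 - κ * nc N 1)
          + Xt A' N ζ ζp lam φ θZ θA β (MB σ a l τ) t 2 * ((nc N 2 + n 2) / 2 - κ * nc N 2))))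
        * w ≤ Yt (fun i => a (τ i)) t q := by
    rw [hw]
    rw [hw] at key
    exact key
  rw [← hw]
  have hpp : w / 2 - pp (w - V) ≤ wx V w := le_pp _
  have hbr : ∀ j, 0 ≤ n j * pp (w - V) - ((nc N j + n j) / 2 - κ * nc N j) * w := by
    intro j
    have k1 := mul_le_mul_of_nonneg_left hpp (n1 j)
    have k2 := mul_le_mul_of_nonneg_right (n2 j) (wx_nonneg V w)
    have k3 : nc N j * wx V w ≤ nc N j * (3 * (κ - 1 / 2) * w) :=
      mul_le_mul_of_nonneg_left (by rw [hw]; exact hκ) (by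
        have := n1 j
        have := n2 j
        linarith)
    linarith
  have g0 := mul_nonneg (hX0 0) (hbr 0)
  have g1 := mul_nonneg (hX0 1) (hbr 1)
  have g2 := mul_nonneg (hX0 2) (hbr 2)
  linarith

/-- columns of the apex and of the arcs -/
noncomputable def CZ (A' : ℝ) (N : Fin 3 → Fin 3 → ℝ) (ζ ζp : Fin 3 → ℝ) (lam φ θZ θA : ℝ)
    (β : Fin 3 → ℝ) (M : Fin 3 → Fin 3 → ℝ) (t : ℝ × ℝ) (k : Fin 3) : ℝ :=
  lam * alP N ζp t * (θZ * (ζ k + LN N ζ k))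
    + (aw A' N φ β 0 t * (θA * M 0 k) + aw A' N φ β 1 t * (θA * M 1 k)
      + aw A' N φ β 2 t * (θA * M 2 k))
    + (gw A' N β 0 t * (θA * M 0 k) + gw A' N β 1 t * (θA * M 1 k)
      + gw A' N β 2 t * (θA * M 2 k))

/-- **no nodes: the share `θZ` of the apex and `θA` of the arcs**, the rest by the caps -/
theorem inst_Zs [IsFiniteMeasure σ] (h : CN K σ a c) (v : Viol K a S) (hz : CV a K z)
    (τ : Equiv.Perm (Fin 4)) {A' : ℝ} (hA' : 0 < A') (hl : Lok a l)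
    {δ dE dm : Fin 3 → ℝ} (hδ : ∀ p, MA σ a l τ p p ≤ δ p) (hdE : ∀ p, 0 ≤ dE p)
    (hdm : ∀ p, 0 ≤ dm p) (hdd : ∀ p, δ p ^ 2 ≤ dE p * dm p)
    {ρ β : Fin 3 → ℝ} (hρ : ∀ p, 0 < ρ p)
    (hMρ : ∀ p k, k ≠ p → MA σ a l τ p k ≤ ρ p)
    {x : E3} (hx : x ∈ K)
    {N : Fin 3 → Fin 3 → ℝ} (hNd : N = NM (fun i => a (τ i)) (fun i j => z (τ i) (τ j)))
    {ζ ζp : Fin 3 → ℝ} (hζd : ζ = zc (fun i => a (τ i)) N x) (hζp : ∀ k, 0 < ζp k)
    (hζ : ∀ k, ζ k ≤ ζp k)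
    {φ lam : ℝ} (hφ : 0 < φ) (hl0 : 0 ≤ lam) (hl1 : lam ≤ 1 - φ)
    (hβ0 : ∀ p, 0 ≤ β p) (hβ1 : ∀ p, β p ≤ 1)
    (hK : ∀ p, β p * ρ p ≤ A' * Id (fun t => kap N (vv t) p))
    (hF : ∀ p, (1 - β p) * ρ p ≤ φ * (A' * Id (flP (PN N) p)))
    {θZ θA : ℝ} (hZ0 : 0 ≤ θZ) (hZ1 : θZ ≤ 1) (hA0 : 0 ≤ θA) (hA1 : θA ≤ 1)
    {t : ℝ × ℝ} (ht : t ∈ Sim) {q : E3} (hq : q ∈ K) :
    (∀ k, CZ A' N ζ ζp lam φ θZ θA β (MB σ a l τ) t k ≤ T3 t k) ∧
    PV A' N ζp lam φ β (fun _ => 0) (θZ * Qv a (τ 0) x)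
        (fun p => θA * (aE σ a l (τ 0) (τ p.succ) - dE p))
        (fun p => θA * (aE σ a l (τ 0) (τ p.succ) - dE p)) t
      + PV A' N ζp lam φ β (fun _ => 0) θZ
        (fun p => θA * (am σ a l (τ 0) (τ p.succ) - dm p))
        (fun p => θA * (am σ a l (τ 0) (τ p.succ) - dm p)) t * ‖a (τ 0) - q‖ ^ 2
      + ((T3 t 0 - CZ A' N ζ ζp lam φ θZ θA β (MB σ a l τ) t 0) *
            pp (‖a (τ 0) - q‖ ^ 2 - S (τ 1))
        + (T3 t 1 - CZ A' N ζ ζp lam φ θZ θA β (MB σ a l τ) t 1) *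
            pp (‖a (τ 0) - q‖ ^ 2 - S (τ 2))
        + (T3 t 2 - CZ A' N ζ ζp lam φ θZ θA β (MB σ a l τ) t 2) *
            pp (‖a (τ 0) - q‖ ^ 2 - S (τ 3))) ≤
      Yt (fun i => a (τ i)) t q := by
  have h' := h.perm τ
  have v' := viol_perm v τ
  have hz' := hz.perm τ
  have hN : ∀ k m, 0 ≤ N k m := fun k m => by
    rw [hNd]
    exact NM_nonneg h' v' hz' k m
  have hd : ∀ k, N k k = 0 := fun k => by
    rw [hNd]
    exact NM_diag k
  have hcol : ∀ m, nc N m ≤ 9 / 10 := fun m => by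
    rw [hNd]
    exact nc_le h' v' hz' m
  have hc : (9 / 10 : ℝ) < 1 := by norm_num
  have hgr := gram_of_dist h'.ha
  have hb : ∀ k, b3 (fun i => a (τ i)) x k ≤ ζ k + LN N ζ k := fun k => by
    rw [hζd]
    exact (mu_bal hN hd hc hcol (b3 (fun i => a (τ i)) x) k).ge
  have hM0 : ∀ l' k, 0 ≤ MB σ a l τ l' k := fun l' k => MB_nonneg τ l' k
  have hMl : ∀ p, MB σ a l τ p p = 0 := fun p => MB_diag τ p
  have hM : ∀ p k, k ≠ p → MB σ a l τ p k ≤ ρ p := fun p k hk => by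
    unfold MB
    rw [if_neg hk]
    exact hMρ p k hk
  have hMB : ∀ p k, MB σ a l τ p k ≤ ρ p := fun p k => by
    by_cases e : k = p
    · rw [e, hMl]
      exact (hρ p).le
    · exact hM p k e
  have hal0 := mul_nonneg hl0 (alP_nonneg (N := N) hζp t)
  have ha0 : ∀ p, 0 ≤ aw A' N φ β p t := fun p => ash0 hN hd hc hcol hφ hA' hβ1 t p
  have hg0 : ∀ p, 0 ≤ gw A' N β p t := fun p => ast0 hN hc hcol hA' hβ0 ht p
  have h3 : ∀ p k, aw A' N φ β p t * (θA * MB σ a l τ p k) ≤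
      if p = k then 0 else φ * flP (PN N) p t := by
    intro p k
    by_cases e : p = k
    · rw [e, hMl, if_pos rfl, mul_zero, mul_zero]
    · rw [if_neg e]
      have k1 := mul_le_mul_of_nonneg_left (hM p k (Ne.symm e)) (ha0 p)
      have k2 : aw A' N φ β p t * ρ p ≤ φ * flP (PN N) p t :=
        ash_room hN hd hc hcol hφ hA' hF t p
      have k3 := mul_nonneg (ha0 p) (hM0 p k)
      have k4 := mul_le_mul_of_nonneg_right hA1 k3
      linarith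
  have h4 : ∀ k : Fin 3, (if (0 : Fin 3) = k then 0 else φ * flP (PN N) 0 t)
      + (if (1 : Fin 3) = k then 0 else φ * flP (PN N) 1 t)
      + (if (2 : Fin 3) = k then 0 else φ * flP (PN N) 2 t) =
      S2 (fun p => φ * flP (PN N) p t) k := by
    intro k
    unfold S2
    fin_cases k <;> simp <;> ring
  have h5 : ∀ k, gw A' N β 0 t * (θA * MB σ a l τ 0 k) + gw A' N β 1 t * (θA * MB σ a l τ 1 k)
      + gw A' N β 2 t * (θA * MB σ a l τ 2 k) ≤ rr N (vv t) k := by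
    intro k
    have k1 := ast_feas4 (κ := fun p t => kap N (vv t) p)
      (fun p t ht => kap_nonneg hN hc hcol (fun k => vv_nonneg ht k) p)
      (fun t ht k => by
        have := kap_S2 hN hc hcol ht k
        unfold S2 at this
        exact this) hA' hβ0 (fun p => Id_kap_nonneg hN hc hcol p) hK hMl hMB ht k
    rw [Fin.sum_univ_three] at k1
    have k1' : gw A' N β 0 t * MB σ a l τ 0 k + gw A' N β 1 t * MB σ a l τ 1 k
      + gw A' N β 2 t * MB σ a l τ 2 k ≤ rr N (vv t) k := k1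
    have k2 := fun p => mul_le_mul_of_nonneg_right hA1 (mul_nonneg (hg0 p) (hM0 p k))
    have m0 := k2 0
    have m1 := k2 1
    have m2 := k2 2
    linarith
  have s20 : ∀ m, 0 ≤ S2 (fun p => φ * flP (PN N) p t) m := fun m => by
    have f := fun p => mul_nonneg hφ.le (flP_nonneg (P := PN N) p t)
    rw [← h4 m]
    have g0 : 0 ≤ if (0 : Fin 3) = m then 0 else φ * flP (PN N) 0 t := by
      split_ifs; exacts [le_rfl, f 0]
    have g1 : 0 ≤ if (1 : Fin 3) = m then 0 else φ * flP (PN N) 1 t := by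
      split_ifs; exacts [le_rfl, f 1]
    have g2 : 0 ≤ if (2 : Fin 3) = m then 0 else φ * flP (PN N) 2 t := by
      split_ifs; exacts [le_rfl, f 2]
    linarith
  have hCZ : ∀ k, CZ A' N ζ ζp lam φ θZ θA β (MB σ a l τ) t k ≤ T3 t k := by
    intro k
    have r1 := fun m => room hN hd hc hcol hφ hl0 hl1 hζp ht m
    -- leaks
    have r2 : lam * alP N ζp t * LN N ζp k ≤ LN N (xx N (vv t)) k := by
      have e0 := mul_le_mul_of_nonneg_left (r1 0) (hN k 0)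
      have e1 := mul_le_mul_of_nonneg_left (r1 1) (hN k 1)
      have e2 := mul_le_mul_of_nonneg_left (r1 2) (hN k 2)
      have f0 := mul_nonneg (hN k 0) (s20 0)
      have f1 := mul_nonneg (hN k 1) (s20 1)
      have f2 := mul_nonneg (hN k 2) (s20 2)
      unfold LN
      linarith
    have r3 : LN N ζ k ≤ LN N ζp k := by
      have e0 := mul_le_mul_of_nonneg_left (hζ 0) (hN k 0)
      have e1 := mul_le_mul_of_nonneg_left (hζ 1) (hN k 1)
      have e2 := mul_le_mul_of_nonneg_left (hζ 2) (hN k 2)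
      unfold LN
      linarith
    have r4 : lam * alP N ζp t * (θZ * (ζ k + LN N ζ k)) ≤
        lam * alP N ζp t * (ζp k + LN N ζp k) := by
      refine mul_le_mul_of_nonneg_left ?_ hal0
      have e0 := mul_le_mul_of_nonneg_left (add_le_add (hζ k) r3) hZ0
      have e1 := mul_le_mul_of_nonneg_right hZ1
        (add_nonneg (hζp k).le (LN_nonneg hN (fun m => (hζp m).le) k))
      linarith
    have a0 := h3 0 k
    have a1 := h3 1 k
    have a2 := h3 2 k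
    have a3 := h4 k
    have a4 := h5 k
    have a5 := r1 k
    have e : rr N (vv t) k = vv t k - (xx N (vv t) k + LN N (xx N (vv t)) k) := rfl
    rw [e] at a4
    rw [T3_vv]
    unfold CZ
    linarith
  refine ⟨hCZ, ?_⟩
  have lz := Load.smul (mul_nonneg hal0 hZ0) (apex_load (N := N) (ζ := ζ) hgr (h.hd x hx q hq)
    (h'.hp q hq) hb)
  have la : ∀ p, Load (fun i => a (τ i)) q (aE σ a l (τ 0) (τ p.succ) - dE p)
      (am σ a l (τ 0) (τ p.succ) - dm p) (MB σ a l τ p) := fun p => by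
    have h0 := arc_load h.ha hl h.cpt h.pm.mem h.hp h.hd τ hq p
    exact load_drop2 h'.ha (h'.hp q hq) h0 (hδ p) ((MA_nonneg τ p p).trans (hδ p))
      (hdE p) (hdm p) (hdd p)
  have w0 : ∀ p, 0 ≤ (aw A' N φ β p t + gw A' N β p t) * θA := fun p =>
    mul_nonneg (add_nonneg (ha0 p) (hg0 p)) hA0
  have l0 := Load.smul (w0 0) (la 0)
  have l1 := Load.smul (w0 1) (la 1)
  have l2 := Load.smul (w0 2) (la 2)
  have lt := Load.add lz (Load.add (Load.add l0 l1) l2)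
  have eC : CZ A' N ζ ζp lam φ θZ θA β (MB σ a l τ) t =
      (fun k => lam * alP N ζp t * θZ * (ζ k + LN N ζ k) +
      ((aw A' N φ β 0 t + gw A' N β 0 t) * θA * MB σ a l τ 0 k +
        (aw A' N φ β 1 t + gw A' N β 1 t) * θA * MB σ a l τ 1 k +
        (aw A' N φ β 2 t + gw A' N β 2 t) * θA * MB σ a l τ 2 k)) := by
    funext k
    unfold CZ
    ring
  have lt' : Load (fun i => a (τ i)) q
      (lam * alP N ζp t * θZ * Qv a (τ 0) x +
      ((aw A' N φ β 0 t + gw A' N β 0 t) * θA * (aE σ a l (τ 0) (τ (0 : Fin 3).succ) - dE 0) +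
        (aw A' N φ β 1 t + gw A' N β 1 t) * θA * (aE σ a l (τ 0) (τ (1 : Fin 3).succ) - dE 1) +
        (aw A' N φ β 2 t + gw A' N β 2 t) * θA * (aE σ a l (τ 0) (τ (2 : Fin 3).succ) - dE 2)))
      (lam * alP N ζp t * θZ * 1 +
        ((aw A' N φ β 0 t + gw A' N β 0 t) * θA * (am σ a l (τ 0) (τ (0 : Fin 3).succ) - dm 0) +
        (aw A' N φ β 1 t + gw A' N β 1 t) * θA * (am σ a l (τ 0) (τ (1 : Fin 3).succ) - dm 1) +
        (aw A' N φ β 2 t + gw A' N β 2 t) * θA * (am σ a l (τ 0) (τ (2 : Fin 3).succ) - dm 2)))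
      (CZ A' N ζ ζp lam φ θZ θA β (MB σ a l τ) t) := by
    rw [eC]
    exact lt
  have key := Pool.Agent.Helper58.MEI.Yt_F (t := t) (S := fun k => S (τ k.succ)) hgr (h'.hp q hq)
    lt' (v.le _ q hq) (v.le _ q hq) (v.le _ q hq)
  have z0 : ∀ k, pp (CZ A' N ζ ζp lam φ θZ θA β (MB σ a l τ) t k - T3 t k) = 0 := fun k =>
    max_eq_right (by have := hCZ k; linarith)
  have z1 : √(Helper75.MEI2.Qf (fun k =>
      pp (CZ A' N ζ ζp lam φ θZ θA β (MB σ a l τ) t k - T3 t k))) = 0 := by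
    simp only [z0]
    unfold Helper75.MEI2.Qf
    simp
  have z2 : ∀ k, pp (T3 t k - CZ A' N ζ ζp lam φ θZ θA β (MB σ a l τ) t k) =
      T3 t k - CZ A' N ζ ζp lam φ θZ θA β (MB σ a l τ) t k := fun k =>
    max_eq_left (by have := hCZ k; linarith)
  rw [z1, z2, z2, z2] at key
  have key2 : lam * alP N ζp t * θZ * Qv a (τ 0) x +
      ((aw A' N φ β 0 t + gw A' N β 0 t) * θA * (aE σ a l (τ 0) (τ (0 : Fin 3).succ) - dE 0) +
        (aw A' N φ β 1 t + gw A' N β 1 t) * θA * (aE σ a l (τ 0) (τ (1 : Fin 3).succ) - dE 1) +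
        (aw A' N φ β 2 t + gw A' N β 2 t) * θA * (aE σ a l (τ 0) (τ (2 : Fin 3).succ) - dE 2))
      + (lam * alP N ζp t * θZ * 1 +
        ((aw A' N φ β 0 t + gw A' N β 0 t) * θA * (am σ a l (τ 0) (τ (0 : Fin 3).succ) - dm 0) +
        (aw A' N φ β 1 t + gw A' N β 1 t) * θA * (am σ a l (τ 0) (τ (1 : Fin 3).succ) - dm 1) +
        (aw A' N φ β 2 t + gw A' N β 2 t) * θA * (am σ a l (τ 0) (τ (2 : Fin 3).succ) - dm 2)))
        * ‖a (τ 0) - q‖ ^ 2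
      + ((T3 t 0 - CZ A' N ζ ζp lam φ θZ θA β (MB σ a l τ) t 0) *
            pp (‖a (τ 0) - q‖ ^ 2 - S (τ 1))
        + (T3 t 1 - CZ A' N ζ ζp lam φ θZ θA β (MB σ a l τ) t 1) *
            pp (‖a (τ 0) - q‖ ^ 2 - S (τ 2))
        + (T3 t 2 - CZ A' N ζ ζp lam φ θZ θA β (MB σ a l τ) t 2) *
            pp (‖a (τ 0) - q‖ ^ 2 - S (τ 3))) - 2 * (0 * ‖a (τ 0) - q‖) ≤
      Yt (fun i => a (τ i)) t q := key
  unfold PV
  linarith

/-- **the same, caps linear** -/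
theorem inst_Z [IsFiniteMeasure σ] (h : CN K σ a c) (v : Viol K a S) (hz : CV a K z)
    (τ : Equiv.Perm (Fin 4)) {A' : ℝ} (hA' : 0 < A') (hl : Lok a l)
    {δ dE dm : Fin 3 → ℝ} (hδ : ∀ p, MA σ a l τ p p ≤ δ p) (hdE : ∀ p, 0 ≤ dE p)
    (hdm : ∀ p, 0 ≤ dm p) (hdd : ∀ p, δ p ^ 2 ≤ dE p * dm p)
    {ρ β : Fin 3 → ℝ} (hρ : ∀ p, 0 < ρ p)
    (hMρ : ∀ p k, k ≠ p → MA σ a l τ p k ≤ ρ p)
    {x : E3} (hx : x ∈ K)
    {N : Fin 3 → Fin 3 → ℝ} (hNd : N = NM (fun i => a (τ i)) (fun i j => z (τ i) (τ j)))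
    {ζ ζp : Fin 3 → ℝ} (hζd : ζ = zc (fun i => a (τ i)) N x) (hζp : ∀ k, 0 < ζp k)
    (hζ : ∀ k, ζ k ≤ ζp k)
    {φ lam : ℝ} (hφ : 0 < φ) (hl0 : 0 ≤ lam) (hl1 : lam ≤ 1 - φ)
    (hβ0 : ∀ p, 0 ≤ β p) (hβ1 : ∀ p, β p ≤ 1)
    (hK : ∀ p, β p * ρ p ≤ A' * Id (fun t => kap N (vv t) p))
    (hF : ∀ p, (1 - β p) * ρ p ≤ φ * (A' * Id (flP (PN N) p)))
    {θZ θA : ℝ} (hZ0 : 0 ≤ θZ) (hZ1 : θZ ≤ 1) (hA0 : 0 ≤ θA) (hA1 : θA ≤ 1)
    {t : ℝ × ℝ} (ht : t ∈ Sim) {q : E3} (hq : q ∈ K) :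
    (-(T3 t 0 * S (τ 1) + T3 t 1 * S (τ 2) + T3 t 2 * S (τ 3))
      + PV A' N ζp lam φ β (fun _ => 0)
        (θZ * (Qv a (τ 0) x + ((ζ 0 + LN N ζ 0) * S (τ 1) + (ζ 1 + LN N ζ 1) * S (τ 2)
          + (ζ 2 + LN N ζ 2) * S (τ 3))))
        (fun p => θA * ((aE σ a l (τ 0) (τ p.succ) - dE p) + (MB σ a l τ p 0 * S (τ 1)
          + MB σ a l τ p 1 * S (τ 2) + MB σ a l τ p 2 * S (τ 3))))
        (fun p => θA * ((aE σ a l (τ 0) (τ p.succ) - dE p) + (MB σ a l τ p 0 * S (τ 1)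
          + MB σ a l τ p 1 * S (τ 2) + MB σ a l τ p 2 * S (τ 3)))) t)
      + (1 - PV A' N ζp lam φ β (fun _ => 0)
        (θZ * ((ζ 0 + LN N ζ 0) + (ζ 1 + LN N ζ 1) + (ζ 2 + LN N ζ 2) - 1))
        (fun p => θA * ((MB σ a l τ p 0 + MB σ a l τ p 1 + MB σ a l τ p 2)
          - (am σ a l (τ 0) (τ p.succ) - dm p)))
        (fun p => θA * ((MB σ a l τ p 0 + MB σ a l τ p 1 + MB σ a l τ p 2)
          - (am σ a l (τ 0) (τ p.succ) - dm p))) t) * ‖a (τ 0) - q‖ ^ 2 ≤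
      Yt (fun i => a (τ i)) t q := by
  obtain ⟨hC, key⟩ := inst_Zs h v hz τ hA' hl hδ hdE hdm hdd hρ hMρ hx hNd hζd hζp hζ hφ hl0 hl1
    hβ0 hβ1 hK hF hZ0 hZ1 hA0 hA1 ht hq
  have c0 := mul_le_mul_of_nonneg_left (le_pp (‖a (τ 0) - q‖ ^ 2 - S (τ 1)))
    (sub_nonneg.2 (hC 0))
  have c1 := mul_le_mul_of_nonneg_left (le_pp (‖a (τ 0) - q‖ ^ 2 - S (τ 2)))
    (sub_nonneg.2 (hC 1))
  have c2 := mul_le_mul_of_nonneg_left (le_pp (‖a (τ 0) - q‖ ^ 2 - S (τ 3)))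
    (sub_nonneg.2 (hC 2))
  have hT := T3_sum t
  have hT2 : T3 t 2 = 1 - T3 t 0 - T3 t 1 := by linarith
  rw [hT2] at key c2 ⊢
  unfold CZ at key c0 c1 c2
  unfold PV at key ⊢
  linarith

end body

end Helper99.MEI
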