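import Pool.Agent.Helper99.MEI.Parts
import Pool.Agent.Helper78.MEI.WB2

/-!
# Project MEI (M2), w-term: numbers of the parts at a corner, uniformly in the apex

Corner `i`, `x = t_j`, `y = t_k`, `n_m = nc N m`, classes `bet`, `AB` of `Helper78.MEI.WB1`.
* `node_corner`: `Σ xx κ nc ≤ κ (min (x + y) n_i + n_j x + n_k y)`;
* `drop_arc`: `Σ aw c ≤ φ γ min (xx_j + xx_k, 1/2)`, `drop_res`, `drop_apex`;
* `DT_body`, `DZ_body`: the deficits of the loads `inst_T`, `inst_Z`;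
* `ET_body`: what is dropped in `inst_T`; `EZ_le`: what is dropped in `inst_Z` (`θA = 0`).
-/

set_option autoImplicit false

namespace Helper99.MEI

open Set Metric MeasureTheory Helper80.CW Helper82.CW Helper14.CW Helper93.MEI Helper78.MEI
open Helper82.M2 Helper14.MEI2 Pool.Agent.Helper52.MEI Pool.Agent.Helper73.MEI Helper41.MEI
open Helper37.MEI
open Pool.Agent.Helper55.Sx (Sim)
open Pool.Agent.Helper55.Mass (LN LN_nonneg vv vv_nonneg vv_le Id)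
open Pool.Agent.Helper55.Apex (nc vt_vv)
open Pool.Agent.Helper55.ApexP (PN alP alP_nonneg alP_zeta alP_le xx_mu mu_bal)
open Pool.Agent.Helper55.Fill (xx rr rr_nonneg xx_nonneg xx_le xx_feas)
open Pool.Agent.Helper73.MEI.SideP (flP flP_nonneg flP_zero flP_pair)
open Pool.Agent.Helper96.Kap (kap kap_nonneg kap_add)
open Pool.Agent.Helper31.SR
open Helper75.MEI2 (mu vt)
open scoped RealInnerProductSpace ENNReal

section abs
variable {N : Fin 3 → Fin 3 → ℝ} (hN : ∀ k m, 0 ≤ N k m) (hd : ∀ k, N k k = 0) {c : ℝ}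
  (hc : c < 1) (hcol : ∀ m, nc N m ≤ c)
include hN hd hc hcol

/-- the leaks of the nodes at a corner -/
theorem node_corner {κ : ℝ} (hκ : 0 ≤ κ) {t : ℝ × ℝ} (ht : t ∈ Sim) {i j k : Fin 3}
    (hij : i ≠ j) (hik : i ≠ k) (hjk : j ≠ k) :
    xx N (vv t) 0 * (κ * nc N 0) + xx N (vv t) 1 * (κ * nc N 1) + xx N (vv t) 2 * (κ * nc N 2) ≤
      κ * (min (vv t j + vv t k) (nc N i) + nc N j * vv t j + nc N k * vv t k) := by
  have hb : ∀ k, 0 ≤ vv t k := fun k => vv_nonneg ht k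
  have h1 := xx_def hN hc hcol hb
  have h2 := Dmin_corner hN hd ht hij hik hjk
  have h3 := nodes_col (N := N) hN (κ := κ) (Ca := 0) hd hκ (hb j) (hb k) hij hik hjk
  unfold Dmin at h2
  have h4 := mul_le_mul_of_nonneg_left (h1.trans h2) hκ
  linarith

/-- the arcs: weights against `x + y` and `1/2` -/
theorem drop_arc {φ A' : ℝ} (hφ : 0 < φ) (hA' : 0 < A') {β ρ : Fin 3 → ℝ}
    (hβ1 : ∀ p, β p ≤ 1)
    (hF : ∀ p, (1 - β p) * ρ p ≤ φ * (A' * Id (flP (PN N) p))) {γ : ℝ} (hγ0 : 0 ≤ γ)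
    {cc : Fin 3 → ℝ} (hcc : ∀ p, cc p ≤ γ * ρ p) {t : ℝ × ℝ} (ht : t ∈ Sim) {i j k : Fin 3}
    (hij : i ≠ j) (hik : i ≠ k) (hjk : j ≠ k) :
    aw A' N φ β 0 t * cc 0 + aw A' N φ β 1 t * cc 1 + aw A' N φ β 2 t * cc 2 ≤
      φ * γ * min (xx N (vv t) j + xx N (vv t) k) (1 / 2) := by
  have hb : ∀ k, 0 ≤ vv t k := fun k => vv_nonneg ht k
  have h1 : ∀ p, aw A' N φ β p t * cc p ≤ γ * (φ * flP (PN N) p t) := fun p => by
    have k1 := mul_le_mul_of_nonneg_left (hcc p) (ash0 hN hd hc hcol hφ hA' hβ1 t p)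
    have k2 := mul_le_mul_of_nonneg_left (ash_room hN hd hc hcol hφ hA' hF t p) hγ0
    have e : aw A' N φ β p t = ash (fun p t => φ * flP (PN N) p t)
      (fun p => Id (fun t => φ * flP (PN N) p t)) β A' p t := rfl
    rw [e]
    linarith
  have a0 := h1 0
  have a1 := h1 1
  have a2 := h1 2
  have s := sum3 (fun p => flP (PN N) p t) hij hik hjk
  have b1 := flP_xx hN hd hc hcol ht hij hik hjk
  have b2 := flP_xx hN hd hc hcol ht hik hij hjk.symm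
  have b3 := flP_xx hN hd hc hcol ht hij.symm hjk hik
  have f1 := flP_nonneg (P := PN N) i t
  have x1 := xx_le hN hc hcol hb i
  have x2 := xx_le hN hc hcol hb j
  have x3 := xx_le hN hc hcol hb k
  have v1 := sum3 (vv t) hij hik hjk
  rw [vv_sum] at v1
  have m1 : flP (PN N) 0 t + flP (PN N) 1 t + flP (PN N) 2 t ≤
      min (xx N (vv t) j + xx N (vv t) k) (1 / 2) := by
    rw [s]
    exact le_min (by linarith) (by linarith)
  have m2 := mul_le_mul_of_nonneg_left m1 (mul_nonneg hφ.le hγ0)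
  linarith

omit hd in
/-- the residual arcs -/
theorem drop_res {A' : ℝ} (hA' : 0 < A') {β ρ : Fin 3 → ℝ} (hβ0 : ∀ p, 0 ≤ β p)
    (hK : ∀ p, β p * ρ p ≤ A' * Id (fun t => kap N (vv t) p)) {γ : ℝ} (hγ0 : 0 ≤ γ)
    {cc : Fin 3 → ℝ} (hcc : ∀ p, cc p ≤ γ * ρ p) {t : ℝ × ℝ} (ht : t ∈ Sim) {i j k : Fin 3}
    (hij : i ≠ j) (hik : i ≠ k) (hjk : j ≠ k) :
    gw A' N β 0 t * cc 0 + gw A' N β 1 t * cc 1 + gw A' N β 2 t * cc 2 ≤
      γ * (rr N (vv t) j + rr N (vv t) k) := by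
  have hb : ∀ k, 0 ≤ vv t k := fun k => vv_nonneg ht k
  have h1 : ∀ p, gw A' N β p t * cc p ≤ γ * kap N (vv t) p := fun p => by
    have k1 := mul_le_mul_of_nonneg_left (hcc p) (ast0 hN hc hcol hA' hβ0 ht p)
    have k2 := mul_le_mul_of_nonneg_left (ast_room hN hc hcol hA' hK ht p) hγ0
    have e : gw A' N β p t = ast (fun p t => kap N (vv t) p)
      (fun p => Id (fun t => kap N (vv t) p)) β A' p t := rfl
    rw [e]
    linarith
  have a0 := h1 0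
  have a1 := h1 1
  have a2 := h1 2
  have s := sum3 (fun p => kap N (vv t) p) hij hik hjk
  have b1 := kap_add hN hc hcol hb (j := i) (l := k) (k := j) hik hij hjk.symm
  have b2 := kap_add hN hc hcol hb (j := i) (l := j) (k := k) hij hik hjk
  have b3 := kap_nonneg hN hc hcol hb i
  have m1 : kap N (vv t) 0 + kap N (vv t) 1 + kap N (vv t) 2 ≤
      rr N (vv t) j + rr N (vv t) k := by
    rw [s]
    linarith
  have m2 := mul_le_mul_of_nonneg_left m1 hγ0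
  linarith

/-- the apex: `alP Σ ζp ≤ 1` -/
theorem drop_apex {ζp : Fin 3 → ℝ} (hζp : ∀ k, 0 < ζp k) {lam g r : ℝ} (hl0 : 0 ≤ lam)
    (hr0 : 0 ≤ r) (hg : g ≤ r * (ζp 0 + ζp 1 + ζp 2)) {t : ℝ × ℝ} (ht : t ∈ Sim) :
    lam * alP N ζp t * g ≤ lam * r := by
  have hb : ∀ k, 0 ≤ vv t k := fun k => vv_nonneg ht k
  have h0 := alP_nonneg (N := N) hζp t
  have h3 : ∀ k, alP N ζp t * ζp k ≤ vv t k := fun k =>
    (alP_le hN hd hc hcol hζp (fun _ => le_rfl) ht k).trans (xx_le hN hc hcol hb k)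
  have k0 := h3 0
  have k1 := h3 1
  have k2 := h3 2
  have k3 := vv_sum t
  have k4 : alP N ζp t * (ζp 0 + ζp 1 + ζp 2) ≤ 1 := by linarith
  have k5 := mul_le_mul_of_nonneg_left hg h0
  have k6 := mul_le_mul_of_nonneg_left k4 hr0
  have k7 : alP N ζp t * g ≤ r := by linarith
  have k8 := mul_le_mul_of_nonneg_left k7 hl0
  linarith

/-- **the parts dropped in `inst_T`**, residual arcs separate -/
theorem ET_le {A' φ lam : ℝ} (hφ : 0 < φ) (hl0 : 0 ≤ lam) (hA' : 0 < A')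
    {ζ ζp β ρ : Fin 3 → ℝ} (hζp : ∀ k, 0 < ζp k)
    (hβ0 : ∀ p, 0 ≤ β p) (hβ1 : ∀ p, β p ≤ 1)
    (hK : ∀ p, β p * ρ p ≤ A' * Id (fun t => kap N (vv t) p))
    (hF : ∀ p, (1 - β p) * ρ p ≤ φ * (A' * Id (flP (PN N) p)))
    {M : Fin 3 → Fin 3 → ℝ} (hM0 : ∀ l k, 0 ≤ M l k) (hMl : ∀ l, M l l = 0)
    (hMρ : ∀ l k, M l k ≤ ρ l) {E R S : Fin 3 → ℝ} {s0 g V r : ℝ} (hR : ∀ k, 0 ≤ R k)
    (hE : ∀ p, E p ≤ g * ρ p) (hg : 0 ≤ g) (hV0 : 0 ≤ V) (hV : ∀ k, S k ≤ V)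
    (hr0 : 0 ≤ r) (hex : s0 - (ζ 0 * R 0 + ζ 1 * R 1 + ζ 2 * R 2) ≤ r * (ζp 0 + ζp 1 + ζp 2))
    {θZ θA : ℝ} (hZ1 : θZ ≤ 1) (hA1 : θA ≤ 1)
    {t : ℝ × ℝ} (ht : t ∈ Sim) {i j k : Fin 3} (hij : i ≠ j) (hik : i ≠ k) (hjk : j ≠ k) :
    PV A' N ζp lam φ β (fun _ => 0)
        ((1 - θZ) * (s0 - (ζ 0 * R 0 + ζ 1 * R 1 + ζ 2 * R 2)))
        (fun l => (1 - θA) * (E l - (M l 0 * R 0 + M l 1 * R 1 + M l 2 * R 2)))
        (fun l => (1 - θA) * (E l + (M l 0 * S 0 + M l 1 * S 1 + M l 2 * S 2))) t ≤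
      (1 - θZ) * (lam * r) + (1 - θA) * (φ * g * min (xx N (vv t) j + xx N (vv t) k) (1 / 2)
        + (gw A' N β 0 t * (E 0 + (M 0 0 * S 0 + M 0 1 * S 1 + M 0 2 * S 2))
          + gw A' N β 1 t * (E 1 + (M 1 0 * S 0 + M 1 1 * S 1 + M 1 2 * S 2))
          + gw A' N β 2 t * (E 2 + (M 2 0 * S 0 + M 2 1 * S 1 + M 2 2 * S 2)))) ∧
    (gw A' N β 0 t * (E 0 + (M 0 0 * S 0 + M 0 1 * S 1 + M 0 2 * S 2))
          + gw A' N β 1 t * (E 1 + (M 1 0 * S 0 + M 1 1 * S 1 + M 1 2 * S 2))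
          + gw A' N β 2 t * (E 2 + (M 2 0 * S 0 + M 2 1 * S 1 + M 2 2 * S 2))) ≤
      (g + 2 * V) * (rr N (vv t) j + rr N (vv t) k) := by
  have a1 := mul_le_mul_of_nonneg_left (drop_apex hN hd hc hcol hζp hl0 hr0 hex ht)
    (sub_nonneg.2 hZ1)
  have c1 : ∀ p, E p - (M p 0 * R 0 + M p 1 * R 1 + M p 2 * R 2) ≤ g * ρ p := fun p => by
    have k0 := mul_nonneg (hM0 p 0) (hR 0)
    have k1 := mul_nonneg (hM0 p 1) (hR 1)
    have k2 := mul_nonneg (hM0 p 2) (hR 2)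
    have := hE p
    linarith
  have a2 := mul_le_mul_of_nonneg_left
    (drop_arc hN hd hc hcol hφ hA' hβ1 hF hg c1 ht hij hik hjk) (sub_nonneg.2 hA1)
  have c2 : ∀ p, E p + (M p 0 * S 0 + M p 1 * S 1 + M p 2 * S 2) ≤ (g + 2 * V) * ρ p :=
    fun p => by
    have k0 := mul_le_mul_of_nonneg_left (hV 0) (hM0 p 0)
    have k1 := mul_le_mul_of_nonneg_left (hV 1) (hM0 p 1)
    have k2 := mul_le_mul_of_nonneg_left (hV 2) (hM0 p 2)
    have m0 := mul_le_mul_of_nonneg_right (hMρ p 0) hV0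
    have m1 := mul_le_mul_of_nonneg_right (hMρ p 1) hV0
    have m2 := mul_le_mul_of_nonneg_right (hMρ p 2) hV0
    have md := hMl p
    have := hE p
    fin_cases p
    · simp only [Fin.zero_eta] at k0 k1 k2 m0 m1 m2 md this ⊢
      rw [md] at k0 ⊢
      linarith
    · simp only [Fin.mk_one] at k0 k1 k2 m0 m1 m2 md this ⊢
      rw [md] at k1 ⊢
      linarith
    · simp only [Fin.reduceFinMk] at k0 k1 k2 m0 m1 m2 md this ⊢
      rw [md] at k2 ⊢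
      linarith
  have a3 := drop_res hN hc hcol hA' hβ0 hK (by linarith) c2 ht hij hik hjk
  refine ⟨?_, a3⟩
  unfold PV
  linarith

/-- the same with the residual arcs: `Ce (x + y)` -/
theorem ET_xy {A' φ lam : ℝ} (hφ : 0 < φ) (hl0 : 0 ≤ lam) (hA' : 0 < A')
    {ζ ζp β ρ : Fin 3 → ℝ} (hζp : ∀ k, 0 < ζp k)
    (hβ0 : ∀ p, 0 ≤ β p) (hβ1 : ∀ p, β p ≤ 1)
    (hK : ∀ p, β p * ρ p ≤ A' * Id (fun t => kap N (vv t) p))
    (hF : ∀ p, (1 - β p) * ρ p ≤ φ * (A' * Id (flP (PN N) p)))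
    {M : Fin 3 → Fin 3 → ℝ} (hM0 : ∀ l k, 0 ≤ M l k) (hMl : ∀ l, M l l = 0)
    (hMρ : ∀ l k, M l k ≤ ρ l) {E R S : Fin 3 → ℝ} {s0 g V r Ce : ℝ} (hR : ∀ k, 0 ≤ R k)
    (hE : ∀ p, E p ≤ g * ρ p) (hg : 0 ≤ g) (hV0 : 0 ≤ V) (hV : ∀ k, S k ≤ V)
    (hr0 : 0 ≤ r) (hex : s0 - (ζ 0 * R 0 + ζ 1 * R 1 + ζ 2 * R 2) ≤ r * (ζp 0 + ζp 1 + ζp 2))
    (hC1 : φ * g ≤ Ce) (hC2 : (∀ p, β p = 0) ∨ g + 2 * V ≤ Ce)
    {θZ θA : ℝ} (hZ1 : θZ ≤ 1) (hA1 : θA ≤ 1)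
    {t : ℝ × ℝ} (ht : t ∈ Sim) {i j k : Fin 3} (hij : i ≠ j) (hik : i ≠ k) (hjk : j ≠ k) :
    PV A' N ζp lam φ β (fun _ => 0)
        ((1 - θZ) * (s0 - (ζ 0 * R 0 + ζ 1 * R 1 + ζ 2 * R 2)))
        (fun l => (1 - θA) * (E l - (M l 0 * R 0 + M l 1 * R 1 + M l 2 * R 2)))
        (fun l => (1 - θA) * (E l + (M l 0 * S 0 + M l 1 * S 1 + M l 2 * S 2))) t ≤
      (1 - θZ) * (lam * r) + (1 - θA) * (Ce * (vv t j + vv t k)) := by
  obtain ⟨h1, h2⟩ := ET_le hN hd hc hcol hφ hl0 hA' hζp hβ0 hβ1 hK hF hM0 hMl hMρ hR hE hg hV0 hV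
    hr0 hex hZ1 hA1 ht hij hik hjk
  have hb : ∀ k, 0 ≤ vv t k := fun k => vv_nonneg ht k
  have C0 : 0 ≤ Ce := (mul_nonneg hφ.le hg).trans hC1
  have r0 := add_nonneg (rr_nonneg hN hc hcol hb j) (rr_nonneg hN hc hcol hb k)
  have x0 := add_nonneg (xx_nonneg hN hc hcol hb j) (xx_nonneg hN hc hcol hb k)
  have h3 : (gw A' N β 0 t * (E 0 + (M 0 0 * S 0 + M 0 1 * S 1 + M 0 2 * S 2))
          + gw A' N β 1 t * (E 1 + (M 1 0 * S 0 + M 1 1 * S 1 + M 1 2 * S 2))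
          + gw A' N β 2 t * (E 2 + (M 2 0 * S 0 + M 2 1 * S 1 + M 2 2 * S 2))) ≤
      Ce * (rr N (vv t) j + rr N (vv t) k) := by
    rcases hC2 with hz | hC2
    · have e : ∀ p, gw A' N β p t = 0 := fun p => by
        unfold gw ast
        rw [hz p, zero_mul]
      rw [e, e, e]
      simp only [zero_mul, add_zero]
      exact mul_nonneg C0 r0
    · exact h2.trans (mul_le_mul_of_nonneg_right hC2 r0)
  have h4 : φ * g * min (xx N (vv t) j + xx N (vv t) k) (1 / 2) ≤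
      Ce * (xx N (vv t) j + xx N (vv t) k) :=
    (mul_le_mul_of_nonneg_left (min_le_left _ _) (mul_nonneg hφ.le hg)).trans
      (mul_le_mul_of_nonneg_right hC1 x0)
  have xr : ∀ k, xx N (vv t) k + rr N (vv t) k ≤ vv t k := by
    intro k
    have h1 := LN_nonneg hN (xx_nonneg hN hc hcol hb) k
    unfold rr
    linarith
  have x1 := mul_le_mul_of_nonneg_left (xr j) C0
  have x2 := mul_le_mul_of_nonneg_left (xr k) C0
  have h5 : φ * g * min (xx N (vv t) j + xx N (vv t) k) (1 / 2)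
        + (gw A' N β 0 t * (E 0 + (M 0 0 * S 0 + M 0 1 * S 1 + M 0 2 * S 2))
          + gw A' N β 1 t * (E 1 + (M 1 0 * S 0 + M 1 1 * S 1 + M 1 2 * S 2))
          + gw A' N β 2 t * (E 2 + (M 2 0 * S 0 + M 2 1 * S 1 + M 2 2 * S 2))) ≤
      Ce * (vv t j + vv t k) := by linarith
  have h6 := mul_le_mul_of_nonneg_left h5 (sub_nonneg.2 hA1)
  linarith

end abs

section body
variable {a : Fin 4 → E3} {K : Set E3} {S : Fin 4 → ℝ} {σ : Measure (E3 × E3)}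
  {c : Fin 4 → E3} {z : Fin 4 → Fin 4 → E3} {l : Fin 3 → Bool → Bool → E3 × E3 → ℝ}

/-- **deficit of the load `inst_T`** at the corner `i` -/
theorem DT_body [IsFiniteMeasure σ] (h : CN K σ a c) (v : Viol K a S) (hz : CV a K z)
    (τ : Equiv.Perm (Fin 4)) {A' : ℝ} (hA' : 0 < A') (hl : Lok a l)
    {ρ β : Fin 3 → ℝ} (hρ : ∀ p, 0 < ρ p) (hMρ : ∀ p k, k ≠ p → MA σ a l τ p k ≤ ρ p)
    {x : E3} (hx : x ∈ K) {N : Fin 3 → Fin 3 → ℝ}
    (hNd : N = NM (fun i => a (τ i)) (fun i j => z (τ i) (τ j)))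
    {ζ ζp : Fin 3 → ℝ} (hζd : ζ = zc (fun i => a (τ i)) N x) (hζp : ∀ k, 0 < ζp k)
    {φ lam : ℝ} (hφ : 0 < φ) (hl0 : 0 ≤ lam)
    (hβ0 : ∀ p, 0 ≤ β p) (hβ1 : ∀ p, β p ≤ 1)
    (hK : ∀ p, β p * ρ p ≤ A' * Id (fun t => kap N (vv t) p))
    (hF : ∀ p, (1 - β p) * ρ p ≤ φ * (A' * Id (flP (PN N) p)))
    {κ : ℝ} (hκ : 0 ≤ κ) (hκ1 : κ ≤ 1) {cN : ℝ} (hcN : ∀ m, nc N m ≤ cN) (hcN1 : cN ≤ 1 / 2)
    {s χ ω η : ℝ} (hS : ∀ i, S i ≤ s) (hχ0 : 0 ≤ χ) (hχ : 3 / 2 + 2 * s ≤ χ ^ 2)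
    (hω0 : 0 ≤ ω) (hω : (1 - ω) * χ ≤ 1) (hη0 : 0 ≤ η)
    {dm : Fin 3 → ℝ} (hη : ∀ p, dm p ≤ η * ρ p)
    {Ca : ℝ} (hC1 : φ * (2 * ω + η + 2 * (1 - κ) * cN) ≤ Ca)
    (hC2 : (∀ p, β p = 0) ∨ 2 * ω + η ≤ Ca)
    {θZ θA : ℝ} (hZ0 : 0 ≤ θZ) (hA0 : 0 ≤ θA)
    {t : ℝ × ℝ} (ht : t ∈ Sim) {i j k : Fin 3} (hij : i ≠ j) (hik : i ≠ k) (hjk : j ≠ k) :
    PV A' N ζp lam φ β (fun k => κ * nc N k)
        (θZ * ((∑ k, (ζ k + (1 - κ) * LN N ζ k)) - 1))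
        (fun p => θA * ((∑ k, (MB σ a l τ p k + (1 - κ) * LN N (MB σ a l τ p) k))
          - (am σ a l (τ 0) (τ p.succ) - dm p)))
        (fun p => θA * ((MB σ a l τ p 0 + MB σ a l τ p 1 + MB σ a l τ p 2)
          - (am σ a l (τ 0) (τ p.succ) - dm p))) t ≤
      κ * (min (vv t j + vv t k) (nc N i) + nc N j * vv t j + nc N k * vv t k)
        + θA * (Ca * (vv t j + vv t k))
        + θZ * (lam / 2 * (bet (Zd (κ * cN) (-bar (fun i => a (τ i)) 0 x)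
            (b3 (fun i => a (τ i)) x))
            (b3 (fun i => a (τ i)) x j) (b3 (fun i => a (τ i)) x k) *
          (alP N ζp t * (pp (b3 (fun i => a (τ i)) x j) + pp (b3 (fun i => a (τ i)) x k))))) := by
  have h' := h.perm τ
  have v' := viol_perm v τ
  have hz' := hz.perm τ
  have hN : ∀ k m, 0 ≤ N k m := fun k m => by
    rw [hNd]
    exact NM_nonneg h' v' hz' k m
  have hd : ∀ k, N k k = 0 := fun k => by
    rw [hNd]
    exact NM_diag k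
  have hcol : ∀ m, nc N m ≤ 9 / 10 := fun m => by
    rw [hNd]
    exact nc_le h' v' hz' m
  have hc : (9 / 10 : ℝ) < 1 := by norm_num
  have hgr := gram_of_dist h'.ha
  have hbal : ∀ k, ζ k + LN N ζ k = b3 (fun i => a (τ i)) x k := fun k => by
    rw [hζd]
    exact mu_bal hN hd hc hcol (b3 (fun i => a (τ i)) x) k
  have hb : ∀ k, 0 ≤ vv t k := fun k => vv_nonneg ht k
  have n0 : ∀ m, 0 ≤ nc N m := fun m => by
    unfold nc
    have := hN 0 m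
    have := hN 1 m
    have := hN 2 m
    linarith
  have hc0 : 0 ≤ cN := (n0 0).trans (hcN 0)
  have hMB : ∀ p k, MB σ a l τ p k ≤ ρ p := fun p k => by
    unfold MB
    split_ifs with e
    · exact (hρ p).le
    · exact hMρ p k e
  have M2 : ∀ p, MB σ a l τ p 0 + MB σ a l τ p 1 + MB σ a l τ p 2 ≤ 2 * ρ p := by
    intro p
    have m0 := hMB p 0
    have m1 := hMB p 1
    have m2 := hMB p 2
    have md := MB_diag (σ := σ) (a := a) (l := l) τ p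
    fin_cases p
    · simp only [Fin.zero_eta] at m0 m1 m2 md ⊢
      linarith
    · simp only [Fin.mk_one] at m0 m1 m2 md ⊢
      linarith
    · simp only [Fin.reduceFinMk] at m0 m1 m2 md ⊢
      linarith
  have hdef := fun p => MB_def h v hl τ hS hχ0 hχ hω p
  have r1 : ∀ p, (MB σ a l τ p 0 + MB σ a l τ p 1 + MB σ a l τ p 2)
      - (am σ a l (τ 0) (τ p.succ) - dm p) ≤ (2 * ω + η) * ρ p := fun p => by
    have s2 := hdef p
    have s3 := hη p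
    have s4 := mul_le_mul_of_nonneg_left (M2 p) hω0
    linarith
  have r2 : ∀ p, (∑ k, (MB σ a l τ p k + (1 - κ) * LN N (MB σ a l τ p) k))
      - (am σ a l (τ 0) (τ p.succ) - dm p) ≤ (2 * ω + η + 2 * (1 - κ) * cN) * ρ p := fun p => by
    have s1 := sum_nc N (MB σ a l τ p)
    have s5 : MB σ a l τ p 0 * nc N 0 + MB σ a l τ p 1 * nc N 1 + MB σ a l τ p 2 * nc N 2 ≤
        cN * (MB σ a l τ p 0 + MB σ a l τ p 1 + MB σ a l τ p 2) := by
      have k0 := mul_le_mul_of_nonneg_left (hcN 0) (MB_nonneg (σ := σ) (a := a) (l := l) τ p 0)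
      have k1 := mul_le_mul_of_nonneg_left (hcN 1) (MB_nonneg (σ := σ) (a := a) (l := l) τ p 1)
      have k2 := mul_le_mul_of_nonneg_left (hcN 2) (MB_nonneg (σ := σ) (a := a) (l := l) τ p 2)
      linarith
    have s7 := mul_le_mul_of_nonneg_left (M2 p) hc0
    have s8 := mul_le_mul_of_nonneg_left (s5.trans s7) (sub_nonneg.2 hκ1)
    have s9 := r1 p
    rw [s1] at s8
    rw [Fin.sum_univ_three]
    linarith
  have g0 : 0 ≤ 2 * ω + η := by linarith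
  have g1 : 0 ≤ 2 * ω + η + 2 * (1 - κ) * cN := by
    have := mul_nonneg (sub_nonneg.2 hκ1) hc0
    linarith
  have Ca0 : 0 ≤ Ca := (mul_nonneg hφ.le g1).trans hC1
  -- nodes
  have t1 := node_corner hN hd hc hcol hκ ht hij hik hjk
  -- arcs
  have t2 := drop_arc hN hd hc hcol hφ hA' hβ1 hF g1 r2 ht hij hik hjk
  have t2' : aw A' N φ β 0 t * ((∑ k, (MB σ a l τ 0 k + (1 - κ) * LN N (MB σ a l τ 0) k))
          - (am σ a l (τ 0) (τ (0 : Fin 3).succ) - dm 0))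
      + aw A' N φ β 1 t * ((∑ k, (MB σ a l τ 1 k + (1 - κ) * LN N (MB σ a l τ 1) k))
          - (am σ a l (τ 0) (τ (1 : Fin 3).succ) - dm 1))
      + aw A' N φ β 2 t * ((∑ k, (MB σ a l τ 2 k + (1 - κ) * LN N (MB σ a l τ 2) k))
          - (am σ a l (τ 0) (τ (2 : Fin 3).succ) - dm 2)) ≤
      Ca * (xx N (vv t) j + xx N (vv t) k) := by
    refine t2.trans ?_
    have m1 := min_le_left (xx N (vv t) j + xx N (vv t) k) (1 / 2)
    have m2 := mul_le_mul_of_nonneg_left m1 (mul_nonneg hφ.le g1)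
    have m3 := mul_le_mul_of_nonneg_right hC1
      (add_nonneg (xx_nonneg hN hc hcol hb j) (xx_nonneg hN hc hcol hb k))
    linarith
  have t3 : gw A' N β 0 t * ((MB σ a l τ 0 0 + MB σ a l τ 0 1 + MB σ a l τ 0 2)
          - (am σ a l (τ 0) (τ (0 : Fin 3).succ) - dm 0))
      + gw A' N β 1 t * ((MB σ a l τ 1 0 + MB σ a l τ 1 1 + MB σ a l τ 1 2)
          - (am σ a l (τ 0) (τ (1 : Fin 3).succ) - dm 1))
      + gw A' N β 2 t * ((MB σ a l τ 2 0 + MB σ a l τ 2 1 + MB σ a l τ 2 2)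
          - (am σ a l (τ 0) (τ (2 : Fin 3).succ) - dm 2)) ≤
      Ca * (rr N (vv t) j + rr N (vv t) k) := by
    have r0 := add_nonneg (rr_nonneg hN hc hcol hb j) (rr_nonneg hN hc hcol hb k)
    rcases hC2 with hz | hC2
    · have e : ∀ p, gw A' N β p t = 0 := fun p => by
        unfold gw ast
        rw [hz p, zero_mul]
      rw [e, e, e]
      simp only [zero_mul, add_zero]
      exact mul_nonneg Ca0 r0
    · refine (drop_res hN hc hcol hA' hβ0 hK g0 r1 ht hij hik hjk).trans ?_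
      exact mul_le_mul_of_nonneg_right hC2 r0
  have xr : ∀ k, xx N (vv t) k + rr N (vv t) k ≤ vv t k := by
    intro k
    have h1 := LN_nonneg hN (xx_nonneg hN hc hcol hb) k
    unfold rr
    linarith
  have x1 := mul_le_mul_of_nonneg_left (xr j) Ca0
  have x2 := mul_le_mul_of_nonneg_left (xr k) Ca0
  have e4 : Ca * (xx N (vv t) j + xx N (vv t) k) + Ca * (rr N (vv t) j + rr N (vv t) k) ≤
      Ca * (vv t j + vv t k) := by linarith
  have t4 := mul_le_mul_of_nonneg_left ((add_le_add t2' t3).trans e4) hA0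
  -- apex
  have hcc : κ * cN ≤ 1 / 2 := by
    have := mul_le_mul_of_nonneg_right hκ1 hc0
    linarith
  have hZ := Zd_body hgr (h'.hp x hx) (cc := κ * cN) hcc hjk
  have t5 := mul_le_mul_of_nonneg_left (apex_bet hN (κ := κ) (cN := cN)
    (e := -bar (fun i => a (τ i)) 0 x) hζp hbal
    (by rw [b3_sum hgr x]; ring) hκ hcN (by linarith) hl0 (t := t) (j := j) (k := k) hZ) hZ0
  unfold PV
  linarith

/-- **deficit of the load `inst_Z`** at the corner `i` -/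
theorem DZ_body [IsFiniteMeasure σ] (h : CN K σ a c) (v : Viol K a S) (hz : CV a K z)
    (τ : Equiv.Perm (Fin 4)) {A' : ℝ} (hA' : 0 < A') (hl : Lok a l)
    {ρ β : Fin 3 → ℝ} (hρ : ∀ p, 0 < ρ p) (hMρ : ∀ p k, k ≠ p → MA σ a l τ p k ≤ ρ p)
    {x : E3} (hx : x ∈ K) {N : Fin 3 → Fin 3 → ℝ}
    (hNd : N = NM (fun i => a (τ i)) (fun i j => z (τ i) (τ j)))
    {ζ ζp : Fin 3 → ℝ} (hζd : ζ = zc (fun i => a (τ i)) N x) (hζp : ∀ k, 0 < ζp k)
    {φ lam : ℝ} (hφ : 0 < φ) (hl0 : 0 ≤ lam)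
    (hβ0 : ∀ p, 0 ≤ β p) (hβ1 : ∀ p, β p ≤ 1)
    (hK : ∀ p, β p * ρ p ≤ A' * Id (fun t => kap N (vv t) p))
    (hF : ∀ p, (1 - β p) * ρ p ≤ φ * (A' * Id (flP (PN N) p)))
    {s χ ω η : ℝ} (hS : ∀ i, S i ≤ s) (hχ0 : 0 ≤ χ) (hχ : 3 / 2 + 2 * s ≤ χ ^ 2)
    (hω0 : 0 ≤ ω) (hω : (1 - ω) * χ ≤ 1) (hη0 : 0 ≤ η)
    {dm : Fin 3 → ℝ} (hη : ∀ p, dm p ≤ η * ρ p)
    {Ca : ℝ} (hC1 : φ * (2 * ω + η) ≤ Ca) (hC2 : (∀ p, β p = 0) ∨ 2 * ω + η ≤ Ca)
    {θZ θA : ℝ} (hZ0 : 0 ≤ θZ) (hA0 : 0 ≤ θA)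
    {t : ℝ × ℝ} (ht : t ∈ Sim) {i j k : Fin 3} (hij : i ≠ j) (hik : i ≠ k) (hjk : j ≠ k) :
    PV A' N ζp lam φ β (fun _ => 0)
        (θZ * ((ζ 0 + LN N ζ 0) + (ζ 1 + LN N ζ 1) + (ζ 2 + LN N ζ 2) - 1))
        (fun p => θA * ((MB σ a l τ p 0 + MB σ a l τ p 1 + MB σ a l τ p 2)
          - (am σ a l (τ 0) (τ p.succ) - dm p)))
        (fun p => θA * ((MB σ a l τ p 0 + MB σ a l τ p 1 + MB σ a l τ p 2)
          - (am σ a l (τ 0) (τ p.succ) - dm p))) t ≤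
      θA * (Ca * (vv t j + vv t k))
        + θZ * (lam / 2 * (bet (Zd 0 (-bar (fun i => a (τ i)) 0 x) (b3 (fun i => a (τ i)) x))
            (b3 (fun i => a (τ i)) x j) (b3 (fun i => a (τ i)) x k) *
          (alP N ζp t * (pp (b3 (fun i => a (τ i)) x j) + pp (b3 (fun i => a (τ i)) x k))))) := by
  have h' := h.perm τ
  have v' := viol_perm v τ
  have hz' := hz.perm τ
  have hN : ∀ k m, 0 ≤ N k m := fun k m => by
    rw [hNd]
    exact NM_nonneg h' v' hz' k m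
  have hd : ∀ k, N k k = 0 := fun k => by
    rw [hNd]
    exact NM_diag k
  have hcol : ∀ m, nc N m ≤ 9 / 10 := fun m => by
    rw [hNd]
    exact nc_le h' v' hz' m
  have hc : (9 / 10 : ℝ) < 1 := by norm_num
  have hgr := gram_of_dist h'.ha
  have hbal : ∀ k, ζ k + LN N ζ k = b3 (fun i => a (τ i)) x k := fun k => by
    rw [hζd]
    exact mu_bal hN hd hc hcol (b3 (fun i => a (τ i)) x) k
  have hb : ∀ k, 0 ≤ vv t k := fun k => vv_nonneg ht k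
  have hMB : ∀ p k, MB σ a l τ p k ≤ ρ p := fun p k => by
    unfold MB
    split_ifs with e
    · exact (hρ p).le
    · exact hMρ p k e
  have M2 : ∀ p, MB σ a l τ p 0 + MB σ a l τ p 1 + MB σ a l τ p 2 ≤ 2 * ρ p := by
    intro p
    have m0 := hMB p 0
    have m1 := hMB p 1
    have m2 := hMB p 2
    have md := MB_diag (σ := σ) (a := a) (l := l) τ p
    fin_cases p
    · simp only [Fin.zero_eta] at m0 m1 m2 md ⊢
      linarith
    · simp only [Fin.mk_one] at m0 m1 m2 md ⊢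
      linarith
    · simp only [Fin.reduceFinMk] at m0 m1 m2 md ⊢
      linarith
  have hdef := fun p => MB_def h v hl τ hS hχ0 hχ hω p
  have r1 : ∀ p, (MB σ a l τ p 0 + MB σ a l τ p 1 + MB σ a l τ p 2)
      - (am σ a l (τ 0) (τ p.succ) - dm p) ≤ (2 * ω + η) * ρ p := fun p => by
    have s2 := hdef p
    have s3 := hη p
    have s4 := mul_le_mul_of_nonneg_left (M2 p) hω0
    linarith
  have g0 : 0 ≤ 2 * ω + η := by linarith
  have Ca0 : 0 ≤ Ca := (mul_nonneg hφ.le g0).trans hC1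
  -- arcs
  have t2 := drop_arc hN hd hc hcol hφ hA' hβ1 hF g0 r1 ht hij hik hjk
  have t2' : aw A' N φ β 0 t * ((MB σ a l τ 0 0 + MB σ a l τ 0 1 + MB σ a l τ 0 2)
          - (am σ a l (τ 0) (τ (0 : Fin 3).succ) - dm 0))
      + aw A' N φ β 1 t * ((MB σ a l τ 1 0 + MB σ a l τ 1 1 + MB σ a l τ 1 2)
          - (am σ a l (τ 0) (τ (1 : Fin 3).succ) - dm 1))
      + aw A' N φ β 2 t * ((MB σ a l τ 2 0 + MB σ a l τ 2 1 + MB σ a l τ 2 2)
          - (am σ a l (τ 0) (τ (2 : Fin 3).succ) - dm 2)) ≤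
      Ca * (xx N (vv t) j + xx N (vv t) k) := by
    refine t2.trans ?_
    have m1 := min_le_left (xx N (vv t) j + xx N (vv t) k) (1 / 2)
    have m2 := mul_le_mul_of_nonneg_left m1 (mul_nonneg hφ.le g0)
    have m3 := mul_le_mul_of_nonneg_right hC1
      (add_nonneg (xx_nonneg hN hc hcol hb j) (xx_nonneg hN hc hcol hb k))
    linarith
  have t3 : gw A' N β 0 t * ((MB σ a l τ 0 0 + MB σ a l τ 0 1 + MB σ a l τ 0 2)
          - (am σ a l (τ 0) (τ (0 : Fin 3).succ) - dm 0))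
      + gw A' N β 1 t * ((MB σ a l τ 1 0 + MB σ a l τ 1 1 + MB σ a l τ 1 2)
          - (am σ a l (τ 0) (τ (1 : Fin 3).succ) - dm 1))
      + gw A' N β 2 t * ((MB σ a l τ 2 0 + MB σ a l τ 2 1 + MB σ a l τ 2 2)
          - (am σ a l (τ 0) (τ (2 : Fin 3).succ) - dm 2)) ≤
      Ca * (rr N (vv t) j + rr N (vv t) k) := by
    have r0 := add_nonneg (rr_nonneg hN hc hcol hb j) (rr_nonneg hN hc hcol hb k)
    rcases hC2 with hz | hC2
    · have e : ∀ p, gw A' N β p t = 0 := fun p => by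
        unfold gw ast
        rw [hz p, zero_mul]
      rw [e, e, e]
      simp only [zero_mul, add_zero]
      exact mul_nonneg Ca0 r0
    · refine (drop_res hN hc hcol hA' hβ0 hK g0 r1 ht hij hik hjk).trans ?_
      exact mul_le_mul_of_nonneg_right hC2 r0
  have xr : ∀ k, xx N (vv t) k + rr N (vv t) k ≤ vv t k := by
    intro k
    have h1 := LN_nonneg hN (xx_nonneg hN hc hcol hb) k
    unfold rr
    linarith
  have x1 := mul_le_mul_of_nonneg_left (xr j) Ca0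
  have x2 := mul_le_mul_of_nonneg_left (xr k) Ca0
  have e4 : Ca * (xx N (vv t) j + xx N (vv t) k) + Ca * (rr N (vv t) j + rr N (vv t) k) ≤
      Ca * (vv t j + vv t k) := by linarith
  have t4 := mul_le_mul_of_nonneg_left ((add_le_add t2' t3).trans e4) hA0
  -- apex
  have hZ := Zd_body hgr (h'.hp x hx) (cc := 0 * (9 / 10)) (by norm_num) hjk
  have t5 := mul_le_mul_of_nonneg_left (apex_bet hN (κ := 0) (cN := 9 / 10)
    (e := -bar (fun i => a (τ i)) 0 x) hζp hbal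
    (by rw [b3_sum hgr x]; ring) le_rfl hcol (by norm_num) hl0 (t := t) (j := j) (k := k) hZ) hZ0
  rw [zero_mul, Fin.sum_univ_three] at t5
  unfold PV
  linarith

/-- **what is dropped in `inst_T`** at the corner `i`: `(1 - θZ) lam r + (1 - θA) Ce (x + y)`, and
for `β = 0` the arcs also at most `φ g / 2` -/
theorem ET_body [IsFiniteMeasure σ] (h : CN K σ a c) (v : Viol K a S) (hz : CV a K z)
    (τ : Equiv.Perm (Fin 4)) {A' : ℝ} (hA' : 0 < A')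
    {ρ β : Fin 3 → ℝ} (hρ : ∀ p, 0 < ρ p) (hMρ : ∀ p k, k ≠ p → MA σ a l τ p k ≤ ρ p)
    {N : Fin 3 → Fin 3 → ℝ} (hNd : N = NM (fun i => a (τ i)) (fun i j => z (τ i) (τ j)))
    {R : Fin 3 → ℝ} (hRd : R = RM (fun i => a (τ i)) (fun i j => z (τ i) (τ j)))
    {ζ ζp : Fin 3 → ℝ} (hζp : ∀ k, 0 < ζp k) {φ lam : ℝ} (hφ : 0 < φ) (hl0 : 0 ≤ lam)
    (hβ0 : ∀ p, 0 ≤ β p) (hβ1 : ∀ p, β p ≤ 1)
    (hK : ∀ p, β p * ρ p ≤ A' * Id (fun t => kap N (vv t) p))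
    (hF : ∀ p, (1 - β p) * ρ p ≤ φ * (A' * Id (flP (PN N) p)))
    {E : Fin 3 → ℝ} {s0 g V r Ce : ℝ} (hE : ∀ p, E p ≤ g * ρ p) (hg : 0 ≤ g) (hV0 : 0 ≤ V)
    (hV : ∀ k : Fin 3, S (τ k.succ) ≤ V) (hr0 : 0 ≤ r)
    (hex : s0 - (ζ 0 * R 0 + ζ 1 * R 1 + ζ 2 * R 2) ≤ r * (ζp 0 + ζp 1 + ζp 2))
    (hC1 : φ * g ≤ Ce) (hC2 : (∀ p, β p = 0) ∨ g + 2 * V ≤ Ce)
    {θZ θA : ℝ} (hZ1 : θZ ≤ 1) (hA1 : θA ≤ 1)
    {t : ℝ × ℝ} (ht : t ∈ Sim) {i j k : Fin 3} (hij : i ≠ j) (hik : i ≠ k) (hjk : j ≠ k) :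
    PV A' N ζp lam φ β (fun _ => 0)
        ((1 - θZ) * (s0 - (ζ 0 * R 0 + ζ 1 * R 1 + ζ 2 * R 2)))
        (fun p => (1 - θA) * (E p - (MB σ a l τ p 0 * R 0 + MB σ a l τ p 1 * R 1
          + MB σ a l τ p 2 * R 2)))
        (fun p => (1 - θA) * (E p + (MB σ a l τ p 0 * S (τ 1) + MB σ a l τ p 1 * S (τ 2)
          + MB σ a l τ p 2 * S (τ 3)))) t ≤
      (1 - θZ) * (lam * r) + (1 - θA) * (Ce * (vv t j + vv t k)) ∧
    ((∀ p, β p = 0) → PV A' N ζp lam φ β (fun _ => 0)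
        ((1 - θZ) * (s0 - (ζ 0 * R 0 + ζ 1 * R 1 + ζ 2 * R 2)))
        (fun p => (1 - θA) * (E p - (MB σ a l τ p 0 * R 0 + MB σ a l τ p 1 * R 1
          + MB σ a l τ p 2 * R 2)))
        (fun p => (1 - θA) * (E p + (MB σ a l τ p 0 * S (τ 1) + MB σ a l τ p 1 * S (τ 2)
          + MB σ a l τ p 2 * S (τ 3)))) t ≤
      (1 - θZ) * (lam * r) + (1 - θA) * (φ * g / 2)) := by
  have h' := h.perm τ
  have v' := viol_perm v τ
  have hz' := hz.perm τ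
  have hN : ∀ k m, 0 ≤ N k m := fun k m => by
    rw [hNd]
    exact NM_nonneg h' v' hz' k m
  have hd : ∀ k, N k k = 0 := fun k => by
    rw [hNd]
    exact NM_diag k
  have hcol : ∀ m, nc N m ≤ 9 / 10 := fun m => by
    rw [hNd]
    exact nc_le h' v' hz' m
  have hc : (9 / 10 : ℝ) < 1 := by norm_num
  have hM0 : ∀ l' k, 0 ≤ MB σ a l τ l' k := fun l' k => MB_nonneg τ l' k
  have hMl : ∀ p, MB σ a l τ p p = 0 := fun p => MB_diag τ p
  have hR : ∀ k, 0 ≤ R k := (Pool.Agent.Helper58.MEI.body_N h v hz τ hNd hRd).2.2.2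
  have hMB : ∀ p k, MB σ a l τ p k ≤ ρ p := fun p k => by
    unfold MB
    split_ifs with e
    · exact (hρ p).le
    · exact hMρ p k e
  refine ⟨ET_xy hN hd hc hcol hφ hl0 hA' hζp hβ0 hβ1 hK hF hM0 hMl hMB
    (S := fun k => S (τ k.succ)) hR hE hg hV0 hV hr0 hex hC1 hC2 hZ1 hA1 ht hij hik hjk,
    fun hz0 => ?_⟩
  have h1 := (ET_le hN hd hc hcol hφ hl0 hA' hζp hβ0 hβ1 hK hF hM0 hMl hMB
    (S := fun k => S (τ k.succ)) hR hE hg hV0 hV hr0 hex hZ1 hA1 ht hij hik hjk).1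
  have e : ∀ p, gw A' N β p t = 0 := fun p => by
    unfold gw ast
    rw [hz0 p, zero_mul]
  have h2 := mul_le_mul_of_nonneg_left (mul_le_mul_of_nonneg_left
    (min_le_right (xx N (vv t) j + xx N (vv t) k) (1 / 2)) (mul_nonneg hφ.le hg))
    (sub_nonneg.2 hA1)
  rw [e, e, e] at h1
  refine h1.trans ?_
  linarith

/-- **what is dropped in `inst_Z`** with `θA = 0`: at most the whole value above `-Σ T3 S` -/
theorem EZ_le {A' lam φ θZ : ℝ} {N : Fin 3 → Fin 3 → ℝ} {ζp β : Fin 3 → ℝ} (hζp : ∀ k, 0 < ζp k)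
    (hl0 : 0 ≤ lam) (hZ0 : 0 ≤ θZ) {G T s0 b C : ℝ} {t : ℝ × ℝ} (hG : G ≤ -T + C)
    (h0 : 0 ≤ s0 + b) :
    G - (-T + PV A' N ζp lam φ β (fun _ => 0) (θZ * (s0 + b)) (fun _ => 0) (fun _ => 0) t) ≤
      C := by
  have h1 := alP_nonneg (N := N) hζp t
  have h2 := mul_nonneg (mul_nonneg hl0 h1) (mul_nonneg hZ0 h0)
  unfold PV
  linarith

end body

end Helper99.MEI
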