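import Pool.Agent.Helper99.MEI.WT2
import Pool.Agent.Helper60.MEI.R10F

/-!
# Project MEI (M2), track B: a fast check of the rows of a packed family

`tckF` = the check `tck` for all members of a packed family, types without strips (`nr = 0`):
the coefficients of a type are computed once (`cmp`), ten inequalities for a load instead of
eighteen affine functions with eleven coefficients. `tabF`: `tckF` implies `tck` for every member.
-/

set_option autoImplicit false

namespace Helper99.MEI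

open Helper60.R8 Helper60.R10

/-- evaluation of a natural number before its use -/
def stn (n : ℕ) (f : ℕ → Bool) : Bool :=
  Nat.rec (motive := fun _ => Bool) true (fun k _ => f k) (Nat.add n 1)

theorem stn_eq (n : ℕ) (f : ℕ → Bool) : stn n f = f n := by
  unfold stn
  rfl

/-- coefficients of a type -/
structure CL where
  dk : ℕ
  hn : ℕ
  a1 : ℕ
  a2 : ℕ
  b1 : ℕ
  b2 : ℕ
  c0 : ℕ
  c1 : ℕ
  tk : ℕ
  tx : ℕ
  ty : ℕ
  pa : ℕ
  pb : ℕ
  vk : ℕ
  vx : ℕ
  vy : ℕ
  vn : ℕ

/-- the coefficients of a type -/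
def cmp (P : TP) (L : LT) : CL :=
  ⟨Nat.mul (Nat.sub 4 L.h) L.w,
    Nat.mul (Nat.sub 4 L.h) 1000000000000,
    Nat.mul (Nat.mul (Nat.sub 4 L.h) L.ox) 1000000000000,
    Nat.mul (Nat.mul (Nat.sub 4 L.h) L.oy) 1000000000000,
    Nat.mul (Nat.mul (Nat.mul 6 L.z) P.hl) L.ax,
    Nat.mul (Nat.mul (Nat.mul 6 L.z) P.hl) L.ay,
    Nat.mul (Nat.mul L.a (Nat.add (Nat.mul (Nat.sub 1 L.h) P.c0) (Nat.mul L.h P.d0)))
      6000000000000,
    Nat.mul (Nat.mul L.a (Nat.add (Nat.mul (Nat.sub 1 L.h) P.c1) (Nat.mul L.h P.d1))) 6000000,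
    Nat.mul (Nat.mul (Nat.mul 6 (Nat.sub 1 L.z)) P.lr) L.e0,
    Nat.mul (Nat.mul (Nat.mul 6 (Nat.sub 1 L.z)) P.lr) L.ex,
    Nat.mul (Nat.mul (Nat.mul 6 (Nat.sub 1 L.z)) P.lr) L.ey,
    Nat.mul (Nat.mul (Nat.mul 3 (Nat.sub 1 L.a)) P.ce) L.ta,
    Nat.add (Nat.mul (Nat.mul (Nat.mul 3 (Nat.sub 1 L.a)) P.ce) L.ta)
      (Nat.mul (Nat.mul (Nat.mul 6 (Nat.sub 1 L.a)) (Nat.sub 1000000 L.ta)) P.ce),
    Nat.mul (Nat.mul (Nat.mul 6 L.h) P.V6) L.w,
    Nat.mul (Nat.mul (Nat.mul (Nat.mul 6 L.h) P.V6) L.ox) 1000000,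
    Nat.mul (Nat.mul (Nat.mul (Nat.mul 6 L.h) P.V6) L.oy) 1000000,
    Nat.mul (Nat.mul (Nat.mul 6 L.h) P.V6) 1000000⟩

/-- evaluation of the coefficients -/
def cmpS (c : CL) (f : CL → Bool) : Bool :=
  stn c.dk fun dk => stn c.hn fun hn => stn c.a1 fun a1 => stn c.a2 fun a2 =>
  stn c.b1 fun b1 => stn c.b2 fun b2 => stn c.c0 fun c0 => stn c.c1 fun c1 =>
  stn c.tk fun tk => stn c.tx fun tx => stn c.ty fun ty => stn c.pa fun pa =>
  stn c.pb fun pb => stn c.vk fun vk => stn c.vx fun vx => stn c.vy fun vy =>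
  stn c.vn fun vn => f ⟨dk, hn, a1, a2, b1, b2, c0, c1, tk, tx, ty, pa, pb, vk, vx, vy, vn⟩

theorem cmpS_eq (c : CL) (f : CL → Bool) : cmpS c f = f c := by
  unfold cmpS
  simp only [stn_eq]

/-- evaluation of the coefficients of a list of types -/
def cmpM (g : LT → CL) (As : List LT) : (List CL → Bool) → Bool :=
  List.rec (motive := fun _ => (List CL → Bool) → Bool) (fun f => f [])
    (fun L _ ih f => cmpS (g L) fun c => ih fun cs => f (c :: cs)) As

theorem cmpM_eq (g : LT → CL) : ∀ (As : List LT) (f : List CL → Bool),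
    cmpM g As f = f (As.map g)
  | [], _ => rfl
  | L :: As, f => by
    have h := cmpM_eq g As (fun cs => f (g L :: cs))
    have h2 : cmpM g (L :: As) f = cmpS (g L) fun c => cmpM g As fun cs => f (c :: cs) := rfl
    rw [h2, cmpS_eq, h, List.map_cons]

/-- evaluation of the coefficients of a list of types -/
def cmpL (P : TP) (As : List LT) (f : List CL → Bool) : Bool := cmpM (cmp P) As f

theorem cmpL_eq (P : TP) (As : List LT) (f : List CL → Bool) :
    cmpL P As f = f (As.map (cmp P)) := cmpM_eq _ As f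

/-- the check of a load -/
def ldF (T nk nj nl b te pe : ℕ) (c : CL) (d : Ld) : Bool :=
  and (Nat.ble (Nat.mul c.dk nk) (Nat.mul 6000000 d.D.k)) <|
  stn (Nat.mul 6000000000000 d.D.j) fun Dj => stn (Nat.mul 6000000000000 d.D.l) fun Dl =>
  stn (Nat.mul 6000000000000 d.X.j) fun Xj => stn (Nat.mul 6000000000000 d.X.l) fun Xl =>
  stn (Nat.mul c.b1 b) fun b1 => stn (Nat.mul c.b2 b) fun b2 =>
  stn (Nat.add c.c0 (Nat.mul c.c1 T)) fun cT =>
  stn (Nat.mul c.tx te) fun tx => stn (Nat.mul c.ty te) fun ty =>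
  stn (Nat.mul c.pa pe) fun pa => stn (Nat.mul c.pb pe) fun pb =>
  and (Nat.ble (Nat.add c.a1 b1) Dj) <|
  and (Nat.ble (Nat.add (Nat.add cT (Nat.mul c.hn nj)) b1) Dj) <|
  and (Nat.ble (Nat.add c.a2 b2) Dl) <|
  and (Nat.ble (Nat.add (Nat.add cT (Nat.mul c.hn nl)) b2) Dl) <|
  and (Nat.ble (Nat.add (Nat.add (Nat.mul c.tk te) pa) (Nat.mul c.vk nk))
    (Nat.mul 6000000000000 d.X.k)) <|
  and (Nat.ble (Nat.add (Nat.add c.vx tx) pa) Xj) <|
  and (Nat.ble (Nat.add (Nat.add (Nat.mul c.vn nj) tx) pb) Xj) <|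
  and (Nat.ble (Nat.add (Nat.add c.vy ty) pa) Xl)
    (Nat.ble (Nat.add (Nat.add (Nat.mul c.vn nl) ty) pb) Xl)

/-- a check of two lists, the second at least as long as the first -/
def zipA {α β : Type} (f : α → β → Bool) (l : List α) : List β → Bool :=
  List.rec (motive := fun _ => List β → Bool) (fun _ => true)
    (fun a _ ih m => List.rec (motive := fun _ => Bool) false (fun b m' _ => and (f a b) (ih m')) m)
    l

theorem zipA_get {α β : Type} {f : α → β → Bool} (d : α) (e : β) : ∀ {l : List α} {m : List β},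
    zipA f l m = true → ∀ i < l.length, f (l.getD i d) (m.getD i e) = true
  | [], _, _, _, hi => absurd hi (Nat.not_lt_zero _)
  | a :: l, [], h, _, _ => by
    exact absurd (show false = true from h) (by decide)
  | a :: l, b :: m, h, i, hi => by
    have h' : (f a b && zipA f l m) = true := h
    rw [Bool.and_eq_true] at h'
    cases i with
    | zero =>
      rw [List.getD_cons_zero, List.getD_cons_zero]
      exact h'.1
    | succ i =>
      rw [List.getD_cons_succ, List.getD_cons_succ]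
      exact zipA_get d e h'.2 i (Nat.lt_of_succ_lt_succ hi)

/-- the value of an affine function at a row -/
def natF (F : AF) (r : RN) : ℕ :=
  Nat.add (Nat.mul F.c0 1000000) (Nat.add (Nat.mul F.k r.nk) (Nat.add (Nat.mul F.j r.nj)
    (Nat.add (Nat.mul F.l r.nl) (Nat.add (Nat.mul F.b r.b) (Nat.add (Nat.mul F.t r.te)
    (Nat.add (Nat.mul F.p r.pe) (Nat.add (Nat.mul F.s r.s) (Nat.add (Nat.mul F.Sk r.Sk)
    (Nat.add (Nat.mul F.Sj r.Sj) (Nat.mul F.Sl r.Sl))))))))))

theorem natF_eq (F : AF) (r : RN) : natF F r = F.nat r := by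
  unfold natF AF.nat
  simp only [Nat.add_eq, Nat.mul_eq]
  ring

/-- the check of a value majorant -/
def esF (r : RN) (V : VT) (e : P3) : Bool :=
  and (Nat.ble (natF V.k r) (Nat.mul 6000000000000000000 e.k)) <|
  and (Nat.ble (natF V.j r) (Nat.mul 6000000000000000000 e.j))
    (Nat.ble (natF V.l r) (Nat.mul 6000000000000000000 e.l))

/-- the check of a row -/
def rowF (cs : List CL) (Vs : List VT) (r : RN) (R : Row) : Bool :=
  and (Nat.ble r.Sk R.S.k) <| and (Nat.ble r.Sj R.S.j) <| and (Nat.ble r.Sl R.S.l) <|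
  and (Nat.ble r.s R.s) <|
  stn r.s fun s => stn r.Sk fun Sk => stn r.Sj fun Sj => stn r.Sl fun Sl =>
  stn r.nk fun nk => stn r.nj fun nj => stn r.nl fun nl => stn r.b fun b =>
  stn r.te fun te => stn r.pe fun pe => stn (Nat.add (Nat.add nk nj) nl) fun T =>
  and (zipA (ldF T nk nj nl b te pe) cs R.ls)
    (zipA (esF ⟨s, Sk, Sj, Sl, nk, nj, nl, b, te, pe⟩) Vs R.es)

/-- the rows of a member -/
def rwsF (cs : List CL) (Vs : List VT) (Rs : List Row) (rs : List RN) : Bool :=
  zipA (fun R r => rowF cs Vs r R) Rs rs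

/-- **the fast check of the rows of a packed family** -/
def tckF (P : TP) (As : List LT) (Vs : List VT) (rl : List (List RN)) (Rs : List (List Row))
    (nl ne : ℕ) : Bool :=
  and (As.all fun L => and (L.ok 0 1000000) (Nat.beq L.nr 0)) <|
  and (Nat.beq nl As.length) <| and (Nat.beq ne Vs.length) <|
  cmpL P As fun cs => zipA (fun R rs => rwsF cs Vs R rs) Rs rl

theorem AF.add_0 (F : AF) : F.add 0 = F := by
  unfold AF.add
  rw [Nat.add_zero]

theorem ldF_sound {P : TP} {L : LT} (hnr : L.nr = 0) {r : RN} {d : Ld}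
    (h : ldF (r.nk + r.nj + r.nl) r.nk r.nj r.nl r.b r.te r.pe (cmp P L) d = true) :
    ldck P L r d = true := by
  unfold ldF cmp at h
  simp only [stn_eq, Bool.and_eq_true, Nat.ble_eq, Nat.add_eq, Nat.mul_eq, Nat.sub_eq] at h
  obtain ⟨h1, h2, h3, h4, h5, h6, h7, h8, h9, h10⟩ := h
  have m : ∀ {a b x y : ℕ}, a ≤ b → x = 1000000 * a → y = 1000000 * b → x ≤ y := by
    intro a b x y h e f
    rw [e, f]
    exact Nat.mul_le_mul_left _ h
  have m' : ∀ {a b x y : ℕ}, a ≤ b → x = 1000000000000 * a → y = 1000000000000 * b →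
      x ≤ y := by
    intro a b x y h e f
    rw [e, f]
    exact Nat.mul_le_mul_left _ h
  unfold ldck
  simp only [Bool.and_eq_true]
  refine ⟨⟨⟨⟨⟨?_, ?_⟩, ?_⟩, ?_⟩, ?_⟩, ?_⟩
  · unfold AF.ck
    rw [Nat.ble_eq]
    refine m' h1 ?_ (by ring)
    unfold AF.nat dK
    ring
  · have e1 : (D1 P L L.ox L.ax 1000000).ck r d.D.j = true := by
      unfold AF.ck
      rw [Nat.ble_eq]
      refine m h2 ?_ (by ring)
      unfold AF.nat D1
      ring
    have e2 : (D2j P L L.ax 1000000).ck r d.D.j = true := by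
      unfold AF.ck
      rw [Nat.ble_eq]
      refine m h3 ?_ (by ring)
      unfold AF.nat D2j CA0 CA1
      ring
    have r0 : RD P L = 0 := by
      unfold RD
      rw [hnr]
      ring
    unfold dJ
    rw [r0, hnr, Nat.sub_zero]
    simp only [List.all_cons, List.all_nil, Bool.and_true, AF.add_0, e1, e2]
  · have e1 : (D1 P L L.oy L.ay 1000000).ck r d.D.l = true := by
      unfold AF.ck
      rw [Nat.ble_eq]
      refine m h4 ?_ (by ring)
      unfold AF.nat D1
      ring
    have e2 : (D2l P L L.ay 1000000).ck r d.D.l = true := by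
      unfold AF.ck
      rw [Nat.ble_eq]
      refine m h5 ?_ (by ring)
      unfold AF.nat D2l CA0 CA1
      ring
    have r0 : RD P L = 0 := by
      unfold RD
      rw [hnr]
      ring
    unfold dL
    rw [r0, hnr, Nat.sub_zero]
    simp only [List.all_cons, List.all_nil, Bool.and_true, AF.add_0, e1, e2]
  · unfold AF.ck
    rw [Nat.ble_eq]
    refine m h6 ?_ (by ring)
    unfold AF.nat xK X0
    ring
  · have e1 : (X1 P L L.ox L.ex 1000000).ck r d.X.j = true := by
      unfold AF.ck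
      rw [Nat.ble_eq]
      refine m h7 ?_ (by ring)
      unfold AF.nat X1 X0
      ring
    have e2 : (X2j P L L.ex 1000000).ck r d.X.j = true := by
      unfold AF.ck
      rw [Nat.ble_eq]
      refine m h8 ?_ (by ring)
      unfold AF.nat X2j X0
      ring
    have r0 : RX P L = 0 := by
      unfold RX
      rw [hnr]
      ring
    unfold xJ
    rw [r0, hnr, Nat.sub_zero]
    simp only [List.all_cons, List.all_nil, Bool.and_true, AF.add_0, e1, e2]
  · have e1 : (X1 P L L.oy L.ey 1000000).ck r d.X.l = true := by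
      unfold AF.ck
      rw [Nat.ble_eq]
      refine m h9 ?_ (by ring)
      unfold AF.nat X1 X0
      ring
    have e2 : (X2l P L L.ey 1000000).ck r d.X.l = true := by
      unfold AF.ck
      rw [Nat.ble_eq]
      refine m h10 ?_ (by ring)
      unfold AF.nat X2l X0
      ring
    have r0 : RX P L = 0 := by
      unfold RX
      rw [hnr]
      ring
    unfold xL
    rw [r0, hnr, Nat.sub_zero]
    simp only [List.all_cons, List.all_nil, Bool.and_true, AF.add_0, e1, e2]

theorem esF_sound {r : RN} {V : VT} {e : P3} (h : esF r V e = true) : esck V r e = true := by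
  unfold esF at h
  simp only [natF_eq, Bool.and_eq_true] at h
  unfold esck AF.ck
  simp only [Bool.and_eq_true]
  exact ⟨⟨h.1, h.2.1⟩, h.2.2⟩

theorem rowF_sound {P : TP} {As : List LT} {Vs : List VT} (hnr : ∀ L ∈ As, L.nr = 0) {r : RN}
    {R : Row} (h : rowF (As.map (cmp P)) Vs r R = true) :
    rowck P As Vs As.length Vs.length r R = true := by
  unfold rowF at h
  simp only [stn_eq, Bool.and_eq_true] at h
  obtain ⟨h1, h2, h3, h4, h5, h6⟩ := h
  unfold rowck
  simp only [Bool.and_eq_true, List.all_eq_true, List.mem_range]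
  refine ⟨⟨⟨⟨⟨h1, h2⟩, h3⟩, h4⟩, fun li hli => ?_⟩, fun ei hei => ?_⟩
  · have k := zipA_get (cmp P lt0) zL h5 li (by rw [List.length_map]; exact hli)
    rw [List.getD_map] at k
    refine ldF_sound (hnr _ ?_) k
    have e : As.getD li lt0 = As[li] := by
      rw [List.getD_eq_getElem?_getD, List.getElem?_eq_getElem hli, Option.getD_some]
    rw [e]
    exact List.getElem_mem hli
  · exact esF_sound (zipA_get vt0 z3 h6 ei hei)

/-- **the fast check implies the check of every member** -/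
theorem tabF {P : TP} {As : List LT} {Vs : List VT} {rl : List (List RN)} {PP : PR}
    {Rs : List (List Row)} (h : tckF P As Vs rl Rs PP.nl PP.ne = true) {A c0 c1 hh : ℕ}
    {T : Tr} (e : ℕ) :
    tck P As Vs 0 1000000 (rl.getD e []) (QQ PP Rs A c0 c1 hh T e) = true := by
  unfold tckF at h
  rw [cmpL_eq] at h
  simp only [Bool.and_eq_true, List.all_eq_true, Nat.beq_eq] at h
  obtain ⟨h1, h2, h3, h4⟩ := h
  unfold tck
  simp only [Bool.and_eq_true, List.all_eq_true, List.mem_range, Nat.ble_eq]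
  refine ⟨⟨⟨⟨⟨fun L hL => (h1 L hL).1, ?_⟩, ?_⟩, ?_⟩, ?_⟩, fun i hi => ?_⟩
  · exact h2.le
  · exact h3.le
  · exact Nat.zero_le _
  · exact le_rfl
  · have hi' : i < (Rs.getD e []).length := hi
    have he : e < Rs.length := by
      by_contra hc
      rw [List.getD_eq_default _ _ (Nat.le_of_not_lt hc)] at hi'
      exact absurd hi' (Nat.not_lt_zero _)
    have k := zipA_get [] [] h4 e he
    have k' := zipA_get zR rn0 (show zipA (fun R r => rowF (As.map (cmp P)) Vs r R)
      (Rs.getD e []) (rl.getD e []) = true from k) i hi'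
    have k2 := rowF_sound (fun L hL => (h1 L hL).2) k'
    show rowck P As Vs PP.nl PP.ne _ _ = true
    rw [h2, h3]
    exact k2

end Helper99.MEI
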