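import Pool.Agent.Helper99.MEI.PartsB
import Pool.Agent.Helper60.MEI.R8S

/-!
# Project MEI (M2), track B: the loads of the parts for weakened node loads

`inst_Tg`: the nodes with the shares `θZ` of the apex and `θA` of the arcs, all terms;
`inst_TR`: any node loads `R ≤ RM`, share `κ = 2/3` of the leaks;
`inst_Th`: share `1/2` of the leaks, price `V/6` of the leaks (`wx V w ≤ V/2`).
-/

set_option autoImplicit false

namespace Helper99.MEI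

open Set Metric MeasureTheory Helper80.CW Helper82.CW Helper14.CW Helper93.MEI Helper78.MEI
open Helper82.M2 Helper14.MEI2 Pool.Agent.Helper52.MEI Pool.Agent.Helper73.MEI Helper41.MEI
open Helper37.MEI
open Pool.Agent.Helper55.Sx (Sim)
open Pool.Agent.Helper55.Mass (LN LN_nonneg vv vv_nonneg vv_le Id)
open Pool.Agent.Helper55.Apex (nc vt_vv)
open Pool.Agent.Helper55.ApexP (PN alP alP_nonneg alP_zeta alP_le xx_mu mu_bal)
open Pool.Agent.Helper55.Fill (xx rr rr_nonneg xx_nonneg xx_le xx_feas)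
open Pool.Agent.Helper73.MEI.SideP (flP flP_nonneg flP_zero flP_pair)
open Pool.Agent.Helper96.Kap (kap kap_nonneg kap_add)
open Pool.Agent.Helper31.SR
open Helper75.MEI2 (mu vt)
open scoped RealInnerProductSpace ENNReal

/-- what the node loads contribute -/
theorem PV_R (A' : ℝ) (N : Fin 3 → Fin 3 → ℝ) (ζ ζp : Fin 3 → ℝ) (lam φ θZ θA : ℝ)
    (β : Fin 3 → ℝ) (M : Fin 3 → Fin 3 → ℝ) (E R R' P r : Fin 3 → ℝ) (s0 : ℝ) (t : ℝ × ℝ) :
    PV A' N ζp lam φ β (fun k => R k + P k) (θZ * (s0 - (ζ 0 * R 0 + ζ 1 * R 1 + ζ 2 * R 2)))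
        (fun l => θA * (E l - (M l 0 * R 0 + M l 1 * R 1 + M l 2 * R 2))) r t =
      PV A' N ζp lam φ β (fun k => R' k + P k)
        (θZ * (s0 - (ζ 0 * R' 0 + ζ 1 * R' 1 + ζ 2 * R' 2)))
        (fun l => θA * (E l - (M l 0 * R' 0 + M l 1 * R' 1 + M l 2 * R' 2))) r t
      + (Xt A' N ζ ζp lam φ θZ θA β M t 0 * (R 0 - R' 0)
        + Xt A' N ζ ζp lam φ θZ θA β M t 1 * (R 1 - R' 1)
        + Xt A' N ζ ζp lam φ θZ θA β M t 2 * (R 2 - R' 2)) := by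
  unfold PV Xt
  ring

/-- the negative apex numbers against the negative coordinates -/
theorem neg_sum {N : Fin 3 → Fin 3 → ℝ} (hN : ∀ k m, 0 ≤ N k m) {cN : ℝ}
    (hcN : ∀ m, nc N m ≤ cN) {ζ b : Fin 3 → ℝ} (hbal : ∀ k, ζ k + LN N ζ k = b k) :
    pp (-ζ 0) * nc N 0 + pp (-ζ 1) * nc N 1 + pp (-ζ 2) * nc N 2 ≤
      cN * (pp (-b 0) + pp (-b 1) + pp (-b 2))
        + cN * (pp (ζ 0) * nc N 0 + pp (ζ 1) * nc N 1 + pp (ζ 2) * nc N 2) := by
  have n0 : ∀ m, 0 ≤ nc N m := fun m => by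
    unfold nc
    have := hN 0 m
    have := hN 1 m
    have := hN 2 m
    linarith
  have h1 : ∀ k, pp (-ζ k) ≤ pp (-b k) + LN N (fun m => pp (ζ m)) k := by
    intro k
    have h2 : LN N ζ k ≤ LN N (fun m => pp (ζ m)) k := by
      unfold LN
      have e0 := mul_le_mul_of_nonneg_left (le_pp (ζ 0)) (hN k 0)
      have e1 := mul_le_mul_of_nonneg_left (le_pp (ζ 1)) (hN k 1)
      have e2 := mul_le_mul_of_nonneg_left (le_pp (ζ 2)) (hN k 2)
      linarith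
    have h3 := LN_nonneg hN (b := fun m => pp (ζ m)) (fun m => pp_nonneg _) k
    have h4 := hbal k
    have h5 := le_pp (-b k)
    exact max_le (by linarith) (by have := pp_nonneg (-b k); linarith)
  have hs := sum_nc N (fun m => pp (ζ m))
  have k0 := mul_le_mul_of_nonneg_left (hcN 0) (pp_nonneg (-ζ 0))
  have k1 := mul_le_mul_of_nonneg_left (hcN 1) (pp_nonneg (-ζ 1))
  have k2 := mul_le_mul_of_nonneg_left (hcN 2) (pp_nonneg (-ζ 2))
  have c0 : 0 ≤ cN := (n0 0).trans (hcN 0)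
  have m0 := mul_le_mul_of_nonneg_right (h1 0) c0
  have m1 := mul_le_mul_of_nonneg_right (h1 1) c0
  have m2 := mul_le_mul_of_nonneg_right (h1 2) c0
  have e : cN * (pp (ζ 0) * nc N 0 + pp (ζ 1) * nc N 1 + pp (ζ 2) * nc N 2) =
      cN * (LN N (fun m => pp (ζ m)) 0 + LN N (fun m => pp (ζ m)) 1
        + LN N (fun m => pp (ζ m)) 2) := by rw [hs]
  rw [e]
  linarith

/-- **the deficit number of the apex**, shares `2/3` and `1/2` -/
theorem apex_Z {N : Fin 3 → Fin 3 → ℝ} (hN : ∀ k m, 0 ≤ N k m) {cN : ℝ}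
    (hcN : ∀ m, nc N m ≤ cN) (hc1 : cN ≤ 1 / 2) {ζ b : Fin 3 → ℝ}
    (hbal : ∀ k, ζ k + LN N ζ k = b k) {e κ h : ℝ} (hs : b 0 + b 1 + b 2 = 1 + e)
    (hκ : (κ = 2 / 3 ∧ h = 0) ∨ (κ = 1 / 2 ∧ h = 1)) :
    (∑ k, (ζ k + (1 - κ) * LN N ζ k)) - 1
      + h / 6 * (pp (-ζ 0) * nc N 0 + pp (-ζ 1) * nc N 1 + pp (-ζ 2) * nc N 2) ≤
      Zd (2 / 3 * cN) e b := by
  have b0 := hbal 0
  have b1 := hbal 1
  have b2 := hbal 2
  have hsum := sum_nc N ζ
  have n0 : ∀ m, 0 ≤ nc N m := fun m => by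
    unfold nc
    have := hN 0 m
    have := hN 1 m
    have := hN 2 m
    linarith
  rcases hκ with ⟨rfl, rfl⟩ | ⟨rfl, rfl⟩
  · have h1 := LN_neg hN hcN (by linarith) hbal
    rw [Fin.sum_univ_three] at h1 ⊢
    unfold Zd
    linarith
  · have h1 := neg_sum hN hcN hbal
    rw [Fin.sum_univ_three]
    have dec : ∀ u : ℝ, u = pp u - pp (-u) := fun u => (pp_sub_pp u).symm
    have d0 := dec (ζ 0)
    have d1 := dec (ζ 1)
    have d2 := dec (ζ 2)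
    have q0 := mul_nonneg (pp_nonneg (ζ 0)) (n0 0)
    have q1 := mul_nonneg (pp_nonneg (ζ 1)) (n0 1)
    have q2 := mul_nonneg (pp_nonneg (ζ 2)) (n0 2)
    obtain ⟨Q, hQ⟩ : ∃ Q, Q = pp (ζ 0) * nc N 0 + pp (ζ 1) * nc N 1 + pp (ζ 2) * nc N 2 :=
      ⟨_, rfl⟩
    obtain ⟨Pn, hP⟩ : ∃ Q, Q = pp (-ζ 0) * nc N 0 + pp (-ζ 1) * nc N 1
      + pp (-ζ 2) * nc N 2 := ⟨_, rfl⟩
    have hz : ζ 0 * nc N 0 + ζ 1 * nc N 1 + ζ 2 * nc N 2 = Q - Pn := by
      rw [hQ, hP]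
      conv_lhs => rw [d0, d1, d2]
      ring
    rw [← hQ, ← hP] at h1
    rw [← hP]
    have hQ0 : 0 ≤ Q := by rw [hQ]; linarith
    have h2 : cN * Q ≤ 1 / 2 * Q := mul_le_mul_of_nonneg_right hc1 hQ0
    unfold Zd
    rw [hz] at hsum
    linarith

section body
variable {a : Fin 4 → E3} {σ : Measure (E3 × E3)} {K : Set E3} {S : Fin 4 → ℝ}
  {c : Fin 4 → E3} {z : Fin 4 → Fin 4 → E3} {l : Fin 3 → Bool → Bool → E3 × E3 → ℝ}

/-- the nodes with the shares `θZ` of the apex and `θA` of the arcs, all terms -/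
theorem inst_Tg [IsFiniteMeasure σ] (h : CN K σ a c) (v : Viol K a S) (hz : CV a K z)
    (τ : Equiv.Perm (Fin 4)) {A' : ℝ} (hA' : 0 < A') (hl : Lok a l)
    {δ dE dm : Fin 3 → ℝ} (hδ : ∀ p, MA σ a l τ p p ≤ δ p) (hdE : ∀ p, 0 ≤ dE p)
    (hdm : ∀ p, 0 ≤ dm p) (hdd : ∀ p, δ p ^ 2 ≤ dE p * dm p)
    {ρ β : Fin 3 → ℝ} (hρ : ∀ p, 0 < ρ p)
    (hMρ : ∀ p k, k ≠ p → MA σ a l τ p k ≤ ρ p)
    {x : E3} (hx : x ∈ K)
    {N : Fin 3 → Fin 3 → ℝ} (hNd : N = NM (fun i => a (τ i)) (fun i j => z (τ i) (τ j)))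
    {R : Fin 3 → ℝ} (hRd : R = RM (fun i => a (τ i)) (fun i j => z (τ i) (τ j)))
    {ζ ζp : Fin 3 → ℝ} (hζd : ζ = zc (fun i => a (τ i)) N x) (hζp : ∀ k, 0 < ζp k)
    (hζ : ∀ k, ζ k ≤ ζp k)
    {φ lam : ℝ} (hφ : 0 < φ) (hl0 : 0 ≤ lam) (hl1 : lam ≤ 1 - φ)
    (hβ0 : ∀ p, 0 ≤ β p) (hβ1 : ∀ p, β p ≤ 1)
    (hK : ∀ p, β p * ρ p ≤ A' * Id (fun t => kap N (vv t) p))
    (hF : ∀ p, (1 - β p) * ρ p ≤ φ * (A' * Id (flP (PN N) p)))
    {θZ θA : ℝ} (hZ0 : 0 ≤ θZ) (hZ1 : θZ ≤ 1) (hA0 : 0 ≤ θA) (hA1 : θA ≤ 1)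
    {V : ℝ} (hV : ∀ k : Fin 3, S (τ k.succ) ≤ V) {t : ℝ × ℝ} (ht : t ∈ Sim)
    {q : E3} (hq : q ∈ K) (κ : ℝ) :
    (∀ k, 0 ≤ Xt A' N ζ ζp lam φ θZ θA β (MB σ a l τ) t k) ∧
    (-(T3 t 0 * S (τ 1) + T3 t 1 * S (τ 2) + T3 t 2 * S (τ 3))
      + PV A' N ζp lam φ β (fun k => R k + PT N (fun k => S (τ k.succ)) k)
        (θZ * (Qv a (τ 0) x - (ζ 0 * R 0 + ζ 1 * R 1 + ζ 2 * R 2)))
        (fun p => θA * ((aE σ a l (τ 0) (τ p.succ) - dE p) - (MB σ a l τ p 0 * R 0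
          + MB σ a l τ p 1 * R 1 + MB σ a l τ p 2 * R 2)))
        (fun p => θA * ((aE σ a l (τ 0) (τ p.succ) - dE p) + (MB σ a l τ p 0 * S (τ 1)
          + MB σ a l τ p 1 * S (τ 2) + MB σ a l τ p 2 * S (τ 3)))) t)
      + (Xt A' N ζ ζp lam φ θZ θA β (MB σ a l τ) t 0 *
            (ng (fun i => a (τ i)) (fun i j => z (τ i) (τ j)) 0 * pp (‖a (τ 0) - q‖ ^ 2 - V)
            - ((nc N 0 + ng (fun i => a (τ i)) (fun i j => z (τ i) (τ j)) 0) / 2 - κ * nc N 0)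
              * ‖a (τ 0) - q‖ ^ 2)
        + Xt A' N ζ ζp lam φ θZ θA β (MB σ a l τ) t 1 *
            (ng (fun i => a (τ i)) (fun i j => z (τ i) (τ j)) 1 * pp (‖a (τ 0) - q‖ ^ 2 - V)
            - ((nc N 1 + ng (fun i => a (τ i)) (fun i j => z (τ i) (τ j)) 1) / 2 - κ * nc N 1)
              * ‖a (τ 0) - q‖ ^ 2)
        + Xt A' N ζ ζp lam φ θZ θA β (MB σ a l τ) t 2 *
            (ng (fun i => a (τ i)) (fun i j => z (τ i) (τ j)) 2 * pp (‖a (τ 0) - q‖ ^ 2 - V)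
            - ((nc N 2 + ng (fun i => a (τ i)) (fun i j => z (τ i) (τ j)) 2) / 2 - κ * nc N 2)
              * ‖a (τ 0) - q‖ ^ 2))
      + (1 - PV A' N ζp lam φ β (fun k => κ * nc N k)
        (θZ * ((∑ k, (ζ k + (1 - κ) * LN N ζ k)) - 1))
        (fun p => θA * ((∑ k, (MB σ a l τ p k + (1 - κ) * LN N (MB σ a l τ p) k))
          - (am σ a l (τ 0) (τ p.succ) - dm p)))
        (fun p => θA * ((MB σ a l τ p 0 + MB σ a l τ p 1 + MB σ a l τ p 2)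
          - (am σ a l (τ 0) (τ p.succ) - dm p))) t) * ‖a (τ 0) - q‖ ^ 2 ≤
      Yt (fun i => a (τ i)) t q := by
  have h' := h.perm τ
  have v' := viol_perm v τ
  have hz' := hz.perm τ
  have hN : ∀ k m, 0 ≤ N k m := fun k m => by
    rw [hNd]
    exact NM_nonneg h' v' hz' k m
  have hd : ∀ k, N k k = 0 := fun k => by
    rw [hNd]
    exact NM_diag k
  have hcol : ∀ m, nc N m ≤ 9 / 10 := fun m => by
    rw [hNd]
    exact nc_le h' v' hz' m
  have hc : (9 / 10 : ℝ) < 1 := by norm_num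
  have hgr := gram_of_dist h'.ha
  have hb : ∀ k, b3 (fun i => a (τ i)) x k ≤ ζ k + LN N ζ k := fun k => by
    rw [hζd]
    exact (mu_bal hN hd hc hcol (b3 (fun i => a (τ i)) x) k).ge
  have hM0 : ∀ l' k, 0 ≤ MB σ a l τ l' k := fun l' k => MB_nonneg τ l' k
  have hMl : ∀ p, MB σ a l τ p p = 0 := fun p => MB_diag τ p
  have hM : ∀ p k, k ≠ p → MB σ a l τ p k ≤ ρ p := fun p k hk => by
    unfold MB
    rw [if_neg hk]
    exact hMρ p k hk
  have hMB : ∀ p k, MB σ a l τ p k ≤ ρ p := fun p k => by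
    by_cases e : k = p
    · rw [e, hMl]
      exact (hρ p).le
    · exact hM p k e
  have hn := ng_facts hz' h' v'
  have hal0 := mul_nonneg hl0 (alP_nonneg (N := N) hζp t)
  have ha0 := fun p => ash0 hN hd hc hcol hφ hA' hβ1 t p
  have hg0 := fun p => ast0 hN hc hcol hA' hβ0 ht p
  -- arcs inside
  have h3 : ∀ p k, θA * ash (fun p t => φ * flP (PN N) p t)
      (fun p => Id (fun t => φ * flP (PN N) p t)) β A' p t * MB σ a l τ p k ≤
      if p = k then 0 else φ * flP (PN N) p t := by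
    intro p k
    by_cases e : p = k
    · rw [e, hMl, if_pos rfl, mul_zero]
    · rw [if_neg e]
      have k1 := mul_le_mul_of_nonneg_left (hM p k (Ne.symm e)) (ha0 p)
      have k2 := k1.trans (ash_room hN hd hc hcol hφ hA' hF t p)
      have k3 := mul_nonneg (ha0 p) (hM0 p k)
      have k4 := mul_le_mul_of_nonneg_right hA1 k3
      linarith
  have h4 : ∀ k : Fin 3, (if (0 : Fin 3) = k then 0 else φ * flP (PN N) 0 t)
      + (if (1 : Fin 3) = k then 0 else φ * flP (PN N) 1 t)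
      + (if (2 : Fin 3) = k then 0 else φ * flP (PN N) 2 t) =
      S2 (fun p => φ * flP (PN N) p t) k := by
    intro k
    unfold S2
    fin_cases k <;> simp <;> ring
  have hX : ∀ k, 0 ≤ xx N (vv t) k - (θZ * (lam * alP N ζp t) * ζ k
      + ∑ p, θA * ash (fun p t => φ * flP (PN N) p t)
      (fun p => Id (fun t => φ * flP (PN N) p t)) β A' p t * MB σ a l τ p k) := by
    intro k
    have k1 := room hN hd hc hcol hφ hl0 hl1 hζp ht k
    have k2 := mul_le_mul_of_nonneg_left (hζ k) (mul_nonneg hZ0 hal0)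
    have k3 := mul_le_mul_of_nonneg_right hZ1 (mul_nonneg hal0 (hζp k).le)
    have a0 := h3 0 k
    have a1 := h3 1 k
    have a2 := h3 2 k
    have a3 := h4 k
    rw [Fin.sum_univ_three]
    linarith
  obtain ⟨w, hw⟩ : ∃ w, w = ‖a (τ 0) - q‖ ^ 2 := ⟨_, rfl⟩
  have hw0 : 0 ≤ w := by rw [hw]; exact sq_nonneg _
  obtain ⟨n, hnd⟩ : ∃ n : Fin 3 → ℝ,
      n = ng (fun i => a (τ i)) (fun i j => z (τ i) (τ j)) := ⟨_, rfl⟩
  have n1 : ∀ j, 0 ≤ n j := fun j => by rw [hnd]; exact (hn j).1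
  have n2 : ∀ j, n j ≤ nc N j / 3 := fun j => by rw [hnd, hNd]; exact (hn j).2.1
  have n3 : ∀ j, 1 + nc N j - 1 / qM (fun i => a (τ i)) (fun i j => z (τ i) (τ j)) j =
      (nc N j + n j) / 2 := fun j => by rw [hnd, hNd]; exact (hn j).2.2
  have key := gen_Yt (ι := Unit) (a := fun i => a (τ i))
    (al := fun _ t => θZ * (lam * alP N ζp t))
    (ζ := fun _ => ζ) (L := fun _ => Qv a (τ 0) x) (μx := fun _ => 1)
    (R := fun j => R j + n j * pp (w - V)) (S := fun k => S (τ k.succ))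
    (μ := fun j => 1 / qM (fun i => a (τ i)) (fun i j => z (τ i) (τ j)) j)
    (α := fun p t => θA * ash (fun p t => φ * flP (PN N) p t)
      (fun p => Id (fun t => φ * flP (PN N) p t)) β A' p t)
    (g := fun p t => θA * ast (fun p t => kap N (vv t) p)
      (fun p => Id (fun t => kap N (vv t) p)) β A' p t)
    (M := MB σ a l τ) (E := fun p => aE σ a l (τ 0) (τ p.succ) - dE p)
    (sm := fun p => am σ a l (τ 0) (τ p.succ) - dm p) hgr hN (h'.hp q hq)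
    (fun _ => mul_nonneg hZ0 hal0)
    (fun p => mul_nonneg hA0 (ha0 p))
    (fun p => mul_nonneg hA0 (hg0 p)) hM0
    (fun k => by
      simp only [Finset.univ_unique, Finset.sum_singleton]
      have := hX k
      linarith)
    (fun k => by
      have k1 := ast_feas4 (κ := fun p t => kap N (vv t) p)
        (fun p t ht => kap_nonneg hN hc hcol (fun k => vv_nonneg ht k) p)
        (fun t ht k => by
          have := kap_S2 hN hc hcol ht k
          unfold S2 at this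
          exact this) hA' hβ0 (fun p => Id_kap_nonneg hN hc hcol p) hK hMl hMB ht k
      have k2 : ∀ p, θA * ast (fun p t => kap N (vv t) p)
          (fun p => Id (fun t => kap N (vv t) p)) β A' p t * MB σ a l τ p k ≤
          ast (fun p t => kap N (vv t) p)
          (fun p => Id (fun t => kap N (vv t) p)) β A' p t * MB σ a l τ p k := fun p => by
        have k3 := mul_nonneg (hg0 p) (hM0 p k)
        have k4 := mul_le_mul_of_nonneg_right hA1 k3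
        linarith
      exact (Finset.sum_le_sum fun p _ => k2 p).trans k1)
    (fun j => by
      rw [hRd, hNd, hnd, hw]
      exact Pt_load_F2 hz' h' v' hq hV j)
    (fun _ => apex_load hgr (h.hd x hx q hq) (h'.hp q hq) hb)
    (fun p => by
      have h0 := arc_load h.ha hl h.cpt h.pm.mem h.hp h.hd τ hq p
      exact load_drop2 h'.ha (h'.hp q hq) h0 (hδ p) ((MA_nonneg τ p p).trans (hδ p))
        (hdE p) (hdm p) (hdd p))
    (v.le _ q hq) (v.le _ q hq) (v.le _ q hq)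
  have hX0 : ∀ k, 0 ≤ Xt A' N ζ ζp lam φ θZ θA β (MB σ a l τ) t k := fun k => by
    have k1 := hX k
    rw [Fin.sum_univ_three] at k1
    exact k1
  rw [Gg_R, Gg_PV, Dg_PV κ] at key
  simp only [n3] at key
  have key2 : (-(T3 t 0 * S (τ 1) + T3 t 1 * S (τ 2) + T3 t 2 * S (τ 3))
      + PV A' N ζp lam φ β (fun k => R k + PT N (fun k => S (τ k.succ)) k)
        (θZ * (Qv a (τ 0) x - (ζ 0 * R 0 + ζ 1 * R 1 + ζ 2 * R 2)))
        (fun p => θA * ((aE σ a l (τ 0) (τ p.succ) - dE p) - (MB σ a l τ p 0 * R 0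
          + MB σ a l τ p 1 * R 1 + MB σ a l τ p 2 * R 2)))
        (fun p => θA * ((aE σ a l (τ 0) (τ p.succ) - dE p) + (MB σ a l τ p 0 * S (τ 1)
          + MB σ a l τ p 1 * S (τ 2) + MB σ a l τ p 2 * S (τ 3)))) t)
      + (Xt A' N ζ ζp lam φ θZ θA β (MB σ a l τ) t 0 * n 0
        + Xt A' N ζ ζp lam φ θZ θA β (MB σ a l τ) t 1 * n 1
        + Xt A' N ζ ζp lam φ θZ θA β (MB σ a l τ) t 2 * n 2) * pp (w - V)
      + (1 - (PV A' N ζp lam φ β (fun k => κ * nc N k)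
        (θZ * ((∑ k, (ζ k + (1 - κ) * LN N ζ k)) - 1))
        (fun p => θA * ((∑ k, (MB σ a l τ p k + (1 - κ) * LN N (MB σ a l τ p) k))
          - (am σ a l (τ 0) (τ p.succ) - dm p)))
        (fun p => θA * ((MB σ a l τ p 0 + MB σ a l τ p 1 + MB σ a l τ p 2)
          - (am σ a l (τ 0) (τ p.succ) - dm p))) t
        + (Xt A' N ζ ζp lam φ θZ θA β (MB σ a l τ) t 0 * ((nc N 0 + n 0) / 2 - κ * nc N 0)
          + Xt A' N ζ ζp lam φ θZ θA β (MB σ a l τ) t 1 * ((nc N 1 + n 1) / 2 - κ * nc N 1)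
          + Xt A' N ζ ζp lam φ θZ θA β (MB σ a l τ) t 2 * ((nc N 2 + n 2) / 2 - κ * nc N 2))))
        * w ≤ Yt (fun i => a (τ i)) t q := by
    rw [hw]
    rw [hw] at key
    exact key
  refine ⟨hX0, ?_⟩
  rw [← hw, ← hnd]
  linarith

/-- **the loads with the shares `θZ` of the apex and `θA` of the arcs**, node loads `R ≤ RM`,
share `κ` of the leaks: `κ = 2/3, h = 0` or `κ = 1/2, h = 1` -/
theorem inst_L [IsFiniteMeasure σ] (h : CN K σ a c) (v : Viol K a S) (hz : CV a K z)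
    (τ : Equiv.Perm (Fin 4)) {A' : ℝ} (hA' : 0 < A') (hl : Lok a l)
    {δ dE dm : Fin 3 → ℝ} (hδ : ∀ p, MA σ a l τ p p ≤ δ p) (hdE : ∀ p, 0 ≤ dE p)
    (hdm : ∀ p, 0 ≤ dm p) (hdd : ∀ p, δ p ^ 2 ≤ dE p * dm p)
    {ρ β : Fin 3 → ℝ} (hρ : ∀ p, 0 < ρ p)
    (hMρ : ∀ p k, k ≠ p → MA σ a l τ p k ≤ ρ p)
    {x : E3} (hx : x ∈ K)
    {N : Fin 3 → Fin 3 → ℝ} (hNd : N = NM (fun i => a (τ i)) (fun i j => z (τ i) (τ j)))
    {R : Fin 3 → ℝ} (hRd : ∀ k, R k ≤ RM (fun i => a (τ i)) (fun i j => z (τ i) (τ j)) k)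
    {ζ ζp : Fin 3 → ℝ} (hζd : ζ = zc (fun i => a (τ i)) N x) (hζp : ∀ k, 0 < ζp k)
    (hζ : ∀ k, ζ k ≤ ζp k)
    {φ lam : ℝ} (hφ : 0 < φ) (hl0 : 0 ≤ lam) (hl1 : lam ≤ 1 - φ)
    (hβ0 : ∀ p, 0 ≤ β p) (hβ1 : ∀ p, β p ≤ 1)
    (hK : ∀ p, β p * ρ p ≤ A' * Id (fun t => kap N (vv t) p))
    (hF : ∀ p, (1 - β p) * ρ p ≤ φ * (A' * Id (flP (PN N) p)))
    {θZ θA : ℝ} (hZ0 : 0 ≤ θZ) (hZ1 : θZ ≤ 1) (hA0 : 0 ≤ θA) (hA1 : θA ≤ 1)
    {V : ℝ} (hV0 : 0 ≤ V) (hV : ∀ k : Fin 3, S (τ k.succ) ≤ V) {t : ℝ × ℝ} (ht : t ∈ Sim)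
    {q : E3} (hq : q ∈ K) {κ hh : ℝ} (hκ : (κ = 2 / 3 ∧ hh = 0) ∨ (κ = 1 / 2 ∧ hh = 1)) :
    (-(T3 t 0 * S (τ 1) + T3 t 1 * S (τ 2) + T3 t 2 * S (τ 3))
      + PV A' N ζp lam φ β (fun k => R k + PT N (fun k => S (τ k.succ)) k)
        (θZ * (Qv a (τ 0) x - (ζ 0 * R 0 + ζ 1 * R 1 + ζ 2 * R 2)))
        (fun p => θA * ((aE σ a l (τ 0) (τ p.succ) - dE p) - (MB σ a l τ p 0 * R 0
          + MB σ a l τ p 1 * R 1 + MB σ a l τ p 2 * R 2)))
        (fun p => θA * ((aE σ a l (τ 0) (τ p.succ) - dE p) + (MB σ a l τ p 0 * S (τ 1)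
          + MB σ a l τ p 1 * S (τ 2) + MB σ a l τ p 2 * S (τ 3)))) t)
      + (1 - PV A' N ζp lam φ β (fun k => κ * nc N k)
        (θZ * ((∑ k, (ζ k + (1 - κ) * LN N ζ k)) - 1
          + hh / 6 * (pp (-ζ 0) * nc N 0 + pp (-ζ 1) * nc N 1 + pp (-ζ 2) * nc N 2)))
        (fun p => θA * ((∑ k, (MB σ a l τ p k + (1 - κ) * LN N (MB σ a l τ p) k))
          - (am σ a l (τ 0) (τ p.succ) - dm p)))
        (fun p => θA * ((MB σ a l τ p 0 + MB σ a l τ p 1 + MB σ a l τ p 2)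
          - (am σ a l (τ 0) (τ p.succ) - dm p))) t) * ‖a (τ 0) - q‖ ^ 2
      - hh * (V / 6) * (xx N (vv t) 0 * nc N 0 + xx N (vv t) 1 * nc N 1
        + xx N (vv t) 2 * nc N 2) ≤
      Yt (fun i => a (τ i)) t q := by
  have h' := h.perm τ
  have v' := viol_perm v τ
  have hz' := hz.perm τ
  have hN : ∀ k m, 0 ≤ N k m := fun k m => by
    rw [hNd]
    exact NM_nonneg h' v' hz' k m
  have hd : ∀ k, N k k = 0 := fun k => by
    rw [hNd]
    exact NM_diag k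
  have hcol : ∀ m, nc N m ≤ 9 / 10 := fun m => by
    rw [hNd]
    exact nc_le h' v' hz' m
  have hc : (9 / 10 : ℝ) < 1 := by norm_num
  have nn : ∀ m, 0 ≤ nc N m := fun m => by
    unfold nc
    have := hN 0 m
    have := hN 1 m
    have := hN 2 m
    linarith
  obtain ⟨RR, hRR⟩ : ∃ RR, RR = RM (fun i => a (τ i)) (fun i j => z (τ i) (τ j)) := ⟨_, rfl⟩
  obtain ⟨hX, key⟩ := inst_Tg h v hz τ hA' hl hδ hdE hdm hdd hρ hMρ hx hNd hRR hζd hζp hζ hφ hl0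
    hl1 hβ0 hβ1 hK hF hZ0 hZ1 hA0 hA1 hV ht hq κ
  rw [PV_R A' N ζ ζp lam φ θZ θA β (MB σ a l τ)
    (fun p => aE σ a l (τ 0) (τ p.succ) - dE p) RR R] at key
  have hn := ng_facts hz' h' v'
  obtain ⟨n, hnd⟩ : ∃ n : Fin 3 → ℝ,
      n = ng (fun i => a (τ i)) (fun i j => z (τ i) (τ j)) := ⟨_, rfl⟩
  have n1 : ∀ j, 0 ≤ n j := fun j => by rw [hnd]; exact (hn j).1
  have n2 : ∀ j, n j ≤ nc N j / 3 := fun j => by rw [hnd, hNd]; exact (hn j).2.1
  rw [← hnd] at key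
  obtain ⟨w, hw⟩ : ∃ w, w = ‖a (τ 0) - q‖ ^ 2 := ⟨_, rfl⟩
  have hw0 : 0 ≤ w := by rw [hw]; exact sq_nonneg _
  rw [← hw] at key ⊢
  obtain ⟨x3, hx3⟩ : ∃ x3, x3 = Xt A' N ζ ζp lam φ θZ θA β (MB σ a l τ) t := ⟨_, rfl⟩
  rw [← hx3] at hX key
  have hR : ∀ k, R k ≤ RR k := fun k => by rw [hRR]; exact hRd k
  have r0 := mul_nonneg (hX 0) (sub_nonneg.2 (hR 0))
  have r1 := mul_nonneg (hX 1) (sub_nonneg.2 (hR 1))
  have r2 := mul_nonneg (hX 2) (sub_nonneg.2 (hR 2))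
  obtain ⟨Zn, hZn⟩ : ∃ Zn, Zn = pp (-ζ 0) * nc N 0 + pp (-ζ 1) * nc N 1
      + pp (-ζ 2) * nc N 2 := ⟨_, rfl⟩
  have split : ∀ e f : ℝ, PV A' N ζp lam φ β (fun k => κ * nc N k) (θZ * (e + f))
        (fun p => θA * ((∑ k, (MB σ a l τ p k + (1 - κ) * LN N (MB σ a l τ p) k))
          - (am σ a l (τ 0) (τ p.succ) - dm p)))
        (fun p => θA * ((MB σ a l τ p 0 + MB σ a l τ p 1 + MB σ a l τ p 2)
          - (am σ a l (τ 0) (τ p.succ) - dm p))) t =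
      PV A' N ζp lam φ β (fun k => κ * nc N k) (θZ * e)
        (fun p => θA * ((∑ k, (MB σ a l τ p k + (1 - κ) * LN N (MB σ a l τ p) k))
          - (am σ a l (τ 0) (τ p.succ) - dm p)))
        (fun p => θA * ((MB σ a l τ p 0 + MB σ a l τ p 1 + MB σ a l τ p 2)
          - (am σ a l (τ 0) (τ p.succ) - dm p))) t + θZ * (lam * alP N ζp t) * f := by
    intro e f
    unfold PV
    ring
  rw [← hZn, split]
  have hal0 := mul_nonneg hl0 (alP_nonneg (N := N) hζp t)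
  rcases hκ with ⟨rfl, rfl⟩ | ⟨rfl, rfl⟩
  · have hbr : ∀ j, 0 ≤ n j * pp (w - V) - ((nc N j + n j) / 2 - 2 / 3 * nc N j) * w := by
      intro j
      have k1 := mul_nonneg (n1 j) (pp_nonneg (w - V))
      have k2 := mul_le_mul_of_nonneg_right (n2 j) hw0
      linarith
    have g0 := mul_nonneg (hX 0) (hbr 0)
    have g1 := mul_nonneg (hX 1) (hbr 1)
    have g2 := mul_nonneg (hX 2) (hbr 2)
    linarith
  · -- the free part of the nodes
    have hM0 : ∀ l' k, 0 ≤ MB σ a l τ l' k := fun l' k => MB_nonneg τ l' k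
    have ha0 : ∀ p, 0 ≤ aw A' N φ β p t := fun p => ash0 hN hd hc hcol hφ hA' hβ1 t p
    have hXx : ∀ k, x3 k ≤ xx N (vv t) k + θZ * (lam * alP N ζp t) * pp (-ζ k) := by
      intro k
      have a0 := mul_nonneg (mul_nonneg hA0 (ha0 0)) (hM0 0 k)
      have a1 := mul_nonneg (mul_nonneg hA0 (ha0 1)) (hM0 1 k)
      have a2 := mul_nonneg (mul_nonneg hA0 (ha0 2)) (hM0 2 k)
      have a3 := mul_le_mul_of_nonneg_left (le_pp (-ζ k)) (mul_nonneg hZ0 hal0)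
      rw [hx3]
      unfold Xt
      linarith
    have hbr : ∀ j, x3 j * (n j * pp (w - V) - ((nc N j + n j) / 2 - 1 / 2 * nc N j) * w) ≥
        -(V / 6 * (xx N (vv t) j * nc N j))
          - 1 / 6 * (θZ * (lam * alP N ζp t) * (pp (-ζ j) * nc N j)) * w := by
      intro j
      have x0 := xx_nonneg hN hc hcol (fun k => vv_nonneg ht k) j
      have w1 := wx_nonneg V w
      have w2 := wx_le_V (w := w) hV0
      have w3 := wx_le_half (V := V) hw0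
      have w4 : w / 2 - pp (w - V) ≤ wx V w := le_pp _
      have z0 := mul_nonneg (mul_nonneg hZ0 hal0) (pp_nonneg (-ζ j))
      -- `bracket ≥ - n wx ≥ - nc/3 wx`
      have k1 := mul_le_mul_of_nonneg_left w4 (n1 j)
      have k2 := mul_le_mul_of_nonneg_right (n2 j) w1
      have k3 : -(nc N j / 3 * wx V w) ≤
          n j * pp (w - V) - ((nc N j + n j) / 2 - 1 / 2 * nc N j) * w := by linarith
      have k4 := mul_le_mul_of_nonneg_left k3 (hX j)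
      have k5 : 0 ≤ nc N j / 3 * wx V w := mul_nonneg (by have := nn j; linarith) w1
      have k6 := mul_le_mul_of_nonneg_right (hXx j) k5
      have k7 : nc N j / 3 * wx V w ≤ nc N j / 3 * (V / 2) :=
        mul_le_mul_of_nonneg_left w2 (by have := nn j; linarith)
      have k8 : nc N j / 3 * wx V w ≤ nc N j / 3 * (w / 2) :=
        mul_le_mul_of_nonneg_left w3 (by have := nn j; linarith)
      have k9 := mul_le_mul_of_nonneg_left k7 x0
      have k10 := mul_le_mul_of_nonneg_left k8 z0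
      linarith
    have g0 := hbr 0
    have g1 := hbr 1
    have g2 := hbr 2
    have e3 : θZ * (lam * alP N ζp t) * (1 / 6 * Zn) * w =
        1 / 6 * (θZ * (lam * alP N ζp t) * (pp (-ζ 0) * nc N 0)) * w
        + 1 / 6 * (θZ * (lam * alP N ζp t) * (pp (-ζ 1) * nc N 1)) * w
        + 1 / 6 * (θZ * (lam * alP N ζp t) * (pp (-ζ 2) * nc N 2)) * w := by
      rw [hZn]
      ring
    linarith

/-- **deficit of the load `inst_L`** at the corner `i`, residual arcs separate -/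
theorem DT2 [IsFiniteMeasure σ] (h : CN K σ a c) (v : Viol K a S) (hz : CV a K z)
    (τ : Equiv.Perm (Fin 4)) {A' : ℝ} (hA' : 0 < A') (hl : Lok a l)
    {ρ β : Fin 3 → ℝ} (hρ : ∀ p, 0 < ρ p) (hMρ : ∀ p k, k ≠ p → MA σ a l τ p k ≤ ρ p)
    {x : E3} (hx : x ∈ K) {N : Fin 3 → Fin 3 → ℝ}
    (hNd : N = NM (fun i => a (τ i)) (fun i j => z (τ i) (τ j)))
    {ζ ζp : Fin 3 → ℝ} (hζd : ζ = zc (fun i => a (τ i)) N x) (hζp : ∀ k, 0 < ζp k)
    {φ lam : ℝ} (hφ : 0 < φ) (hl0 : 0 ≤ lam)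
    (hβ0 : ∀ p, 0 ≤ β p) (hβ1 : ∀ p, β p ≤ 1)
    (hK : ∀ p, β p * ρ p ≤ A' * Id (fun t => kap N (vv t) p))
    (hF : ∀ p, (1 - β p) * ρ p ≤ φ * (A' * Id (flP (PN N) p)))
    {κ hh : ℝ} (hκh : (κ = 2 / 3 ∧ hh = 0) ∨ (κ = 1 / 2 ∧ hh = 1)) {cN : ℝ}
    (hcN : ∀ m, nc N m ≤ cN) (hcN1 : cN ≤ 1 / 2)
    {s χ ω η : ℝ} (hS : ∀ i, S i ≤ s) (hχ0 : 0 ≤ χ) (hχ : 3 / 2 + 2 * s ≤ χ ^ 2)
    (hω0 : 0 ≤ ω) (hω : (1 - ω) * χ ≤ 1) (hη0 : 0 ≤ η)
    {dm : Fin 3 → ℝ} (hη : ∀ p, dm p ≤ η * ρ p)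
    {Ca Cr : ℝ} (hC1 : φ * (2 * ω + η + 2 * (1 - κ) * cN) ≤ Ca) (hCr : 0 ≤ Cr)
    (hC2 : (∀ p, β p = 0) ∨ 2 * ω + η ≤ Cr)
    {θZ θA : ℝ} (hZ0 : 0 ≤ θZ) (hA0 : 0 ≤ θA)
    {t : ℝ × ℝ} (ht : t ∈ Sim) {i j k : Fin 3} (hij : i ≠ j) (hik : i ≠ k) (hjk : j ≠ k) :
    PV A' N ζp lam φ β (fun k => κ * nc N k)
        (θZ * ((∑ k, (ζ k + (1 - κ) * LN N ζ k)) - 1
          + hh / 6 * (pp (-ζ 0) * nc N 0 + pp (-ζ 1) * nc N 1 + pp (-ζ 2) * nc N 2)))
        (fun p => θA * ((∑ k, (MB σ a l τ p k + (1 - κ) * LN N (MB σ a l τ p) k))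
          - (am σ a l (τ 0) (τ p.succ) - dm p)))
        (fun p => θA * ((MB σ a l τ p 0 + MB σ a l τ p 1 + MB σ a l τ p 2)
          - (am σ a l (τ 0) (τ p.succ) - dm p))) t ≤
      κ * (min (vv t j + vv t k) (nc N i) + nc N j * vv t j + nc N k * vv t k)
        + θA * (Ca * (xx N (vv t) j + xx N (vv t) k) + Cr * (rr N (vv t) j + rr N (vv t) k))
        + θZ * (lam / 2 * (bet (Zd (2 / 3 * cN) (-bar (fun i => a (τ i)) 0 x)
            (b3 (fun i => a (τ i)) x))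
            (b3 (fun i => a (τ i)) x j) (b3 (fun i => a (τ i)) x k) *
          (alP N ζp t * (pp (b3 (fun i => a (τ i)) x j) + pp (b3 (fun i => a (τ i)) x k))))) := by
  have hκ : 0 ≤ κ := by
    rcases hκh with h | h <;> rw [h.1] <;> norm_num
  have hκ1 : κ ≤ 1 := by
    rcases hκh with h | h <;> rw [h.1] <;> norm_num
  have h' := h.perm τ
  have v' := viol_perm v τ
  have hz' := hz.perm τ
  have hN : ∀ k m, 0 ≤ N k m := fun k m => by
    rw [hNd]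
    exact NM_nonneg h' v' hz' k m
  have hd : ∀ k, N k k = 0 := fun k => by
    rw [hNd]
    exact NM_diag k
  have hcol : ∀ m, nc N m ≤ 9 / 10 := fun m => by
    rw [hNd]
    exact nc_le h' v' hz' m
  have hc : (9 / 10 : ℝ) < 1 := by norm_num
  have hgr := gram_of_dist h'.ha
  have hbal : ∀ k, ζ k + LN N ζ k = b3 (fun i => a (τ i)) x k := fun k => by
    rw [hζd]
    exact mu_bal hN hd hc hcol (b3 (fun i => a (τ i)) x) k
  have hb : ∀ k, 0 ≤ vv t k := fun k => vv_nonneg ht k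
  have n0 : ∀ m, 0 ≤ nc N m := fun m => by
    unfold nc
    have := hN 0 m
    have := hN 1 m
    have := hN 2 m
    linarith
  have hc0 : 0 ≤ cN := (n0 0).trans (hcN 0)
  have hMB : ∀ p k, MB σ a l τ p k ≤ ρ p := fun p k => by
    unfold MB
    split_ifs with e
    · exact (hρ p).le
    · exact hMρ p k e
  have M2 : ∀ p, MB σ a l τ p 0 + MB σ a l τ p 1 + MB σ a l τ p 2 ≤ 2 * ρ p := by
    intro p
    have m0 := hMB p 0
    have m1 := hMB p 1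
    have m2 := hMB p 2
    have md := MB_diag (σ := σ) (a := a) (l := l) τ p
    fin_cases p
    · simp only [Fin.zero_eta] at m0 m1 m2 md ⊢
      linarith
    · simp only [Fin.mk_one] at m0 m1 m2 md ⊢
      linarith
    · simp only [Fin.reduceFinMk] at m0 m1 m2 md ⊢
      linarith
  have hdef := fun p => MB_def h v hl τ hS hχ0 hχ hω p
  have r1 : ∀ p, (MB σ a l τ p 0 + MB σ a l τ p 1 + MB σ a l τ p 2)
      - (am σ a l (τ 0) (τ p.succ) - dm p) ≤ (2 * ω + η) * ρ p := fun p => by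
    have s2 := hdef p
    have s3 := hη p
    have s4 := mul_le_mul_of_nonneg_left (M2 p) hω0
    linarith
  have r2 : ∀ p, (∑ k, (MB σ a l τ p k + (1 - κ) * LN N (MB σ a l τ p) k))
      - (am σ a l (τ 0) (τ p.succ) - dm p) ≤ (2 * ω + η + 2 * (1 - κ) * cN) * ρ p := fun p => by
    have s1 := sum_nc N (MB σ a l τ p)
    have s5 : MB σ a l τ p 0 * nc N 0 + MB σ a l τ p 1 * nc N 1 + MB σ a l τ p 2 * nc N 2 ≤
        cN * (MB σ a l τ p 0 + MB σ a l τ p 1 + MB σ a l τ p 2) := by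
      have k0 := mul_le_mul_of_nonneg_left (hcN 0) (MB_nonneg (σ := σ) (a := a) (l := l) τ p 0)
      have k1 := mul_le_mul_of_nonneg_left (hcN 1) (MB_nonneg (σ := σ) (a := a) (l := l) τ p 1)
      have k2 := mul_le_mul_of_nonneg_left (hcN 2) (MB_nonneg (σ := σ) (a := a) (l := l) τ p 2)
      linarith
    have s7 := mul_le_mul_of_nonneg_left (M2 p) hc0
    have s8 := mul_le_mul_of_nonneg_left (s5.trans s7) (sub_nonneg.2 hκ1)
    have s9 := r1 p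
    rw [s1] at s8
    rw [Fin.sum_univ_three]
    linarith
  have g0 : 0 ≤ 2 * ω + η := by linarith
  have g1 : 0 ≤ 2 * ω + η + 2 * (1 - κ) * cN := by
    have := mul_nonneg (sub_nonneg.2 hκ1) hc0
    linarith
  have Ca0 : 0 ≤ Ca := (mul_nonneg hφ.le g1).trans hC1
  -- nodes
  have t1 := node_corner hN hd hc hcol hκ ht hij hik hjk
  -- arcs
  have t2 := drop_arc hN hd hc hcol hφ hA' hβ1 hF g1 r2 ht hij hik hjk
  have t2' : aw A' N φ β 0 t * ((∑ k, (MB σ a l τ 0 k + (1 - κ) * LN N (MB σ a l τ 0) k))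
          - (am σ a l (τ 0) (τ (0 : Fin 3).succ) - dm 0))
      + aw A' N φ β 1 t * ((∑ k, (MB σ a l τ 1 k + (1 - κ) * LN N (MB σ a l τ 1) k))
          - (am σ a l (τ 0) (τ (1 : Fin 3).succ) - dm 1))
      + aw A' N φ β 2 t * ((∑ k, (MB σ a l τ 2 k + (1 - κ) * LN N (MB σ a l τ 2) k))
          - (am σ a l (τ 0) (τ (2 : Fin 3).succ) - dm 2)) ≤
      Ca * (xx N (vv t) j + xx N (vv t) k) := by
    refine t2.trans ?_
    have m1 := min_le_left (xx N (vv t) j + xx N (vv t) k) (1 / 2)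
    have m2 := mul_le_mul_of_nonneg_left m1 (mul_nonneg hφ.le g1)
    have m3 := mul_le_mul_of_nonneg_right hC1
      (add_nonneg (xx_nonneg hN hc hcol hb j) (xx_nonneg hN hc hcol hb k))
    linarith
  have t3 : gw A' N β 0 t * ((MB σ a l τ 0 0 + MB σ a l τ 0 1 + MB σ a l τ 0 2)
          - (am σ a l (τ 0) (τ (0 : Fin 3).succ) - dm 0))
      + gw A' N β 1 t * ((MB σ a l τ 1 0 + MB σ a l τ 1 1 + MB σ a l τ 1 2)
          - (am σ a l (τ 0) (τ (1 : Fin 3).succ) - dm 1))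
      + gw A' N β 2 t * ((MB σ a l τ 2 0 + MB σ a l τ 2 1 + MB σ a l τ 2 2)
          - (am σ a l (τ 0) (τ (2 : Fin 3).succ) - dm 2)) ≤
      Cr * (rr N (vv t) j + rr N (vv t) k) := by
    have r0 := add_nonneg (rr_nonneg hN hc hcol hb j) (rr_nonneg hN hc hcol hb k)
    rcases hC2 with hz | hC2
    · have e : ∀ p, gw A' N β p t = 0 := fun p => by
        unfold gw ast
        rw [hz p, zero_mul]
      rw [e, e, e]
      simp only [zero_mul, add_zero]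
      exact mul_nonneg hCr r0
    · refine (drop_res hN hc hcol hA' hβ0 hK g0 r1 ht hij hik hjk).trans ?_
      exact mul_le_mul_of_nonneg_right hC2 r0
  have t4 := mul_le_mul_of_nonneg_left (add_le_add t2' t3) hA0
  -- apex
  have hZ := Zd_body hgr (h'.hp x hx) (cc := 2 / 3 * cN) (by linarith) hjk
  have e1 := apex_Z hN hcN hcN1 hbal (e := -bar (fun i => a (τ i)) 0 x)
    (by rw [b3_sum hgr x]; ring) hκh
  have e2 : Zd (2 / 3 * cN) (-bar (fun i => a (τ i)) 0 x) (b3 (fun i => a (τ i)) x) ≤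
      pp (2 * Zd (2 / 3 * cN) (-bar (fun i => a (τ i)) 0 x) (b3 (fun i => a (τ i)) x)) / 2 := by
    have := le_pp (2 * Zd (2 / 3 * cN) (-bar (fun i => a (τ i)) 0 x) (b3 (fun i => a (τ i)) x))
    linarith
  have e3 := mul_le_mul_of_nonneg_left (e1.trans e2)
    (mul_nonneg hl0 (alP_nonneg (N := N) hζp t))
  rw [← bet_mul hZ] at e3
  have t5 := mul_le_mul_of_nonneg_left e3 hZ0
  unfold PV
  linarith

/-- **what is dropped in `inst_L`**, residual arcs separate -/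
theorem ET2 (h : CN K σ a c) (v : Viol K a S) (hz : CV a K z)
    (τ : Equiv.Perm (Fin 4)) {A' : ℝ} (hA' : 0 < A')
    {ρ β : Fin 3 → ℝ} (hρ : ∀ p, 0 < ρ p) (hMρ : ∀ p k, k ≠ p → MA σ a l τ p k ≤ ρ p)
    {N : Fin 3 → Fin 3 → ℝ} (hNd : N = NM (fun i => a (τ i)) (fun i j => z (τ i) (τ j)))
    {R : Fin 3 → ℝ} (hR : ∀ k, 0 ≤ R k)
    {ζ ζp : Fin 3 → ℝ} (hζp : ∀ k, 0 < ζp k) {φ lam : ℝ} (hφ : 0 < φ) (hl0 : 0 ≤ lam)
    (hβ0 : ∀ p, 0 ≤ β p) (hβ1 : ∀ p, β p ≤ 1)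
    (hK : ∀ p, β p * ρ p ≤ A' * Id (fun t => kap N (vv t) p))
    (hF : ∀ p, (1 - β p) * ρ p ≤ φ * (A' * Id (flP (PN N) p)))
    {E : Fin 3 → ℝ} {s0 g V r Cer : ℝ} (hE : ∀ p, E p ≤ g * ρ p) (hg : 0 ≤ g) (hV0 : 0 ≤ V)
    (hV : ∀ k : Fin 3, S (τ k.succ) ≤ V) (hr0 : 0 ≤ r)
    (hex : s0 - (ζ 0 * R 0 + ζ 1 * R 1 + ζ 2 * R 2) ≤ r * (ζp 0 + ζp 1 + ζp 2))
    (hCer : 0 ≤ Cer) (hC2 : (∀ p, β p = 0) ∨ g + 2 * V ≤ Cer)
    {θZ θA : ℝ} (hZ1 : θZ ≤ 1) (hA1 : θA ≤ 1)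
    {t : ℝ × ℝ} (ht : t ∈ Sim) {i j k : Fin 3} (hij : i ≠ j) (hik : i ≠ k) (hjk : j ≠ k) :
    PV A' N ζp lam φ β (fun _ => 0)
        ((1 - θZ) * (s0 - (ζ 0 * R 0 + ζ 1 * R 1 + ζ 2 * R 2)))
        (fun p => (1 - θA) * (E p - (MB σ a l τ p 0 * R 0 + MB σ a l τ p 1 * R 1
          + MB σ a l τ p 2 * R 2)))
        (fun p => (1 - θA) * (E p + (MB σ a l τ p 0 * S (τ 1) + MB σ a l τ p 1 * S (τ 2)
          + MB σ a l τ p 2 * S (τ 3)))) t ≤
      (1 - θZ) * (lam * r) + (1 - θA) * (φ * g * (xx N (vv t) j + xx N (vv t) k)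
        + Cer * (rr N (vv t) j + rr N (vv t) k)) := by
  have h' := h.perm τ
  have v' := viol_perm v τ
  have hz' := hz.perm τ
  have hN : ∀ k m, 0 ≤ N k m := fun k m => by
    rw [hNd]
    exact NM_nonneg h' v' hz' k m
  have hd : ∀ k, N k k = 0 := fun k => by
    rw [hNd]
    exact NM_diag k
  have hcol : ∀ m, nc N m ≤ 9 / 10 := fun m => by
    rw [hNd]
    exact nc_le h' v' hz' m
  have hc : (9 / 10 : ℝ) < 1 := by norm_num
  have hM0 : ∀ l' k, 0 ≤ MB σ a l τ l' k := fun l' k => MB_nonneg τ l' k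
  have hMl : ∀ p, MB σ a l τ p p = 0 := fun p => MB_diag τ p
  have hb : ∀ k, 0 ≤ vv t k := fun k => vv_nonneg ht k
  have hMB : ∀ p k, MB σ a l τ p k ≤ ρ p := fun p k => by
    unfold MB
    split_ifs with e
    · exact (hρ p).le
    · exact hMρ p k e
  obtain ⟨h1, h2⟩ := ET_le hN hd hc hcol hφ hl0 hA' hζp hβ0 hβ1 hK hF hM0 hMl hMB
    (S := fun k => S (τ k.succ)) hR hE hg hV0 hV hr0 hex hZ1 hA1 ht hij hik hjk
  have u1 : τ (Fin.succ 0) = τ 1 := rfl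
  have u2 : τ (Fin.succ 1) = τ 2 := rfl
  have u3 : τ (Fin.succ 2) = τ 3 := rfl
  rw [u1, u2, u3] at h1 h2
  have r0 := add_nonneg (rr_nonneg hN hc hcol hb j) (rr_nonneg hN hc hcol hb k)
  have h3 : gw A' N β 0 t * (E 0 + (MB σ a l τ 0 0 * S (τ 1) + MB σ a l τ 0 1 * S (τ 2)
            + MB σ a l τ 0 2 * S (τ 3)))
          + gw A' N β 1 t * (E 1 + (MB σ a l τ 1 0 * S (τ 1) + MB σ a l τ 1 1 * S (τ 2)
            + MB σ a l τ 1 2 * S (τ 3)))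
          + gw A' N β 2 t * (E 2 + (MB σ a l τ 2 0 * S (τ 1) + MB σ a l τ 2 1 * S (τ 2)
            + MB σ a l τ 2 2 * S (τ 3))) ≤
      Cer * (rr N (vv t) j + rr N (vv t) k) := by
    rcases hC2 with hz | hC2
    · have e : ∀ p, gw A' N β p t = 0 := fun p => by
        unfold gw ast
        rw [hz p, zero_mul]
      rw [e, e, e]
      simp only [zero_mul, add_zero]
      exact mul_nonneg hCer r0
    · exact h2.trans (mul_le_mul_of_nonneg_right hC2 r0)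
  have h4 := mul_le_mul_of_nonneg_left (min_le_left (xx N (vv t) j + xx N (vv t) k) (1 / 2))
    (mul_nonneg hφ.le hg)
  have h5 := mul_le_mul_of_nonneg_left (add_le_add h4 h3) (sub_nonneg.2 hA1)
  refine h1.trans ?_
  linarith

end body

end Helper99.MEI
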