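import Pool.Agent.Helper99.MEI.WT0
import Pool.Agent.Helper60.MEI.R8T

/-!
# Project MEI (M2), track B: rows of a table with any list of vertices

`lp_corner`: linear majorant of the deficits at a corner, from the feasibility of the nodes;
`loadT`: a load of a part (`θZ`, `θA`, share of the leaks) at the corner `i`.
-/

set_option autoImplicit false

namespace Helper99.MEI

open Set Metric MeasureTheory Helper80.CW Helper82.CW Helper14.CW Helper93.MEI Helper78.MEI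
open Helper82.M2 Helper14.MEI2 Pool.Agent.Helper52.MEI Pool.Agent.Helper73.MEI Helper41.MEI
open Helper37.MEI
open Pool.Agent.Helper55.Sx (Sim)
open Pool.Agent.Helper55.Mass (LN LN_nonneg vv vv_nonneg vv_le Id)
open Pool.Agent.Helper55.Apex (nc vt_vv)
open Pool.Agent.Helper55.ApexP (PN alP alP_nonneg alP_zeta alP_le xx_mu mu_bal)
open Pool.Agent.Helper55.Fill (xx rr rr_nonneg xx_nonneg xx_le xx_feas)
open Pool.Agent.Helper73.MEI.SideP (flP flP_nonneg flP_zero flP_pair)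
open Pool.Agent.Helper96.Kap (kap kap_nonneg kap_add)
open Pool.Agent.Helper31.SR
open Helper75.MEI2 (mu vt)
open scoped RealInnerProductSpace ENNReal

/-! ### A load at a corner -/

/-- shares of the parts -/
theorem PV_split (A' : ℝ) (N : Fin 3 → Fin 3 → ℝ) (ζp : Fin 3 → ℝ) (lam φ θZ θA : ℝ)
    (β v : Fin 3 → ℝ) (e : ℝ) (c r : Fin 3 → ℝ) (t : ℝ × ℝ) :
    PV A' N ζp lam φ β v e c r t =
      PV A' N ζp lam φ β v (θZ * e) (fun k => θA * c k) (fun k => θA * r k) t +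
      PV A' N ζp lam φ β (fun _ => 0) ((1 - θZ) * e) (fun k => (1 - θA) * c k)
        (fun k => (1 - θA) * r k) t := by
  unfold PV
  ring

/-- the nodes without apex numbers -/
theorem PV_z0 (A' : ℝ) (N : Fin 3 → Fin 3 → ℝ) (ζp : Fin 3 → ℝ) (lam φ : ℝ)
    (β v : Fin 3 → ℝ) {e e' : ℝ} (he : e = e') (c r : Fin 3 → ℝ) (t : ℝ × ℝ) :
    PV A' N ζp lam φ β v e c r t = PV A' N ζp lam φ β v e' c r t := by
  rw [he]

/-! ### The feasibility of the nodes as a linear program -/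

/-- **nodes, arcs, residual arcs and apex at a corner**: `x = xx_j + N_ji xx_i + N_jk xx_k + rr_j`,
`xx_i ≤ 1 - x - y`; multipliers `κ w n_i`, `p`, `q`. The three parts of a coordinate are a maximum,
not a sum. -/
theorem lp_corner {N : Fin 3 → Fin 3 → ℝ} (hN : ∀ k m, 0 ≤ N k m) (hd : ∀ k, N k k = 0) {c : ℝ}
    (hc : c < 1) (hcol : ∀ m, nc N m ≤ c) {b : Fin 3 → ℝ} (hb : ∀ k, 0 ≤ b k) {i j k : Fin 3}
    (hij : i ≠ j) (hik : i ≠ k) (hjk : j ≠ k) {κ Ca Cr B AB w ox oy ax ay ν Dk Dj Dl : ℝ}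
    (hκ : 0 ≤ κ) (hw : 0 ≤ w) (hox : 0 ≤ ox) (hoy : 0 ≤ oy)
    (hsp : (1 - w) * nc N i ≤ ox * N j i + oy * N k i)
    (hB : 0 ≤ B)
    (hAB : AB ≤ ax * (b j - rr N b j) + ay * (b k - rr N b k))
    (hk : κ * (w * nc N i) ≤ Dk)
    (hj0 : 0 ≤ B * ax + κ * ox) (hj1 : B * ax + κ * ox ≤ Dj)
    (hj2 : B * ax + κ * nc N j + Ca ≤ Dj)
    (hl0 : 0 ≤ B * ay + κ * oy) (hl1 : B * ay + κ * oy ≤ Dl)
    (hl2 : B * ay + κ * nc N k + Ca ≤ Dl)
    (hr : Cr = 0 ∨ (ν ≤ 1 ∧ rr N b j ≤ ν * b j ∧ rr N b k ≤ ν * b k ∧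
      (1 - ν) * (B * ax + κ * ox) + ν * Cr ≤ Dj ∧
      (1 - ν) * (B * ax + κ * nc N j + Ca) + ν * Cr ≤ Dj ∧
      (1 - ν) * (B * ay + κ * oy) + ν * Cr ≤ Dl ∧
      (1 - ν) * (B * ay + κ * nc N k + Ca) + ν * Cr ≤ Dl)) :
    κ * (xx N b 0 * nc N 0 + xx N b 1 * nc N 1 + xx N b 2 * nc N 2)
      + Ca * (xx N b j + xx N b k) + Cr * (rr N b j + rr N b k) + B * AB ≤
      Dk * b i + Dj * b j + Dl * b k := by
  have x0 : ∀ m, 0 ≤ xx N b m := fun m => xx_nonneg hN hc hcol hb m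
  have r0 : ∀ m, 0 ≤ rr N b m := fun m => rr_nonneg hN hc hcol hb m
  have xi := xx_le hN hc hcol hb i
  have lin : ∀ (m m' m'' : Fin 3), m ≠ m' → m ≠ m'' → m' ≠ m'' →
      b m - rr N b m = xx N b m + (N m m' * xx N b m' + N m m'' * xx N b m'') := by
    intro m m' m'' h1 h2 h3
    have e : LN N (xx N b) m = N m m' * xx N b m' + N m m'' * xx N b m'' := by
      have s := sum3 (fun q => N m q * xx N b q) h1 h2 h3
      have d := hd m
      unfold LN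
      beta_reduce at s
      rw [s, d]
      ring
    unfold rr
    rw [e]
    ring
  have ej := lin j i k hij.symm hjk hik
  have ek := lin k i j hik.symm hjk.symm hij
  have en := sum3 (fun q => xx N b q * nc N q) hij hik hjk
  beta_reduce at en
  rw [en]
  -- the two multipliers
  obtain ⟨Bj, hBj⟩ : ∃ Bj, Bj = max (B * ax + κ * ox) (B * ax + κ * nc N j + Ca) := ⟨_, rfl⟩
  obtain ⟨Bl, hBl⟩ : ∃ Bl, Bl = max (B * ay + κ * oy) (B * ay + κ * nc N k + Ca) := ⟨_, rfl⟩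
  have j1 : B * ax + κ * ox ≤ Bj := by rw [hBj]; exact le_max_left _ _
  have j2 : B * ax + κ * nc N j + Ca ≤ Bj := by rw [hBj]; exact le_max_right _ _
  have l1 : B * ay + κ * oy ≤ Bl := by rw [hBl]; exact le_max_left _ _
  have l2 : B * ay + κ * nc N k + Ca ≤ Bl := by rw [hBl]; exact le_max_right _ _
  have sj : Bj * (b j - rr N b j) + Cr * rr N b j ≤ Dj * b j := by
    have g0 : Bj ≤ Dj := by rw [hBj]; exact max_le hj1 hj2
    have b0 := hb j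
    have q0 := r0 j
    rcases le_total Cr Bj with h1 | h1
    · have := mul_le_mul_of_nonneg_right h1 q0
      have := mul_le_mul_of_nonneg_right g0 b0
      linarith
    · rcases hr with h2 | ⟨h2, h3, -, h4, h5, -, -⟩
      · have p0 : 0 ≤ Bj := hj0.trans j1
        have e : Bj = 0 := le_antisymm (h1.trans h2.le) p0
        have := mul_le_mul_of_nonneg_right g0 b0
        rw [e, h2]
        rw [e] at this
        linarith
      · have g1 : (1 - ν) * Bj + ν * Cr ≤ Dj := by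
          rcases max_choice (B * ax + κ * ox) (B * ax + κ * nc N j + Ca) with h6 | h6
          · rw [hBj, h6]
            exact h4
          · rw [hBj, h6]
            exact h5
        have k1 := mul_le_mul_of_nonneg_left h3 (sub_nonneg.2 h1)
        have k2 := mul_le_mul_of_nonneg_right g1 b0
        linarith
  have sl : Bl * (b k - rr N b k) + Cr * rr N b k ≤ Dl * b k := by
    have g0 : Bl ≤ Dl := by rw [hBl]; exact max_le hl1 hl2
    have b0 := hb k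
    have q0 := r0 k
    rcases le_total Cr Bl with h1 | h1
    · have := mul_le_mul_of_nonneg_right h1 q0
      have := mul_le_mul_of_nonneg_right g0 b0
      linarith
    · rcases hr with h2 | ⟨h2, -, h3, -, -, h4, h5⟩
      · have p0 : 0 ≤ Bl := hl0.trans l1
        have e : Bl = 0 := le_antisymm (h1.trans h2.le) p0
        have := mul_le_mul_of_nonneg_right g0 b0
        rw [e, h2]
        rw [e] at this
        linarith
      · have g1 : (1 - ν) * Bl + ν * Cr ≤ Dl := by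
          rcases max_choice (B * ay + κ * oy) (B * ay + κ * nc N k + Ca) with h6 | h6
          · rw [hBl, h6]
            exact h4
          · rw [hBl, h6]
            exact h5
        have k1 := mul_le_mul_of_nonneg_left h3 (sub_nonneg.2 h1)
        have k2 := mul_le_mul_of_nonneg_right g1 b0
        linarith
  -- the dual inequality
  have a1 := mul_le_mul_of_nonneg_left hAB hB
  have a2 := mul_le_mul_of_nonneg_right (mul_le_mul_of_nonneg_left hsp hκ) (x0 i)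
  have ni : 0 ≤ nc N i := by
    unfold nc
    have := hN 0 i
    have := hN 1 i
    have := hN 2 i
    linarith
  have a3 := mul_le_mul hk xi (x0 i) ((mul_nonneg hκ (mul_nonneg hw ni)).trans hk)
  have a4 := mul_le_mul_of_nonneg_right j2 (x0 j)
  have a5 := mul_le_mul_of_nonneg_right l2 (x0 k)
  have a6 := mul_le_mul_of_nonneg_right j1 (mul_nonneg (hN j i) (x0 i))
  have a7 := mul_le_mul_of_nonneg_right l1 (mul_nonneg (hN k i) (x0 i))
  have a8 := mul_le_mul_of_nonneg_right j1 (mul_nonneg (hN j k) (x0 k))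
  have a9 := mul_le_mul_of_nonneg_right l1 (mul_nonneg (hN k j) (x0 j))
  have a10 := mul_nonneg (mul_nonneg hκ hox) (mul_nonneg (hN j k) (x0 k))
  have a11 := mul_nonneg (mul_nonneg hκ hoy) (mul_nonneg (hN k j) (x0 j))
  rw [ej] at a1 sj
  rw [ek] at a1 sl
  linarith

section body
variable {a : Fin 4 → E3} {σ : Measure (E3 × E3)} {K : Set E3} {S : Fin 4 → ℝ}
  {c : Fin 4 → E3} {z : Fin 4 → Fin 4 → E3} {l : Fin 3 → Bool → Bool → E3 × E3 → ℝ}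

/-- **deficit of the load `inst_L`**, nodes exact, residual arcs separate -/
theorem DT3 [IsFiniteMeasure σ] (h : CN K σ a c) (v : Viol K a S) (hz : CV a K z)
    (τ : Equiv.Perm (Fin 4)) {A' : ℝ} (hA' : 0 < A') (hl : Lok a l)
    {ρ β : Fin 3 → ℝ} (hρ : ∀ p, 0 < ρ p) (hMρ : ∀ p k, k ≠ p → MA σ a l τ p k ≤ ρ p)
    {x : E3} (hx : x ∈ K) {N : Fin 3 → Fin 3 → ℝ}
    (hNd : N = NM (fun i => a (τ i)) (fun i j => z (τ i) (τ j)))
    {ζ ζp : Fin 3 → ℝ} (hζd : ζ = zc (fun i => a (τ i)) N x) (hζp : ∀ k, 0 < ζp k)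
    {φ lam : ℝ} (hφ : 0 < φ) (hl0 : 0 ≤ lam)
    (hβ0 : ∀ p, 0 ≤ β p) (hβ1 : ∀ p, β p ≤ 1)
    (hK : ∀ p, β p * ρ p ≤ A' * Id (fun t => kap N (vv t) p))
    (hF : ∀ p, (1 - β p) * ρ p ≤ φ * (A' * Id (flP (PN N) p)))
    {κ hh : ℝ} (hκh : (κ = 2 / 3 ∧ hh = 0) ∨ (κ = 1 / 2 ∧ hh = 1)) {cN : ℝ}
    (hcN : ∀ m, nc N m ≤ cN) (hcN1 : cN ≤ 1 / 2)
    {s χ ω η : ℝ} (hS : ∀ i, S i ≤ s) (hχ0 : 0 ≤ χ) (hχ : 3 / 2 + 2 * s ≤ χ ^ 2)
    (hω0 : 0 ≤ ω) (hω : (1 - ω) * χ ≤ 1) (hη0 : 0 ≤ η)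
    {dm : Fin 3 → ℝ} (hη : ∀ p, dm p ≤ η * ρ p)
    {Ca Cr : ℝ} (hC1 : φ * (2 * ω + η + 2 * (1 - κ) * cN) ≤ Ca) (hCr : 0 ≤ Cr)
    (hC2 : (∀ p, β p = 0) ∨ 2 * ω + η ≤ Cr)
    {θZ θA : ℝ} (hZ0 : 0 ≤ θZ) (hA0 : 0 ≤ θA)
    {t : ℝ × ℝ} (ht : t ∈ Sim) {i j k : Fin 3} (hij : i ≠ j) (hik : i ≠ k) (hjk : j ≠ k) :
    PV A' N ζp lam φ β (fun k => κ * nc N k)
        (θZ * ((∑ k, (ζ k + (1 - κ) * LN N ζ k)) - 1
          + hh / 6 * (pp (-ζ 0) * nc N 0 + pp (-ζ 1) * nc N 1 + pp (-ζ 2) * nc N 2)))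
        (fun p => θA * ((∑ k, (MB σ a l τ p k + (1 - κ) * LN N (MB σ a l τ p) k))
          - (am σ a l (τ 0) (τ p.succ) - dm p)))
        (fun p => θA * ((MB σ a l τ p 0 + MB σ a l τ p 1 + MB σ a l τ p 2)
          - (am σ a l (τ 0) (τ p.succ) - dm p))) t ≤
      κ * (xx N (vv t) 0 * nc N 0 + xx N (vv t) 1 * nc N 1 + xx N (vv t) 2 * nc N 2)
        + θA * (Ca * (xx N (vv t) j + xx N (vv t) k) + Cr * (rr N (vv t) j + rr N (vv t) k))
        + θZ * (lam / 2 * (bet (Zd (2 / 3 * cN) (-bar (fun i => a (τ i)) 0 x)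
            (b3 (fun i => a (τ i)) x))
            (b3 (fun i => a (τ i)) x j) (b3 (fun i => a (τ i)) x k) *
          (alP N ζp t * (pp (b3 (fun i => a (τ i)) x j) + pp (b3 (fun i => a (τ i)) x k))))) := by
  have hκ : 0 ≤ κ := by
    rcases hκh with h | h <;> rw [h.1] <;> norm_num
  have hκ1 : κ ≤ 1 := by
    rcases hκh with h | h <;> rw [h.1] <;> norm_num
  have h' := h.perm τ
  have v' := viol_perm v τ
  have hz' := hz.perm τ
  have hN : ∀ k m, 0 ≤ N k m := fun k m => by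
    rw [hNd]
    exact NM_nonneg h' v' hz' k m
  have hd : ∀ k, N k k = 0 := fun k => by
    rw [hNd]
    exact NM_diag k
  have hcol : ∀ m, nc N m ≤ 9 / 10 := fun m => by
    rw [hNd]
    exact nc_le h' v' hz' m
  have hc : (9 / 10 : ℝ) < 1 := by norm_num
  have hgr := gram_of_dist h'.ha
  have hbal : ∀ k, ζ k + LN N ζ k = b3 (fun i => a (τ i)) x k := fun k => by
    rw [hζd]
    exact mu_bal hN hd hc hcol (b3 (fun i => a (τ i)) x) k
  have hb : ∀ k, 0 ≤ vv t k := fun k => vv_nonneg ht k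
  have n0 : ∀ m, 0 ≤ nc N m := fun m => by
    unfold nc
    have := hN 0 m
    have := hN 1 m
    have := hN 2 m
    linarith
  have hc0 : 0 ≤ cN := (n0 0).trans (hcN 0)
  have hMB : ∀ p k, MB σ a l τ p k ≤ ρ p := fun p k => by
    unfold MB
    split_ifs with e
    · exact (hρ p).le
    · exact hMρ p k e
  have M2 : ∀ p, MB σ a l τ p 0 + MB σ a l τ p 1 + MB σ a l τ p 2 ≤ 2 * ρ p := by
    intro p
    have m0 := hMB p 0
    have m1 := hMB p 1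
    have m2 := hMB p 2
    have md := MB_diag (σ := σ) (a := a) (l := l) τ p
    fin_cases p
    · simp only [Fin.zero_eta] at m0 m1 m2 md ⊢
      linarith
    · simp only [Fin.mk_one] at m0 m1 m2 md ⊢
      linarith
    · simp only [Fin.reduceFinMk] at m0 m1 m2 md ⊢
      linarith
  have hdef := fun p => MB_def h v hl τ hS hχ0 hχ hω p
  have r1 : ∀ p, (MB σ a l τ p 0 + MB σ a l τ p 1 + MB σ a l τ p 2)
      - (am σ a l (τ 0) (τ p.succ) - dm p) ≤ (2 * ω + η) * ρ p := fun p => by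
    have s2 := hdef p
    have s3 := hη p
    have s4 := mul_le_mul_of_nonneg_left (M2 p) hω0
    linarith
  have r2 : ∀ p, (∑ k, (MB σ a l τ p k + (1 - κ) * LN N (MB σ a l τ p) k))
      - (am σ a l (τ 0) (τ p.succ) - dm p) ≤ (2 * ω + η + 2 * (1 - κ) * cN) * ρ p := fun p => by
    have s1 := sum_nc N (MB σ a l τ p)
    have s5 : MB σ a l τ p 0 * nc N 0 + MB σ a l τ p 1 * nc N 1 + MB σ a l τ p 2 * nc N 2 ≤
        cN * (MB σ a l τ p 0 + MB σ a l τ p 1 + MB σ a l τ p 2) := by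
      have k0 := mul_le_mul_of_nonneg_left (hcN 0) (MB_nonneg (σ := σ) (a := a) (l := l) τ p 0)
      have k1 := mul_le_mul_of_nonneg_left (hcN 1) (MB_nonneg (σ := σ) (a := a) (l := l) τ p 1)
      have k2 := mul_le_mul_of_nonneg_left (hcN 2) (MB_nonneg (σ := σ) (a := a) (l := l) τ p 2)
      linarith
    have s7 := mul_le_mul_of_nonneg_left (M2 p) hc0
    have s8 := mul_le_mul_of_nonneg_left (s5.trans s7) (sub_nonneg.2 hκ1)
    have s9 := r1 p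
    rw [s1] at s8
    rw [Fin.sum_univ_three]
    linarith
  have g0 : 0 ≤ 2 * ω + η := by linarith
  have g1 : 0 ≤ 2 * ω + η + 2 * (1 - κ) * cN := by
    have := mul_nonneg (sub_nonneg.2 hκ1) hc0
    linarith
  have Ca0 : 0 ≤ Ca := (mul_nonneg hφ.le g1).trans hC1
  -- arcs
  have t2 := drop_arc hN hd hc hcol hφ hA' hβ1 hF g1 r2 ht hij hik hjk
  have t2' : aw A' N φ β 0 t * ((∑ k, (MB σ a l τ 0 k + (1 - κ) * LN N (MB σ a l τ 0) k))
          - (am σ a l (τ 0) (τ (0 : Fin 3).succ) - dm 0))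
      + aw A' N φ β 1 t * ((∑ k, (MB σ a l τ 1 k + (1 - κ) * LN N (MB σ a l τ 1) k))
          - (am σ a l (τ 0) (τ (1 : Fin 3).succ) - dm 1))
      + aw A' N φ β 2 t * ((∑ k, (MB σ a l τ 2 k + (1 - κ) * LN N (MB σ a l τ 2) k))
          - (am σ a l (τ 0) (τ (2 : Fin 3).succ) - dm 2)) ≤
      Ca * (xx N (vv t) j + xx N (vv t) k) := by
    refine t2.trans ?_
    have m1 := min_le_left (xx N (vv t) j + xx N (vv t) k) (1 / 2)
    have m2 := mul_le_mul_of_nonneg_left m1 (mul_nonneg hφ.le g1)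
    have m3 := mul_le_mul_of_nonneg_right hC1
      (add_nonneg (xx_nonneg hN hc hcol hb j) (xx_nonneg hN hc hcol hb k))
    linarith
  have t3 : gw A' N β 0 t * ((MB σ a l τ 0 0 + MB σ a l τ 0 1 + MB σ a l τ 0 2)
          - (am σ a l (τ 0) (τ (0 : Fin 3).succ) - dm 0))
      + gw A' N β 1 t * ((MB σ a l τ 1 0 + MB σ a l τ 1 1 + MB σ a l τ 1 2)
          - (am σ a l (τ 0) (τ (1 : Fin 3).succ) - dm 1))
      + gw A' N β 2 t * ((MB σ a l τ 2 0 + MB σ a l τ 2 1 + MB σ a l τ 2 2)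
          - (am σ a l (τ 0) (τ (2 : Fin 3).succ) - dm 2)) ≤
      Cr * (rr N (vv t) j + rr N (vv t) k) := by
    have r0 := add_nonneg (rr_nonneg hN hc hcol hb j) (rr_nonneg hN hc hcol hb k)
    rcases hC2 with hz | hC2
    · have e : ∀ p, gw A' N β p t = 0 := fun p => by
        unfold gw ast
        rw [hz p, zero_mul]
      rw [e, e, e]
      simp only [zero_mul, add_zero]
      exact mul_nonneg hCr r0
    · refine (drop_res hN hc hcol hA' hβ0 hK g0 r1 ht hij hik hjk).trans ?_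
      exact mul_le_mul_of_nonneg_right hC2 r0
  have t4 := mul_le_mul_of_nonneg_left (add_le_add t2' t3) hA0
  -- apex
  have hZ := Zd_body hgr (h'.hp x hx) (cc := 2 / 3 * cN) (by linarith) hjk
  have e1 := apex_Z hN hcN hcN1 hbal (e := -bar (fun i => a (τ i)) 0 x)
    (by rw [b3_sum hgr x]; ring) hκh
  have e2 : Zd (2 / 3 * cN) (-bar (fun i => a (τ i)) 0 x) (b3 (fun i => a (τ i)) x) ≤
      pp (2 * Zd (2 / 3 * cN) (-bar (fun i => a (τ i)) 0 x) (b3 (fun i => a (τ i)) x)) / 2 := by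
    have := le_pp (2 * Zd (2 / 3 * cN) (-bar (fun i => a (τ i)) 0 x) (b3 (fun i => a (τ i)) x))
    linarith
  have e3 := mul_le_mul_of_nonneg_left (e1.trans e2)
    (mul_nonneg hl0 (alP_nonneg (N := N) hζp t))
  rw [← bet_mul hZ] at e3
  have t5 := mul_le_mul_of_nonneg_left e3 hZ0
  unfold PV
  linarith

/-- **what is dropped in `inst_L`**, the apex as `alP e`, residual arcs separate -/
theorem ET3 (h : CN K σ a c) (v : Viol K a S) (hz : CV a K z)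
    (τ : Equiv.Perm (Fin 4)) {A' : ℝ} (hA' : 0 < A')
    {ρ β : Fin 3 → ℝ} (hρ : ∀ p, 0 < ρ p) (hMρ : ∀ p k, k ≠ p → MA σ a l τ p k ≤ ρ p)
    {N : Fin 3 → Fin 3 → ℝ} (hNd : N = NM (fun i => a (τ i)) (fun i j => z (τ i) (τ j)))
    {R : Fin 3 → ℝ}
    {ζ ζp : Fin 3 → ℝ} {φ lam : ℝ} (hφ : 0 < φ)
    (hβ0 : ∀ p, 0 ≤ β p) (hβ1 : ∀ p, β p ≤ 1)
    (hK : ∀ p, β p * ρ p ≤ A' * Id (fun t => kap N (vv t) p))
    (hF : ∀ p, (1 - β p) * ρ p ≤ φ * (A' * Id (flP (PN N) p)))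
    {E : Fin 3 → ℝ} {s0 g g1 V Cer : ℝ} (hE : ∀ p, E p ≤ g * ρ p) (hg : 0 ≤ g) (hg1 : 0 ≤ g1)
    (hE1 : ∀ p, E p - (MB σ a l τ p 0 * R 0 + MB σ a l τ p 1 * R 1 + MB σ a l τ p 2 * R 2) ≤
      g1 * ρ p)
    (hV0 : 0 ≤ V) (hV : ∀ k : Fin 3, S (τ k.succ) ≤ V)
    (hCer : 0 ≤ Cer) (hC2 : (∀ p, β p = 0) ∨ g + 2 * V ≤ Cer)
    {θZ θA : ℝ} (hA1 : θA ≤ 1)
    {t : ℝ × ℝ} (ht : t ∈ Sim) {i j k : Fin 3} (hij : i ≠ j) (hik : i ≠ k) (hjk : j ≠ k) :
    PV A' N ζp lam φ β (fun _ => 0)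
        ((1 - θZ) * (s0 - (ζ 0 * R 0 + ζ 1 * R 1 + ζ 2 * R 2)))
        (fun p => (1 - θA) * (E p - (MB σ a l τ p 0 * R 0 + MB σ a l τ p 1 * R 1
          + MB σ a l τ p 2 * R 2)))
        (fun p => (1 - θA) * (E p + (MB σ a l τ p 0 * S (τ 1) + MB σ a l τ p 1 * S (τ 2)
          + MB σ a l τ p 2 * S (τ 3)))) t ≤
      (1 - θZ) * (lam * (alP N ζp t * (s0 - (ζ 0 * R 0 + ζ 1 * R 1 + ζ 2 * R 2))))
        + (1 - θA) * (φ * g1 * min (xx N (vv t) j + xx N (vv t) k) (1 / 2)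
          + Cer * (rr N (vv t) j + rr N (vv t) k)) := by
  have h' := h.perm τ
  have v' := viol_perm v τ
  have hz' := hz.perm τ
  have hN : ∀ k m, 0 ≤ N k m := fun k m => by
    rw [hNd]
    exact NM_nonneg h' v' hz' k m
  have hd : ∀ k, N k k = 0 := fun k => by
    rw [hNd]
    exact NM_diag k
  have hcol : ∀ m, nc N m ≤ 9 / 10 := fun m => by
    rw [hNd]
    exact nc_le h' v' hz' m
  have hc : (9 / 10 : ℝ) < 1 := by norm_num
  have hM0 : ∀ l' k, 0 ≤ MB σ a l τ l' k := fun l' k => MB_nonneg τ l' k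
  have hMl : ∀ p, MB σ a l τ p p = 0 := fun p => MB_diag τ p
  have hb : ∀ k, 0 ≤ vv t k := fun k => vv_nonneg ht k
  have hMB : ∀ p k, MB σ a l τ p k ≤ ρ p := fun p k => by
    unfold MB
    split_ifs with e
    · exact (hρ p).le
    · exact hMρ p k e
  have a2 := mul_le_mul_of_nonneg_left
    (drop_arc hN hd hc hcol hφ hA' hβ1 hF hg1 hE1 ht hij hik hjk) (sub_nonneg.2 hA1)
  have u1 : τ (Fin.succ 0) = τ 1 := rfl
  have u2 : τ (Fin.succ 1) = τ 2 := rfl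
  have u3 : τ (Fin.succ 2) = τ 3 := rfl
  have c2 : ∀ p, E p + (MB σ a l τ p 0 * S (τ 1) + MB σ a l τ p 1 * S (τ 2)
      + MB σ a l τ p 2 * S (τ 3)) ≤ (g + 2 * V) * ρ p := fun p => by
    have k0 := mul_le_mul_of_nonneg_left (hV 0) (hM0 p 0)
    have k1 := mul_le_mul_of_nonneg_left (hV 1) (hM0 p 1)
    have k2 := mul_le_mul_of_nonneg_left (hV 2) (hM0 p 2)
    have m0 := mul_le_mul_of_nonneg_right (hMB p 0) hV0
    have m1 := mul_le_mul_of_nonneg_right (hMB p 1) hV0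
    have m2 := mul_le_mul_of_nonneg_right (hMB p 2) hV0
    have md := hMl p
    have := hE p
    rw [u1] at k0
    rw [u2] at k1
    rw [u3] at k2
    fin_cases p
    · simp only [Fin.zero_eta] at k0 k1 k2 m0 m1 m2 md this ⊢
      rw [md] at k0 ⊢
      linarith
    · simp only [Fin.mk_one] at k0 k1 k2 m0 m1 m2 md this ⊢
      rw [md] at k1 ⊢
      linarith
    · simp only [Fin.reduceFinMk] at k0 k1 k2 m0 m1 m2 md this ⊢
      rw [md] at k2 ⊢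
      linarith
  have r0 := add_nonneg (rr_nonneg hN hc hcol hb j) (rr_nonneg hN hc hcol hb k)
  have h3 : gw A' N β 0 t * (E 0 + (MB σ a l τ 0 0 * S (τ 1) + MB σ a l τ 0 1 * S (τ 2)
            + MB σ a l τ 0 2 * S (τ 3)))
          + gw A' N β 1 t * (E 1 + (MB σ a l τ 1 0 * S (τ 1) + MB σ a l τ 1 1 * S (τ 2)
            + MB σ a l τ 1 2 * S (τ 3)))
          + gw A' N β 2 t * (E 2 + (MB σ a l τ 2 0 * S (τ 1) + MB σ a l τ 2 1 * S (τ 2)
            + MB σ a l τ 2 2 * S (τ 3))) ≤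
      Cer * (rr N (vv t) j + rr N (vv t) k) := by
    rcases hC2 with hz | hC2
    · have e : ∀ p, gw A' N β p t = 0 := fun p => by
        unfold gw ast
        rw [hz p, zero_mul]
      rw [e, e, e]
      simp only [zero_mul, add_zero]
      exact mul_nonneg hCer r0
    · exact (drop_res hN hc hcol hA' hβ0 hK (by linarith) c2 ht hij hik hjk).trans
        (mul_le_mul_of_nonneg_right hC2 r0)
  have h4 := mul_le_mul_of_nonneg_left h3 (sub_nonneg.2 hA1)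
  unfold PV
  linarith

/-- **the weight of the apex sits on the filled part**: `AB = alP (b_j⁺ + b_k⁺)` -/
theorem AB3 (h : CN K σ a c) (v : Viol K a S) (hz : CV a K z)
    (τ : Equiv.Perm (Fin 4)) {x : E3} {N : Fin 3 → Fin 3 → ℝ}
    (hNd : N = NM (fun i => a (τ i)) (fun i j => z (τ i) (τ j)))
    {ζ ζp : Fin 3 → ℝ} (hζd : ζ = zc (fun i => a (τ i)) N x) (hζp : ∀ k, 0 < ζp k)
    (hζ : ∀ k, ζ k ≤ ζp k) {t : ℝ × ℝ} (ht : t ∈ Sim) (j k : Fin 3) :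
    0 ≤ alP N ζp t * (pp (b3 (fun i => a (τ i)) x j) + pp (b3 (fun i => a (τ i)) x k)) ∧
    prt (b3 (fun i => a (τ i)) x j) (b3 (fun i => a (τ i)) x k) *
      (alP N ζp t * (pp (b3 (fun i => a (τ i)) x j) + pp (b3 (fun i => a (τ i)) x k))) ≤
        vv t j - rr N (vv t) j ∧
    (1 - prt (b3 (fun i => a (τ i)) x j) (b3 (fun i => a (τ i)) x k)) *
      (alP N ζp t * (pp (b3 (fun i => a (τ i)) x j) + pp (b3 (fun i => a (τ i)) x k))) ≤
        vv t k - rr N (vv t) k := by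
  have h' := h.perm τ
  have v' := viol_perm v τ
  have hz' := hz.perm τ
  have hN : ∀ k m, 0 ≤ N k m := fun k m => by
    rw [hNd]
    exact NM_nonneg h' v' hz' k m
  have hd : ∀ k, N k k = 0 := fun k => by
    rw [hNd]
    exact NM_diag k
  have hcol : ∀ m, nc N m ≤ 9 / 10 := fun m => by
    rw [hNd]
    exact nc_le h' v' hz' m
  have hc : (9 / 10 : ℝ) < 1 := by norm_num
  have hbal : ∀ k, ζ k + LN N ζ k = b3 (fun i => a (τ i)) x k := fun k => by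
    rw [hζd]
    exact mu_bal hN hd hc hcol (b3 (fun i => a (τ i)) x) k
  have h0 := alP_nonneg (N := N) hζp t
  have h3 : ∀ k, alP N ζp t * ζp k ≤ xx N (vv t) k := fun k =>
    alP_le hN hd hc hcol hζp (fun _ => le_rfl) ht k
  have q : ∀ m, alP N ζp t * pp (b3 (fun i => a (τ i)) x m) ≤ vv t m - rr N (vv t) m := by
    intro m
    have e1 : pp (b3 (fun i => a (τ i)) x m) ≤ ζp m + LN N ζp m := by
      refine max_le ?_ (add_nonneg (hζp m).le (LN_nonneg hN (fun k => (hζp k).le) m))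
      rw [← hbal m]
      have k0 := mul_le_mul_of_nonneg_left (hζ 0) (hN m 0)
      have k1 := mul_le_mul_of_nonneg_left (hζ 1) (hN m 1)
      have k2 := mul_le_mul_of_nonneg_left (hζ 2) (hN m 2)
      have := hζ m
      unfold LN
      linarith
    have e2 := mul_le_mul_of_nonneg_left e1 h0
    have k0 := mul_le_mul_of_nonneg_left (h3 0) (hN m 0)
    have k1 := mul_le_mul_of_nonneg_left (h3 1) (hN m 1)
    have k2 := mul_le_mul_of_nonneg_left (h3 2) (hN m 2)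
    have k3 := h3 m
    unfold LN at e2
    unfold rr LN
    linarith
  have p1 := pp_nonneg (b3 (fun i => a (τ i)) x j)
  have p2 := pp_nonneg (b3 (fun i => a (τ i)) x k)
  have e := prt_mul (b3 (fun i => a (τ i)) x j) (b3 (fun i => a (τ i)) x k)
  refine ⟨mul_nonneg h0 (by linarith), ?_, ?_⟩
  · have e2 : prt (b3 (fun i => a (τ i)) x j) (b3 (fun i => a (τ i)) x k) *
        (alP N ζp t * (pp (b3 (fun i => a (τ i)) x j) + pp (b3 (fun i => a (τ i)) x k))) =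
        alP N ζp t * pp (b3 (fun i => a (τ i)) x j) := by
      linear_combination (alP N ζp t) * e
    rw [e2]
    exact q j
  · have e2 : (1 - prt (b3 (fun i => a (τ i)) x j) (b3 (fun i => a (τ i)) x k)) *
        (alP N ζp t * (pp (b3 (fun i => a (τ i)) x j) + pp (b3 (fun i => a (τ i)) x k))) =
        alP N ζp t * pp (b3 (fun i => a (τ i)) x k) := by
      linear_combination (-alP N ζp t) * e
    rw [e2]
    exact q k

/-- **a load at the corner `i`**: shares `θZ` of the apex, `θA` of the arcs, `κ` of the leaks;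
majorants `Dk, Dj, Dl` of the deficit and `Xk, Xj, Xl` of the dropped value -/
theorem loadT [IsFiniteMeasure σ] (h : CN K σ a c) (v : Viol K a S) (hz : CV a K z)
    (τ : Equiv.Perm (Fin 4)) {A' : ℝ} (hA' : 0 < A') (hl : Lok a l)
    {δ dE dm : Fin 3 → ℝ} (hδ : ∀ p, MA σ a l τ p p ≤ δ p) (hdE : ∀ p, 0 ≤ dE p)
    (hdm : ∀ p, 0 ≤ dm p) (hdd : ∀ p, δ p ^ 2 ≤ dE p * dm p)
    {ρ β : Fin 3 → ℝ} (hρ : ∀ p, 0 < ρ p)
    (hMρ : ∀ p k, k ≠ p → MA σ a l τ p k ≤ ρ p)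
    {x : E3} (hx : x ∈ K)
    {N : Fin 3 → Fin 3 → ℝ} (hNd : N = NM (fun i => a (τ i)) (fun i j => z (τ i) (τ j)))
    {R : Fin 3 → ℝ}
    (hRd : ∀ k, R k ≤ RM (fun i => a (τ i)) (fun i j => z (τ i) (τ j)) k)
    (hxs : Qv a (τ 0) x = S (τ 0) ∨ (S (τ 0) = 0 ∧ ∀ k, R k = 0))
    {ζ ζp : Fin 3 → ℝ} (hζd : ζ = zc (fun i => a (τ i)) N x) (hζp : ∀ k, 0 < ζp k)
    (hζ : ∀ k, ζ k ≤ ζp k)
    {φ lam : ℝ} (hφ : 0 < φ) (hl0 : 0 ≤ lam) (hl1 : lam ≤ 1 - φ)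
    (hβ0 : ∀ p, 0 ≤ β p) (hβ1 : ∀ p, β p ≤ 1)
    (hK : ∀ p, β p * ρ p ≤ A' * Id (fun t => kap N (vv t) p))
    (hF : ∀ p, (1 - β p) * ρ p ≤ φ * (A' * Id (flP (PN N) p)))
    {θZ θA : ℝ} (hZ0 : 0 ≤ θZ) (hZ1 : θZ ≤ 1) (hA0 : 0 ≤ θA) (hA1 : θA ≤ 1)
    {κ hh : ℝ} (hκ : (κ = 2 / 3 ∧ hh = 0) ∨ (κ = 1 / 2 ∧ hh = 1))
    {cN : ℝ} (hcN : ∀ m, nc N m ≤ cN) (hcN1 : cN ≤ 1 / 2)
    {s χ ω η : ℝ} (hS : ∀ i, S i ≤ s) (hχ0 : 0 ≤ χ) (hχ : 3 / 2 + 2 * s ≤ χ ^ 2)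
    (hω0 : 0 ≤ ω) (hω : (1 - ω) * χ ≤ 1) (hη0 : 0 ≤ η) (hη : ∀ p, dm p ≤ η * ρ p)
    {Ca Cr : ℝ} (hC1 : φ * (2 * ω + η + 2 * (1 - κ) * cN) ≤ Ca) (hCr : 0 ≤ Cr)
    (hC2 : (∀ p, β p = 0) ∨ 2 * ω + η ≤ Cr)
    {g g1 V r Cer : ℝ} (hE : ∀ p, aE σ a l (τ 0) (τ p.succ) - dE p ≤ g * ρ p) (hg : 0 ≤ g)
    (hg1 : 0 ≤ g1)
    (hE1 : ∀ p, (aE σ a l (τ 0) (τ p.succ) - dE p) - (MB σ a l τ p 0 * R 0
      + MB σ a l τ p 1 * R 1 + MB σ a l τ p 2 * R 2) ≤ g1 * ρ p)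
    (hV0 : 0 ≤ V) (hV : ∀ k : Fin 3, S (τ k.succ) ≤ V)
    (hCer : 0 ≤ Cer) (hC3 : (∀ p, β p = 0) ∨ g + 2 * V ≤ Cer)
    {t : ℝ × ℝ} (ht : t ∈ Sim) {i j k : Fin 3} (hij : i ≠ j) (hik : i ≠ k) (hjk : j ≠ k)
    {w ox oy ax ay ν Dk Dj Dl : ℝ} (hw : 0 ≤ w) (hox : 0 ≤ ox) (hoy : 0 ≤ oy)
    (hsp : (1 - w) * nc N i ≤ ox * N j i + oy * N k i)
    {B : ℝ} (hB : B = θZ * (lam / 2 * bet (Zd (2 / 3 * cN) (-bar (fun i => a (τ i)) 0 x)
      (b3 (fun i => a (τ i)) x)) (b3 (fun i => a (τ i)) x j) (b3 (fun i => a (τ i)) x k)))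
    (hax : 0 ≤ ax) (hay : 0 ≤ ay)
    (hAB : θZ = 0 ∨ 1 ≤ ax * prt (b3 (fun i => a (τ i)) x j) (b3 (fun i => a (τ i)) x k) +
      ay * (1 - prt (b3 (fun i => a (τ i)) x j) (b3 (fun i => a (τ i)) x k)))
    (hk : κ * (w * nc N i) ≤ Dk)
    (hj1 : B * ax + κ * ox ≤ Dj) (hj2 : B * ax + κ * nc N j + θA * Ca ≤ Dj)
    (hl1' : B * ay + κ * oy ≤ Dl) (hl2 : B * ay + κ * nc N k + θA * Ca ≤ Dl)
    {ta e0 ex ey Xk Xj Xl : ℝ} (hta0 : 0 ≤ ta) (hta1 : ta ≤ 1)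
    (hal : θZ = 1 ∨ alP N ζp t * (S (τ 0) - (ζ 0 * R 0 + ζ 1 * R 1 + ζ 2 * R 2)) ≤
      r * (e0 * vv t i + ex * vv t j + ey * vv t k))
    (hXk : (1 - θZ) * (lam * r * e0) + (1 - θA) * (φ * g1 * (ta / 2))
      + hh * (V / 6) * (w * nc N i) ≤ Xk)
    (hXj1 : (1 - θZ) * (lam * r * ex) + (1 - θA) * (φ * g1 * (ta / 2))
      + hh * (V / 6) * ox ≤ Xj)
    (hXj2 : (1 - θZ) * (lam * r * ex) + (1 - θA) * (φ * g1 * (ta / 2))
      + hh * (V / 6) * nc N j + (1 - θA) * (φ * g1 * (1 - ta)) ≤ Xj)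
    (hXl1 : (1 - θZ) * (lam * r * ey) + (1 - θA) * (φ * g1 * (ta / 2))
      + hh * (V / 6) * oy ≤ Xl)
    (hXl2 : (1 - θZ) * (lam * r * ey) + (1 - θA) * (φ * g1 * (ta / 2))
      + hh * (V / 6) * nc N k + (1 - θA) * (φ * g1 * (1 - ta)) ≤ Xl)
    (hr : (Cr = 0 ∧ Cer = 0) ∨ (0 ≤ ν ∧ ν ≤ 1 ∧ rr N (vv t) j ≤ ν * vv t j ∧
      rr N (vv t) k ≤ ν * vv t k ∧
      (1 - ν) * (B * ax + κ * ox) + ν * (θA * Cr) ≤ Dj ∧
      (1 - ν) * (B * ax + κ * nc N j + θA * Ca) + ν * (θA * Cr) ≤ Dj ∧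
      (1 - ν) * (B * ay + κ * oy) + ν * (θA * Cr) ≤ Dl ∧
      (1 - ν) * (B * ay + κ * nc N k + θA * Ca) + ν * (θA * Cr) ≤ Dl ∧
      (1 - θZ) * (lam * r * ex) + (1 - θA) * (φ * g1 * (ta / 2))
        + (1 - ν) * (hh * (V / 6) * ox) + ν * ((1 - θA) * Cer) ≤ Xj ∧
      (1 - θZ) * (lam * r * ex) + (1 - θA) * (φ * g1 * (ta / 2))
        + (1 - ν) * (hh * (V / 6) * nc N j + (1 - θA) * (φ * g1 * (1 - ta)))
        + ν * ((1 - θA) * Cer) ≤ Xj ∧
      (1 - θZ) * (lam * r * ey) + (1 - θA) * (φ * g1 * (ta / 2))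
        + (1 - ν) * (hh * (V / 6) * oy) + ν * ((1 - θA) * Cer) ≤ Xl ∧
      (1 - θZ) * (lam * r * ey) + (1 - θA) * (φ * g1 * (ta / 2))
        + (1 - ν) * (hh * (V / 6) * nc N k + (1 - θA) * (φ * g1 * (1 - ta)))
        + ν * ((1 - θA) * Cer) ≤ Xl))
    {q : E3} (hq : q ∈ K) :
    GM A' N ζ ζp lam (fun p t => φ * flP (PN N) p t) (fun p t => kap N (vv t) p) β
        (MB σ a l τ) (fun p => aE σ a l (τ 0) (τ p.succ) - dE p) R
        (fun k => S (τ k.succ)) (S (τ 0)) t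
      + (1 - (Dk * vv t i + Dj * vv t j + Dl * vv t k)) * ‖a (τ 0) - q‖ ^ 2
      - (Xk * vv t i + Xj * vv t j + Xl * vv t k) ≤
      Yt (fun i => a (τ i)) t q := by
  have h' := h.perm τ
  have v' := viol_perm v τ
  have hz' := hz.perm τ
  have hN : ∀ k m, 0 ≤ N k m := fun k m => by
    rw [hNd]
    exact NM_nonneg h' v' hz' k m
  have hd : ∀ k, N k k = 0 := fun k => by
    rw [hNd]
    exact NM_diag k
  have hcol : ∀ m, nc N m ≤ 9 / 10 := fun m => by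
    rw [hNd]
    exact nc_le h' v' hz' m
  have hc : (9 / 10 : ℝ) < 1 := by norm_num
  have hb : ∀ k, 0 ≤ vv t k := fun k => vv_nonneg ht k
  have hh0 : 0 ≤ hh := by
    rcases hκ with h | h <;> rw [h.2] <;> norm_num
  have hκ0 : 0 ≤ κ := by
    rcases hκ with h | h <;> rw [h.1] <;> norm_num
  have hκ1 : κ ≤ 1 := by
    rcases hκ with h | h <;> rw [h.1] <;> norm_num
  obtain ⟨wq, hwq⟩ : ∃ w, w = ‖a (τ 0) - q‖ ^ 2 := ⟨_, rfl⟩
  have hw0 : 0 ≤ wq := by rw [hwq]; exact sq_nonneg _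
  have u1 : τ (Fin.succ 0) = τ 1 := rfl
  have u2 : τ (Fin.succ 1) = τ 2 := rfl
  have u3 : τ (Fin.succ 2) = τ 3 := rfl
  have x0 := add_nonneg (xx_nonneg hN hc hcol hb j) (xx_nonneg hN hc hcol hb k)
  have rle : ∀ m, rr N (vv t) m ≤ vv t m := fun m => by
    have e1 := xx_nonneg hN hc hcol hb m
    have e2 := LN_nonneg hN (fun k => xx_nonneg hN hc hcol hb k) m
    unfold rr
    linarith
  have V6 : 0 ≤ hh * (V / 6) := mul_nonneg hh0 (by linarith)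
  have d := DT3 h v hz τ hA' hl hρ hMρ hx hNd hζd hζp hφ hl0 hβ0 hβ1 hK hF hκ hcN hcN1 hS hχ0 hχ
    hω0 hω hη0 hη hC1 hCr hC2 hZ0 hA0 ht hij hik hjk
  have e := ET3 (σ := σ) (l := l) (lam := lam) (ζp := ζp) (θZ := θZ) h v hz τ hA' hρ hMρ hNd
    (R := R) (ζ := ζ) (s0 := S (τ 0)) hφ hβ0 hβ1 hK hF hE hg hg1 hE1 hV0 hV hCer hC3 hA1 ht hij
    hik hjk
  obtain ⟨f0, f2, f3⟩ := AB3 (σ := σ) h v hz τ hNd hζd hζp hζ ht j k
  obtain ⟨AB, hABe⟩ : ∃ AB, AB = alP N ζp t * (pp (b3 (fun i => a (τ i)) x j) +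
    pp (b3 (fun i => a (τ i)) x k)) := ⟨_, rfl⟩
  obtain ⟨bt, hbt⟩ : ∃ bt, bt = bet (Zd (2 / 3 * cN) (-bar (fun i => a (τ i)) 0 x)
    (b3 (fun i => a (τ i)) x)) (b3 (fun i => a (τ i)) x j)
    (b3 (fun i => a (τ i)) x k) := ⟨_, rfl⟩
  obtain ⟨pr, hpr⟩ : ∃ pr, pr = prt (b3 (fun i => a (τ i)) x j)
    (b3 (fun i => a (τ i)) x k) := ⟨_, rfl⟩
  rw [← hABe, ← hpr] at f2 f3
  rw [← hABe] at f0
  rw [← hpr] at hAB
  rw [← hbt] at hB
  rw [← hABe, ← hbt] at d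
  have bt0 : 0 ≤ bt := by
    rw [hbt]
    exact bet_nonneg _ _ _
  have hB0 : 0 ≤ B := by
    rw [hB]
    exact mul_nonneg hZ0 (mul_nonneg (by linarith) bt0)
  have Ca0 : 0 ≤ Ca := by
    have n0 : ∀ m, 0 ≤ nc N m := fun m => by
      unfold nc
      have := hN 0 m
      have := hN 1 m
      have := hN 2 m
      linarith
    have c0 : 0 ≤ cN := (n0 0).trans (hcN 0)
    have c1 := mul_nonneg (sub_nonneg.2 hκ1) c0
    exact (mul_nonneg hφ.le (by linarith)).trans hC1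
  -- the linear program of the deficit
  have rD : θA * Cr = 0 ∨ (ν ≤ 1 ∧ rr N (vv t) j ≤ ν * vv t j ∧ rr N (vv t) k ≤ ν * vv t k ∧
      (1 - ν) * (B * ax + κ * ox) + ν * (θA * Cr) ≤ Dj ∧
      (1 - ν) * (B * ax + κ * nc N j + θA * Ca) + ν * (θA * Cr) ≤ Dj ∧
      (1 - ν) * (B * ay + κ * oy) + ν * (θA * Cr) ≤ Dl ∧
      (1 - ν) * (B * ay + κ * nc N k + θA * Ca) + ν * (θA * Cr) ≤ Dl) := by
    rcases hr with ⟨h1, -⟩ | ⟨-, h1, h2, h3, h4, h5, h6, h7, -⟩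
    · left
      rw [h1, mul_zero]
    · exact Or.inr ⟨h1, h2, h3, h4, h5, h6, h7⟩
  have D1 : κ * (xx N (vv t) 0 * nc N 0 + xx N (vv t) 1 * nc N 1 + xx N (vv t) 2 * nc N 2)
      + (θA * Ca) * (xx N (vv t) j + xx N (vv t) k)
      + (θA * Cr) * (rr N (vv t) j + rr N (vv t) k) + B * AB ≤
      Dk * vv t i + Dj * vv t j + Dl * vv t k := by
    have hs1 : 0 ≤ B * ax + κ * ox := add_nonneg (mul_nonneg hB0 hax) (mul_nonneg hκ0 hox)
    have hs2 : 0 ≤ B * ay + κ * oy := add_nonneg (mul_nonneg hB0 hay) (mul_nonneg hκ0 hoy)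
    rcases hAB with hz0 | hAB
    · have hBz : B = 0 := by
        rw [hB, hz0, zero_mul]
      have k1 := lp_corner (AB := 0) hN hd hc hcol hb hij hik hjk hκ0 hw hox hoy hsp hB0
        (add_nonneg (mul_nonneg hax (sub_nonneg.2 (rle j))) (mul_nonneg hay
          (sub_nonneg.2 (rle k)))) hk hs1 hj1 hj2 hs2 hl1' hl2 rD
      rw [mul_zero] at k1
      rw [hBz, zero_mul]
      exact k1
    · refine lp_corner hN hd hc hcol hb hij hik hjk hκ0 hw hox hoy hsp hB0 ?_ hk hs1 hj1 hj2 hs2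
        hl1' hl2 rD
      have k1 := mul_le_mul_of_nonneg_right hAB f0
      have k2 := mul_le_mul_of_nonneg_left f2 hax
      have k3 := mul_le_mul_of_nonneg_left f3 hay
      linarith
  -- the linear program of the dropped value
  have g0 : 0 ≤ φ * g1 := mul_nonneg hφ.le hg1
  have t0 : 0 ≤ 1 - ta := sub_nonneg.2 hta1
  have A0 : 0 ≤ 1 - θA := sub_nonneg.2 hA1
  have X1 : hh * (V / 6) * (xx N (vv t) 0 * nc N 0 + xx N (vv t) 1 * nc N 1
        + xx N (vv t) 2 * nc N 2)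
      + ((1 - θA) * (φ * g1 * (1 - ta))) * (xx N (vv t) j + xx N (vv t) k)
      + ((1 - θA) * Cer) * (rr N (vv t) j + rr N (vv t) k) + 0 * 0 ≤
      (Xk - ((1 - θZ) * (lam * r * e0) + (1 - θA) * (φ * g1 * (ta / 2)))) * vv t i
        + (Xj - ((1 - θZ) * (lam * r * ex) + (1 - θA) * (φ * g1 * (ta / 2)))) * vv t j
        + (Xl - ((1 - θZ) * (lam * r * ey) + (1 - θA) * (φ * g1 * (ta / 2)))) * vv t k := by
    have rj := sub_nonneg.2 (rle j)
    have rk := sub_nonneg.2 (rle k)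
    refine lp_corner (ax := 0) (ay := 0) (ν := ν) hN hd hc hcol hb hij hik hjk V6 hw hox hoy hsp
      le_rfl (by linarith) (by linarith) ?_ (by linarith) (by linarith) ?_ (by linarith)
      (by linarith) ?_
    · rw [zero_mul, zero_add]
      exact mul_nonneg V6 hox
    · rw [zero_mul, zero_add]
      exact mul_nonneg V6 hoy
    · rcases hr with ⟨-, h1⟩ | ⟨-, h1, h2, h3, -, -, -, -, h4, h5, h6, h7⟩
      · left
        rw [h1, mul_zero]
      · right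
        refine ⟨h1, h2, h3, ?_, ?_, ?_, ?_⟩
        all_goals linarith
  have X2 : (1 - θZ) * (lam * (alP N ζp t * (S (τ 0) - (ζ 0 * R 0 + ζ 1 * R 1 + ζ 2 * R 2))))
        + (1 - θA) * (φ * g1 * min (xx N (vv t) j + xx N (vv t) k) (1 / 2)
          + Cer * (rr N (vv t) j + rr N (vv t) k))
      + hh * (V / 6) * (xx N (vv t) 0 * nc N 0 + xx N (vv t) 1 * nc N 1
        + xx N (vv t) 2 * nc N 2) ≤ Xk * vv t i + Xj * vv t j + Xl * vv t k := by
    have m1 := mul_le_mul_of_nonneg_left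
      (min_le_left (xx N (vv t) j + xx N (vv t) k) (1 / 2)) t0
    have m2 := mul_le_mul_of_nonneg_left
      (min_le_right (xx N (vv t) j + xx N (vv t) k) (1 / 2)) hta0
    have m3 : min (xx N (vv t) j + xx N (vv t) k) (1 / 2) ≤
        (1 - ta) * (xx N (vv t) j + xx N (vv t) k) + ta / 2 := by linarith
    have m4 := mul_le_mul_of_nonneg_left (mul_le_mul_of_nonneg_left m3 g0) A0
    have v1 := sum3 (vv t) hij hik hjk
    rw [vv_sum] at v1
    have m5 : (1 - θZ) * (lam * (alP N ζp t *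
          (S (τ 0) - (ζ 0 * R 0 + ζ 1 * R 1 + ζ 2 * R 2)))) ≤
        (1 - θZ) * (lam * (r * (e0 * vv t i + ex * vv t j + ey * vv t k))) := by
      rcases hal with h1 | h1
      · rw [h1]
        linarith
      · exact mul_le_mul_of_nonneg_left (mul_le_mul_of_nonneg_left h1 hl0) (sub_nonneg.2 hZ1)
    have m6 : (1 - θA) * (φ * g1 * (ta / 2)) =
        (1 - θA) * (φ * g1 * (ta / 2)) * (vv t i + vv t j + vv t k) := by
      rw [← v1, mul_one]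
    linarith
  have sp := PV_split A' N ζp lam φ θZ θA β
    (fun k => R k + PT N (fun k => S (τ k.succ)) k)
    (S (τ 0) - (ζ 0 * R 0 + ζ 1 * R 1 + ζ 2 * R 2))
    (fun l' => (aE σ a l (τ 0) (τ l'.succ) - dE l') - (MB σ a l τ l' 0 * R 0
      + MB σ a l τ l' 1 * R 1 + MB σ a l τ l' 2 * R 2))
    (fun l' => (aE σ a l (τ 0) (τ l'.succ) - dE l') + (MB σ a l τ l' 0 * S (τ 1)
      + MB σ a l τ l' 1 * S (τ 2) + MB σ a l τ l' 2 * S (τ 3))) t
  rw [GM_PV]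
  beta_reduce
  beta_reduce at sp e
  rw [u1, u2, u3, ← hwq, sp]
  have D2 := mul_le_mul_of_nonneg_right D1 hw0
  -- the load
  rcases hxs with hxs | ⟨hs0, hRz⟩
  · have k1 := inst_L h v hz τ hA' hl hδ hdE hdm hdd hρ hMρ hx hNd hRd hζd hζp hζ hφ hl0 hl1
      hβ0 hβ1 hK hF hZ0 hZ1 hA0 hA1 hV0 hV ht hq hκ
    rw [hxs, ← hwq] at k1
    have d' : _ ≤ κ * (xx N (vv t) 0 * nc N 0 + xx N (vv t) 1 * nc N 1 + xx N (vv t) 2 * nc N 2)
      + (θA * Ca) * (xx N (vv t) j + xx N (vv t) k)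
      + (θA * Cr) * (rr N (vv t) j + rr N (vv t) k) + B * AB := d.trans (le_of_eq (by
        rw [hB]
        ring))
    have k2 := mul_le_mul_of_nonneg_right d' hw0
    linarith
  · have k1 := inst_L h v hz τ hA' hl hδ hdE hdm hdd hρ hMρ hx hNd hRd hζd hζp hζ hφ hl0 hl1
      hβ0 hβ1 hK hF (θZ := 0) le_rfl zero_le_one hA0 hA1 hV0 hV ht hq hκ
    have d0 := DT3 h v hz τ hA' hl hρ hMρ hx hNd hζd hζp hφ hl0 hβ0 hβ1 hK hF hκ hcN hcN1 hS
      hχ0 hχ hω0 hω hη0 hη hC1 hCr hC2 (θZ := 0) le_rfl hA0 ht hij hik hjk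
    have z1 : θZ * (S (τ 0) - (ζ 0 * R 0 + ζ 1 * R 1 + ζ 2 * R 2)) =
        0 * (Qv a (τ 0) x - (ζ 0 * R 0 + ζ 1 * R 1 + ζ 2 * R 2)) := by
      rw [hs0, hRz 0, hRz 1, hRz 2]
      ring
    rw [z1]
    rw [← hwq] at k1
    have p1 : 0 ≤ B * AB := mul_nonneg hB0 f0
    have d' : _ ≤ κ * (xx N (vv t) 0 * nc N 0 + xx N (vv t) 1 * nc N 1 + xx N (vv t) 2 * nc N 2)
      + (θA * Ca) * (xx N (vv t) j + xx N (vv t) k)
      + (θA * Cr) * (rr N (vv t) j + rr N (vv t) k) + B * AB :=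
      (d0.trans (le_of_eq (by ring))).trans (le_add_of_nonneg_right p1)
    have k2 := mul_le_mul_of_nonneg_right d' hw0
    linarith

end body

end Helper99.MEI
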