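import Pool.Agent.Helper99.MEI.WT2
import Pool.Agent.Helper78.MEI.WB4

/-!
# Project MEI (M2), track B: the loads and the majorants of a table on a placed body

`val_body`: majorant of the value; `loads_body`: the premise `Loads` of rule R8 for the rows with
any weights.
-/

set_option autoImplicit false

namespace Helper99.MEI

open Set Metric MeasureTheory Helper80.CW Helper82.CW Helper14.CW Helper93.MEI Helper78.MEI
open Helper82.M2 Helper14.MEI2 Pool.Agent.Helper52.MEI Pool.Agent.Helper73.MEI Helper41.MEI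
open Helper37.MEI Helper60.R8
open Helper60.R7 (U U_pos jj ll T3_pos')
open Helper33.MEI (Dl)
open Pool.Agent.Helper55.Sx (Sim)
open Pool.Agent.Helper55.Mass (LN LN_nonneg vv vv_nonneg vv_le Id)
open Pool.Agent.Helper55.Apex (nc vt_vv)
open Pool.Agent.Helper55.ApexP (PN alP alP_nonneg alP_zeta alP_le xx_mu mu_bal)
open Pool.Agent.Helper55.Fill (xx rr rr_nonneg xx_nonneg xx_le xx_feas)
open Pool.Agent.Helper73.MEI.SideP (flP flP_nonneg flP_zero flP_pair)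
open Pool.Agent.Helper96.Kap (kap kap_nonneg kap_add)
open Pool.Agent.Helper31.SR
open Helper75.MEI2 (mu vt)
open scoped RealInnerProductSpace ENNReal

/-! ### The demands of a type as real numbers -/

section dem
variable (P : TP) (L : LT) (r : RR)

/-- slope of the arcs -/
noncomputable def caR : ℝ :=
  (L.a : ℝ) * ((1 - (L.h : ℝ)) * (qq P.c0 + qq P.c1 * (r.nk + r.nj + r.nl))
    + (L.h : ℝ) * (qq P.d0 + qq P.d1 * (r.nk + r.nj + r.nl)))

/-- factor of the apex -/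
noncomputable def baR : ℝ := (L.z : ℝ) * (qq P.hl * r.b)

/-- the dropped apex and the constant part of the dropped arcs -/
noncomputable def x0R (e : ℕ) : ℝ :=
  (1 - (L.z : ℝ)) * (qq P.lr * r.te * qq e) + (1 - (L.a : ℝ)) * (qq P.ce * r.pe * (qq L.ta / 2))

variable (hh : L.h ≤ 1)
include hh

theorem ev_dK : (dK L).ev r = (4 - (L.h : ℝ)) / 6 * (qq L.w * r.nk) := by
  unfold dK AF.ev
  dsimp only
  push_cast [Nat.cast_sub (show L.h ≤ 4 by omega)]
  simp only [cq]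
  ring

theorem ev_D1 (o g f : ℕ) : (D1 P L o g f).ev r =
    qq f * (baR P L r * qq g + (4 - (L.h : ℝ)) / 6 * qq o) := by
  unfold D1 AF.ev baR
  dsimp only
  push_cast [Nat.cast_sub (show L.h ≤ 4 by omega)]
  simp only [cq]
  ring

theorem ev_D2j (g f : ℕ) : (D2j P L g f).ev r =
    qq f * (baR P L r * qq g + (4 - (L.h : ℝ)) / 6 * r.nj + caR P L r) := by
  unfold D2j AF.ev baR caR CA0 CA1
  dsimp only
  push_cast [Nat.cast_sub (show L.h ≤ 4 by omega), Nat.cast_sub hh]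
  simp only [cq]
  ring

theorem ev_D2l (g f : ℕ) : (D2l P L g f).ev r =
    qq f * (baR P L r * qq g + (4 - (L.h : ℝ)) / 6 * r.nl + caR P L r) := by
  unfold D2l AF.ev baR caR CA0 CA1
  dsimp only
  push_cast [Nat.cast_sub (show L.h ≤ 4 by omega), Nat.cast_sub hh]
  simp only [cq]
  ring

omit hh in
theorem ev_add (F : AF) (e : ℕ) : (F.add e).ev r = F.ev r + (e : ℝ) / 6000000000000000000 := by
  unfold AF.add AF.ev
  dsimp only
  push_cast
  ring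

omit hh in
theorem ev_RD (F : AF) : (F.add (RD P L)).ev r =
    F.ev r + qq L.nr * ((L.a : ℝ) * qq P.rc) := by
  rw [ev_add]
  unfold RD
  push_cast
  simp only [cq]
  ring

omit hh in
theorem ev_RX (ha : L.a ≤ 1) (F : AF) : (F.add (RX P L)).ev r =
    F.ev r + qq L.nr * ((1 - (L.a : ℝ)) * qq P.re) := by
  rw [ev_add]
  unfold RX
  push_cast [Nat.cast_sub ha]
  simp only [cq]
  ring

omit hh in
theorem ev_xK (hz : L.z ≤ 1) (ha : L.a ≤ 1) : (xK P L).ev r =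
    x0R P L r L.e0 + (L.h : ℝ) * qq P.V6 * (qq L.w * r.nk) := by
  unfold xK X0 AF.ev x0R
  dsimp only
  push_cast [Nat.cast_sub hz, Nat.cast_sub ha]
  simp only [cq]
  ring

omit hh in
theorem ev_X1 (hz : L.z ≤ 1) (ha : L.a ≤ 1) (o e f : ℕ) : (X1 P L o e f).ev r =
    x0R P L r e + qq f * ((L.h : ℝ) * qq P.V6 * qq o) := by
  unfold X1 X0 AF.ev x0R
  dsimp only
  push_cast [Nat.cast_sub hz, Nat.cast_sub ha]
  simp only [cq]
  ring

omit hh in
theorem ev_X2j (hz : L.z ≤ 1) (ha : L.a ≤ 1) (ht : L.ta ≤ 1000000) (e f : ℕ) :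
    (X2j P L e f).ev r = x0R P L r e + qq f * ((L.h : ℝ) * qq P.V6 * r.nj
      + (1 - (L.a : ℝ)) * (qq P.ce * r.pe * (1 - qq L.ta))) := by
  unfold X2j X0 AF.ev x0R
  dsimp only
  push_cast [Nat.cast_sub hz, Nat.cast_sub ha, Nat.cast_sub ht]
  simp only [cq]
  ring

omit hh in
theorem ev_X2l (hz : L.z ≤ 1) (ha : L.a ≤ 1) (ht : L.ta ≤ 1000000) (e f : ℕ) :
    (X2l P L e f).ev r = x0R P L r e + qq f * ((L.h : ℝ) * qq P.V6 * r.nl
      + (1 - (L.a : ℝ)) * (qq P.ce * r.pe * (1 - qq L.ta))) := by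
  unfold X2l X0 AF.ev x0R
  dsimp only
  push_cast [Nat.cast_sub hz, Nat.cast_sub ha, Nat.cast_sub ht]
  simp only [cq]
  ring

end dem

theorem qq_one : qq 1000000 = 1 := by
  unfold qq
  norm_num

theorem qq_sub {n : ℕ} (h : n ≤ 1000000) : qq (1000000 - n) = 1 - qq n := by
  unfold qq
  push_cast [Nat.cast_sub h]
  ring

section body
variable {a : Fin 4 → E3} {σ : Measure (E3 × E3)} {K : Set E3} {S : Fin 4 → ℝ}
  {c : Fin 4 → E3} {z : Fin 4 → Fin 4 → E3} {l : Fin 3 → Bool → Bool → E3 × E3 → ℝ}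

/-- **majorant of the value**: `G ≤ e` -/
theorem val_body (h : CN K σ a c) (v : Viol K a S) (hz : CV a K z)
    (τ : Equiv.Perm (Fin 4)) {A' : ℝ} (hA' : 0 < A')
    {dE : Fin 3 → ℝ} {ρ β : Fin 3 → ℝ} (hρ : ∀ p, 0 < ρ p)
    (hMρ : ∀ p k, k ≠ p → MA σ a l τ p k ≤ ρ p)
    {N : Fin 3 → Fin 3 → ℝ} (hNd : N = NM (fun i => a (τ i)) (fun i j => z (τ i) (τ j)))
    {R : Fin 3 → ℝ} (hR0 : ∀ k, 0 ≤ R k)
    {ζ ζp : Fin 3 → ℝ} (hζp : ∀ k, 0 < ζp k)
    {φ lam : ℝ} (hφ : 0 < φ) (hl0 : 0 ≤ lam) (hl1 : lam ≤ 1 - φ)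
    (hβ0 : ∀ p, 0 ≤ β p) (hβ1 : ∀ p, β p ≤ 1)
    (hK : ∀ p, β p * ρ p ≤ A' * Id (fun t => kap N (vv t) p))
    (hF : ∀ p, (1 - β p) * ρ p ≤ φ * (A' * Id (flP (PN N) p)))
    {g r e : ℝ} (hE : ∀ p, aE σ a l (τ 0) (τ p.succ) - dE p ≤ g * ρ p) (hg : 0 ≤ g)
    (hgr : g ≤ 2 * r) (hre : ∀ k, R k + r ≤ e)
    (hex : S (τ 0) - (ζ 0 * R 0 + ζ 1 * R 1 + ζ 2 * R 2) ≤ r * (ζp 0 + ζp 1 + ζp 2))
    {t : ℝ × ℝ} (ht : t ∈ Sim) :
    GM A' N ζ ζp lam (fun p t => φ * flP (PN N) p t) (fun p t => kap N (vv t) p) β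
        (MB σ a l τ) (fun p => aE σ a l (τ 0) (τ p.succ) - dE p) R
        (fun k => S (τ k.succ)) (S (τ 0)) t ≤ e := by
  have h' := h.perm τ
  have v' := viol_perm v τ
  have hz' := hz.perm τ
  have hN : ∀ k m, 0 ≤ N k m := fun k m => by
    rw [hNd]
    exact NM_nonneg h' v' hz' k m
  have hd : ∀ k, N k k = 0 := fun k => by
    rw [hNd]
    exact NM_diag k
  have hcol : ∀ m, nc N m ≤ 9 / 10 := fun m => by
    rw [hNd]
    exact nc_le h' v' hz' m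
  have hc : (9 / 10 : ℝ) < 1 := by norm_num
  have hM0 : ∀ l' k, 0 ≤ MB σ a l τ l' k := fun l' k => MB_nonneg τ l' k
  have hMl : ∀ p, MB σ a l τ p p = 0 := fun p => MB_diag τ p
  have hMB : ∀ p k, MB σ a l τ p k ≤ ρ p := fun p k => by
    unfold MB
    split_ifs with e
    · exact (hρ p).le
    · exact hMρ p k e
  have r0 : 0 ≤ r := by linarith
  have e0 : 0 ≤ e := by
    have := hre 0
    have := hR0 0
    linarith
  have hS0 : ∀ k : Fin 3, 0 ≤ S (τ k.succ) := fun k => v.nn _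
  have u1 : τ (Fin.succ 0) = τ 1 := rfl
  have u2 : τ (Fin.succ 1) = τ 2 := rfl
  have u3 : τ (Fin.succ 2) = τ 3 := rfl
  -- the prices
  have ePT : ∀ k, PT N (fun m => S (τ m.succ) + e) k =
      PT N (fun m => S (τ m.succ)) k + e * (1 + nc N k) := by
    intro k
    unfold PT nc
    ring
  have nn : ∀ m, 0 ≤ nc N m := fun m => by
    unfold nc
    have := hN 0 m
    have := hN 1 m
    have := hN 2 m
    linarith
  have hdif : ∀ k, r ≤ PT N (fun m => S (τ m.succ) + e) k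
      - (R k + PT N (fun m => S (τ m.succ)) k) := by
    intro k
    rw [ePT]
    have := mul_nonneg e0 (nn k)
    have := hre k
    linarith
  have key := PV_price hN hd hc hcol hA' hφ hl0 hl1 hζp hβ0 hβ1 hK hF
    (δ := fun k => S (τ k.succ) + e) (v := fun k => R k + PT N (fun k => S (τ k.succ)) k)
    (e := S (τ 0) - (ζ 0 * R 0 + ζ 1 * R 1 + ζ 2 * R 2))
    (c := fun l' => (aE σ a l (τ 0) (τ l'.succ) - dE l') - (MB σ a l τ l' 0 * R 0
      + MB σ a l τ l' 1 * R 1 + MB σ a l τ l' 2 * R 2))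
    (r := fun l' => (aE σ a l (τ 0) (τ l'.succ) - dE l') + (MB σ a l τ l' 0 * S (τ 1)
      + MB σ a l τ l' 1 * S (τ 2) + MB σ a l τ l' 2 * S (τ 3)))
    (γ := fun _ => g) (γ' := fun l' => S2 (fun k => S (τ k.succ) + e) l')
    (fun k => add_nonneg (hS0 k) e0)
    (fun k => by
      have := hdif k
      linarith)
    (Or.inr (by
      have d0 := mul_le_mul_of_nonneg_left (hdif 0) (hζp 0).le
      have d1 := mul_le_mul_of_nonneg_left (hdif 1) (hζp 1).le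
      have d2 := mul_le_mul_of_nonneg_left (hdif 2) (hζp 2).le
      linarith))
    (fun _ => hg)
    (fun p => by
      have k0 := mul_nonneg (hM0 p 0) (hR0 0)
      have k1 := mul_nonneg (hM0 p 1) (hR0 1)
      have k2 := mul_nonneg (hM0 p 2) (hR0 2)
      have := hE p
      linarith)
    (fun p => by
      have d0 := hdif 0
      have d1 := hdif 1
      have d2 := hdif 2
      unfold S2
      fin_cases p
      · simp only [Fin.zero_eta]; linarith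
      · simp only [Fin.mk_one]; linarith
      · simp only [Fin.reduceFinMk]; linarith)
    (fun p => by
      have d0 := hS0 0
      have d1 := hS0 1
      have d2 := hS0 2
      unfold S2
      fin_cases p
      · simp only [Fin.zero_eta]; linarith
      · simp only [Fin.mk_one]; linarith
      · simp only [Fin.reduceFinMk]; linarith)
    (fun p => Or.inr ⟨by
      have hEp := hE p
      have md := hMl p
      have m0 := mul_le_mul_of_nonneg_right (hMB p 0) (hS0 0)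
      have m1 := mul_le_mul_of_nonneg_right (hMB p 1) (hS0 1)
      have m2 := mul_le_mul_of_nonneg_right (hMB p 2) (hS0 2)
      have ge : g * ρ p ≤ 2 * e * ρ p := by
        refine mul_le_mul_of_nonneg_right ?_ (hρ p).le
        have := hre 0
        have := hR0 0
        linarith
      rw [u1] at m0
      rw [u2] at m1
      rw [u3] at m2
      unfold S2
      beta_reduce
      rw [u1, u2, u3]
      fin_cases p
      · simp only [Fin.zero_eta] at hEp md m0 m1 m2 ge ⊢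
        rw [u1] at hEp
        rw [md, u1]
        linarith
      · simp only [Fin.mk_one] at hEp md m0 m1 m2 ge ⊢
        rw [u2] at hEp
        rw [md, u2]
        linarith
      · simp only [Fin.reduceFinMk] at hEp md m0 m1 m2 ge ⊢
        rw [u3] at hEp
        rw [md, u3]
        linarith, le_rfl⟩) ht
  rw [GM_PV]
  beta_reduce at key ⊢
  rw [u1, u2, u3] at key ⊢
  have e1 : ∀ k, vv t k = T3 t k := fun k => (T3_vv t k).symm
  rw [e1, e1, e1] at key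
  have hT := T3_sum t
  have hT2 : T3 t 2 = 1 - T3 t 0 - T3 t 1 := by linarith
  rw [hT2] at key ⊢
  linarith

/-- numbers of the body against the numbers of a table: `T` = sum of the leaks -/
structure NB (P : TP) (β : Fin 3 → ℝ) (φ lam ω η cN g g1 V r bt T b te pe : ℝ) : Prop where
  c : φ * (2 * ω + η + 2 / 3 * cN) ≤ qq P.c0 + qq P.c1 * T
  d : φ * (2 * ω + η + cN) ≤ qq P.d0 + qq P.d1 * T
  rc : (∀ p, β p = 0) ∨ 2 * ω + η ≤ qq P.rc
  hl : lam / 2 * bt ≤ qq P.hl * b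
  lr : lam * r ≤ qq P.lr * te
  ce : φ * g1 ≤ qq P.ce * pe
  re : (∀ p, β p = 0) ∨ g + 2 * V ≤ qq P.re
  V6 : V / 6 ≤ qq P.V6

theorem jl_sum (k : Fin 3) (f : Fin 3 → ℝ) : f k + f (jj k) + f (ll k) = f 0 + f 1 + f 2 := by
  fin_cases k
  · show f 0 + f 2 + f 1 = _
    ring
  · show f 1 + f 0 + f 2 = _
    ring
  · show f 2 + f 0 + f 1 = _
    ring

theorem jl_ne (k : Fin 3) : k ≠ jj k ∧ k ≠ ll k ∧ jj k ≠ ll k := by
  revert k
  decide

/-- a number from two ends -/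
theorem mul_ends {x y q0 q1 p m : ℝ} (h0 : m ≤ x * q0 + y * (1 - q0))
    (h1 : m ≤ x * q1 + y * (1 - q1)) (hp0 : q0 ≤ p) (hp1 : p ≤ q1) :
    m ≤ x * p + y * (1 - p) := by
  rcases le_total x y with h | h
  · have := mul_le_mul_of_nonneg_left hp1 (sub_nonneg.2 h)
    linarith
  · have := mul_le_mul_of_nonneg_left hp0 (sub_nonneg.2 h)
    linarith

/-- one end of an interval -/
theorem end_ok {m x y q : ℕ} (h : 1000000 * m ≤ x * q + y * (1000000 - q)) (hq : q ≤ 1000000) :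
    qq m ≤ qq x * qq q + qq y * (1 - qq q) := by
  have c1 := (Nat.cast_le (α := ℝ)).2 h
  push_cast [Nat.cast_sub hq] at c1
  unfold qq
  linarith

theorem qq_le_sub (w : ℕ) : 1 - qq w ≤ qq (1000000 - w) := by
  have h1 : (1000000 : ℝ) ≤ ((1000000 - w : ℕ) : ℝ) + (w : ℝ) := by
    exact_mod_cast (by omega : 1000000 ≤ (1000000 - w) + w)
  unfold qq
  linarith

/-- **A LOAD FROM THE DEMANDS OF ITS TYPE**, at the corner `k` of the placed body -/
theorem load_core [IsFiniteMeasure σ] (h : CN K σ a c) (v : Viol K a S) (hz : CV a K z)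
    (τ : Equiv.Perm (Fin 4)) {A' : ℝ} (hA' : 0 < A') (hl : Lok a l)
    {δ dE dm : Fin 3 → ℝ} (hδ : ∀ p, MA σ a l τ p p ≤ δ p) (hdE : ∀ p, 0 ≤ dE p)
    (hdm : ∀ p, 0 ≤ dm p) (hdd : ∀ p, δ p ^ 2 ≤ dE p * dm p)
    {ρ β : Fin 3 → ℝ} (hρ : ∀ p, 0 < ρ p)
    (hMρ : ∀ p k, k ≠ p → MA σ a l τ p k ≤ ρ p)
    {x : E3} (hx : x ∈ K)
    {N : Fin 3 → Fin 3 → ℝ} (hNd : N = NM (fun i => a (τ i)) (fun i j => z (τ i) (τ j)))
    {R : Fin 3 → ℝ}
    (hRd : ∀ k, R k ≤ RM (fun i => a (τ i)) (fun i j => z (τ i) (τ j)) k)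
    (hxs : Qv a (τ 0) x = S (τ 0) ∨ (S (τ 0) = 0 ∧ ∀ k, R k = 0))
    {ζ ζp : Fin 3 → ℝ} (hζd : ζ = zc (fun i => a (τ i)) N x) (hζp : ∀ k, 0 < ζp k)
    (hζ : ∀ k, ζ k ≤ ζp k)
    {φ lam : ℝ} (hφ : 0 < φ) (hl0 : 0 ≤ lam) (hl1 : lam ≤ 1 - φ)
    (hβ0 : ∀ p, 0 ≤ β p) (hβ1 : ∀ p, β p ≤ 1)
    (hK : ∀ p, β p * ρ p ≤ A' * Id (fun t => kap N (vv t) p))
    (hF : ∀ p, (1 - β p) * ρ p ≤ φ * (A' * Id (flP (PN N) p)))
    {cN : ℝ} (hcN : ∀ m, nc N m ≤ cN) (hcN1 : cN ≤ 1 / 2)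
    {s χ ω η : ℝ} (hS : ∀ i, S i ≤ s) (hχ0 : 0 ≤ χ) (hχ : 3 / 2 + 2 * s ≤ χ ^ 2)
    (hω0 : 0 ≤ ω) (hω : (1 - ω) * χ ≤ 1) (hη0 : 0 ≤ η) (hη : ∀ p, dm p ≤ η * ρ p)
    {g g1 V r : ℝ} (hE : ∀ p, aE σ a l (τ 0) (τ p.succ) - dE p ≤ g * ρ p) (hg : 0 ≤ g)
    (hg1 : 0 ≤ g1)
    (hE1 : ∀ p, (aE σ a l (τ 0) (τ p.succ) - dE p) - (MB σ a l τ p 0 * R 0
      + MB σ a l τ p 1 * R 1 + MB σ a l τ p 2 * R 2) ≤ g1 * ρ p)
    (hV0 : 0 ≤ V) (hV : ∀ k : Fin 3, S (τ k.succ) ≤ V)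
    (k : Fin 3) {p0 p1 q0 q1 : ℕ}
    (hp0 : qq p0 ≤ prt (b3 (fun i => a (τ i)) x (jj k)) (b3 (fun i => a (τ i)) x (ll k)))
    (hp1 : prt (b3 (fun i => a (τ i)) x (jj k)) (b3 (fun i => a (τ i)) x (ll k)) ≤ qq p1)
    (hq0 : qq q0 * nc N k ≤ N (jj k) k) (hq1 : N (jj k) k ≤ qq q1 * nc N k)
    {P : TP} {st : RR}
    (hP : NB P β φ lam ω η cN g g1 V r
      (bet (Zd (2 / 3 * cN) (-bar (fun i => a (τ i)) 0 x) (b3 (fun i => a (τ i)) x))
        (b3 (fun i => a (τ i)) x (jj k)) (b3 (fun i => a (τ i)) x (ll k)))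
      (nc N 0 + nc N 1 + nc N 2) st.b st.te st.pe)
    (hnk : st.nk = nc N k) (hnj : st.nj = nc N (jj k))
    (hnl : st.nl = nc N (ll k))
    {L : LT} (hL : L.ok q0 q1 = true) (hpL : L.z = 0 ∨ (p0 ≤ p1 ∧ p1 ≤ 1000000 ∧
      1000000 * 1000000 ≤ L.ax * p0 + L.ay * (1000000 - p0) ∧
      1000000 * 1000000 ≤ L.ax * p1 + L.ay * (1000000 - p1)))
    (hq : q0 ≤ q1 ∧ q1 ≤ 1000000)
    {t : ℝ × ℝ} (ht : t ∈ Dl)
    (hal : L.z = 1 ∨ alP N ζp t * (S (τ 0) - (ζ 0 * R 0 + ζ 1 * R 1 + ζ 2 * R 2)) ≤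
      r * (qq L.e0 * T3 t k + qq L.ex * T3 t (jj k) + qq L.ey * T3 t (ll k)))
    (hrr : (∀ p, β p = 0) ∨ (rr N (vv t) (jj k) ≤ qq L.nr * T3 t (jj k) ∧
      rr N (vv t) (ll k) ≤ qq L.nr * T3 t (ll k)))
    {Dk Dj Dl' Xk Xj Xl : ℝ} (d1 : (dK L).ev st ≤ Dk) (d2 : ∀ F ∈ dJ P L, F.ev st ≤ Dj)
    (d3 : ∀ F ∈ dL P L, F.ev st ≤ Dl') (d4 : (xK P L).ev st ≤ Xk)
    (d5 : ∀ F ∈ xJ P L, F.ev st ≤ Xj) (d6 : ∀ F ∈ xL P L, F.ev st ≤ Xl)
    {q : E3} (hqK : q ∈ K) :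
    GM A' N ζ ζp lam (fun p t => φ * flP (PN N) p t) (fun p t => kap N (vv t) p) β
        (MB σ a l τ) (fun p => aE σ a l (τ 0) (τ p.succ) - dE p) R
        (fun k => S (τ k.succ)) (S (τ 0)) t
      + (1 - (Dk * T3 t k + Dj * T3 t (jj k) + Dl' * T3 t (ll k))) * ‖a (τ 0) - q‖ ^ 2
      - (Xk * T3 t k + Xj * T3 t (jj k) + Xl * T3 t (ll k)) ≤
      Yt (fun i => a (τ i)) t q := by
  have h' := h.perm τ
  have v' := viol_perm v τ
  have hz' := hz.perm τ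
  have hN : ∀ k m, 0 ≤ N k m := fun k m => by
    rw [hNd]
    exact NM_nonneg h' v' hz' k m
  have hd : ∀ k, N k k = 0 := fun k => by
    rw [hNd]
    exact NM_diag k
  have htS := Dl_Sim ht
  obtain ⟨n1, n2, n3⟩ := jl_ne k
  have ev : ∀ m, vv t m = T3 t m := fun m => (T3_vv t m).symm
  have x0 : 0 ≤ T3 t (jj k) := (T3_pos' ht _).le
  have y0 : 0 ≤ T3 t (ll k) := (T3_pos' ht _).le
  have z0 : 0 ≤ T3 t k := (T3_pos' ht _).le
  have nn : ∀ m, 0 ≤ nc N m := fun m => by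
    unfold nc
    have := hN 0 m
    have := hN 1 m
    have := hN 2 m
    linarith
  have hTn := jl_sum k (nc N)
  unfold LT.ok at hL
  simp only [Bool.and_eq_true, Nat.ble_eq] at hL
  obtain ⟨⟨⟨⟨⟨⟨oh, oz⟩, oa⟩, onr⟩, ota⟩, oq0⟩, oq1⟩ := hL
  -- the split of the leak
  have hsp : (1 - qq L.w) * nc N k ≤ qq L.ox * N (jj k) k + qq L.oy * N (ll k) k := by
    have e0 : N k k + N (jj k) k + N (ll k) k = nc N k := by
      have := jl_sum k (fun m => N m k)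
      unfold nc
      beta_reduce at this
      exact this
    rw [hd k, zero_add] at e0
    have g0 := (qq_le_sub L.w).trans (end_ok oq0 (hq.1.trans hq.2))
    have g2 := (qq_le_sub L.w).trans (end_ok oq1 hq.2)
    rcases (nn k).eq_or_lt with hn0 | hn0
    · rw [← hn0, mul_zero]
      exact add_nonneg (mul_nonneg (qq_nonneg _) (hN _ _)) (mul_nonneg (qq_nonneg _) (hN _ _))
    · obtain ⟨u, hu⟩ : ∃ u, N (jj k) k = u * nc N k := ⟨N (jj k) k / nc N k, by field_simp⟩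
      rw [hu] at hq0 hq1 e0 ⊢
      have u0 := le_of_mul_le_mul_right hq0 hn0
      have u1 := le_of_mul_le_mul_right hq1 hn0
      have u2 := mul_ends g0 g2 u0 u1
      have e1 : N (ll k) k = (1 - u) * nc N k := by linarith
      rw [e1]
      have := mul_le_mul_of_nonneg_right u2 hn0.le
      linarith
  -- flags
  have hZ0 : (0 : ℝ) ≤ (L.z : ℝ) := Nat.cast_nonneg _
  have hZ1 : (L.z : ℝ) ≤ 1 := by exact_mod_cast oz
  have hA0 : (0 : ℝ) ≤ (L.a : ℝ) := Nat.cast_nonneg _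
  have hA1 : (L.a : ℝ) ≤ 1 := by exact_mod_cast oa
  have hh0 : (0 : ℝ) ≤ (L.h : ℝ) := Nat.cast_nonneg _
  have hν0 : 0 ≤ qq L.nr := qq_nonneg _
  have hν1 : qq L.nr ≤ 1 := by
    unfold qq
    rw [div_le_one (by norm_num)]
    exact_mod_cast onr
  have hta0 : 0 ≤ qq L.ta := qq_nonneg _
  have hta1 : qq L.ta ≤ 1 := by
    unfold qq
    rw [div_le_one (by norm_num)]
    exact_mod_cast ota
  obtain ⟨κ, hκe⟩ : ∃ κ, κ = (4 - (L.h : ℝ)) / 6 := ⟨_, rfl⟩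
  have hκ : (κ = 2 / 3 ∧ (L.h : ℝ) = 0) ∨ (κ = 1 / 2 ∧ (L.h : ℝ) = 1) := by
    rcases Nat.le_one_iff_eq_zero_or_eq_one.1 oh with h1 | h1
    · left
      rw [hκe, h1, Nat.cast_zero]
      norm_num
    · right
      rw [hκe, h1, Nat.cast_one]
      norm_num
  have hκ0 : 0 ≤ κ := by
    rcases hκ with h1 | h1 <;> rw [h1.1] <;> norm_num
  -- the slope of the arcs
  obtain ⟨Ca, hCa⟩ : ∃ Ca, Ca = (1 - (L.h : ℝ)) * (qq P.c0 + qq P.c1 * (st.nk + st.nj + st.nl))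
      + (L.h : ℝ) * (qq P.d0 + qq P.d1 * (st.nk + st.nj + st.nl)) := ⟨_, rfl⟩
  have hcaR : caR P L st = (L.a : ℝ) * Ca := by
    unfold caR
    rw [hCa]
  have hC1 : φ * (2 * ω + η + 2 * (1 - κ) * cN) ≤ Ca := by
    have hT : st.nk + st.nj + st.nl = nc N 0 + nc N 1 + nc N 2 := by
      rw [hnk, hnj, hnl]
      exact hTn
    rw [hCa, hT]
    rcases hκ with ⟨e1, e2⟩ | ⟨e1, e2⟩
    · have := hP.c
      rw [e1, e2]
      linarith
    · have := hP.d
      rw [e1, e2]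
      linarith
  obtain ⟨bt, hbt⟩ : ∃ bt, bt = bet (Zd (2 / 3 * cN) (-bar (fun i => a (τ i)) 0 x)
    (b3 (fun i => a (τ i)) x)) (b3 (fun i => a (τ i)) x (jj k))
    (b3 (fun i => a (τ i)) x (ll k)) := ⟨_, rfl⟩
  have bt0 : 0 ≤ bt := by
    rw [hbt]
    exact bet_nonneg _ _ _
  rw [← hbt] at hP
  obtain ⟨B, hB⟩ : ∃ B, B = (L.z : ℝ) * (lam / 2 * bt) := ⟨_, rfl⟩
  have hBb : B ≤ baR P L st := by
    rw [hB]
    exact mul_le_mul_of_nonneg_left hP.hl hZ0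
  have Bax : ∀ n, B * qq n ≤ baR P L st * qq n := fun n =>
    mul_le_mul_of_nonneg_right hBb (qq_nonneg n)
  -- demands on the deficit
  have D1k := d1
  rw [ev_dK L st oh, ← hκe, hnk] at D1k
  have D2a := d2 (D1 P L L.ox L.ax 1000000) (by simp [dJ])
  have D2b := d2 (D2j P L L.ax 1000000) (by simp [dJ])
  have D2c := d2 ((D1 P L L.ox L.ax (1000000 - L.nr)).add (RD P L)) (by simp [dJ])
  have D2d := d2 ((D2j P L L.ax (1000000 - L.nr)).add (RD P L)) (by simp [dJ])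
  have D3a := d3 (D1 P L L.oy L.ay 1000000) (by simp [dL])
  have D3b := d3 (D2l P L L.ay 1000000) (by simp [dL])
  have D3c := d3 ((D1 P L L.oy L.ay (1000000 - L.nr)).add (RD P L)) (by simp [dL])
  have D3d := d3 ((D2l P L L.ay (1000000 - L.nr)).add (RD P L)) (by simp [dL])
  rw [ev_D1 P L st oh, qq_one, one_mul, ← hκe] at D2a D3a
  rw [ev_D2j P L st oh, qq_one, one_mul, ← hκe, hcaR, hnj] at D2b
  rw [ev_D2l P L st oh, qq_one, one_mul, ← hκe, hcaR, hnl] at D3b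
  rw [ev_RD, ev_D1 P L st oh, qq_sub onr, ← hκe] at D2c D3c
  rw [ev_RD, ev_D2j P L st oh, qq_sub onr, ← hκe, hcaR, hnj] at D2d
  rw [ev_RD, ev_D2l P L st oh, qq_sub onr, ← hκe, hcaR, hnl] at D3d
  -- demands on the dropped value
  have X1k := d4
  have X2a := d5 (X1 P L L.ox L.ex 1000000) (by simp [xJ])
  have X2b := d5 (X2j P L L.ex 1000000) (by simp [xJ])
  have X2c := d5 ((X1 P L L.ox L.ex (1000000 - L.nr)).add (RX P L)) (by simp [xJ])
  have X2d := d5 ((X2j P L L.ex (1000000 - L.nr)).add (RX P L)) (by simp [xJ])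
  have X3a := d6 (X1 P L L.oy L.ey 1000000) (by simp [xL])
  have X3b := d6 (X2l P L L.ey 1000000) (by simp [xL])
  have X3c := d6 ((X1 P L L.oy L.ey (1000000 - L.nr)).add (RX P L)) (by simp [xL])
  have X3d := d6 ((X2l P L L.ey (1000000 - L.nr)).add (RX P L)) (by simp [xL])
  rw [ev_xK P L st oz oa, hnk] at X1k
  rw [ev_X1 P L st oz oa, qq_one, one_mul] at X2a X3a
  rw [ev_X2j P L st oz oa ota, qq_one, one_mul, hnj] at X2b
  rw [ev_X2l P L st oz oa ota, qq_one, one_mul, hnl] at X3b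
  rw [ev_RX P L st oa, ev_X1 P L st oz oa, qq_sub onr] at X2c X3c
  rw [ev_RX P L st oa, ev_X2j P L st oz oa ota, qq_sub onr, hnj] at X2d
  rw [ev_RX P L st oa, ev_X2l P L st oz oa ota, qq_sub onr, hnl] at X3d
  have hx0 : ∀ e : ℕ, (1 - (L.z : ℝ)) * (lam * r * qq e)
      + (1 - (L.a : ℝ)) * (φ * g1 * (qq L.ta / 2)) ≤ x0R P L st e := by
    intro e
    have k1 := mul_le_mul_of_nonneg_left (mul_le_mul_of_nonneg_right hP.lr (qq_nonneg e))
      (sub_nonneg.2 hZ1)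
    have k2 := mul_le_mul_of_nonneg_left (mul_le_mul_of_nonneg_right hP.ce
      (show 0 ≤ qq L.ta / 2 by linarith)) (sub_nonneg.2 hA1)
    unfold x0R
    linarith
  have hx1 : (1 - (L.a : ℝ)) * (φ * g1 * (1 - qq L.ta)) ≤
      (1 - (L.a : ℝ)) * (qq P.ce * st.pe * (1 - qq L.ta)) :=
    mul_le_mul_of_nonneg_left (mul_le_mul_of_nonneg_right hP.ce (sub_nonneg.2 hta1))
      (sub_nonneg.2 hA1)
  have hx2 : ∀ u : ℝ, 0 ≤ u → (L.h : ℝ) * (V / 6) * u ≤ (L.h : ℝ) * qq P.V6 * u := fun u hu =>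
    mul_le_mul_of_nonneg_right (mul_le_mul_of_nonneg_left hP.V6 hh0) hu
  have nj := nn (jj k)
  have nl := nn (ll k)
  have nk := nn k
  have νn : 0 ≤ 1 - qq L.nr := sub_nonneg.2 hν1
  -- residual arcs
  obtain ⟨Cr, Cer, hCr, hCer, hC2, hC3, hr⟩ : ∃ Cr Cer : ℝ, 0 ≤ Cr ∧ 0 ≤ Cer ∧
      ((∀ p, β p = 0) ∨ 2 * ω + η ≤ Cr) ∧ ((∀ p, β p = 0) ∨ g + 2 * V ≤ Cer) ∧
      ((Cr = 0 ∧ Cer = 0) ∨ (Cr = qq P.rc ∧ Cer = qq P.re ∧
        rr N (vv t) (jj k) ≤ qq L.nr * T3 t (jj k) ∧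
        rr N (vv t) (ll k) ≤ qq L.nr * T3 t (ll k))) := by
    by_cases hβ : ∀ p, β p = 0
    · exact ⟨0, 0, le_rfl, le_rfl, Or.inl hβ, Or.inl hβ, Or.inl ⟨rfl, rfl⟩⟩
    · exact ⟨qq P.rc, qq P.re, qq_nonneg _, qq_nonneg _, Or.inr (hP.rc.resolve_left hβ),
        Or.inr (hP.re.resolve_left hβ), Or.inr ⟨rfl, rfl, hrr.resolve_left hβ⟩⟩
  have fin := loadT (ν := qq L.nr) h v hz τ hA' hl hδ hdE hdm hdd hρ hMρ hx hNd hRd hxs hζd hζp hζ
    hφ hl0 hl1 hβ0 hβ1 hK hF hZ0 hZ1 hA0 hA1 hκ hcN hcN1 hS hχ0 hχ hω0 hω hη0 hη hC1 hCr hC2 hE hg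
    hg1 hE1 hV0 hV hCer hC3 htS n1 n2 n3 (w := qq L.w) (ox := qq L.ox) (oy := qq L.oy)
    (ax := qq L.ax) (ay := qq L.ay) (Dk := Dk) (Dj := Dj) (Dl := Dl') (qq_nonneg _) (qq_nonneg _)
    (qq_nonneg _) hsp (B := B) (by rw [hB, hbt]) (qq_nonneg _) (qq_nonneg _)
    (by
      rcases hpL with h1 | ⟨h1, h2, h3, h4⟩
      · left
        rw [h1, Nat.cast_zero]
      · right
        have e1 := end_ok h3 (h1.trans h2)
        have e2 := end_ok h4 h2
        rw [qq_one] at e1 e2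
        exact mul_ends e1 e2 hp0 hp1)
    D1k (by have := Bax L.ax; linarith) (by have := Bax L.ax; linarith)
    (by have := Bax L.ay; linarith) (by have := Bax L.ay; linarith)
    (ta := qq L.ta) (e0 := qq L.e0) (ex := qq L.ex) (ey := qq L.ey) (Xk := Xk) (Xj := Xj)
    (Xl := Xl) (r := r) hta0 hta1
    (by
      rcases hal with h1 | h1
      · left
        rw [h1, Nat.cast_one]
      · right
        rw [ev, ev, ev]
        exact h1)
    (by
      have := hx0 L.e0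
      have := hx2 (qq L.w * nc N k) (mul_nonneg (qq_nonneg _) nk)
      linarith)
    (by
      have := hx0 L.ex
      have := hx2 (qq L.ox) (qq_nonneg _)
      linarith)
    (by
      have := hx0 L.ex
      have := hx2 (nc N (jj k)) nj
      linarith)
    (by
      have := hx0 L.ey
      have := hx2 (qq L.oy) (qq_nonneg _)
      linarith)
    (by
      have := hx0 L.ey
      have := hx2 (nc N (ll k)) nl
      linarith)
    (by
      rcases hr with h1 | ⟨h1, h2, h3, h4⟩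
      · exact Or.inl h1
      · right
        rw [ev, ev, h1, h2]
        have a1 := mul_le_mul_of_nonneg_left (Bax L.ax) νn
        have a2 := mul_le_mul_of_nonneg_left (Bax L.ay) νn
        have a3 := hx0 L.ex
        have a4 := hx0 L.ey
        have a5 := mul_le_mul_of_nonneg_left (hx2 (qq L.ox) (qq_nonneg _)) νn
        have a6 := mul_le_mul_of_nonneg_left (hx2 (qq L.oy) (qq_nonneg _)) νn
        have a7 := mul_le_mul_of_nonneg_left (hx2 (nc N (jj k)) nj) νn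
        have a8 := mul_le_mul_of_nonneg_left (hx2 (nc N (ll k)) nl) νn
        have a9 := mul_le_mul_of_nonneg_left hx1 νn
        refine ⟨hν0, hν1, h3, h4, ?_, ?_, ?_, ?_, ?_, ?_, ?_, ?_⟩
        all_goals linarith) hqK
  rw [ev, ev, ev] at fin
  exact fin

end body

end Helper99.MEI
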