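import Pool.Agent.Helper99.MEI.WT3
import Pool.Agent.Helper60.MEI.R9T

/-!
# Project MEI (M2), track B: the loads of a table, of a family of tables, on the placed body

`loads_body` = premise `Loads` of rule R8 (one tree); `loads_fam` = premise `LoadsB` of rule R9
(a family of trees with one skeleton).
-/

set_option autoImplicit false

namespace Helper99.MEI

open Set Metric MeasureTheory Helper80.CW Helper82.CW Helper14.CW Helper93.MEI Helper78.MEI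
open Helper82.M2 Helper14.MEI2 Pool.Agent.Helper52.MEI Pool.Agent.Helper73.MEI Helper41.MEI
open Helper37.MEI Helper60.R8 Helper60.R9
open Helper60.R7 (U U_pos jj ll T3_pos')
open Helper33.MEI (Dl)
open Pool.Agent.Helper55.Sx (Sim)
open Pool.Agent.Helper55.Mass (LN LN_nonneg vv vv_nonneg vv_le Id)
open Pool.Agent.Helper55.Apex (nc vt_vv)
open Pool.Agent.Helper55.ApexP (PN alP alP_nonneg alP_zeta alP_le xx_mu mu_bal)
open Pool.Agent.Helper55.Fill (xx rr rr_nonneg xx_nonneg xx_le xx_feas)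
open Pool.Agent.Helper73.MEI.SideP (flP flP_nonneg flP_zero flP_pair)
open Pool.Agent.Helper96.Kap (kap kap_nonneg kap_add)
open Pool.Agent.Helper31.SR
open Helper75.MEI2 (mu vt)
open scoped RealInnerProductSpace ENNReal

/-! ### Families -/

theorem RR.Le.refl (r : RR) : r.Le r :=
  ⟨le_rfl, le_rfl, le_rfl, le_rfl, le_rfl, le_rfl, le_rfl, le_rfl, le_rfl, le_rfl⟩

section fam
variable {ι : Type*} [Fintype ι]

/-- the mean of states -/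
noncomputable def fm (wt : ι → ℝ) (r : ι → RR) : RR :=
  ⟨∑ e, wt e * (r e).s, ∑ e, wt e * (r e).Sk, ∑ e, wt e * (r e).Sj, ∑ e, wt e * (r e).Sl,
    ∑ e, wt e * (r e).nk, ∑ e, wt e * (r e).nj, ∑ e, wt e * (r e).nl, ∑ e, wt e * (r e).b,
    ∑ e, wt e * (r e).te, ∑ e, wt e * (r e).pe⟩

theorem AF.fmean (F : AF) {wt : ι → ℝ} (h1 : ∑ e, wt e = 1) (r : ι → RR) :
    ∑ e, wt e * F.ev (r e) = F.ev (fm wt r) := by
  unfold AF.ev fm
  dsimp only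
  simp only [← mul_div_assoc, ← Finset.sum_div]
  congr 1
  simp only [mul_add, Finset.sum_add_distrib]
  simp only [Finset.mul_sum]
  have e0 : ∑ e, wt e * (F.c0 : ℝ) = (F.c0 : ℝ) := by
    rw [← Finset.sum_mul, h1, one_mul]
  rw [e0]
  have e : ∀ (c : ℝ) (f : ι → ℝ), ∑ i, wt i * (c * f i) = ∑ i, c * (wt i * f i) :=
    fun c f => Finset.sum_congr rfl fun i _ => by ring
  simp only [e]

variable {P : TP} {As : List LT} {Vs : List VT} {q0 q1 : ℕ} {rs : ι → List RN} {Q : ι → Cor}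
  (h : ∀ e, tck P As Vs q0 q1 (rs e) (Q e) = true) {wt : ι → ℝ} (hw : ∀ e, 0 ≤ wt e)
  (hw1 : ∑ e, wt e = 1) {lam : ι → ℕ → ℝ} (h0 : ∀ e i, 0 ≤ lam e i)
  (h1 : ∀ e, ∑ i ∈ Finset.range (Q e).rows.length, lam e i = 1)
include h hw hw1 h0 h1

/-- **the load `li` of a family** -/
theorem ldF_ge {r : RR} (hr : r.Le (fm wt fun e => mr (Q e).rows.length (lam e) (rs e))) {li : ℕ}
    (hli : ∀ e, li < (Q e).nl) :
    (∃ Dk Dj Dl : ℝ, (∀ x y, ∑ e, wt e * (Q e).D (lam e) li x y =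
        Dk * (1 - x - y) + Dj * x + Dl * y) ∧
      (dK (As.getD li lt0)).ev r ≤ Dk ∧ (∀ F ∈ dJ P (As.getD li lt0), F.ev r ≤ Dj) ∧
      (∀ F ∈ dL P (As.getD li lt0), F.ev r ≤ Dl)) ∧
    (∃ Xk Xj Xl : ℝ, (∀ x y, ∑ e, wt e * (Q e).X (lam e) li x y =
        Xk * (1 - x - y) + Xj * x + Xl * y) ∧
      (xK P (As.getD li lt0)).ev r ≤ Xk ∧ (∀ F ∈ xJ P (As.getD li lt0), F.ev r ≤ Xj) ∧
      (∀ F ∈ xL P (As.getD li lt0), F.ev r ≤ Xl)) := by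
  have key := fun e => ld_ge (h e) (h0 e) (h1 e) (RR.Le.refl _) (hli e)
  have k1 := fun e => (key e).1
  have k2 := fun e => (key e).2
  choose Dk Dj Dl' d1 d2 d3 d4 using k1
  choose Xk Xj Xl x1 x2 x3 x4 using k2
  have up : ∀ (F : AF) (f : ι → ℝ), (∀ e, F.ev (mr (Q e).rows.length (lam e) (rs e)) ≤ f e) →
      F.ev r ≤ ∑ e, wt e * f e := by
    intro F f hf
    refine (F.mono hr).trans ?_
    rw [← F.fmean hw1]
    exact Finset.sum_le_sum fun e _ => mul_le_mul_of_nonneg_left (hf e) (hw e)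
  have lin : ∀ (f : ι → ℝ → ℝ → ℝ) (a b c : ι → ℝ),
      (∀ e x y, f e x y = a e * (1 - x - y) + b e * x + c e * y) → ∀ x y,
      ∑ e, wt e * f e x y = (∑ e, wt e * a e) * (1 - x - y) + (∑ e, wt e * b e) * x
        + (∑ e, wt e * c e) * y := by
    intro f a b c hf x y
    rw [Finset.sum_mul, Finset.sum_mul, Finset.sum_mul, ← Finset.sum_add_distrib,
      ← Finset.sum_add_distrib]
    refine Finset.sum_congr rfl fun e _ => ?_
    rw [hf]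
    ring
  refine ⟨⟨_, _, _, lin (fun e => (Q e).D (lam e) li) Dk Dj Dl' d1, up _ _ d2,
      fun F hF => up _ _ fun e => d3 e F hF, fun F hF => up _ _ fun e => d4 e F hF⟩,
    ⟨_, _, _, lin (fun e => (Q e).X (lam e) li) Xk Xj Xl x1, up _ _ x2,
      fun F hF => up _ _ fun e => x3 e F hF, fun F hF => up _ _ fun e => x4 e F hF⟩⟩

/-- **the majorant `ei` of a family** -/
theorem EF_ge {r : RR} (hr : r.Le (fm wt fun e => mr (Q e).rows.length (lam e) (rs e))) {x y : ℝ}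
    (hx : 0 ≤ x) (hy : 0 ≤ y) (hxy : x + y ≤ 1) {ei : ℕ} (hei : ∀ e, ei < (Q e).ne) :
    (Vs.getD ei vt0).k.ev r * (1 - x - y) + (Vs.getD ei vt0).j.ev r * x
      + (Vs.getD ei vt0).l.ev r * y ≤ ∑ e, wt e * (Q e).E (lam e) ei x y := by
  have key := fun e => E_ge (h e) (h0 e) (h1 e) (RR.Le.refl _) hx hy hxy (hei e)
  have s := Finset.sum_le_sum fun e (_ : e ∈ Finset.univ) =>
    mul_le_mul_of_nonneg_left (key e) (hw e)
  refine le_trans ?_ s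
  have a1 := (Vs.getD ei vt0).k.mono hr
  have a2 := (Vs.getD ei vt0).j.mono hr
  have a3 := (Vs.getD ei vt0).l.mono hr
  rw [← AF.fmean _ hw1] at a1 a2 a3
  have b1 := mul_le_mul_of_nonneg_right a1 (show 0 ≤ 1 - x - y by linarith)
  have b2 := mul_le_mul_of_nonneg_right a2 hx
  have b3 := mul_le_mul_of_nonneg_right a3 hy
  refine (add_le_add (add_le_add b1 b2) b3).trans (le_of_eq ?_)
  rw [Finset.sum_mul, Finset.sum_mul, Finset.sum_mul, ← Finset.sum_add_distrib,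
    ← Finset.sum_add_distrib]
  exact Finset.sum_congr rfl fun e _ => by ring

end fam

section body
variable {a : Fin 4 → E3} {σ : Measure (E3 × E3)} {K : Set E3} {S : Fin 4 → ℝ}
  {c : Fin 4 → E3} {z : Fin 4 → Fin 4 → E3} {l : Fin 3 → Bool → Bool → E3 × E3 → ℝ}

/-- the slopes of the apex of a type, positions in `[p0, p1]` -/
def pok (p0 p1 : ℕ) (As : List LT) : Bool :=
  Nat.ble p0 p1 && Nat.ble p1 1000000 && As.all fun L => Nat.beq L.z 0 ||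
    (Nat.ble (1000000 * 1000000) (L.ax * p0 + L.ay * (1000000 - p0)) &&
      Nat.ble (1000000 * 1000000) (L.ax * p1 + L.ay * (1000000 - p1)))

theorem pok_iff {p0 p1 : ℕ} {As : List LT} (h : pok p0 p1 As = true) {L : LT} (hL : L ∈ As) :
    L.z = 0 ∨ (p0 ≤ p1 ∧ p1 ≤ 1000000 ∧
      1000000 * 1000000 ≤ L.ax * p0 + L.ay * (1000000 - p0) ∧
      1000000 * 1000000 ≤ L.ax * p1 + L.ay * (1000000 - p1)) := by
  unfold pok at h
  simp only [Bool.and_eq_true, List.all_eq_true, Nat.ble_eq, Bool.or_eq_true, Nat.beq_eq] at h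
  obtain ⟨⟨h1, h2⟩, h3⟩ := h
  rcases h3 L hL with h4 | ⟨h4, h5⟩
  · exact Or.inl h4
  · exact Or.inr ⟨h1, h2, h4, h5⟩

/-- the state of a corner -/
noncomputable def stc (S : Fin 4 → ℝ) (τ : Equiv.Perm (Fin 4)) (N : Fin 3 → Fin 3 → ℝ)
    (k : Fin 3) (b te pe : ℝ) : RR :=
  ⟨S (τ 0), S (τ k.succ), S (τ (jj k).succ), S (τ (ll k).succ), nc N k, nc N (jj k),
    nc N (ll k), b, te, pe⟩

/-- **THE LOADS AND THE MAJORANTS OF A FAMILY OF TABLES**, at the corner `k` of the placed body -/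
theorem loads_fam {ι : Type*} [Fintype ι] [IsFiniteMeasure σ] (h : CN K σ a c)
    (v : Viol K a S) (hz : CV a K z)
    (τ : Equiv.Perm (Fin 4)) {A' : ℝ} (hA' : 0 < A') (hl : Lok a l)
    {δ dE dm : Fin 3 → ℝ} (hδ : ∀ p, MA σ a l τ p p ≤ δ p) (hdE : ∀ p, 0 ≤ dE p)
    (hdm : ∀ p, 0 ≤ dm p) (hdd : ∀ p, δ p ^ 2 ≤ dE p * dm p)
    {ρ β : Fin 3 → ℝ} (hρ : ∀ p, 0 < ρ p)
    (hMρ : ∀ p k, k ≠ p → MA σ a l τ p k ≤ ρ p)
    {x : E3} (hx : x ∈ K)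
    {N : Fin 3 → Fin 3 → ℝ} (hNd : N = NM (fun i => a (τ i)) (fun i j => z (τ i) (τ j)))
    {R : Fin 3 → ℝ}
    (hRd : ∀ k, R k ≤ RM (fun i => a (τ i)) (fun i j => z (τ i) (τ j)) k)
    (hxs : Qv a (τ 0) x = S (τ 0) ∨ (S (τ 0) = 0 ∧ ∀ k, R k = 0))
    {ζ ζp : Fin 3 → ℝ} (hζd : ζ = zc (fun i => a (τ i)) N x) (hζp : ∀ k, 0 < ζp k)
    (hζ : ∀ k, ζ k ≤ ζp k)
    {φ lam : ℝ} (hφ : 0 < φ) (hl0 : 0 ≤ lam) (hl1 : lam ≤ 1 - φ)
    (hβ0 : ∀ p, 0 ≤ β p) (hβ1 : ∀ p, β p ≤ 1)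
    (hK : ∀ p, β p * ρ p ≤ A' * Id (fun t => kap N (vv t) p))
    (hF : ∀ p, (1 - β p) * ρ p ≤ φ * (A' * Id (flP (PN N) p)))
    {cN : ℝ} (hcN : ∀ m, nc N m ≤ cN) (hcN1 : cN ≤ 1 / 2)
    {s χ ω η : ℝ} (hS : ∀ i, S i ≤ s) (hχ0 : 0 ≤ χ) (hχ : 3 / 2 + 2 * s ≤ χ ^ 2)
    (hω0 : 0 ≤ ω) (hω : (1 - ω) * χ ≤ 1) (hη0 : 0 ≤ η) (hη : ∀ p, dm p ≤ η * ρ p)
    {g g1 V r : ℝ} (hE : ∀ p, aE σ a l (τ 0) (τ p.succ) - dE p ≤ g * ρ p) (hg : 0 ≤ g)
    (hg1 : 0 ≤ g1)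
    (hE1 : ∀ p, (aE σ a l (τ 0) (τ p.succ) - dE p) - (MB σ a l τ p 0 * R 0
      + MB σ a l τ p 1 * R 1 + MB σ a l τ p 2 * R 2) ≤ g1 * ρ p)
    (hV0 : 0 ≤ V) (hV : ∀ k : Fin 3, S (τ k.succ) ≤ V)
    (k : Fin 3) {p0 p1 q0 q1 : ℕ}
    (hp0 : qq p0 ≤ prt (b3 (fun i => a (τ i)) x (jj k)) (b3 (fun i => a (τ i)) x (ll k)))
    (hp1 : prt (b3 (fun i => a (τ i)) x (jj k)) (b3 (fun i => a (τ i)) x (ll k)) ≤ qq p1)
    (hq0 : qq q0 * nc N k ≤ N (jj k) k) (hq1 : N (jj k) k ≤ qq q1 * nc N k)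
    {P : TP} {b te pe : ℝ}
    (hP : NB P β φ lam ω η cN g g1 V r
      (bet (Zd (2 / 3 * cN) (-bar (fun i => a (τ i)) 0 x) (b3 (fun i => a (τ i)) x))
        (b3 (fun i => a (τ i)) x (jj k)) (b3 (fun i => a (τ i)) x (ll k)))
      (nc N 0 + nc N 1 + nc N 2) b te pe)
    {As : List LT} {Vs : List VT} {rs : ι → List RN} {Q : ι → Cor}
    (hT : ∀ e, tck P As Vs q0 q1 (rs e) (Q e) = true) (hpk : pok p0 p1 As = true)
    {wt : ι → ℝ} (hw : ∀ e, 0 ≤ wt e) (hw1 : ∑ e, wt e = 1) {μ : ι → ℕ → ℝ}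
    (hμ0 : ∀ e i, 0 ≤ μ e i)
    (hμ1 : ∀ e, ∑ i ∈ Finset.range (Q e).rows.length, μ e i = 1)
    (hst : (stc S τ N k b te pe).Le (fm wt fun e => mr (Q e).rows.length (μ e) (rs e)))
    {t : ℝ × ℝ} (ht : t ∈ Dl)
    (hal : ∀ L ∈ As, L.z = 0 →
      alP N ζp t * (S (τ 0) - (ζ 0 * R 0 + ζ 1 * R 1 + ζ 2 * R 2)) ≤
        r * (qq L.e0 * T3 t k + qq L.ex * T3 t (jj k) + qq L.ey * T3 t (ll k)))
    {nf : ℕ → ℕ → ℕ} (hnf : ∀ x0 y0 : ℕ, (x0 : ℝ) / U ≤ T3 t (jj k) →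
      (y0 : ℝ) / U ≤ T3 t (ll k) → ∀ li < nf x0 y0, (∀ e, li < (Q e).nl) ∧
        ((∀ p, β p = 0) ∨ (rr N (vv t) (jj k) ≤ qq (As.getD li lt0).nr * T3 t (jj k) ∧
          rr N (vv t) (ll k) ≤ qq (As.getD li lt0).nr * T3 t (ll k))))
    {n : ℕ} (hne : ∀ e, (Q e).ne = n)
    (hval : ∀ W ∈ Vs, GM A' N ζ ζp lam (fun p t => φ * flP (PN N) p t)
        (fun p t => kap N (vv t) p) β (MB σ a l τ)
        (fun p => aE σ a l (τ 0) (τ p.succ) - dE p) R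
        (fun k => S (τ k.succ)) (S (τ 0)) t ≤
      -(T3 t 0 * S (τ 1) + T3 t 1 * S (τ 2) + T3 t 2 * S (τ 3))
        + (W.k.ev (stc S τ N k b te pe) * T3 t k + W.j.ev (stc S τ N k b te pe) * T3 t (jj k)
          + W.l.ev (stc S τ N k b te pe) * T3 t (ll k)))
    {q : E3} (hqK : q ∈ K) :
    LoadsB Q wt nf n μ (T3 t (jj k)) (T3 t (ll k)) (‖a (τ 0) - q‖ ^ 2)
      (T3 t 0 * S (τ 1) + T3 t 1 * S (τ 2) + T3 t 2 * S (τ 3)) (Yt (fun i => a (τ i)) t q)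
      (GM A' N ζ ζp lam (fun p t => φ * flP (PN N) p t) (fun p t => kap N (vv t) p) β
        (MB σ a l τ) (fun p => aE σ a l (τ 0) (τ p.succ) - dE p) R
        (fun k => S (τ k.succ)) (S (τ 0)) t) := by
  have x0' : 0 ≤ T3 t (jj k) := (T3_pos' ht _).le
  have y0' : 0 ≤ T3 t (ll k) := (T3_pos' ht _).le
  have z0' : 0 ≤ T3 t k := (T3_pos' ht _).le
  have hsum := jl_sum k (T3 t)
  have hsum1 : T3 t 0 + T3 t 1 + T3 t 2 = 1 := T3_sum t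
  have hxy : T3 t (jj k) + T3 t (ll k) ≤ 1 := by linarith
  have e5 : 1 - T3 t (jj k) - T3 t (ll k) = T3 t k := by linarith
  obtain ⟨e0, -⟩ : ∃ e : ι, True := by
    by_contra hno
    push Not at hno
    have : IsEmpty ι := ⟨fun e => (hno e).elim⟩
    rw [Finset.univ_eq_empty, Finset.sum_empty] at hw1
    exact zero_ne_one hw1
  refine ⟨fun a0 b0 ha0 hb0 li hli => ?_, fun ei hei => ?_⟩
  · obtain ⟨h1, h2⟩ := hnf a0 b0 ha0 hb0 li hli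
    obtain ⟨⟨Dk, Dj, Dl', g1', g2, g3, g4⟩, ⟨Xk, Xj, Xl, g5, g6, g7, g8⟩⟩ :=
      ldF_ge hT hw hw1 hμ0 hμ1 hst h1
    have hm := lt_mem (hT e0) (h1 e0)
    have hi := tck_iff (hT e0)
    rw [g1', g5, e5]
    have hz1 : (As.getD li lt0).z = 1 ∨ alP N ζp t * (S (τ 0)
        - (ζ 0 * R 0 + ζ 1 * R 1 + ζ 2 * R 2)) ≤
        r * (qq (As.getD li lt0).e0 * T3 t k + qq (As.getD li lt0).ex * T3 t (jj k)
          + qq (As.getD li lt0).ey * T3 t (ll k)) := by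
      have ho := hi.1 _ hm
      unfold LT.ok at ho
      simp only [Bool.and_eq_true, Nat.ble_eq] at ho
      rcases Nat.le_one_iff_eq_zero_or_eq_one.1 ho.1.1.1.1.1.2 with h3 | h3
      · exact Or.inr (hal _ hm h3)
      · exact Or.inl h3
    have fin := load_core h v hz τ hA' hl hδ hdE hdm hdd hρ hMρ hx hNd hRd hxs hζd hζp hζ hφ hl0
      hl1 hβ0 hβ1 hK hF hcN hcN1 hS hχ0 hχ hω0 hω hη0 hη hE hg hg1 hE1 hV0 hV k hp0 hp1 hq0 hq1
      (st := stc S τ N k b te pe) hP rfl rfl rfl (hi.1 _ hm) (pok_iff hpk hm)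
      ⟨hi.2.2.2.1, hi.2.2.2.2.1⟩ ht hz1 h2 g2 g3 g4 g6 g7 g8 hqK
    exact fin
  · have k1 := EF_ge (Vs := Vs) hT hw hw1 hμ0 hμ1 hst x0' y0' hxy (ei := ei)
      (fun e => by rw [hne e]; exact hei)
    have hm := vt_mem (hT e0) (ei := ei) (by rw [hne e0]; exact hei)
    have k2 := hval _ hm
    rw [e5] at k1
    linarith

end body

end Helper99.MEI
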