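import Pool.Agent.Helper99.MEI.WT4
import Pool.Agent.Helper29.MEI.TipB
import Pool.Agent.Helper41.MEI.VBar
import Pool.Agent.Helper73.MEI.FW4
import Pool.Agent.Helper90.R8T.WL9

/-!
# Project MEI (M2), track B: the cost of a face from three families of tables

`alP_s0`: the apex dropped counts at most `S₀`; `val_uni`: the value is at most a number `r ≥ S₀`,
`r ≥ R_k`; `rr_wall`: no residual masses away from the walls; `wcf_fam`: the cost `WCF` of a face.
-/

set_option autoImplicit false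

namespace Helper99.MEI

open Set Metric MeasureTheory Helper80.CW Helper82.CW Helper14.CW Helper93.MEI Helper78.MEI
open Helper82.M2 Helper14.MEI2 Pool.Agent.Helper52.MEI Pool.Agent.Helper73.MEI Helper41.MEI
open Helper37.MEI Helper60.R8 Helper60.R9
open Helper60.R7 (U U_pos jj ll T3_pos')
open Helper33.MEI (Dl)
open Pool.Agent.Helper55.Sx (Sim)
open Pool.Agent.Helper55.Mass (LN LN_nonneg vv vv_nonneg vv_le Id)
open Pool.Agent.Helper55.Apex (nc vt_vv)
open Pool.Agent.Helper55.ApexP (PN alP alP_nonneg alP_zeta alP_le xx_mu mu_bal)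
open Pool.Agent.Helper55.Fill (xx rr rr_nonneg xx_nonneg xx_le xx_feas)
open Pool.Agent.Helper73.MEI.SideP (flP flP_nonneg flP_zero flP_pair)
open Pool.Agent.Helper96.Kap (kap kap_nonneg kap_add)
open Pool.Agent.Helper31.SR
open Helper75.MEI2 (mu vt)
open scoped RealInnerProductSpace ENNReal

section abs
variable {N : Fin 3 → Fin 3 → ℝ} (hN : ∀ k m, 0 ≤ N k m) (hd : ∀ k, N k k = 0) {c : ℝ}
  (hc : c < 1) (hcol : ∀ m, nc N m ≤ c)
include hN hd hc hcol

/-- the load of the apex and its leaks fit -/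
theorem alP_sum {ζp : Fin 3 → ℝ} (hζp : ∀ k, 0 < ζp k) {t : ℝ × ℝ} (ht : t ∈ Sim) :
    alP N ζp t * (ζp 0 * (1 + nc N 0) + ζp 1 * (1 + nc N 1) + ζp 2 * (1 + nc N 2)) ≤ 1 := by
  have hb : ∀ k, 0 ≤ vv t k := fun k => vv_nonneg ht k
  have h3 : ∀ k, alP N ζp t * ζp k ≤ xx N (vv t) k := fun k =>
    alP_le hN hd hc hcol hζp (fun _ => le_rfl) ht k
  have h4 : ∀ k, alP N ζp t * ζp k * (1 + nc N k) ≤ xx N (vv t) k * (1 + nc N k) := fun k => by
    refine mul_le_mul_of_nonneg_right (h3 k) ?_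
    unfold nc
    have := hN 0 k
    have := hN 1 k
    have := hN 2 k
    linarith
  have f0 := xx_feas hN hc hcol hb 0
  have f1 := xx_feas hN hc hcol hb 1
  have f2 := xx_feas hN hc hcol hb 2
  have k3 := vv_sum t
  have k0 := h4 0
  have k1 := h4 1
  have k2 := h4 2
  unfold LN at f0 f1 f2
  unfold nc at k0 k1 k2 ⊢
  linarith

/-- **the apex dropped counts at most `s0`** -/
theorem alP_s0 {ζ ζp R : Fin 3 → ℝ} (hζp : ∀ k, 0 < ζp k) (hζ : ∀ k, ζ k ≤ ζp k)
    {s0 : ℝ} (hs : 0 ≤ s0) (hR0 : ∀ k, 0 ≤ R k) (hR : ∀ k, R k ≤ s0 * (1 + nc N k))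
    (h1 : s0 ≤ s0 * (ζ 0 * (1 + nc N 0) + ζ 1 * (1 + nc N 1) + ζ 2 * (1 + nc N 2)))
    {t : ℝ × ℝ} (ht : t ∈ Sim) :
    alP N ζp t * (s0 - (ζ 0 * R 0 + ζ 1 * R 1 + ζ 2 * R 2)) ≤ s0 := by
  have h0 := alP_nonneg (N := N) hζp t
  have key := mul_le_mul_of_nonneg_left (alP_sum hN hd hc hcol hζp ht) hs
  have e : ∀ k, ζ k * (s0 * (1 + nc N k) - R k) ≤ ζp k * (s0 * (1 + nc N k)) := fun k => by
    have a1 := mul_le_mul_of_nonneg_right (hζ k) (sub_nonneg.2 (hR k))
    have a2 := mul_nonneg (hζp k).le (hR0 k)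
    linarith
  have e0 := e 0
  have e1 := e 1
  have e2 := e 2
  have g : s0 - (ζ 0 * R 0 + ζ 1 * R 1 + ζ 2 * R 2) ≤
      s0 * (ζp 0 * (1 + nc N 0) + ζp 1 * (1 + nc N 1) + ζp 2 * (1 + nc N 2)) := by
    linarith
  have k5 := mul_le_mul_of_nonneg_left g h0
  linarith

/-- **no residual masses away from the walls** -/
theorem rr_wall {b : Fin 3 → ℝ} (hb : ∀ k, 0 ≤ b k) {j l k : Fin 3} (hjl : j ≠ l) (hjk : j ≠ k)
    (hlk : l ≠ k) (h1 : LN N b l ≤ b l) (h2 : LN N b j ≤ b j) (h3 : LN N b k ≤ b k) :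
    rr N b j = 0 ∧ rr N b l = 0 :=
  ⟨Pool.Agent.Helper55.Fill.rr_zero hN hc hcol hb hjl hjk hlk h1 h3,
    Pool.Agent.Helper55.Fill.rr_zero hN hc hcol hb hjl.symm hlk hjk h2 h3⟩

end abs

section body
variable {a : Fin 4 → E3} {σ : Measure (E3 × E3)} {K : Set E3} {S : Fin 4 → ℝ}
  {c : Fin 4 → E3} {z : Fin 4 → Fin 4 → E3} {l : Fin 3 → Bool → Bool → E3 × E3 → ℝ}

/-- **the value is at most a number `r ≥ S₀`, `r ≥ R`** -/
theorem val_uni (h : CN K σ a c) (v : Viol K a S) (hz : CV a K z)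
    (τ : Equiv.Perm (Fin 4)) {A' : ℝ} (hA' : 0 < A')
    {dE : Fin 3 → ℝ} {ρ β : Fin 3 → ℝ} (hρ : ∀ p, 0 < ρ p)
    (hMρ : ∀ p k, k ≠ p → MA σ a l τ p k ≤ ρ p)
    {N : Fin 3 → Fin 3 → ℝ} (hNd : N = NM (fun i => a (τ i)) (fun i j => z (τ i) (τ j)))
    {R : Fin 3 → ℝ} {ζ ζp : Fin 3 → ℝ} (hζp : ∀ k, 0 < ζp k) (hζ : ∀ k, ζ k ≤ ζp k)
    {φ lam : ℝ} (hφ : 0 < φ) (hl0 : 0 ≤ lam) (hl1 : lam ≤ 1 - φ)
    (hβ0 : ∀ p, 0 ≤ β p) (hβ1 : ∀ p, β p ≤ 1)
    (hK : ∀ p, β p * ρ p ≤ A' * Id (fun t => kap N (vv t) p))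
    (hF : ∀ p, (1 - β p) * ρ p ≤ φ * (A' * Id (flP (PN N) p)))
    {r : ℝ} (hr0 : 0 ≤ r) (hRr : ∀ k, R k ≤ r)
    (hs : S (τ 0) ≤ r * (ζ 0 * (1 + nc N 0) + ζ 1 * (1 + nc N 1) + ζ 2 * (1 + nc N 2)))
    (hE : ∀ p, aE σ a l (τ 0) (τ p.succ) - dE p ≤
      r * (MB σ a l τ p 0 + MB σ a l τ p 1 + MB σ a l τ p 2))
    {t : ℝ × ℝ} (ht : t ∈ Sim) :
    GM A' N ζ ζp lam (fun p t => φ * flP (PN N) p t) (fun p t => kap N (vv t) p) β
        (MB σ a l τ) (fun p => aE σ a l (τ 0) (τ p.succ) - dE p) R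
        (fun k => S (τ k.succ)) (S (τ 0)) t ≤ r := by
  have h' := h.perm τ
  have v' := viol_perm v τ
  have hz' := hz.perm τ
  have hN : ∀ k m, 0 ≤ N k m := fun k m => by
    rw [hNd]
    exact NM_nonneg h' v' hz' k m
  have hd : ∀ k, N k k = 0 := fun k => by
    rw [hNd]
    exact NM_diag k
  have hcol : ∀ m, nc N m ≤ 9 / 10 := fun m => by
    rw [hNd]
    exact nc_le h' v' hz' m
  have hc : (9 / 10 : ℝ) < 1 := by norm_num
  have hM0 : ∀ l' k, 0 ≤ MB σ a l τ l' k := fun l' k => MB_nonneg τ l' k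
  have hMl : ∀ p, MB σ a l τ p p = 0 := fun p => MB_diag τ p
  have hMB : ∀ p k, MB σ a l τ p k ≤ ρ p := fun p k => by
    unfold MB
    split_ifs with e
    · exact (hρ p).le
    · exact hMρ p k e
  have hS0 : ∀ k : Fin 3, 0 ≤ S (τ k.succ) := fun k => v.nn _
  have u1 : τ (Fin.succ 0) = τ 1 := rfl
  have u2 : τ (Fin.succ 1) = τ 2 := rfl
  have u3 : τ (Fin.succ 2) = τ 3 := rfl
  have nn : ∀ m, 0 ≤ nc N m := fun m => by
    unfold nc
    have := hN 0 m
    have := hN 1 m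
    have := hN 2 m
    linarith
  obtain ⟨d, hd'⟩ : ∃ d : Fin 3 → ℝ, ∀ k, d k = r * (1 + nc N k) - R k := ⟨_, fun _ => rfl⟩
  have ePT : ∀ k, PT N (fun m => S (τ m.succ) + r) k
      - (R k + PT N (fun m => S (τ m.succ)) k) = d k := by
    intro k
    rw [hd']
    unfold PT nc
    ring
  have hdr : ∀ k, r - R k ≤ d k := fun k => by
    rw [hd']
    have := mul_nonneg hr0 (nn k)
    linarith
  have hd0 : ∀ k, 0 ≤ d k := fun k => by
    have := hdr k
    have := hRr k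
    linarith
  have eS2 : ∀ p, S2 (fun k => PT N (fun m => S (τ m.succ) + r) k
      - (R k + PT N (fun m => S (τ m.succ)) k)) p = d 0 + d 1 + d 2 - d p := by
    intro p
    unfold S2
    simp only [ePT]
  have key := PV_price hN hd hc hcol hA' hφ hl0 hl1 hζp hβ0 hβ1 hK hF
    (δ := fun k => S (τ k.succ) + r) (v := fun k => R k + PT N (fun k => S (τ k.succ)) k)
    (e := S (τ 0) - (ζ 0 * R 0 + ζ 1 * R 1 + ζ 2 * R 2))
    (c := fun l' => (aE σ a l (τ 0) (τ l'.succ) - dE l') - (MB σ a l τ l' 0 * R 0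
      + MB σ a l τ l' 1 * R 1 + MB σ a l τ l' 2 * R 2))
    (r := fun l' => (aE σ a l (τ 0) (τ l'.succ) - dE l') + (MB σ a l τ l' 0 * S (τ 1)
      + MB σ a l τ l' 1 * S (τ 2) + MB σ a l τ l' 2 * S (τ 3)))
    (γ := fun p => d 0 + d 1 + d 2 - d p) (γ' := fun l' => S2 (fun k => S (τ k.succ) + r) l')
    (fun k => add_nonneg (hS0 k) hr0)
    (fun k => by
      have := ePT k
      have := hd0 k
      linarith)
    (Or.inr (by
      rw [ePT, ePT, ePT]
      have d0 := mul_le_mul_of_nonneg_right (hζ 0) (hd0 0)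
      have d1 := mul_le_mul_of_nonneg_right (hζ 1) (hd0 1)
      have d2 := mul_le_mul_of_nonneg_right (hζ 2) (hd0 2)
      have e0 := hd' 0
      have e1 := hd' 1
      have e2 := hd' 2
      have f0 : ζ 0 * d 0 = ζ 0 * (r * (1 + nc N 0) - R 0) := by rw [e0]
      have f1 : ζ 1 * d 1 = ζ 1 * (r * (1 + nc N 1) - R 1) := by rw [e1]
      have f2 : ζ 2 * d 2 = ζ 2 * (r * (1 + nc N 2) - R 2) := by rw [e2]
      linarith))
    (fun p => by
      have a0 := hd0 0
      have a1 := hd0 1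
      have a2 := hd0 2
      fin_cases p
      · simp only [Fin.zero_eta]; linarith
      · simp only [Fin.mk_one]; linarith
      · simp only [Fin.reduceFinMk]; linarith)
    (fun p => by
      have hEp := hE p
      have md := hMl p
      have b : ∀ k, MB σ a l τ p k * (r - R k) ≤ ρ p * (r - R k) := fun k =>
        mul_le_mul_of_nonneg_right (hMB p k) (sub_nonneg.2 (hRr k))
      have b' : ∀ k, ρ p * (r - R k) ≤ ρ p * d k := fun k =>
        mul_le_mul_of_nonneg_left (hdr k) (hρ p).le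
      have b0 := b 0
      have b1 := b 1
      have b2 := b 2
      have c0 := b' 0
      have c1 := b' 1
      have c2 := b' 2
      fin_cases p
      · simp only [Fin.zero_eta] at hEp md b0 b1 b2 c0 c1 c2 ⊢
        rw [md] at hEp ⊢
        linarith
      · simp only [Fin.mk_one] at hEp md b0 b1 b2 c0 c1 c2 ⊢
        rw [md] at hEp ⊢
        linarith
      · simp only [Fin.reduceFinMk] at hEp md b0 b1 b2 c0 c1 c2 ⊢
        rw [md] at hEp ⊢
        linarith)
    (fun p => (eS2 p).ge)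
    (fun p => by
      have d0 := hS0 0
      have d1 := hS0 1
      have d2 := hS0 2
      unfold S2
      fin_cases p
      · simp only [Fin.zero_eta]; linarith
      · simp only [Fin.mk_one]; linarith
      · simp only [Fin.reduceFinMk]; linarith)
    (fun p => Or.inr ⟨by
      have hEp := hE p
      have md := hMl p
      have m0 := mul_le_mul_of_nonneg_right (hMB p 0) (hS0 0)
      have m1 := mul_le_mul_of_nonneg_right (hMB p 1) (hS0 1)
      have m2 := mul_le_mul_of_nonneg_right (hMB p 2) (hS0 2)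
      have r0' := mul_le_mul_of_nonneg_right (hMB p 0) hr0
      have r1' := mul_le_mul_of_nonneg_right (hMB p 1) hr0
      have r2' := mul_le_mul_of_nonneg_right (hMB p 2) hr0
      rw [u1] at m0
      rw [u2] at m1
      rw [u3] at m2
      unfold S2
      beta_reduce
      rw [u1, u2, u3]
      fin_cases p
      · simp only [Fin.zero_eta] at hEp md m0 m1 m2 r0' r1' r2' ⊢
        rw [u1] at hEp
        rw [md] at hEp ⊢
        rw [u1]
        linarith
      · simp only [Fin.mk_one] at hEp md m0 m1 m2 r0' r1' r2' ⊢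
        rw [u2] at hEp
        rw [md] at hEp ⊢
        rw [u2]
        linarith
      · simp only [Fin.reduceFinMk] at hEp md m0 m1 m2 r0' r1' r2' ⊢
        rw [u3] at hEp
        rw [md] at hEp ⊢
        rw [u3]
        linarith, le_rfl⟩) ht
  rw [GM_PV]
  beta_reduce at key ⊢
  rw [u1, u2, u3] at key ⊢
  have e1 : ∀ k, vv t k = T3 t k := fun k => (T3_vv t k).symm
  rw [e1, e1, e1] at key
  have hT := T3_sum t
  have hT2 : T3 t 2 = 1 - T3 t 0 - T3 t 1 := by linarith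
  rw [hT2] at key ⊢
  linarith

end body

end Helper99.MEI
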