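import Pool.Agent.Helper99.MEI.WT6

/-!
# Project MEI (M2), track B: the cost of a face from three families of tables, third columns

`wcf_genX`: the cost `WCF` of a face for any third columns, premises on the dropped apex and on
the value majorants.
-/

set_option autoImplicit false

namespace Helper99.MEI

open Set Metric MeasureTheory Helper80.CW Helper82.CW Helper14.CW Helper93.MEI Helper78.MEI
open Helper82.M2 Helper14.MEI2 Pool.Agent.Helper52.MEI Pool.Agent.Helper73.MEI Helper41.MEI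
open Helper37.MEI Helper60.R8 Helper60.R9 Helper29.MEI
open Helper60.R7 (U U_pos jj ll T3_pos')
open Helper33.MEI (Dl M3 mt)
open Helper90.R8T (nw)
open Pool.Agent.Helper55.Sx (Sim)
open Pool.Agent.Helper55.Mass (LN LN_nonneg vv vv_nonneg vv_le Id)
open Pool.Agent.Helper55.Apex (nc vt_vv)
open Pool.Agent.Helper55.ApexP (PN alP alP_nonneg alP_zeta alP_le xx_mu mu_bal)
open Pool.Agent.Helper55.Fill (xx rr rr_nonneg xx_nonneg xx_le xx_feas)
open Pool.Agent.Helper73.MEI.SideP (flP flP_nonneg flP_zero flP_pair)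
open Pool.Agent.Helper73.MEI.ArCor
open Pool.Agent.Helper96.Kap (kap kap_nonneg kap_add)
open Pool.Agent.Helper31.SR
open Helper75.MEI2 (mu vt omT omT_nonneg omT_le omT_meas)
open scoped RealInnerProductSpace ENNReal

section body
variable {a : Fin 4 → E3} {σ : Measure (E3 × E3)} {K : Set E3} {S : Fin 4 → ℝ}
  {c : Fin 4 → E3} {z : Fin 4 → Fin 4 → E3} {l : Fin 3 → Bool → Bool → E3 × E3 → ℝ}

/-- the node values of a face -/
theorem xs_face (h : CN K σ a c) (v : Viol K a S) (hz : CV a K z)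
    (τ : Equiv.Perm (Fin 4)) {x : E3} (hxs : Qv a (τ 0) x = S (τ 0) ∨ S (τ 0) = 0)
    {N : Fin 3 → Fin 3 → ℝ} (hNd : N = NM (fun i => a (τ i)) (fun i j => z (τ i) (τ j)))
    {tt : Fin 3 → ℝ} (htt : ∀ k, nc N k ≤ tt k) : (∀ k, 0 ≤ Rv tt N k) ∧
      (Qv a (τ 0) x = S (τ 0) ∨ (S (τ 0) = 0 ∧ ∀ k, Rv tt N k = 0)) := by
  have h' := h.perm τ
  have v' := viol_perm v τ
  have hz' := hz.perm τ
  have hN : ∀ k m, 0 ≤ N k m := fun k m => by
    rw [hNd]
    exact NM_nonneg h' v' hz' k m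
  have nn : ∀ m, 0 ≤ nc N m := fun m => Pool.Agent.Helper73.MEI.SideP.nc_nonneg hN m
  have hdq0 : ∀ k, 0 ≤ dq (N (k + 1) k) (N (k + 2) k) := fun k => by
    unfold dq
    nlinarith [sq_nonneg (N (k + 1) k - N (k + 2) k), sq_nonneg (N (k + 1) k + N (k + 2) k),
      mul_nonneg (hN (k + 1) k) (hN (k + 2) k)]
  have htp : ∀ k, 0 < 1 + tt k / 2 := fun k => by
    have h1 := htt k
    have h2 := nn k
    linarith
  have R0 : ∀ k, 0 ≤ Rv tt N k := fun k => div_nonneg (hdq0 k) (htp k).le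
  refine ⟨R0, ?_⟩
  rcases hxs with h0 | h0
  · exact Or.inl h0
  · refine Or.inr ⟨h0, fun k => ?_⟩
    have h1 := (dom_VF h v hz τ hNd htt k).2.1
    rw [h0, div_le_iff₀ (pow_pos (htp k) 2), zero_mul] at h1
    have h2 : dq (N (k + 1) k) (N (k + 2) k) = 0 := le_antisymm h1 (hdq0 k)
    unfold Rv
    rw [h2, zero_div]

/-- the numbers of a corner of the body against its tables, any third columns -/
structure CN2 {ι : Type*} [Fintype ι] (C : CT ι) (a : Fin 4 → E3) (S : Fin 4 → ℝ)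
    (τ : Equiv.Perm (Fin 4)) (x : E3) (N : Fin 3 → Fin 3 → ℝ) (β : Fin 3 → ℝ)
    (φ ω η cN g V : ℝ) (wt : ι → ℝ) (μ : ι → ℕ → ℝ) (k : Fin 3) (b te pe : ℝ) : Prop where
  p0 : qq C.p0 ≤ prt (b3 (fun i => a (τ i)) x (jj k)) (b3 (fun i => a (τ i)) x (ll k))
  p1 : prt (b3 (fun i => a (τ i)) x (jj k)) (b3 (fun i => a (τ i)) x (ll k)) ≤ qq C.p1
  q0 : qq C.q0 * nc N k ≤ N (jj k) k
  q1 : N (jj k) k ≤ qq C.q1 * nc N k
  b0 : 0 ≤ b
  nb : NB C.P β φ (1 - φ) ω η cN g g V (S (τ 0))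
    (bet (Zd (2 / 3 * cN) (-bar (fun i => a (τ i)) 0 x) (b3 (fun i => a (τ i)) x))
      (b3 (fun i => a (τ i)) x (jj k)) (b3 (fun i => a (τ i)) x (ll k)))
    (nc N 0 + nc N 1 + nc N 2) b te pe
  te0 : 0 ≤ te
  pe0 : 0 ≤ pe
  w0 : ∀ e, 0 ≤ wt e
  w1 : ∑ e, wt e = 1
  st : (stc S τ N k b te pe).Le (fm wt fun e => mr (C.Q e).rows.length (μ e) (C.rs e))
  row : ∀ e, RowB (C.Q e) (μ e) (S (τ k.succ)) (S (τ (jj k).succ)) (S (τ (ll k).succ)) (S (τ 0))
  bt1 : bet (Zd (2 / 3 * cN) (-bar (fun i => a (τ i)) 0 x) (b3 (fun i => a (τ i)) x))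
      (b3 (fun i => a (τ i)) x (jj k)) (b3 (fun i => a (τ i)) x (ll k)) ≤ 1
  res : (∀ p, β p = 0) ∨ (nrk C.n1 C.As = true ∧ ∃ m, (nc N k ≤ m ∧
    nc N k + nc N (jj k) ≤ 2 * m ∧ nc N k + nc N (ll k) ≤ 2 * m) ∧ m * (1 - qq C.a) ≤ qq C.a)

/-- **THE COST OF A FACE FROM THREE FAMILIES OF TABLES**, any third columns, premises `hal`,
`hval` on the dropped apex and the value majorants -/
theorem wcf_genX {ι : Type*} [Fintype ι] [IsFiniteMeasure σ] (h : CN K σ a c)
    (v : Viol K a S) (hz : CV a K z) (τ : Equiv.Perm (Fin 4)) (hl : Lok a l)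
    {δ dE dm : Fin 3 → ℝ} (hδ : ∀ p, MA σ a l τ p p ≤ δ p) (hdE : ∀ p, 0 ≤ dE p)
    (hdm : ∀ p, 0 ≤ dm p) (hdd : ∀ p, δ p ^ 2 ≤ dE p * dm p)
    {ρ β : Fin 3 → ℝ} (hρ : ∀ p, 0 < ρ p)
    (hMρ : ∀ p k, k ≠ p → MA σ a l τ p k ≤ ρ p)
    {x : E3} (hx : x ∈ K) (hxs : Qv a (τ 0) x = S (τ 0) ∨ S (τ 0) = 0)
    {N : Fin 3 → Fin 3 → ℝ} (hNd : N = NM (fun i => a (τ i)) (fun i j => z (τ i) (τ j)))
    {tt : Fin 3 → ℝ} (htt : ∀ k, nc N k ≤ tt k)
    {A : ℕ} {A' : ℝ} (hA : (A : ℝ) / U = A') (hA' : 0 < A')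
    {φ : ℝ} (hφ : 0 < φ) (hφ1 : φ ≤ 1) (hβ0 : ∀ p, 0 ≤ β p) (hβ1 : ∀ p, β p ≤ 1)
    (hK : ∀ p, β p * ρ p ≤ A' * Id (fun t => kap N (vv t) p))
    (hF : ∀ p, (1 - β p) * ρ p ≤ φ * (A' * Id (flP (PN N) p)))
    {cN : ℝ} (hcN : ∀ m, nc N m ≤ cN) (hcN1 : cN ≤ 1 / 2)
    {s χ ω : ℝ} (hS : ∀ i, S i ≤ s) (hχ0 : 0 ≤ χ) (hχ : 3 / 2 + 2 * s ≤ χ ^ 2)
    (hω0 : 0 ≤ ω) (hω : (1 - ω) * χ ≤ 1)
    {η : ℝ} (hη0 : 0 ≤ η) (hη : ∀ p, dm p ≤ η * ρ p) {g : ℝ} (hg : 0 ≤ g)
    (hE : ∀ p, aE σ a l (τ 0) (τ p.succ) - dE p ≤ g * ρ p) {V : ℝ}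
    (hV : ∀ k : Fin 3, S (τ k.succ) ≤ V)
    {C : Fin 3 → CT ι} {c0 c1 hh : ℕ} (hC : ∀ k, (C k).OkG A c0 c1 hh)
    {wt : Fin 3 → ι → ℝ} {μ : Fin 3 → ι → ℕ → ℝ}
    {b te pe : Fin 3 → ℝ}
    (hk : ∀ k, CN2 (C k) a S τ x N β φ ω η cN g V (wt k) (μ k) k (b k) (te k) (pe k))
    (hal : ∀ k, ∀ ζp : Fin 3 → ℝ, (∀ k, 0 < ζp k) →
      (∀ k, zc (fun i => a (τ i)) N x k ≤ ζp k) → ∀ t ∈ Dl, T3 t (jj k) ≤ T3 t k →
      T3 t (ll k) ≤ T3 t k → ∀ L ∈ (C k).As, L.z = 0 →
      alP N ζp t * (S (τ 0) - (zc (fun i => a (τ i)) N x 0 * Rv tt N 0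
        + zc (fun i => a (τ i)) N x 1 * Rv tt N 1 + zc (fun i => a (τ i)) N x 2 * Rv tt N 2)) ≤
        S (τ 0) * (qq L.e0 * T3 t k + qq L.ex * T3 t (jj k) + qq L.ey * T3 t (ll k)))
    (hval : ∀ k, ∀ ζp : Fin 3 → ℝ, (∀ k, 0 < ζp k) →
      (∀ k, zc (fun i => a (τ i)) N x k ≤ ζp k) → ∀ lam, 0 ≤ lam → lam ≤ 1 - φ → ∀ t ∈ Dl,
      T3 t (jj k) ≤ T3 t k → T3 t (ll k) ≤ T3 t k → ∀ W ∈ (C k).Vs,
      GM A' N (zc (fun i => a (τ i)) N x) ζp lam (fun p t => φ * flP (PN N) p t)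
        (fun p t => kap N (vv t) p) β (MB σ a l τ)
        (fun p => aE σ a l (τ 0) (τ p.succ) - dE p) (Rv tt N)
        (fun k => S (τ k.succ)) (S (τ 0)) t ≤
      -(T3 t 0 * S (τ 1) + T3 t 1 * S (τ 2) + T3 t 2 * S (τ 3))
        + (W.k.ev (stc S τ N k (b k) (te k) (pe k)) * T3 t k
          + W.j.ev (stc S τ N k (b k) (te k) (pe k)) * T3 t (jj k)
          + W.l.ev (stc S τ N k (b k) (te k) (pe k)) * T3 t (ll k)))
    {Sm d0 d1 : ℝ} (hI : IsC Sm d0 d1) (hSm : ∀ k, S k ≤ Sm) (hd1 : 0 ≤ d1)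
    (hd3 : 3 * d1 * (1 + S (τ 0)) ≤ d0) (hc0 : (c0 : ℝ) / U ≤ d0) (hc1 : d1 ≤ (c1 : ℝ) / U)
    {X y M dj : ℝ} (hX : S (τ 0) + (S (τ 1) + S (τ 2) + S (τ 3)) ≤ X) (hX1 : X ≤ 1 / 10)
    (hh1 : (hh : ℝ) / U ≤ 1 / 100) (hj1 : 2 / 3 ≤ dj)
    (hj2 : 2 / 3 * cN + φ * (2 * ω + η + 2 / 3 * cN) ≤ dj) (hj3 : 2 * ω + η ≤ dj) (hj4 : dj ≤ 2)
    (hy : 0.2823 + A' * ((1 / 2 + dj) * (2 * ((hh : ℝ) / U)) + 1.134 * X) ≤ y)
    (hM : 0 ≤ M) (hMh : 1 ≤ M ^ 2 * (1 - 2 * ((hh : ℝ) / U)) ^ 3)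
    {cst : ℝ} (hcst : (√2)⁻¹ * ((∑ e, wt 0 e * ((C 0).Q e).W (μ 0 e))
      + (∑ e, wt 1 e * ((C 1).Q e).W (μ 1 e)) + (∑ e, wt 2 e * ((C 2).Q e).W (μ 2 e)))
      + 17 * ((hh : ℝ) / U) ^ 2 * M * y ≤ cst) :
    WCF A' σ a K l τ z S x N (Rv tt N) φ β dE dm cst := by
  intro ζp z1 z2 lam l1 l2
  have h' := h.perm τ
  have v' := viol_perm v τ
  have hz' := hz.perm τ
  have hN : ∀ k m, 0 ≤ N k m := fun k m => by
    rw [hNd]
    exact NM_nonneg h' v' hz' k m
  have hd : ∀ k, N k k = 0 := fun k => by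
    rw [hNd]
    exact NM_diag k
  have hcol : ∀ m, nc N m ≤ 9 / 10 := fun m => by
    rw [hNd]
    exact nc_le h' v' hz' m
  have hc : (9 / 10 : ℝ) < 1 := by norm_num
  have nn : ∀ m, 0 ≤ nc N m := fun m => Pool.Agent.Helper73.MEI.SideP.nc_nonneg hN m
  have F := xs_face h v hz τ hxs hNd htt
  have s0 : 0 ≤ S (τ 0) := v.nn _
  have cN0 : 0 ≤ cN := (nn 0).trans (hcN 0)
  have hV0 : 0 ≤ V := (v.nn _).trans (hV 0)
  have hRd : ∀ k, Rv tt N k ≤ RM (fun i => a (τ i)) (fun i j => z (τ i) (τ j)) k := fun k =>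
    (dom_VF h v hz τ hNd htt k).1
  have hU := U_pos
  have hh0 : 0 ≤ (hh : ℝ) / U := by positivity
  have hX0 : 0 ≤ X := by
    have := v.nn (τ 0)
    have := v.nn (τ 1)
    have := v.nn (τ 2)
    have := v.nn (τ 3)
    linarith
  have hE1 : ∀ p, (aE σ a l (τ 0) (τ p.succ) - dE p)
      - (MB σ a l τ p 0 * Rv tt N 0 + MB σ a l τ p 1 * Rv tt N 1
        + MB σ a l τ p 2 * Rv tt N 2) ≤ g * ρ p := by
    intro p
    have h1 := hE p
    have m0 := mul_nonneg (MB_nonneg (σ := σ) (a := a) (l := l) τ p 0) (F.1 0)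
    have m1 := mul_nonneg (MB_nonneg (σ := σ) (a := a) (l := l) τ p 1) (F.1 1)
    have m2 := mul_nonneg (MB_nonneg (σ := σ) (a := a) (l := l) τ p 2) (F.1 2)
    linarith
  have hy0 : 0 ≤ y := by
    have : 0 ≤ A' * ((1 / 2 + dj) * (2 * ((hh : ℝ) / U)) + 1.134 * X) := by
      have : 0 ≤ 1 / 2 + dj := by linarith
      positivity
    linarith
  have W := wcost_fam h v τ hI hSm hd1 hd3 hc0 hc1
    (G := GM A' N (zc (fun i => a (τ i)) N x) ζp lam (fun p t => φ * flP (PN N) p t)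
      (fun p t => kap N (vv t) p) β (MB σ a l τ)
      (fun p => aE σ a l (τ 0) (τ p.succ) - dE p) (Rv tt N)
      (fun k => S (τ k.succ)) (S (τ 0)))
    (D := DM A' N (zc (fun i => a (τ i)) N x) ζp lam (fun p t => φ * flP (PN N) p t)
      (fun p t => kap N (vv t) p) β (MB σ a l τ)
      (fun j => 1 / qM (fun i => a (τ i)) (fun i j => z (τ i) (τ j)) j)
      (fun p => Pool.Agent.Helper31.SR.am σ a l (τ 0) (τ p.succ) - dm p))
    (Q := fun k => (C k).Q) (n := fun k => (C k).ne) (hh := fun _ => hh)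
    (nf := fun k => nw (C k).a (C k).n1 (C k).nl) (fun k => (hC k).fam) (wt := wt)
    (fun k => (hk k).w0) (fun k => (hk k).w1) (lam := μ) (fun k e => (hk k).row e)
    ?_ (omT := omT y (4 * ((hh : ℝ) / U)) (4 * ((hh : ℝ) / U)) (4 * ((hh : ℝ) / U))
      ((hh : ℝ) / U)) (CT := 6 * y) (cT := 17 * ((hh : ℝ) / U) ^ 2 * M * y)
    (omT_meas _ _ _ _ _).aestronglyMeasurable
    (fun t _ => omT_nonneg hy0 (by linarith) (by linarith) (by linarith) _ t)
    (fun t _ => omT_le hy0 _ _ _ _ t)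
    (omTB_int hy0 hh0 (by linarith) hM hMh) ?_
  · rw [hA] at W
    exact W.mono hcst
  · -- the loads
    intro k t ht hk1 hk2 htp q hq hG
    have Hk := hk k
    have Ck := hC k
    have x0 : 0 ≤ T3 t (jj k) := (T3_pos' ht _).le
    have y0 : 0 ≤ T3 t (ll k) := (T3_pos' ht _).le
    have z0 : 0 ≤ T3 t k := (T3_pos' ht _).le
    have hsum := jl_sum k (T3 t)
    have hsum1 : T3 t 0 + T3 t 1 + T3 t 2 = 1 := T3_sum t
    have htS := Dl_Sim ht
    have hbt : 0 ≤ bet (Zd (2 / 3 * cN) (-bar (fun i => a (τ i)) 0 x)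
      (b3 (fun i => a (τ i)) x)) (b3 (fun i => a (τ i)) x (jj k))
      (b3 (fun i => a (τ i)) x (ll k)) := bet_nonneg _ _ _
    refine loads_fam h v hz τ hA' hl hδ hdE hdm hdd hρ hMρ hx hNd hRd F.2 rfl z1
      z2 hφ l1 l2 hβ0 hβ1 hK hF hcN hcN1 hS hχ0 hχ hω0 hω hη0 hη hE hg hg hE1 hV0 hV k Hk.p0 Hk.p1 Hk.q0 Hk.q1
      (Hk.nb.le l2 hbt s0) (As := (C k).As) (Vs := (C k).Vs) (rs := (C k).rs) Ck.tab Ck.pos
      Hk.w0 Hk.w1 (fun e i => (Hk.row e).h0 i) (fun e => (Hk.row e).h1) Hk.st ht ?_ ?_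
      Ck.fam.ne ?_ hq
    · exact fun L hL hz0 => hal k ζp z1 z2 t ht hk1 hk2 L hL hz0
    · intro a0 b0 ha0 hb0 li hli
      rcases nw_cases hli with hc1 | ⟨hc1, hc2, hc3⟩
      · refine ⟨fun e => lt_of_lt_of_le (lt_of_lt_of_le hc1 Ck.n1l) (Ck.nls e), ?_⟩
        rcases Hk.res with hr | ⟨hr, -⟩
        · exact Or.inl hr
        · right
          have g1 := qq_ge_one (nrk_iff hr hc1)
          have key : ∀ m, rr N (vv t) m ≤ T3 t m := fun m => by
            have x1 := xx_nonneg hN hc hcol (fun k => vv_nonneg htS k) m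
            have x2 := LN_nonneg hN (xx_nonneg hN hc hcol (fun k => vv_nonneg htS k)) m
            have x3 : vv t m = T3 t m := (T3_vv t m).symm
            unfold rr
            linarith
          have b2 := mul_le_mul_of_nonneg_right g1 x0
          have b3 := mul_le_mul_of_nonneg_right g1 y0
          constructor
          · linarith [key (jj k)]
          · linarith [key (ll k)]
      · refine ⟨fun e => lt_of_lt_of_le hc1 (Ck.nls e), ?_⟩
        rcases Hk.res with hr | ⟨-, m, ⟨m1, m2, m3⟩, m4⟩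
        · exact Or.inl hr
        · right
          have ha : qq (C k).a ≤ T3 t (jj k) ∧ qq (C k).a ≤ T3 t (ll k) := by
            rw [qq_U]
            constructor
            · refine le_trans (div_le_div_of_nonneg_right ?_ hU.le) ha0
              exact_mod_cast hc2
            · refine le_trans (div_le_div_of_nonneg_right ?_ hU.le) hb0
              exact_mod_cast hc3
          have hm0 : 0 ≤ m := (nn k).trans m1
          have ev : ∀ m, vv t m = T3 t m := fun m => (T3_vv t m).symm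
          obtain ⟨n1, n2, n3⟩ := jl_ne k
          have eLN : ∀ i : Fin 3, LN N (vv t) i =
              N i k * T3 t k + N i (jj k) * T3 t (jj k) + N i (ll k) * T3 t (ll k) := by
            intro i
            have := jl_sum k (fun m => N i m * T3 t m)
            unfold LN
            rw [ev, ev, ev]
            linarith
          have ent : ∀ i m : Fin 3, N i m ≤ nc N m := by
            intro i m
            have a0 := hN 0 m
            have a1 := hN 1 m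
            have a2 := hN 2 m
            unfold nc
            fin_cases i
            · show N 0 m ≤ N 0 m + N 1 m + N 2 m
              linarith
            · show N 1 m ≤ N 0 m + N 1 m + N 2 m
              linarith
            · show N 2 m ≤ N 0 m + N 1 m + N 2 m
              linarith
          have hkk : LN N (vv t) k ≤ vv t k := by
            rw [eLN, hd k, ev]
            have a1 := (ent k (jj k)).trans (hcN (jj k))
            have a2 := (ent k (ll k)).trans (hcN (ll k))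
            have b1 := mul_le_mul (a1.trans hcN1) hk1 x0 (by norm_num)
            have b2 := mul_le_mul (a2.trans hcN1) hk2 y0 (by norm_num)
            linarith
          have side : ∀ i j' : Fin 3, N i i = 0 → nc N k + nc N j' ≤ 2 * m →
              T3 t k + T3 t i + T3 t j' = 1 → 0 ≤ T3 t j' → T3 t j' ≤ T3 t k →
              qq (C k).a ≤ T3 t i →
              N i k * T3 t k + N i j' * T3 t j' ≤ T3 t i := by
            intro i j' hii hmj hs hj0 hjk hai
            have a1 := mul_le_mul_of_nonneg_right (ent i k) z0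
            have a2 := mul_le_mul_of_nonneg_right (ent i j') hj0
            -- `n_k z + n_j y ≤ m (z + y)`
            have a3 : nc N k * T3 t k + nc N j' * T3 t j' ≤ m * (T3 t k + T3 t j') := by
              have c1 := mul_nonneg (sub_nonneg.2 m1) (sub_nonneg.2 hjk)
              have c2 := mul_le_mul_of_nonneg_right hmj hj0
              linarith
            have a4 : m * (T3 t k + T3 t j') ≤ m * (1 - qq (C k).a) :=
              mul_le_mul_of_nonneg_left (by linarith) hm0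
            linarith
          have hjj : LN N (vv t) (jj k) ≤ vv t (jj k) := by
            rw [eLN, hd (jj k), ev]
            have := side (jj k) (ll k) (hd _) m3 (by linarith) y0 hk2 ha.1
            linarith
          have hll : LN N (vv t) (ll k) ≤ vv t (ll k) := by
            rw [eLN, hd (ll k), ev]
            have := side (ll k) (jj k) (hd _) m2 (by linarith) x0 hk1 ha.2
            linarith
          obtain ⟨r1, r2⟩ := rr_wall hN hd hc hcol (fun k => vv_nonneg htS k) n3 n1.symm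
            n2.symm hll hjj hkk
          rw [r1, r2]
          exact ⟨mul_nonneg (qq_nonneg _) x0, mul_nonneg (qq_nonneg _) y0⟩
    · exact fun W0 hW0 => hval k ζp z1 z2 lam l1 l2 t ht hk1 hk2 W0 hW0
  · -- the tip
    intro k t ht ha hb hk1 hk2 q hq hXq hG
    rcases eq_or_lt_of_le hh0 with h0 | h0
    · rw [← h0] at ha
      exact absurd ha (not_le.2 (T3_pos' ht _))
    have x0 : 0 ≤ T3 t (jj k) := (T3_pos' ht _).le
    have y0 : 0 ≤ T3 t (ll k) := (T3_pos' ht _).le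
    have htS := Dl_Sim ht
    obtain ⟨n1, n2, n3⟩ := jl_ne k
    have ev : ∀ m, vv t m = T3 t m := fun m => (T3_vv t m).symm
    have hbt : 0 ≤ bet (Zd (2 / 3 * cN) (-bar (fun i => a (τ i)) 0 x)
      (b3 (fun i => a (τ i)) x)) (b3 (fun i => a (τ i)) x (jj k))
      (b3 (fun i => a (τ i)) x (ll k)) := bet_nonneg _ _ _
    have hB : lam / 2 * bet (Zd (2 / 3 * cN) (-bar (fun i => a (τ i)) 0 x)
      (b3 (fun i => a (τ i)) x)) (b3 (fun i => a (τ i)) x (jj k))
      (b3 (fun i => a (τ i)) x (ll k)) ≤ 1 / 2 := by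
      have b1 := mul_le_mul_of_nonneg_left (hk k).bt1 (show 0 ≤ lam / 2 by linarith)
      linarith
    have hrr : ∀ m, rr N (vv t) m ≤ 1 * vv t m := fun m => by
      have x1 := xx_nonneg hN hc hcol (fun k => vv_nonneg htS k) m
      have x2 := LN_nonneg hN (xx_nonneg hN hc hcol (fun k => vv_nonneg htS k)) m
      unfold rr
      linarith
    have lk := loadT h v hz τ hA' hl hδ hdE hdm hdd hρ hMρ hx hNd hRd F.2 rfl z1
      z2 hφ l1 l2 hβ0 hβ1 hK hF (θZ := 1) (θA := 1) (by norm_num) le_rfl (by norm_num) le_rfl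
      (κ := 2 / 3) (hh := 0) (Or.inl ⟨rfl, rfl⟩) hcN hcN1 hS hχ0 hχ hω0 hω hη0 hη
      (Ca := φ * (2 * ω + η + 2 / 3 * cN)) (Cr := 2 * ω + η) (by
        refine le_of_eq ?_
        ring) (by linarith) (Or.inr le_rfl) hE hg (g1 := g)
      hg hE1 hV0 hV (Cer := g + 2 * V) (by linarith) (Or.inr le_rfl) htS
      (i := k) (j := jj k) (k := ll k) n1 n2 n3 (w := 0) (ox := 1) (oy := 1) (ax := 1)
      (ay := 1) (ν := 1) (Dk := 0) (Dj := 1 / 2 + dj) (Dl := 1 / 2 + dj) le_rfl zero_le_one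
      zero_le_one (by
        have e := jl_sum k (fun m => N m k)
        have := hd k
        unfold nc
        linarith) (B := lam / 2 * bet (Zd (2 / 3 * cN) (-bar (fun i => a (τ i)) 0 x)
          (b3 (fun i => a (τ i)) x)) (b3 (fun i => a (τ i)) x (jj k))
          (b3 (fun i => a (τ i)) x (ll k))) (by ring) zero_le_one zero_le_one
      (Or.inr (by
        refine le_of_eq ?_
        ring)) (by linarith) (by linarith) (by
        have := hcN (jj k)
        linarith) (by linarith) (by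
        have := hcN (ll k)
        linarith) (ta := 0) (e0 := 0) (ex := 0) (ey := 0) (r := 0) (Xk := 0) (Xj := 0)
      (Xl := 0) le_rfl zero_le_one (Or.inl rfl) (by simp) (by simp) (by simp) (by simp)
      (by simp) (Or.inr ⟨zero_le_one, le_rfl, hrr _, hrr _, by linarith, by linarith,
        by linarith, by linarith, by simp, by simp, by simp, by simp⟩) hq
    rw [ev, ev, ev] at lk
    have tw := tip_wcB h v τ hA'.le hX hX1 h0 hh1
      (dT := (1 / 2 + dj) * (2 * ((hh : ℝ) / U)))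
      (mul_nonneg (by linarith) (by linarith)) (by nlinarith) hy
      (C := fun _ => 4 * ((hh : ℝ) / U)) (fun _ => le_rfl) ht (k := k) (fun j hj => by
        rcases jl_cases hj with e | e
        · rw [e]
          exact ha
        · rw [e]
          exact hb) hq
      (G := GM A' N (zc (fun i => a (τ i)) N x) ζp lam (fun p t => φ * flP (PN N) p t)
        (fun p t => kap N (vv t) p) β (MB σ a l τ)
        (fun p => aE σ a l (τ 0) (τ p.succ) - dE p) (Rv tt N)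
        (fun k => S (τ k.succ)) (S (τ 0)) t)
      (D := 0 * T3 t k + (1 / 2 + dj) * T3 t (jj k) + (1 / 2 + dj) * T3 t (ll k)) (by
        have b1 := mul_le_mul_of_nonneg_left ha (show 0 ≤ 1 / 2 + dj by linarith)
        have b2 := mul_le_mul_of_nonneg_left hb (show 0 ≤ 1 / 2 + dj by linarith)
        linarith) hXq (by
        have e : (0 * T3 t k + 0 * T3 t (jj k) + 0 * T3 t (ll k) : ℝ) = 0 := by ring
        rw [e] at lk
        linarith)
    rw [hA]
    exact tw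

end body

end Helper99.MEI
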